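import Pool.Agent.Lib.MP_6d56f7_co_FR.Defs

set_option autoImplicit false
set_option linter.unusedSectionVars false

/-! Basic facts on finite product spaces: `Ex`, `Pr`. -/

namespace Pool.Agent.Lib.FR

open Finset

variable {I S : Type} [Fintype I] [DecidableEq I] [Fintype S]

/-- expectation of a product of functions of the coordinates -/
theorem Ex_prod (q : S → ℝ) (φ : I → S → ℝ) :
    Ex q (fun s : I → S => ∏ i, φ i (s i)) = ∏ i, ∑ a, q a * φ i a := by
  unfold Ex
  rw [Finset.prod_univ_sum]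
  rw [Fintype.piFinset_univ]
  exact Finset.sum_congr rfl (fun s _ => by rw [Finset.prod_mul_distrib])

theorem Ex_mono {q : S → ℝ} (hq : ∀ a, 0 ≤ q a) {F G : (I → S) → ℝ} (h : ∀ s, F s ≤ G s) :
    Ex q F ≤ Ex q G :=
  Finset.sum_le_sum fun s _ =>
    mul_le_mul_of_nonneg_left (h s) (Finset.prod_nonneg fun i _ => hq _)

theorem Ex_nonneg {q : S → ℝ} (hq : ∀ a, 0 ≤ q a) {F : (I → S) → ℝ} (h : ∀ s, 0 ≤ F s) :
    0 ≤ Ex q F :=
  Finset.sum_nonneg fun s _ => mul_nonneg (Finset.prod_nonneg fun i _ => hq _) (h s)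

theorem Ex_add (q : S → ℝ) (F G : (I → S) → ℝ) :
    Ex q (fun s => F s + G s) = Ex q F + Ex q G := by
  simp only [Ex, mul_add, Finset.sum_add_distrib]

theorem Ex_sub (q : S → ℝ) (F G : (I → S) → ℝ) :
    Ex q (fun s => F s - G s) = Ex q F - Ex q G := by
  simp only [Ex, mul_sub, Finset.sum_sub_distrib]

theorem Ex_mul_left (q : S → ℝ) (r : ℝ) (F : (I → S) → ℝ) :
    Ex q (fun s => r * F s) = r * Ex q F := by
  simp only [Ex, Finset.mul_sum]
  exact Finset.sum_congr rfl fun s _ => by ring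

theorem Ex_mul_right (q : S → ℝ) (r : ℝ) (F : (I → S) → ℝ) :
    Ex q (fun s => F s * r) = Ex q F * r := by
  simp only [Ex, Finset.sum_mul]
  exact Finset.sum_congr rfl fun s _ => by ring

theorem Ex_sum {κ : Type} (q : S → ℝ) (T : Finset κ) (F : κ → (I → S) → ℝ) :
    Ex q (fun s => ∑ k ∈ T, F k s) = ∑ k ∈ T, Ex q (F k) := by
  simp only [Ex, Finset.mul_sum]
  exact Finset.sum_comm

/-- the total mass is one -/
theorem sum_wt {q : S → ℝ} (hq1 : ∑ a, q a = 1) : ∑ s : I → S, ∏ i, q (s i) = 1 := by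
  have h := Ex_prod (I := I) q (fun _ _ => 1)
  simpa [Ex, hq1] using h

theorem Ex_const {q : S → ℝ} (hq1 : ∑ a, q a = 1) (r : ℝ) :
    Ex q (fun _ : I → S => r) = r := by
  rw [Ex, ← Finset.sum_mul, sum_wt hq1, one_mul]

/-- a function of one coordinate -/
theorem Ex_coord {q : S → ℝ} (hq1 : ∑ a, q a = 1) (i : I) (f : S → ℝ) :
    Ex q (fun s : I → S => f (s i)) = ∑ a, q a * f a := by
  have h := Ex_prod (I := I) q (fun j a => if j = i then f a else 1)
  rw [Finset.prod_eq_single i] at h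
  · simp only [Finset.prod_ite_eq', Finset.mem_univ, if_true, if_pos rfl] at h
    exact h
  · intro j _ hj
    simp [hj, hq1]
  · intro h; exact absurd (Finset.mem_univ _) h

/-- push forward under a map of the state space -/
theorem Ex_map {S' : Type} [Fintype S'] [DecidableEq S'] (q : S → ℝ) (f : S → S')
    (F : (I → S') → ℝ) :
    Ex q (fun s : I → S => F (fun i => f (s i))) =
      Ex (fun b => ∑ a, if f a = b then q a else 0) F := by
  classical
  unfold Ex
  have h1 : ∀ t : I → S', (∏ i, ∑ a, if f a = t i then q a else 0) =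
      ∑ s : I → S, if (fun i => f (s i)) = t then ∏ i, q (s i) else 0 := by
    intro t
    rw [Finset.prod_univ_sum, Fintype.piFinset_univ]
    refine Finset.sum_congr rfl fun s _ => ?_
    split_ifs with h
    · exact Finset.prod_congr rfl fun i _ => by rw [if_pos (congrFun h i)]
    · have : ∃ i, f (s i) ≠ t i := by
        by_contra hc
        push Not at hc
        exact h (funext hc)
      obtain ⟨i, hi⟩ := this
      exact Finset.prod_eq_zero (Finset.mem_univ i) (if_neg hi)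
  simp only [h1, Finset.sum_mul]
  rw [Finset.sum_comm]
  refine Finset.sum_congr rfl fun s _ => ?_
  rw [Finset.sum_eq_single (fun i => f (s i))]
  · simp
  · intro t _ ht
    rw [if_neg (Ne.symm ht), zero_mul]
  · intro h; exact absurd (Finset.mem_univ _) h

theorem Pr_eq (q : S → ℝ) (A : (I → S) → Prop) [DecidablePred A] :
    Pr q A = Ex q (fun s => if A s then 1 else 0) := by
  unfold Pr Ex
  refine Finset.sum_congr rfl fun s _ => ?_
  congr 1
  by_cases h : A s
  · simp only [if_pos h]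
  · simp only [if_neg h]

theorem Pr_nonneg {q : S → ℝ} (hq : ∀ a, 0 ≤ q a) (A : (I → S) → Prop) : 0 ≤ Pr q A := by
  classical
  rw [Pr_eq]
  exact Ex_nonneg hq fun s => by split_ifs <;> norm_num

theorem Pr_le_Ex {q : S → ℝ} (hq : ∀ a, 0 ≤ q a) {A : (I → S) → Prop} {F : (I → S) → ℝ}
    (h0 : ∀ s, 0 ≤ F s) (h : ∀ s, A s → 1 ≤ F s) : Pr q A ≤ Ex q F := by
  classical
  rw [Pr_eq]
  refine Ex_mono hq fun s => ?_
  split_ifs with hs
  · exact h s hs
  · exact h0 s

theorem Pr_mono {q : S → ℝ} (hq : ∀ a, 0 ≤ q a) {A B : (I → S) → Prop} (h : ∀ s, A s → B s) :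
    Pr q A ≤ Pr q B := by
  classical
  rw [Pr_eq q B]
  refine Pr_le_Ex hq (fun s => by split_ifs <;> norm_num) fun s hs => ?_
  rw [if_pos (h s hs)]

theorem Pr_le_one {q : S → ℝ} (hq : ∀ a, 0 ≤ q a) (hq1 : ∑ a, q a = 1) (A : (I → S) → Prop) :
    Pr q A ≤ 1 := by
  have h := Pr_le_Ex (I := I) hq (A := A) (F := fun _ => 1) (fun _ => zero_le_one)
    (fun _ _ => le_refl _)
  rwa [Ex_const hq1] at h

theorem Pr_not {q : S → ℝ} (hq1 : ∑ a, q a = 1) (A : (I → S) → Prop) :
    Pr q (fun s => ¬ A s) = 1 - Pr q A := by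
  classical
  have h : Pr q (fun s => ¬ A s) + Pr q A = 1 := by
    rw [Pr_eq, Pr_eq, ← Ex_add]
    refine Eq.trans ?_ (Ex_const (I := I) hq1 1)
    congr 1
    funext s
    by_cases hs : A s
    · simp only [if_pos hs, if_neg (not_not.2 hs)]; norm_num
    · simp only [if_neg hs, if_pos hs]; norm_num
  linarith

theorem Pr_or {q : S → ℝ} (hq : ∀ a, 0 ≤ q a) (A B : (I → S) → Prop) :
    Pr q (fun s => A s ∨ B s) ≤ Pr q A + Pr q B := by
  classical
  rw [Pr_eq q A, Pr_eq q B, ← Ex_add]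
  refine Pr_le_Ex hq (fun s => by split_ifs <;> norm_num) fun s hs => ?_
  rcases hs with hs | hs
  · rw [if_pos hs]
    split_ifs <;> norm_num
  · rw [if_pos hs]
    split_ifs <;> norm_num

theorem Pr_exists {κ : Type} {q : S → ℝ} (hq : ∀ a, 0 ≤ q a) (T : Finset κ)
    (A : κ → (I → S) → Prop) :
    Pr q (fun s => ∃ k ∈ T, A k s) ≤ ∑ k ∈ T, Pr q (A k) := by
  classical
  simp only [Pr_eq q (A _), ← Ex_sum]
  refine Pr_le_Ex hq (fun s => Finset.sum_nonneg fun k _ => by split_ifs <;> norm_num)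
    fun s hs => ?_
  obtain ⟨k, hk, hs⟩ := hs
  calc (1 : ℝ) = if A k s then 1 else 0 := by rw [if_pos hs]
    _ ≤ _ := Finset.single_le_sum (f := fun k => if A k s then (1 : ℝ) else 0)
        (fun k _ => by split_ifs <;> norm_num) hk

/-- Markov's inequality -/
theorem Pr_markov {q : S → ℝ} (hq : ∀ a, 0 ≤ q a) {A : (I → S) → Prop} {F : (I → S) → ℝ}
    {g : ℝ} (hg : 0 < g) (h0 : ∀ s, 0 ≤ F s) (h : ∀ s, A s → g ≤ F s) :
    Pr q A ≤ Ex q F / g := by
  have h1 := Pr_le_Ex (I := I) hq (A := A) (F := fun s => g⁻¹ * F s)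
    (fun s => mul_nonneg (inv_nonneg.2 hg.le) (h0 s))
    (fun s hs => by
      rw [← div_eq_inv_mul, le_div_iff₀ hg, one_mul]
      exact h s hs)
  rw [Ex_mul_left] at h1
  rwa [div_eq_inv_mul]

/-- the weights of the three states are a probability vector -/
theorem qq_nonneg {pm pp : ℝ} (h0 : 0 ≤ pm) (h1 : pm ≤ pp) (h2 : pp ≤ 1) (a : Fin 3) :
    0 ≤ qq pm pp a := by
  fin_cases a
  · simpa [qq] using h2
  · simpa [qq] using h1
  · simpa [qq] using h0

theorem qq_sum (pm pp : ℝ) : ∑ a, qq pm pp a = 1 := by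
  simp [qq, Fin.sum_univ_three]

/-- the probability that a coordinate belongs to the small system -/
theorem qq_two (pm pp : ℝ) (f : Prop → ℝ) :
    ∑ a : Fin 3, qq pm pp a * f (a = 2) = (1 - pm) * f False + pm * f True := by
  simp [qq, Fin.sum_univ_three]
  ring

/-- the probability that a coordinate belongs to the large system -/
theorem qq_ne_zero (pm pp : ℝ) (f : Prop → ℝ) :
    ∑ a : Fin 3, qq pm pp a * f (a ≠ 0) = (1 - pp) * f False + pp * f True := by
  simp [qq, Fin.sum_univ_three]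
  ring

theorem mem_LL {n : ℕ} {P : Fin 3 → Prop} [DecidablePred P] {s : J n → Fin 3}
    {u v : Fin (2 * n)} {c : Fin (2 * n - 1)} :
    c ∈ LL n P s u v ↔ ∃ h : ¬ (s(u, v) : Sym2 (Fin (2 * n))).IsDiag, P (s (c, ⟨s(u, v), h⟩)) := by
  simp [LL]

theorem ker_LL (n : ℕ) (P : Fin 3 → Prop) [DecidablePred P] (s : J n → Fin 3) :
    Ker (LL n P s) := by
  constructor
  · intro u v
    ext c
    rw [mem_LL, mem_LL]
    have h : (s(u, v) : Sym2 (Fin (2 * n))) = s(v, u) := Sym2.eq_swap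
    constructor
    · rintro ⟨h1, h2⟩
      refine ⟨h ▸ h1, ?_⟩
      have : (⟨s(v, u), h ▸ h1⟩ : Edge (Fin (2 * n))) = ⟨s(u, v), h1⟩ := Subtype.ext h.symm
      rw [this]; exact h2
    · rintro ⟨h1, h2⟩
      refine ⟨h.symm ▸ h1, ?_⟩
      have : (⟨s(u, v), h.symm ▸ h1⟩ : Edge (Fin (2 * n))) = ⟨s(v, u), h1⟩ := Subtype.ext h
      rw [this]; exact h2
  · intro v
    ext c
    rw [mem_LL]
    simp

theorem Lm_subset_Lp (n : ℕ) (s : J n → Fin 3) (u v : Fin (2 * n)) :
    Lm n s u v ⊆ Lp n s u v := by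
  intro c hc
  rw [mem_LL] at hc ⊢
  obtain ⟨h1, h2⟩ := hc
  exact ⟨h1, by rw [h2]; decide⟩

section Mono

variable {V C : Type} [Fintype V] [DecidableEq V] [Fintype C] [DecidableEq C]

theorem SL_mono {L L' : V → V → Finset C} (h : ∀ u v, L u v ⊆ L' u v) (x : V → C → ℝ)
    (y : V → V → ℝ) : SL L x y ≤ SL L' x y :=
  Finset.sum_le_sum fun u _ => Finset.sum_le_sum fun v _ =>
    Finset.sum_le_sum_of_subset_of_nonneg (h u v) fun _ _ _ => abs_nonneg _

theorem dP_mono {L L' : V → V → Finset C} (h : ∀ u v, L u v ⊆ L' u v) (v : V) (c : C) :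
    dP L v c ≤ dP L' v c :=
  Finset.card_le_card fun u hu => by
    simp only [Finset.mem_filter, Finset.mem_univ, true_and] at hu ⊢
    exact h u v hu

theorem Sparse.mono {ε θ d : ℝ} {L L' : V → V → Finset C} (h : ∀ u v, L u v ⊆ L' u v)
    (hS : Sparse ε θ d L') : Sparse ε θ d L := by
  constructor
  · intro v A Y hA
    refine le_trans ?_ (hS.row v A Y hA)
    exact_mod_cast Finset.card_le_card fun p hp => by
      simp only [Finset.mem_filter] at hp ⊢
      exact ⟨hp.1, h _ _ hp.2⟩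
  · intro c A Y hA
    refine le_trans ?_ (hS.col c A Y hA)
    exact_mod_cast Finset.card_le_card fun p hp => by
      simp only [Finset.mem_filter] at hp ⊢
      exact ⟨hp.1, h _ _ hp.2⟩

theorem MaxDeg.mono {D : ℝ} {L L' : V → V → Finset C} (h : ∀ u v, L u v ⊆ L' u v)
    (hM : MaxDeg D L') : MaxDeg D L := by
  constructor
  · intro u v
    refine le_trans ?_ (hM.edge u v)
    exact_mod_cast Finset.card_le_card (h u v)
  · intro v c
    refine le_trans ?_ (hM.pair v c)
    exact_mod_cast dP_mono h v c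

end Mono

end Pool.Agent.Lib.FR
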