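import Mathlib

/-!
# Asymptotics for the hitting time theorem
-/

set_option autoImplicit false

namespace Pool.Agent.Lib.FR.Asy

open Filter Topology

theorem log_top : Tendsto (fun n : ℕ => Real.log n) atTop atTop :=
  Real.tendsto_log_atTop.comp tendsto_natCast_atTop_atTop

theorem base (C : ℝ) (k : ℕ) {a : ℝ} (ha : 0 < a) :
    Tendsto (fun n : ℕ => C * (Real.log n) ^ k * Real.exp (-(a * Real.log n))) atTop (𝓝 0) := by
  have h1 := (Real.tendsto_pow_mul_exp_neg_atTop_nhds_zero k).comp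
    (log_top.const_mul_atTop ha)
  have h2 := h1.const_mul (C / a ^ k)
  rw [mul_zero] at h2
  refine h2.congr fun n => ?_
  simp only [Function.comp_apply]
  rw [mul_pow]
  field_simp

/-- eventually bounded by a basic null sequence -/
theorem squeeze {f : ℕ → ℝ} (C : ℝ) (k : ℕ) {a : ℝ} (ha : 0 < a) (h0 : ∀ᶠ n in atTop, 0 ≤ f n)
    (h : ∀ᶠ n : ℕ in atTop, f n ≤ C * (Real.log n) ^ k * Real.exp (-(a * Real.log n))) :
    Tendsto f atTop (𝓝 0) :=
  squeeze_zero' h0 h (base C k ha)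

theorem log_le (n : ℕ) : Real.log n ≤ n := by
  rcases Nat.eq_zero_or_pos n with h | h
  · simp [h]
  · have := Real.log_le_sub_one_of_pos (by exact_mod_cast h : (0 : ℝ) < n)
    linarith

theorem log_div : Tendsto (fun n : ℕ => Real.log n / n) atTop (𝓝 0) := by
  have h := Real.isLittleO_log_id_atTop.tendsto_div_nhds_zero
  exact h.comp tendsto_natCast_atTop_atTop

theorem ev_log (K : ℝ) : ∀ᶠ n : ℕ in atTop, K ≤ Real.log n := log_top.eventually_ge_atTop K

theorem ev_nat (K : ℝ) : ∀ᶠ n : ℕ in atTop, K ≤ (n : ℝ) :=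
  tendsto_natCast_atTop_atTop.eventually_ge_atTop K

theorem ev_ratio {e : ℝ} (he : 0 < e) : ∀ᶠ n : ℕ in atTop, Real.log n ≤ e * n := by
  filter_upwards [log_div.eventually (gt_mem_nhds he), ev_nat 1] with n h1 h2
  have h3 : (0 : ℝ) < n := by linarith
  have h4 : Real.log n / n < e := h1
  rw [div_lt_iff₀ h3] at h4
  exact h4.le

theorem nat_eq {n : ℕ} (h : (1 : ℝ) ≤ n) : (n : ℝ) = Real.exp (Real.log n) :=
  (Real.exp_log (by linarith)).symm

/-- the bound for the bulk -/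
theorem t1 {η : ℝ} (hη : 0 < η) :
    Tendsto (fun n : ℕ => 100 / (η * √(2 * Real.log n))) atTop (𝓝 0) := by
  refine Tendsto.const_div_atTop ?_ 100
  refine Tendsto.const_mul_atTop hη ?_
  exact Real.tendsto_sqrt_atTop.comp (log_top.const_mul_atTop (by norm_num : (0 : ℝ) < 2))

/-- sparsity -/
theorem t2 : Tendsto (fun n : ℕ => 200 * (n : ℝ) ^ 3 * Real.exp (-5 * (2 * Real.log n))) atTop
    (𝓝 0) := by
  refine squeeze 200 0 (by norm_num : (0 : ℝ) < 7) (Eventually.of_forall fun n => by positivity) ?_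
  filter_upwards [ev_nat 1] with n h1
  have h2 : (n : ℝ) ^ 3 = Real.exp (3 * Real.log n) := by
    conv_lhs => rw [nat_eq h1]
    rw [← Real.exp_nat_mul]
    norm_num
  rw [h2, mul_assoc, ← Real.exp_add, pow_zero, mul_one]
  refine le_of_eq ?_
  ring_nf

/-- maximum degree -/
theorem t3 : Tendsto (fun n : ℕ => 8 * (n : ℝ) ^ 2 * Real.exp (-(2 * (2 * Real.log n)))) atTop
    (𝓝 0) := by
  refine squeeze 8 0 (by norm_num : (0 : ℝ) < 2) (Eventually.of_forall fun n => by positivity) ?_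
  filter_upwards [ev_nat 1] with n h1
  have h2 : (n : ℝ) ^ 2 = Real.exp (2 * Real.log n) := by
    conv_lhs => rw [nat_eq h1]
    rw [← Real.exp_nat_mul]
    norm_num
  rw [h2, mul_assoc, ← Real.exp_add, pow_zero, mul_one]
  refine le_of_eq ?_
  ring_nf

/-- few bad neighbours -/
theorem t4 {δ : ℝ} (hδ : 0 < δ) {k : ℕ} (hk : 16 / δ ^ 2 ≤ k) :
    Tendsto (fun n : ℕ => 20 * (n : ℝ) ^ 2 *
      (20 * (2 * Real.log n) * Real.exp (-(δ ^ 2 * (2 * Real.log n) / 8))) ^ k) atTop (𝓝 0) := by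
  have h0 : ∀ᶠ n : ℕ in atTop, (0 : ℝ) ≤ 20 * (n : ℝ) ^ 2 *
      (20 * (2 * Real.log n) * Real.exp (-(δ ^ 2 * (2 * Real.log n) / 8))) ^ k := by
    filter_upwards [ev_log 0] with n h
    positivity
  refine squeeze (20 * 40 ^ k) k (by norm_num : (0 : ℝ) < 2) h0 ?_
  filter_upwards [ev_nat 1, ev_log 0] with n h1 h0'
  have h2 : (n : ℝ) ^ 2 = Real.exp (2 * Real.log n) := by
    conv_lhs => rw [nat_eq h1]
    rw [← Real.exp_nat_mul]
    norm_num
  have h3 : 16 ≤ k * δ ^ 2 := by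
    rw [div_le_iff₀ (by positivity)] at hk
    exact hk
  rw [h2, mul_pow, ← Real.exp_nat_mul]
  have h4 : 20 * Real.exp (2 * Real.log n) * ((20 * (2 * Real.log n)) ^ k *
      Real.exp (k * -(δ ^ 2 * (2 * Real.log n) / 8))) =
      20 * 40 ^ k * Real.log n ^ k *
        Real.exp (2 * Real.log n + k * -(δ ^ 2 * (2 * Real.log n) / 8)) := by
    rw [Real.exp_add]
    have : (20 * (2 * Real.log n)) ^ k = 40 ^ k * Real.log n ^ k := by
      rw [← mul_pow]
      ring_nf
    rw [this]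
    ring
  rw [h4]
  refine mul_le_mul_of_nonneg_left ?_ (by positivity)
  rw [Real.exp_le_exp]
  nlinarith [mul_le_mul_of_nonneg_right h3 h0']

/-- cuts -/
theorem t6 {θ : ℝ} (hθ : 0 < θ) :
    Tendsto (fun n : ℕ => 2 * (n : ℝ) * 4 ^ n *
      Real.exp (-(2 / 5 * θ * (2 * Real.log n) * n))) atTop (𝓝 0) := by
  refine squeeze 2 0 (by norm_num : (0 : ℝ) < 1) (Eventually.of_forall fun n => by positivity) ?_
  filter_upwards [ev_nat 1, ev_log (5 / θ)] with n h1 h2
  have h3 : 4 ≤ 2 / 5 * θ * (2 * Real.log n) := by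
    rw [div_le_iff₀ hθ] at h2
    nlinarith
  have h4 : (4 : ℝ) ^ n ≤ Real.exp (2 * n) := by
    have h5 : (4 : ℝ) ≤ Real.exp 2 := by
      have h6 : Real.exp 2 = Real.exp 1 ^ 2 := by
        rw [← Real.exp_nat_mul]
        norm_num
      rw [h6]
      have := Real.exp_one_gt_d9
      nlinarith
    calc (4 : ℝ) ^ n ≤ (Real.exp 2) ^ n := pow_le_pow_left₀ (by norm_num) h5 n
      _ = Real.exp (2 * n) := by
          rw [← Real.exp_nat_mul]
          ring_nf
  have h5 : Real.exp (-(2 / 5 * θ * (2 * Real.log n) * n)) ≤ Real.exp (-(4 * n)) := by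
    rw [Real.exp_le_exp]
    nlinarith
  have h6 : (n : ℝ) ≤ Real.exp (Real.log n) := (nat_eq h1).le
  calc 2 * (n : ℝ) * 4 ^ n * Real.exp (-(2 / 5 * θ * (2 * Real.log n) * n))
      ≤ 2 * Real.exp (Real.log n) * Real.exp (2 * n) * Real.exp (-(4 * n)) := by
        gcongr
    _ = 2 * Real.exp (Real.log n + 2 * n + -(4 * n)) := by
        rw [Real.exp_add, Real.exp_add]
        ring
    _ ≤ 2 * (Real.log n) ^ 0 * Real.exp (-(1 * Real.log n)) := by
        rw [pow_zero, mul_one]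
        refine mul_le_mul_of_nonneg_left ?_ (by norm_num)
        rw [Real.exp_le_exp]
        have := log_le n
        linarith

/-- covering -/
theorem t7 {γ : ℝ} (hγ : 0 < γ) :
    Tendsto (fun n : ℕ => 6 * (n : ℝ) ^ 2 * Real.exp (-((1 + γ) * (2 * Real.log n)))) atTop
    (𝓝 0) := by
  refine squeeze 6 0 (by positivity : 0 < 2 * γ) (Eventually.of_forall fun n => by positivity) ?_
  filter_upwards [ev_nat 1] with n h1
  have h2 : (n : ℝ) ^ 2 = Real.exp (2 * Real.log n) := by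
    conv_lhs => rw [nat_eq h1]
    rw [← Real.exp_nat_mul]
    norm_num
  rw [h2, mul_assoc, ← Real.exp_add, pow_zero, mul_one]
  refine le_of_eq ?_
  ring_nf

/-- not covering -/
theorem t8 {γ : ℝ} (hγ : 0 < γ) (hγ1 : γ < 1) {p : ℕ → ℝ}
    (hp : ∀ᶠ n : ℕ in atTop, p n = (1 - γ) * (2 * Real.log n) / (2 * n - 1)) :
    Tendsto (fun n : ℕ => Real.exp (-((n * (2 * n - 1) : ℕ) * (1 - p n) ^ (2 * n - 1)))) atTop
    (𝓝 0) := by
  refine squeeze 1 0 (by positivity : 0 < 2 * γ ^ 2)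
    (Eventually.of_forall fun n => (Real.exp_pos _).le) ?_
  filter_upwards [hp, ev_nat 1, ev_log 1, ev_ratio (by positivity : 0 < γ / 4)] with n hpn h1 hl hr
  have hnpos : (0 : ℝ) < 2 * n - 1 := by linarith
  have hlog : 0 ≤ Real.log n := by linarith
  have hp0 : 0 ≤ p n := by
    rw [hpn]
    exact div_nonneg (mul_nonneg (by linarith) (by positivity)) hnpos.le
  have hp1 : p n ≤ γ / 2 := by
    rw [hpn, div_le_iff₀ hnpos]
    have : (1 - γ) * (2 * Real.log n) ≤ 2 * Real.log n := by nlinarith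
    nlinarith
  have hn1 : 1 ≤ n := by exact_mod_cast h1
  have hcast : ((2 * n - 1 : ℕ) : ℝ) = 2 * n - 1 := by
    rw [Nat.cast_sub (by omega)]
    push_cast
    ring
  have h1p : 0 < 1 - p n := by linarith
  have hexp : Real.exp (-(p n / (1 - p n))) ≤ 1 - p n := by
    have h := Real.add_one_le_exp (p n / (1 - p n))
    have h2 : p n / (1 - p n) + 1 = 1 / (1 - p n) := by
      field_simp
      ring
    rw [h2] at h
    rw [Real.exp_neg]
    rw [inv_le_comm₀ (Real.exp_pos _) h1p]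
    rw [one_div] at h
    exact h
  have hpow : Real.exp (-((1 - γ ^ 2) * (2 * Real.log n))) ≤ (1 - p n) ^ (2 * n - 1) := by
    calc Real.exp (-((1 - γ ^ 2) * (2 * Real.log n)))
        ≤ Real.exp ((2 * n - 1 : ℕ) * -(p n / (1 - p n))) := by
          rw [Real.exp_le_exp, hcast]
          have h2 : (2 * n - 1) * -(p n / (1 - p n)) =
              -((1 - γ) * (2 * Real.log n) / (1 - p n)) := by
            rw [hpn]
            field_simp
          rw [h2, neg_le_neg_iff, div_le_iff₀ h1p]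
          have h3 : 1 ≤ (1 + γ) * (1 - p n) := by nlinarith
          have h4 : 0 ≤ (1 - γ) * (2 * Real.log n) :=
            mul_nonneg (by linarith) (by positivity)
          nlinarith
      _ = (Real.exp (-(p n / (1 - p n)))) ^ (2 * n - 1) := by
          rw [← Real.exp_nat_mul]
      _ ≤ (1 - p n) ^ (2 * n - 1) := pow_le_pow_left₀ (Real.exp_pos _).le hexp _
  have hcount : Real.exp (2 * Real.log n) ≤ ((n * (2 * n - 1) : ℕ) : ℝ) := by
    have h2 : (n : ℝ) ^ 2 = Real.exp (2 * Real.log n) := by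
      conv_lhs => rw [nat_eq h1]
      rw [← Real.exp_nat_mul]
      norm_num
    rw [← h2]
    have h3 : n ^ 2 ≤ n * (2 * n - 1) := by
      rw [sq]
      exact Nat.mul_le_mul_left _ (by omega)
    exact_mod_cast h3
  have hy : Real.exp (2 * γ ^ 2 * Real.log n) ≤
      ((n * (2 * n - 1) : ℕ) : ℝ) * (1 - p n) ^ (2 * n - 1) := by
    calc Real.exp (2 * γ ^ 2 * Real.log n)
        = Real.exp (2 * Real.log n) * Real.exp (-((1 - γ ^ 2) * (2 * Real.log n))) := by
          rw [← Real.exp_add]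
          ring_nf
      _ ≤ _ := mul_le_mul hcount hpow (Real.exp_pos _).le (Nat.cast_nonneg _)
  rw [one_mul, pow_zero, one_mul]
  calc Real.exp (-(((n * (2 * n - 1) : ℕ) : ℝ) * (1 - p n) ^ (2 * n - 1)))
      ≤ Real.exp (-Real.exp (2 * γ ^ 2 * Real.log n)) := by
        rw [Real.exp_le_exp]
        linarith
    _ ≤ Real.exp (-(2 * γ ^ 2 * Real.log n)) := by
        rw [Real.exp_le_exp, neg_le_neg_iff]
        have := Real.add_one_le_exp (2 * γ ^ 2 * Real.log n)
        linarith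

/-- low elements -/
theorem t5 {γ : ℝ} (hγ : 0 < γ) (hγ1 : γ ≤ 1 / 100) {pm pp : ℕ → ℝ}
    (hpm : ∀ᶠ n : ℕ in atTop, pm n = (1 - γ) * (2 * Real.log n) / (2 * n - 1))
    (hpp : ∀ᶠ n : ℕ in atTop, pp n = (1 + γ) * (2 * Real.log n) / (2 * n - 1)) :
    Tendsto (fun n : ℕ => 36 * (n : ℝ) ^ 3 * (12 * (n : ℝ) ^ 2 * pp n ^ 2 + pp n) *
      Real.exp (2 * 4 * (Real.log n / 100) - (1 - Real.exp (-4)) * (pm n * (4 * n - 5)))) atTop
    (𝓝 0) := by
  have hppn : ∀ᶠ n : ℕ in atTop, 0 ≤ pp n ∧ pp n ≤ 3 * Real.log n / n := by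
    filter_upwards [hpp, ev_nat 1, ev_log 1] with n h h1 hl
    have hnpos : (0 : ℝ) < 2 * n - 1 := by linarith
    have hn : (0 : ℝ) < n := by linarith
    rw [h]
    refine ⟨div_nonneg (mul_nonneg (by linarith) (by linarith)) hnpos.le, ?_⟩
    rw [div_le_div_iff₀ hnpos hn]
    nlinarith [mul_nonneg (sub_nonneg.mpr hl) (sub_nonneg.mpr h1)]
  refine squeeze (36 * 111) 2 (by norm_num : (0 : ℝ) < 1 / 2) ?_ ?_
  · filter_upwards [hppn] with n h
    have := h.1
    positivity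
  filter_upwards [hppn, hpm, ev_nat 50, ev_log 1] with n hp hm h1 hl
  have hn : (0 : ℝ) < n := by linarith
  have hnpos : (0 : ℝ) < 2 * n - 1 := by linarith
  have hn3 : (n : ℝ) ^ 3 = Real.exp (3 * Real.log n) := by
    conv_lhs => rw [nat_eq (by linarith : (1 : ℝ) ≤ n)]
    rw [← Real.exp_nat_mul]
    norm_num
  have hA : 12 * (n : ℝ) ^ 2 * pp n ^ 2 + pp n ≤ 111 * Real.log n ^ 2 := by
    have h2 : (n : ℝ) * pp n ≤ 3 * Real.log n := by
      have := hp.2
      rw [le_div_iff₀ hn] at this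
      linarith
    have h3 : (n : ℝ) ^ 2 * pp n ^ 2 ≤ 9 * Real.log n ^ 2 := by
      have h4 : ((n : ℝ) * pp n) ^ 2 ≤ (3 * Real.log n) ^ 2 :=
        pow_le_pow_left₀ (mul_nonneg hn.le hp.1) h2 2
      nlinarith
    have h5 : pp n ≤ 3 * Real.log n := by
      have : pp n ≤ (n : ℝ) * pp n := by nlinarith [hp.1]
      linarith
    nlinarith
  have he4 : Real.exp (-4) ≤ 1 / 50 := by
    rw [Real.exp_neg, one_div]
    refine inv_anti₀ (by norm_num) ?_
    have h6 : Real.exp 4 = Real.exp 1 ^ 4 := by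
      rw [← Real.exp_nat_mul]
      norm_num
    rw [h6]
    have h7 := Real.exp_one_gt_d9
    have h8 : (2.7 : ℝ) ^ 4 ≤ Real.exp 1 ^ 4 := pow_le_pow_left₀ (by norm_num) (by linarith) 4
    norm_num at h8 ⊢
    linarith
  have hE : 2 * 4 * (Real.log n / 100) - (1 - Real.exp (-4)) * (pm n * (4 * n - 5)) ≤
      -(7 / 2 * Real.log n) := by
    have h2 : 99 / 100 * (2 * Real.log n) * (19 / 10) ≤ pm n * (4 * n - 5) := by
      rw [hm]
      have h3 : (19 / 10 : ℝ) ≤ (4 * n - 5) / (2 * n - 1) := by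
        rw [le_div_iff₀ hnpos]
        linarith
      have h4 : (1 - γ) * (2 * Real.log n) / (2 * n - 1) * (4 * n - 5) =
          (1 - γ) * (2 * Real.log n) * ((4 * n - 5) / (2 * n - 1)) := by ring
      rw [h4]
      have h5 : 99 / 100 * (2 * Real.log n) ≤ (1 - γ) * (2 * Real.log n) := by nlinarith
      have h6 : (0 : ℝ) ≤ 99 / 100 * (2 * Real.log n) := by linarith
      calc 99 / 100 * (2 * Real.log n) * (19 / 10)
          ≤ 99 / 100 * (2 * Real.log n) * ((4 * n - 5) / (2 * n - 1)) :=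
            mul_le_mul_of_nonneg_left h3 h6
        _ ≤ _ := mul_le_mul_of_nonneg_right h5 (by linarith)
    have h3 : 49 / 50 * (pm n * (4 * n - 5)) ≤ (1 - Real.exp (-4)) * (pm n * (4 * n - 5)) := by
      refine mul_le_mul_of_nonneg_right (by linarith) ?_
      linarith
    nlinarith
  calc 36 * (n : ℝ) ^ 3 * (12 * (n : ℝ) ^ 2 * pp n ^ 2 + pp n) *
      Real.exp (2 * 4 * (Real.log n / 100) - (1 - Real.exp (-4)) * (pm n * (4 * n - 5)))
      ≤ 36 * (n : ℝ) ^ 3 * (111 * Real.log n ^ 2) * Real.exp (-(7 / 2 * Real.log n)) := by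
        refine mul_le_mul ?_ (Real.exp_le_exp.mpr hE) (Real.exp_pos _).le (by positivity)
        exact mul_le_mul_of_nonneg_left hA (by positivity)
    _ = 36 * 111 * Real.log n ^ 2 * Real.exp (-(1 / 2 * Real.log n)) := by
        rw [hn3]
        have : Real.exp (-(1 / 2 * Real.log n)) =
            Real.exp (3 * Real.log n) * Real.exp (-(7 / 2 * Real.log n)) := by
          rw [← Real.exp_add]
          ring_nf
        rw [this]
        ring

end Pool.Agent.Lib.FR.Asy
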