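import Pool.Agent.Lib.MP_6d56f7_co_FR.Api

set_option autoImplicit false
set_option linter.unusedSectionVars false

/-! Project FR, module K14: the maximum of sums of absolute values of block sums. -/

namespace Pool.Agent.Lib.FR

open Finset

variable {I S : Type} [Fintype I] [DecidableEq I] [Fintype S]

namespace Block

variable {T : Type} [Fintype T]

/-- swap the two points outside `B` -/
def sw (B : Finset I) (x : (I → T) × (I → T)) : (I → T) × (I → T) :=
  (fun i => if i ∈ B then x.1 i else x.2 i, fun i => if i ∈ B then x.2 i else x.1 i)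

theorem sw_sw (B : Finset I) (x : (I → T) × (I → T)) : sw B (sw B x) = x := by
  unfold sw
  ext i
  · by_cases h : i ∈ B <;> simp [h]
  · by_cases h : i ∈ B <;> simp [h]

/-- independence of functions of disjoint sets of coordinates -/
theorem Ex_mul {q : T → ℝ} (hq1 : ∑ a, q a = 1) (B : Finset I) (F G : (I → T) → ℝ)
    (hF : ∀ u v : I → T, (∀ i ∈ B, u i = v i) → F u = F v)
    (hG : ∀ u v : I → T, (∀ i, i ∉ B → u i = v i) → G u = G v) :
    Ex q (fun u => F u * G u) = Ex q F * Ex q G := by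
  have h1 : Ex q F * Ex q G =
      ∑ x : (I → T) × (I → T), ((∏ i, q (x.1 i)) * (∏ i, q (x.2 i))) * (F x.1 * G x.2) := by
    unfold Ex
    rw [Finset.sum_mul_sum, Fintype.sum_prod_type]
    exact Finset.sum_congr rfl fun u _ => Finset.sum_congr rfl fun v _ => by ring
  have h2 : Ex q (fun u => F u * G u) =
      ∑ x : (I → T) × (I → T), ((∏ i, q (x.1 i)) * (∏ i, q (x.2 i))) * (F x.1 * G x.1) := by
    rw [Fintype.sum_prod_type]
    unfold Ex
    refine Finset.sum_congr rfl fun u _ => ?_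
    have : ∀ v : I → T, ((∏ i, q (u i)) * (∏ i, q (v i))) * (F u * G u) =
        ((∏ i, q (u i)) * (F u * G u)) * ∏ i, q (v i) := fun v => by ring
    simp only [this]
    rw [← Finset.mul_sum, sum_wt hq1, mul_one]
  rw [h1, h2]
  refine Finset.sum_bij' (fun x _ => sw B x) (fun x _ => sw B x) (fun _ _ => Finset.mem_univ _)
    (fun _ _ => Finset.mem_univ _) (fun x _ => sw_sw B x) (fun x _ => sw_sw B x) ?_
  intro x _
  have hw : (∏ i, q ((sw B x).1 i)) * (∏ i, q ((sw B x).2 i)) =
      (∏ i, q (x.1 i)) * (∏ i, q (x.2 i)) := by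
    rw [← Finset.prod_mul_distrib, ← Finset.prod_mul_distrib]
    refine Finset.prod_congr rfl fun i _ => ?_
    by_cases h : i ∈ B
    · simp [sw, h]
    · simp [sw, h, mul_comm]
  have hf : F (sw B x).1 = F x.1 := hF _ _ fun i hi => by simp [sw, hi]
  have hg : G (sw B x).2 = G x.1 := hG _ _ fun i hi => by simp [sw, hi]
  rw [hw, hf, hg]

/-- Cauchy-Schwarz -/
theorem Ex_sq_le {q : T → ℝ} (hq : ∀ a, 0 ≤ q a) (hq1 : ∑ a, q a = 1) (F : (I → T) → ℝ) :
    (Ex q F) ^ 2 ≤ Ex q (fun u => F u ^ 2) := by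
  have h0 : 0 ≤ Ex q (fun u => (F u - Ex q F) ^ 2) := Ex_nonneg hq fun u => sq_nonneg _
  have h1 : Ex q (fun u => (F u - Ex q F) ^ 2) =
      Ex q (fun u => F u ^ 2) - (Ex q F) ^ 2 := by
    have h2 : (fun u => (F u - Ex q F) ^ 2) =
        fun u => F u ^ 2 - ((2 * Ex q F) * F u - (Ex q F) ^ 2) := by
      funext u; ring
    rw [h2, Ex_sub, Ex_sub, Ex_mul_left, Ex_const hq1]
    ring
  linarith

theorem Ex_le_sqrt {q : T → ℝ} (hq : ∀ a, 0 ≤ q a) (hq1 : ∑ a, q a = 1) (F : (I → T) → ℝ) :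
    Ex q F ≤ √(Ex q (fun u => F u ^ 2)) :=
  Real.le_sqrt_of_sq_le (Ex_sq_le hq hq1 F)

/-- the block sum -/
def g (t : T → ℝ) (B : Finset I) (u : I → T) : ℝ := ∑ h ∈ B, t (u h)

theorem g_congr (t : T → ℝ) (B : Finset I) (u v : I → T) (h : ∀ i ∈ B, u i = v i) :
    g t B u = g t B v :=
  Finset.sum_congr rfl fun i hi => by rw [h i hi]

theorem Ex_g_sq {q : T → ℝ} (hq1 : ∑ a, q a = 1) (t : T → ℝ) (ht : ∑ a, q a * t a = 0)
    (B : Finset I) :
    Ex q (fun u => g t B u ^ 2) = B.card * ∑ a, q a * t a ^ 2 := by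
  have h1 : (fun u : I → T => g t B u ^ 2) =
      fun u => ∑ h ∈ B, ∑ k ∈ B, t (u h) * t (u k) := by
    funext u
    rw [sq, g, Finset.sum_mul_sum]
  rw [h1, Ex_sum]
  have h2 : ∀ h ∈ B, Ex q (fun u : I → T => ∑ k ∈ B, t (u h) * t (u k)) =
      ∑ a, q a * t a ^ 2 := by
    intro h hh
    rw [Ex_sum]
    rw [Finset.sum_eq_single h]
    · have : (fun u : I → T => t (u h) * t (u h)) = fun u => (fun a => t a ^ 2) (u h) := by
        funext u; ring
      rw [this]
      exact Ex_coord hq1 h (fun a => t a ^ 2)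
    · intro k _ hk
      rw [Ex_mul hq1 {h} (fun u => t (u h)) (fun u => t (u k))]
      · rw [Ex_coord hq1 h t, ht, zero_mul]
      · intro u v huv
        rw [huv h (Finset.mem_singleton_self h)]
      · intro u v huv
        rw [huv k (by simpa using hk)]
    · intro hn; exact absurd hh hn
  rw [Finset.sum_congr rfl h2, Finset.sum_const, nsmul_eq_mul]

/-- second moment of the centred sum of absolute values -/
theorem var_le {ι : Type} [Fintype ι] {q : T → ℝ} (hq1 : ∑ a, q a = 1)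
    (t : T → ℝ) (B : ι → Finset I) (hB : ∀ i i', i ≠ i' → Disjoint (B i) (B i')) (K : ℝ)
    (hK : ∀ i, Ex q (fun u => g t (B i) u ^ 2) ≤ K) :
    Ex q (fun u => (∑ i, |g t (B i) u| - ∑ i, Ex q (fun v => |g t (B i) v|)) ^ 2) ≤
      Fintype.card ι * K := by
  classical
  set m : ι → ℝ := fun i => Ex q (fun v => |g t (B i) v|) with hm
  have h1 : (fun u : I → T => (∑ i, |g t (B i) u| - ∑ i, m i) ^ 2) =
      fun u => ∑ i, ∑ k, (|g t (B i) u| - m i) * (|g t (B k) u| - m k) := by
    funext u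
    rw [← Finset.sum_sub_distrib, sq, Finset.sum_mul_sum]
  rw [h1, Ex_sum]
  have h0 : ∀ i, Ex q (fun u => |g t (B i) u| - m i) = 0 := by
    intro i
    rw [Ex_sub, Ex_const hq1]
    simp [hm]
  have h2 : ∀ i ∈ (univ : Finset ι),
      Ex q (fun u : I → T => ∑ k, (|g t (B i) u| - m i) * (|g t (B k) u| - m k)) ≤ K := by
    intro i _
    rw [Ex_sum, Finset.sum_eq_single i]
    · have h3 : (fun u : I → T => (|g t (B i) u| - m i) * (|g t (B i) u| - m i)) =
          fun u => g t (B i) u ^ 2 - ((2 * m i) * |g t (B i) u| - m i ^ 2) := by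
        funext u
        rw [← sq_abs (g t (B i) u)]
        ring
      rw [h3, Ex_sub, Ex_sub, Ex_mul_left, Ex_const hq1]
      have : Ex q (fun v => |g t (B i) v|) = m i := rfl
      rw [this]
      have := hK i
      nlinarith [sq_nonneg (m i)]
    · intro k _ hk
      rw [Ex_mul hq1 (B i) (fun u => |g t (B i) u| - m i) (fun u => |g t (B k) u| - m k)]
      · rw [h0 i, zero_mul]
      · intro u v huv
        rw [g_congr t (B i) u v huv]
      · intro u v huv
        rw [g_congr t (B k) u v fun x hx => huv x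
          (Finset.disjoint_left.1 (hB k i hk) hx)]
    · intro hn; exact absurd (Finset.mem_univ i) hn
  refine le_trans (Finset.sum_le_sum h2) ?_
  rw [Finset.sum_const, nsmul_eq_mul, Finset.card_univ]

/-- the maximum over `κ` -/
theorem max_le {κ ι : Type} [Fintype κ] [Nonempty κ] [Fintype ι] {q : T → ℝ}
    (hq : ∀ a, 0 ≤ q a) (hq1 : ∑ a, q a = 1) (t : T → ℝ)
    (B : κ → ι → Finset I) (hB : ∀ j i i', i ≠ i' → Disjoint (B j i) (B j i')) (K : ℝ)
    (hK : ∀ j i, Ex q (fun u => g t (B j i) u ^ 2) ≤ K) :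
    Ex q (fun u : I → T => univ.sup' univ_nonempty (fun j : κ => ∑ i, |g t (B j i) u|)) ≤
      Fintype.card ι * √K + √(Fintype.card κ * (Fintype.card ι * K)) := by
  classical
  set r : κ → (I → T) → ℝ := fun j u => ∑ i, |g t (B j i) u| with hr
  set e : κ → ℝ := fun j => ∑ i, Ex q (fun v => |g t (B j i) v|) with he
  have he1 : ∀ j, e j ≤ Fintype.card ι * √K := by
    intro j
    calc e j ≤ ∑ _i : ι, √K := Finset.sum_le_sum fun i _ => by
          refine le_trans (Ex_le_sqrt hq hq1 _) (Real.sqrt_le_sqrt ?_)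
          have : (fun u => |g t (B j i) u| ^ 2) = fun u => g t (B j i) u ^ 2 := by
            funext u; rw [sq_abs]
          rw [this]
          exact hK j i
      _ = _ := by rw [Finset.sum_const, nsmul_eq_mul, Finset.card_univ]
  have hpt : ∀ u : I → T, univ.sup' univ_nonempty (fun j : κ => r j u) ≤
      Fintype.card ι * √K + √(∑ j, (r j u - e j) ^ 2) := by
    intro u
    refine Finset.sup'_le _ _ fun j _ => ?_
    have h1 : |r j u - e j| ≤ √(∑ j, (r j u - e j) ^ 2) := by
      refine Real.abs_le_sqrt ?_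
      exact Finset.single_le_sum (f := fun j => (r j u - e j) ^ 2) (fun _ _ => sq_nonneg _)
        (Finset.mem_univ j)
    have h2 := le_abs_self (r j u - e j)
    have h3 := he1 j
    linarith
  refine le_trans (Ex_mono hq hpt) ?_
  rw [Ex_add, Ex_const hq1]
  refine add_le_add le_rfl ?_
  refine le_trans (Ex_le_sqrt hq hq1 _) (Real.sqrt_le_sqrt ?_)
  have h4 : (fun u : I → T => √(∑ j, (r j u - e j) ^ 2) ^ 2) =
      fun u => ∑ j, (r j u - e j) ^ 2 := by
    funext u
    rw [Real.sq_sqrt (Finset.sum_nonneg fun _ _ => sq_nonneg _)]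
  rw [h4, Ex_sum]
  calc ∑ j, Ex q (fun u => (r j u - e j) ^ 2) ≤ ∑ _j : κ, Fintype.card ι * K :=
        Finset.sum_le_sum fun j _ => var_le hq1 t (B j) (hB j) K (hK j)
    _ = _ := by rw [Finset.sum_const, nsmul_eq_mul, Finset.card_univ]

/-- two expectations as one -/
theorem Ex_Ex (q : S → ℝ) (F : (I → S) → (I → S) → ℝ) :
    Ex q (fun s : I → S => Ex q (fun s' : I → S => F s s')) =
      Ex (fun x : S × S => q x.1 * q x.2)
        (fun u : I → S × S => F (fun i => (u i).1) (fun i => (u i).2)) := by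
  unfold Ex
  have h1 : ∑ s : I → S, (∏ i, q (s i)) * ∑ s' : I → S, (∏ i, q (s' i)) * F s s' =
      ∑ x : (I → S) × (I → S), (∏ i, q (x.1 i)) * ((∏ i, q (x.2 i)) * F x.1 x.2) := by
    rw [Fintype.sum_prod_type]
    exact Finset.sum_congr rfl fun s _ => by rw [Finset.mul_sum]
  rw [h1]
  symm
  refine Fintype.sum_equiv (Equiv.arrowProdEquivProdArrow I (fun _ => S) (fun _ => S)) _ _ ?_
  intro u
  rw [Finset.prod_mul_distrib]
  simp only [Equiv.arrowProdEquivProdArrow, Equiv.coe_fn_mk]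
  ring

end Block

open Block in
theorem block_max {κ ι : Type} [Fintype κ] [Nonempty κ] [Fintype ι] (q : S → ℝ)
    (hq : ∀ a, 0 ≤ q a) (hq1 : ∑ a, q a = 1) (b : S → ℝ) (hb : ∀ a, b a = 0 ∨ b a = 1)
    (B : κ → ι → Finset I) (hB : ∀ j i i', i ≠ i' → Disjoint (B j i) (B j i')) (D : ℝ)
    (hD : ∀ j i, ((B j i).card : ℝ) ≤ D) :
    Ex q (fun s : I → S => Ex q (fun s' : I → S => univ.sup' univ_nonempty
      (fun j : κ => ∑ i, |∑ h ∈ B j i, (b (s' h) - b (s h))|))) ≤
    Fintype.card ι * √(2 * (∑ a, q a * b a) * D) +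
      √(2 * (∑ a, q a * b a) * Fintype.card κ * Fintype.card ι * D) := by
  classical
  set p : ℝ := ∑ a, q a * b a with hp
  set q2 : S × S → ℝ := fun x => q x.1 * q x.2 with hq2
  set t : S × S → ℝ := fun x => b x.2 - b x.1 with ht
  have hq2n : ∀ x, 0 ≤ q2 x := fun x => mul_nonneg (hq _) (hq _)
  have hfst : ∀ f : S → ℝ, ∑ x : S × S, q2 x * f x.1 = ∑ a, q a * f a := by
    intro f
    rw [Fintype.sum_prod_type]
    refine Finset.sum_congr rfl fun a _ => ?_
    have : ∀ a', q2 (a, a') * f (a, a').1 = (q a * f a) * q a' := fun a' => by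
      simp only [hq2]; ring
    simp only [this]
    rw [← Finset.mul_sum, hq1, mul_one]
  have hsnd : ∀ f : S → ℝ, ∑ x : S × S, q2 x * f x.2 = ∑ a, q a * f a := by
    intro f
    rw [Fintype.sum_prod_type_right]
    refine Finset.sum_congr rfl fun a _ => ?_
    have : ∀ a', q2 (a', a) * f (a', a).2 = (q a * f a) * q a' := fun a' => by
      simp only [hq2]; ring
    simp only [this]
    rw [← Finset.mul_sum, hq1, mul_one]
  have hq21 : ∑ x, q2 x = 1 := by
    have := hfst (fun _ => 1)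
    simpa [hq1] using this
  have ht0 : ∑ x, q2 x * t x = 0 := by
    have h1 : ∀ x : S × S, q2 x * t x = q2 x * b x.2 - q2 x * b x.1 := fun x => by
      simp only [ht]; ring
    simp only [h1]
    rw [Finset.sum_sub_distrib, hfst b, hsnd b, sub_self]
  have ht2 : ∑ x, q2 x * t x ^ 2 ≤ 2 * p := by
    have h1 : ∀ x : S × S, q2 x * t x ^ 2 ≤ q2 x * b x.2 + q2 x * b x.1 := fun x => by
      rw [← mul_add]
      refine mul_le_mul_of_nonneg_left ?_ (hq2n x)
      simp only [ht]
      rcases hb x.1 with h | h <;> rcases hb x.2 with h' | h' <;> rw [h, h'] <;> norm_num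
    refine le_trans (Finset.sum_le_sum fun x _ => h1 x) ?_
    rw [Finset.sum_add_distrib, hfst b, hsnd b]
    linarith
  have hp0 : 0 ≤ p := Finset.sum_nonneg fun a _ => mul_nonneg (hq a) (by
    rcases hb a with h | h
    · rw [h]
    · rw [h]; norm_num)
  have hK : ∀ j i, Ex q2 (fun u => g t (B j i) u ^ 2) ≤ 2 * p * D := by
    intro j i
    rw [Ex_g_sq hq21 t ht0]
    have hc : (0 : ℝ) ≤ (B j i).card := Nat.cast_nonneg _
    calc ((B j i).card : ℝ) * ∑ a, q2 a * t a ^ 2 ≤ (B j i).card * (2 * p) :=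
          mul_le_mul_of_nonneg_left ht2 hc
      _ ≤ D * (2 * p) := mul_le_mul_of_nonneg_right (hD j i) (by linarith)
      _ = 2 * p * D := by ring
  rw [Ex_Ex q (fun s s' => univ.sup' univ_nonempty
      (fun j : κ => ∑ i, |∑ h ∈ B j i, (b (s' h) - b (s h))|))]
  refine le_trans (max_le hq2n hq21 t B hB (2 * p * D) hK) ?_
  refine add_le_add le_rfl (le_of_eq ?_)
  congr 1
  ring

end Pool.Agent.Lib.FR
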