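import Pool.Agent.Lib.MP_6d56f7_co_FR.Contr
import Pool.Agent.Lib.MP_6d56f7_co_FR.Block

set_option autoImplicit false

/-! Project FR, module BULKP: the uniform law of large numbers for functions with row and column
scales holds with probability at least `1 - 100 / (η √d)`. -/

namespace Pool.Agent.Lib.FR

open Finset

section BulkP

/-- ordered sums are twice the sums over the edges -/
theorem bp_sum_edge {V : Type} [Fintype V] [LinearOrder V] (g : Sym2 V → ℝ) :
    ∑ u, ∑ v, (if u = v then 0 else g s(u, v)) = 2 * ∑ e : Edge V, g e.1 := by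
  classical
  have h1 : ∑ e : Edge V, g e.1 = ∑ i ∈ (univ : Finset V).offDiag with i.1 < i.2,
      g s(i.1, i.2) := by
    rw [← Finset.sum_sym2_filter_not_isDiag]
    symm
    apply Finset.sum_subtype
    intro e
    simp
  have h2 : ∑ u, ∑ v, (if u = v then 0 else g s(u, v)) =
      ∑ i ∈ (univ : Finset V).offDiag, g s(i.1, i.2) := by
    rw [← Finset.sum_product']
    symm
    rw [← Finset.sum_filter_add_sum_filter_not (univ ×ˢ univ : Finset (V × V))
      (fun i => i.1 = i.2)]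
    have h3 : ∑ x ∈ (univ ×ˢ univ : Finset (V × V)) with x.1 = x.2,
        (if x.1 = x.2 then 0 else g s(x.1, x.2)) = 0 := by
      apply Finset.sum_eq_zero
      intro x hx
      rw [if_pos (Finset.mem_filter.1 hx).2]
    rw [h3, zero_add]
    apply Finset.sum_congr
    · ext x
      simp
    · intro x hx
      rw [Finset.mem_filter] at hx
      rw [if_neg hx.2]
  have h4 : ∑ i ∈ (univ : Finset V).offDiag with ¬ i.1 < i.2, g s(i.1, i.2) =
      ∑ i ∈ (univ : Finset V).offDiag with i.1 < i.2, g s(i.1, i.2) := by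
    refine Finset.sum_nbij' Prod.swap Prod.swap ?_ ?_ ?_ ?_ ?_
    · intro x hx
      simp only [Finset.mem_filter, Finset.mem_offDiag, Finset.mem_univ, true_and,
        Prod.fst_swap, Prod.snd_swap] at hx ⊢
      exact ⟨fun h => hx.1 h.symm, lt_of_le_of_ne (not_lt.1 hx.2) (fun h => hx.1 h.symm)⟩
    · intro x hx
      simp only [Finset.mem_filter, Finset.mem_offDiag, Finset.mem_univ, true_and,
        Prod.fst_swap, Prod.snd_swap] at hx ⊢
      exact ⟨fun h => hx.1 h.symm, not_lt.2 hx.2.le⟩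
    · intro x _; exact Prod.swap_swap x
    · intro x _; exact Prod.swap_swap x
    · intro x _
      rw [Prod.fst_swap, Prod.snd_swap, Sym2.eq_swap]
  rw [h1, h2, ← Finset.sum_filter_add_sum_filter_not _ (fun i : V × V => i.1 < i.2), h4]
  ring

variable {n : ℕ}

/-- a function on the index set, read on ordered triples -/
noncomputable def TT (t : J n → ℝ) (u v : Fin (2 * n)) (c : Fin (2 * n - 1)) : ℝ :=
  if h : ¬ (s(u, v) : Sym2 (Fin (2 * n))).IsDiag then t (c, ⟨s(u, v), h⟩) else 0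

theorem TT_symm (t : J n → ℝ) (u v : Fin (2 * n)) (c : Fin (2 * n - 1)) :
    TT t u v c = TT t v u c := by
  have h : (s(u, v) : Sym2 (Fin (2 * n))) = s(v, u) := Sym2.eq_swap
  unfold TT
  by_cases h1 : ¬ (s(u, v) : Sym2 (Fin (2 * n))).IsDiag
  · have h2 : ¬ (s(v, u) : Sym2 (Fin (2 * n))).IsDiag := h ▸ h1
    rw [dif_pos h1, dif_pos h2]
    congr 2
    exact Subtype.ext h
  · have h2 : ¬ ¬ (s(v, u) : Sym2 (Fin (2 * n))).IsDiag := h ▸ h1
    rw [dif_neg h1, dif_neg h2]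

theorem bp_sum_J (t : J n → ℝ) : ∑ u, ∑ v, ∑ c, TT t u v c = 2 * ∑ h, t h := by
  have h1 : ∀ c : Fin (2 * n - 1), ∑ u, ∑ v, TT t u v c =
      2 * ∑ e : Edge (Fin (2 * n)), t (c, e) := by
    intro c
    have h2 := bp_sum_edge (V := Fin (2 * n))
      (fun e => if h : ¬ e.IsDiag then t (c, ⟨e, h⟩) else 0)
    have h3 : ∑ e : Edge (Fin (2 * n)), t (c, e) = ∑ e : Edge (Fin (2 * n)),
        (if h : ¬ e.1.IsDiag then t (c, ⟨e.1, h⟩) else 0) := by
      apply Finset.sum_congr rfl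
      intro e _
      rw [dif_pos e.2]
    rw [h3, ← h2]
    apply Finset.sum_congr rfl
    intro u _
    apply Finset.sum_congr rfl
    intro v _
    unfold TT
    by_cases huv : u = v
    · rw [if_pos huv, dif_neg]
      rw [not_not, huv]
      exact Sym2.mk_isDiag_iff.2 rfl
    · rw [if_neg huv]
  rw [Fintype.sum_prod_type, Finset.mul_sum]
  simp_rw [← h1]
  calc ∑ u, ∑ v, ∑ c, TT t u v c = ∑ u, ∑ c, ∑ v, TT t u v c :=
        Finset.sum_congr rfl fun u _ => Finset.sum_comm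
    _ = ∑ c, ∑ u, ∑ v, TT t u v c := Finset.sum_comm

/-- the function `z` on the index set -/
noncomputable def zz (x : Fin (2 * n) → Fin (2 * n - 1) → ℝ) (y : Fin (2 * n) → Fin (2 * n) → ℝ)
    (hy : Sy y) (h : J n) : ℝ :=
  Sym2.lift ⟨fun u v => y u v + x u h.1 + x v h.1, fun u v => by
    show y u v + x u h.1 + x v h.1 = y v u + x v h.1 + x u h.1
    rw [hy.symm u v]; ring⟩ h.2.1

theorem TT_zz (t : J n → ℝ) (f : ℝ → ℝ) (x : Fin (2 * n) → Fin (2 * n - 1) → ℝ)
    (y : Fin (2 * n) → Fin (2 * n) → ℝ) (hy : Sy y) (u v : Fin (2 * n)) (c : Fin (2 * n - 1)) :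
    TT (fun h => t h * f (zz x y hy h)) u v c = TT t u v c * f (y u v + x u c + x v c) := by
  unfold TT
  by_cases hd : ¬ (s(u, v) : Sym2 (Fin (2 * n))).IsDiag
  · rw [dif_pos hd, dif_pos hd]
    rfl
  · rw [dif_neg hd, dif_neg hd, zero_mul]

theorem bp_TH (x : Fin (2 * n) → Fin (2 * n - 1) → ℝ)
    (y : Fin (2 * n) → Fin (2 * n) → ℝ) (hy : Sy y) :
    TH x y = 2 * ∑ h, |zz x y hy h| := by
  have h1 := bp_sum_J (fun h => |zz x y hy h|)
  have h2 : ∀ u v c, TT (fun h => |zz x y hy h|) u v c =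
      TT (fun _ : J n => (1 : ℝ)) u v c * |y u v + x u c + x v c| := by
    intro u v c
    have := TT_zz (fun _ => 1) (fun r => |r|) x y hy u v c
    simpa only [one_mul] using this
  simp only [h2] at h1
  rw [← h1]
  unfold TH
  refine Finset.sum_congr rfl fun u _ => Finset.sum_congr rfl fun v _ => ?_
  by_cases huv : u = v
  · rw [if_pos huv]
    symm
    apply Finset.sum_eq_zero
    intro c _
    have : TT (fun _ : J n => (1 : ℝ)) u v c = 0 := by
      unfold TT
      rw [dif_neg]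
      rw [not_not, huv]
      exact Sym2.mk_isDiag_iff.2 rfl
    rw [this, zero_mul]
  · rw [if_neg huv]
    refine Finset.sum_congr rfl fun c _ => ?_
    have : TT (fun _ : J n => (1 : ℝ)) u v c = 1 := by
      unfold TT
      rw [dif_pos]
      rw [Sym2.mk_isDiag_iff]
      exact huv
    rw [this, one_mul]

theorem bp_SL (s : J n → Fin 3) (x : Fin (2 * n) → Fin (2 * n - 1) → ℝ)
    (y : Fin (2 * n) → Fin (2 * n) → ℝ) (hy : Sy y) :
    SL (Lm n s) x y = 2 * ∑ h, (if s h = 2 then (1 : ℝ) else 0) * |zz x y hy h| := by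
  have h1 := bp_sum_J (fun h => (if s h = 2 then (1 : ℝ) else 0) * |zz x y hy h|)
  simp only [TT_zz (fun h => if s h = 2 then (1 : ℝ) else 0) (fun r => |r|) x y hy] at h1
  rw [← h1]
  unfold SL
  refine Finset.sum_congr rfl fun u _ => Finset.sum_congr rfl fun v _ => ?_
  unfold Lm LL
  rw [Finset.sum_filter]
  refine Finset.sum_congr rfl fun c _ => ?_
  by_cases hd : ¬ (s(u, v) : Sym2 (Fin (2 * n))).IsDiag
  · by_cases h2 : s (c, ⟨s(u, v), hd⟩) = 2
    · rw [if_pos ⟨hd, h2⟩]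
      unfold TT
      rw [dif_pos hd]
      beta_reduce
      rw [if_pos h2, one_mul]
    · rw [if_neg]
      · unfold TT
        rw [dif_pos hd]
        beta_reduce
        rw [if_neg h2, zero_mul]
      · rintro ⟨_, h3⟩
        exact h2 h3
  · rw [if_neg]
    · unfold TT
      rw [dif_neg hd, zero_mul]
    · rintro ⟨h3, _⟩
      exact hd h3

/-- the linear part is bounded by the block sums -/
theorem bp_lin (t : J n → ℝ) (x : Fin (2 * n) → Fin (2 * n - 1) → ℝ)
    (y : Fin (2 * n) → Fin (2 * n) → ℝ) (hy : Sy y) (τ : Fin (2 * n) → ℝ)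
    (κ : Fin (2 * n - 1) → ℝ) (ρ : Fin (2 * n) → ℝ) (hτ : ∀ v, 0 ≤ τ v) (hκ : ∀ c, 0 ≤ κ c)
    (hρ : ∀ v, 0 ≤ ρ v) (hx : ∀ v c, |x v c| ≤ τ v + κ c) (hyy : ∀ u v, |y u v| ≤ ρ u + ρ v)
    (hs : ∑ v, τ v + ∑ c, κ c + ∑ v, ρ v ≤ 1) (M : ℝ) (hM : 0 ≤ M)
    (hR : ∀ v, ∑ c, |∑ u, TT t u v c| ≤ M) (hQ : ∀ v, ∑ u, |∑ c, TT t u v c| ≤ M)
    (hK1 : ∀ c, ∑ v, |∑ u with u < v, TT t u v c| ≤ M)
    (hK2 : ∀ c, ∑ v, |∑ u with v < u, TT t u v c| ≤ M) :
    ∑ h, t h * zz x y hy h ≤ 2 * M := by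
  have h1 := bp_sum_J (fun h => t h * zz x y hy h)
  simp only [TT_zz t (fun r => r) x y hy] at h1
  -- split the ordered sum
  have h2 : ∑ u, ∑ v, ∑ c, TT t u v c * (y u v + x u c + x v c) =
      ∑ u, ∑ v, y u v * (∑ c, TT t u v c) + 2 * ∑ v, ∑ c, x v c * (∑ u, TT t u v c) := by
    have e1 : ∑ u, ∑ v, ∑ c, TT t u v c * (y u v + x u c + x v c) =
        ∑ u, ∑ v, y u v * (∑ c, TT t u v c) + ∑ u, ∑ v, ∑ c, TT t u v c * x u c +
          ∑ u, ∑ v, ∑ c, TT t u v c * x v c := by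
      rw [← Finset.sum_add_distrib, ← Finset.sum_add_distrib]
      refine Finset.sum_congr rfl fun u _ => ?_
      rw [← Finset.sum_add_distrib, ← Finset.sum_add_distrib]
      refine Finset.sum_congr rfl fun v _ => ?_
      rw [Finset.mul_sum, ← Finset.sum_add_distrib, ← Finset.sum_add_distrib]
      exact Finset.sum_congr rfl fun c _ => by ring
    have e2 : ∑ u, ∑ v, ∑ c, TT t u v c * x v c = ∑ v, ∑ c, x v c * (∑ u, TT t u v c) := by
      rw [Finset.sum_comm]
      refine Finset.sum_congr rfl fun v _ => ?_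
      rw [Finset.sum_comm]
      refine Finset.sum_congr rfl fun c _ => ?_
      rw [Finset.mul_sum]
      exact Finset.sum_congr rfl fun u _ => by ring
    have e3 : ∑ u, ∑ v, ∑ c, TT t u v c * x u c = ∑ u, ∑ v, ∑ c, TT t u v c * x v c := by
      rw [Finset.sum_comm]
      refine Finset.sum_congr rfl fun v _ => Finset.sum_congr rfl fun u _ =>
        Finset.sum_congr rfl fun c _ => ?_
      rw [TT_symm]
    rw [e1, e3, e2]
    ring
  have h3 : ∑ u, ∑ v, y u v * (∑ c, TT t u v c) ≤ 2 * (M * ∑ v, ρ v) := by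
    have e1 : ∀ u v, y u v * (∑ c, TT t u v c) ≤ ρ u * |∑ c, TT t u v c| +
        ρ v * |∑ c, TT t u v c| := by
      intro u v
      calc y u v * (∑ c, TT t u v c) ≤ |y u v * (∑ c, TT t u v c)| := le_abs_self _
        _ = |y u v| * |∑ c, TT t u v c| := abs_mul _ _
        _ ≤ (ρ u + ρ v) * |∑ c, TT t u v c| :=
            mul_le_mul_of_nonneg_right (hyy u v) (abs_nonneg _)
        _ = _ := by ring
    have e2 : ∑ u, ∑ v, ρ v * |∑ c, TT t u v c| ≤ M * ∑ v, ρ v := by
      rw [Finset.sum_comm, Finset.mul_sum]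
      refine Finset.sum_le_sum fun v _ => ?_
      rw [← Finset.mul_sum, mul_comm]
      exact mul_le_mul_of_nonneg_right (hQ v) (hρ v)
    have e3 : ∑ u, ∑ v, ρ u * |∑ c, TT t u v c| = ∑ u, ∑ v, ρ v * |∑ c, TT t u v c| := by
      rw [Finset.sum_comm]
      refine Finset.sum_congr rfl fun v _ => Finset.sum_congr rfl fun u _ => ?_
      congr 2
      exact Finset.sum_congr rfl fun c _ => TT_symm _ _ _ _
    calc ∑ u, ∑ v, y u v * (∑ c, TT t u v c)
        ≤ ∑ u, ∑ v, (ρ u * |∑ c, TT t u v c| + ρ v * |∑ c, TT t u v c|) :=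
          Finset.sum_le_sum fun u _ => Finset.sum_le_sum fun v _ => e1 u v
      _ = ∑ u, ∑ v, ρ u * |∑ c, TT t u v c| + ∑ u, ∑ v, ρ v * |∑ c, TT t u v c| := by
          simp only [Finset.sum_add_distrib]
      _ ≤ 2 * (M * ∑ v, ρ v) := by rw [e3]; linarith
  have h4 : ∑ v, ∑ c, x v c * (∑ u, TT t u v c) ≤ M * ∑ v, τ v + 2 * (M * ∑ c, κ c) := by
    have e1 : ∀ v c, x v c * (∑ u, TT t u v c) ≤ τ v * |∑ u, TT t u v c| +
        κ c * |∑ u, TT t u v c| := by
      intro v c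
      calc x v c * (∑ u, TT t u v c) ≤ |x v c * (∑ u, TT t u v c)| := le_abs_self _
        _ = |x v c| * |∑ u, TT t u v c| := abs_mul _ _
        _ ≤ (τ v + κ c) * |∑ u, TT t u v c| :=
            mul_le_mul_of_nonneg_right (hx v c) (abs_nonneg _)
        _ = _ := by ring
    have e2 : ∑ v, ∑ c, τ v * |∑ u, TT t u v c| ≤ M * ∑ v, τ v := by
      rw [Finset.mul_sum]
      refine Finset.sum_le_sum fun v _ => ?_
      rw [← Finset.mul_sum, mul_comm]
      exact mul_le_mul_of_nonneg_right (hR v) (hτ v)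
    have e4 : ∀ v c, |∑ u, TT t u v c| ≤ |∑ u with u < v, TT t u v c| +
        |∑ u with v < u, TT t u v c| := by
      intro v c
      have e5 : ∑ u, TT t u v c = ∑ u with u < v, TT t u v c +
          ∑ u with v < u, TT t u v c := by
        rw [← Finset.sum_filter_add_sum_filter_not univ (fun u => u < v)]
        congr 1
        symm
        apply Finset.sum_subset
        · intro u hu
          simp only [Finset.mem_filter, Finset.mem_univ, true_and, not_lt] at hu ⊢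
          exact hu.le
        · intro u hu hu2
          simp only [Finset.mem_filter, Finset.mem_univ, true_and, not_lt] at hu hu2
          have : u = v := le_antisymm hu2 hu
          unfold TT
          rw [dif_neg]
          rw [not_not, this]
          exact Sym2.mk_isDiag_iff.2 rfl
      rw [e5]
      exact abs_add_le _ _
    have e3 : ∑ v, ∑ c, κ c * |∑ u, TT t u v c| ≤ 2 * (M * ∑ c, κ c) := by
      rw [Finset.sum_comm, Finset.mul_sum, Finset.mul_sum]
      refine Finset.sum_le_sum fun c _ => ?_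
      rw [← Finset.mul_sum]
      have e6 : ∑ v, |∑ u, TT t u v c| ≤ 2 * M := by
        calc ∑ v, |∑ u, TT t u v c| ≤ ∑ v, (|∑ u with u < v, TT t u v c| +
              |∑ u with v < u, TT t u v c|) := Finset.sum_le_sum fun v _ => e4 v c
          _ = ∑ v, |∑ u with u < v, TT t u v c| + ∑ v, |∑ u with v < u, TT t u v c| :=
              Finset.sum_add_distrib
          _ ≤ 2 * M := by have := hK1 c; have := hK2 c; linarith
      calc κ c * ∑ v, |∑ u, TT t u v c| ≤ κ c * (2 * M) :=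
            mul_le_mul_of_nonneg_left e6 (hκ c)
        _ = 2 * (M * κ c) := by ring
    calc ∑ v, ∑ c, x v c * (∑ u, TT t u v c)
        ≤ ∑ v, ∑ c, (τ v * |∑ u, TT t u v c| + κ c * |∑ u, TT t u v c|) :=
          Finset.sum_le_sum fun v _ => Finset.sum_le_sum fun c _ => e1 v c
      _ = ∑ v, ∑ c, τ v * |∑ u, TT t u v c| + ∑ v, ∑ c, κ c * |∑ u, TT t u v c| := by
          simp only [Finset.sum_add_distrib]
      _ ≤ _ := add_le_add e2 e3
  have hτ0 : 0 ≤ ∑ v, τ v := Finset.sum_nonneg fun v _ => hτ v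
  have hκ0 : 0 ≤ ∑ c, κ c := Finset.sum_nonneg fun v _ => hκ v
  have hρ0 : 0 ≤ ∑ v, ρ v := Finset.sum_nonneg fun v _ => hρ v
  nlinarith [mul_nonneg hM hτ0, mul_nonneg hM hκ0, mul_nonneg hM hρ0,
    mul_le_mul_of_nonneg_left hs hM]

/-- a block is parametrised by the second endpoint -/
theorem bp_blk (t : J n → ℝ) (v : Fin (2 * n)) (c : Fin (2 * n - 1)) (P : Fin (2 * n) → Prop)
    [DecidablePred P] :
    ∑ h ∈ univ.filter (fun h : J n => h.1 = c ∧ ∃ u, P u ∧ h.2.1 = s(u, v)), t h =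
      ∑ u with P u, TT t u v c := by
  have h1 : ∑ u with P u, TT t u v c = ∑ u with (P u ∧ u ≠ v), TT t u v c := by
    symm
    apply Finset.sum_subset
    · intro u hu
      simp only [Finset.mem_filter, Finset.mem_univ, true_and] at hu ⊢
      exact hu.1
    · intro u hu hu2
      simp only [Finset.mem_filter, Finset.mem_univ, true_and] at hu hu2
      have : u = v := by
        by_contra hc
        exact hu2 ⟨hu, hc⟩
      unfold TT
      rw [dif_neg]
      rw [not_not, this]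
      exact Sym2.mk_isDiag_iff.2 rfl
  rw [h1]
  symm
  have hd : ∀ u ∈ univ.filter (fun u => P u ∧ u ≠ v),
      ¬ (s(u, v) : Sym2 (Fin (2 * n))).IsDiag := by
    intro u hu
    rw [Sym2.mk_isDiag_iff]
    exact (Finset.mem_filter.1 hu).2.2
  refine Finset.sum_bij (fun u hu => (c, ⟨s(u, v), hd u hu⟩)) ?_ ?_ ?_ ?_
  · intro u hu
    simp only [Finset.mem_filter, Finset.mem_univ, true_and]
    exact ⟨u, (Finset.mem_filter.1 hu).2.1, rfl⟩
  · intro u hu u' hu' h
    have h2 := congrArg (fun p : J n => p.2.1) h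
    exact Sym2.congr_left.1 h2
  · rintro ⟨c', e⟩ hh
    simp only [Finset.mem_filter, Finset.mem_univ, true_and] at hh
    obtain ⟨rfl, u, hu, he⟩ := hh
    refine ⟨u, ?_, ?_⟩
    · simp only [Finset.mem_filter, Finset.mem_univ, true_and]
      refine ⟨hu, fun huv => e.2 ?_⟩
      rw [he, huv]
      exact Sym2.mk_isDiag_iff.2 rfl
    · exact Prod.ext rfl (Subtype.ext he.symm)
  · intro u hu
    unfold TT
    rw [dif_pos (hd u hu)]

/-- a star block is parametrised by the colour -/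
theorem bp_blkQ (t : J n → ℝ) (u v : Fin (2 * n)) :
    ∑ h ∈ univ.filter (fun h : J n => h.2.1 = s(u, v)), t h = ∑ c, TT t u v c := by
  by_cases hd : ¬ (s(u, v) : Sym2 (Fin (2 * n))).IsDiag
  · symm
    refine Finset.sum_bij (fun c _ => (c, ⟨s(u, v), hd⟩)) ?_ ?_ ?_ ?_
    · intro c _
      simp
    · intro c _ c' _ h
      exact congrArg Prod.fst h
    · rintro ⟨c', e⟩ hh
      simp only [Finset.mem_filter, Finset.mem_univ, true_and] at hh
      exact ⟨c', Finset.mem_univ _, Prod.ext rfl (Subtype.ext hh.symm)⟩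
    · intro c _
      unfold TT
      rw [dif_pos hd]
  · have h1 : univ.filter (fun h : J n => h.2.1 = s(u, v)) = ∅ := by
      rw [Finset.filter_eq_empty_iff]
      intro h _ he
      exact hd (he ▸ h.2.2)
    rw [h1, Finset.sum_empty]
    symm
    apply Finset.sum_eq_zero
    intro c _
    unfold TT
    rw [dif_neg hd]

/-- the blocks: rows, stars, and the two halves of the columns -/
noncomputable def BB : (Fin (2 * n) ⊕ Fin (2 * n)) ⊕ (Fin (2 * n - 1) ⊕ Fin (2 * n - 1)) →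
    (Fin (2 * n) ⊕ Fin (2 * n - 1)) → Finset (J n)
  | .inl (.inl v), .inr c => univ.filter (fun h => h.1 = c ∧ ∃ u, True ∧ h.2.1 = s(u, v))
  | .inl (.inl _), .inl _ => ∅
  | .inl (.inr v), .inl u => univ.filter (fun h => h.2.1 = s(u, v))
  | .inl (.inr _), .inr _ => ∅
  | .inr (.inl c), .inl v => univ.filter (fun h => h.1 = c ∧ ∃ u, u < v ∧ h.2.1 = s(u, v))
  | .inr (.inl _), .inr _ => ∅
  | .inr (.inr c), .inl v => univ.filter (fun h => h.1 = c ∧ ∃ u, v < u ∧ h.2.1 = s(u, v))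
  | .inr (.inr _), .inr _ => ∅

theorem bp_disj (j : (Fin (2 * n) ⊕ Fin (2 * n)) ⊕ (Fin (2 * n - 1) ⊕ Fin (2 * n - 1)))
    (i i' : Fin (2 * n) ⊕ Fin (2 * n - 1)) (hi : i ≠ i') : Disjoint (BB j i) (BB j i') := by
  rw [Finset.disjoint_left]
  intro h h1 h2
  rcases j with (v | v) | (c | c) <;> rcases i with u | a <;> rcases i' with u' | a' <;>
    simp only [BB, Finset.mem_filter, Finset.mem_univ, true_and, Finset.notMem_empty] at h1 h2
  · exact hi (by rw [← h1.1, ← h2.1])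
  · rw [h1] at h2
    exact hi (by rw [Sym2.congr_left.1 h2])
  · obtain ⟨_, w, hw, h1⟩ := h1
    obtain ⟨_, w', hw', h2⟩ := h2
    rw [h1, Sym2.eq_iff] at h2
    rcases h2 with ⟨_, h3⟩ | ⟨h3, h4⟩
    · exact hi (by rw [h3])
    · rw [h3, h4] at hw
      exact absurd hw (not_lt.2 hw'.le)
  · obtain ⟨_, w, hw, h1⟩ := h1
    obtain ⟨_, w', hw', h2⟩ := h2
    rw [h1, Sym2.eq_iff] at h2
    rcases h2 with ⟨_, h3⟩ | ⟨h3, h4⟩
    · exact hi (by rw [h3])
    · rw [h3, h4] at hw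
      exact absurd hw (not_lt.2 hw'.le)

theorem bp_TT_one_le (u v : Fin (2 * n)) (c : Fin (2 * n - 1)) :
    TT (fun _ : J n => (1 : ℝ)) u v c ≤ if u = v then 0 else 1 := by
  unfold TT
  by_cases hd : ¬ (s(u, v) : Sym2 (Fin (2 * n))).IsDiag
  · rw [dif_pos hd, if_neg]
    rwa [Sym2.mk_isDiag_iff] at hd
  · rw [dif_neg hd]
    split_ifs <;> norm_num

theorem bp_TT_one_nonneg (u v : Fin (2 * n)) (c : Fin (2 * n - 1)) :
    0 ≤ TT (fun _ : J n => (1 : ℝ)) u v c := by
  unfold TT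
  split_ifs <;> norm_num

theorem bp_card (j : (Fin (2 * n) ⊕ Fin (2 * n)) ⊕ (Fin (2 * n - 1) ⊕ Fin (2 * n - 1)))
    (i : Fin (2 * n) ⊕ Fin (2 * n - 1)) : ((BB j i).card : ℝ) ≤ ((2 * n - 1 : ℕ) : ℝ) := by
  have h0 : ∀ (v : Fin (2 * n)) (c : Fin (2 * n - 1)) (P : Fin (2 * n) → Prop) [DecidablePred P],
      ((univ.filter (fun h : J n => h.1 = c ∧ ∃ u, P u ∧ h.2.1 = s(u, v))).card : ℝ) ≤
        ((2 * n - 1 : ℕ) : ℝ) := by
    intro v c P _
    have h1 := bp_blk (fun _ : J n => (1 : ℝ)) v c P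
    rw [Finset.sum_const, nsmul_eq_mul, mul_one] at h1
    rw [h1]
    calc ∑ u with P u, TT (fun _ : J n => (1 : ℝ)) u v c
        ≤ ∑ u, TT (fun _ : J n => (1 : ℝ)) u v c :=
          Finset.sum_le_sum_of_subset_of_nonneg (Finset.filter_subset _ _)
            fun u _ _ => bp_TT_one_nonneg u v c
      _ ≤ ∑ u, (if u = v then (0 : ℝ) else 1) :=
          Finset.sum_le_sum fun u _ => bp_TT_one_le u v c
      _ = ((2 * n - 1 : ℕ) : ℝ) := by
          have h2 : ∑ u : Fin (2 * n), (if u = v then (0 : ℝ) else 1) =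
              ∑ u : Fin (2 * n), ((1 : ℝ) - if u = v then 1 else 0) := by
            refine Finset.sum_congr rfl fun u _ => ?_
            split_ifs <;> norm_num
          rw [h2, Finset.sum_sub_distrib, Finset.sum_ite_eq', if_pos (Finset.mem_univ v),
            Finset.sum_const, Finset.card_univ, Fintype.card_fin, nsmul_eq_mul, mul_one,
            Nat.cast_sub (by have := v.2; omega)]
          norm_num
  have hN : (0 : ℝ) ≤ ((2 * n - 1 : ℕ) : ℝ) := Nat.cast_nonneg _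
  rcases j with (v | v) | (c | c) <;> rcases i with u | a <;> simp only [BB]
  · rw [Finset.card_empty, Nat.cast_zero]; exact hN
  · exact h0 _ _ (fun _ => True)
  · have h1 := bp_blkQ (fun _ : J n => (1 : ℝ)) u v
    rw [Finset.sum_const, nsmul_eq_mul, mul_one] at h1
    rw [h1]
    calc ∑ c, TT (fun _ : J n => (1 : ℝ)) u v c ≤ ∑ c : Fin (2 * n - 1), (1 : ℝ) := by
          refine Finset.sum_le_sum fun c _ => (bp_TT_one_le u v c).trans ?_
          split_ifs <;> norm_num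
      _ = ((2 * n - 1 : ℕ) : ℝ) := by
          rw [Finset.sum_const, Finset.card_univ, Fintype.card_fin, nsmul_eq_mul, mul_one]
  · rw [Finset.card_empty, Nat.cast_zero]; exact hN
  · exact h0 _ _ (fun w => w < u)
  · rw [Finset.card_empty, Nat.cast_zero]; exact hN
  · exact h0 _ _ (fun w => u < w)
  · rw [Finset.card_empty, Nat.cast_zero]; exact hN

/-- the linear part is bounded by the largest block sum -/
theorem bp_lin' (t : J n → ℝ) (x : Fin (2 * n) → Fin (2 * n - 1) → ℝ)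
    (y : Fin (2 * n) → Fin (2 * n) → ℝ) (hy : Sy y) (τ : Fin (2 * n) → ℝ)
    (κ : Fin (2 * n - 1) → ℝ) (ρ : Fin (2 * n) → ℝ) (hτ : ∀ v, 0 ≤ τ v) (hκ : ∀ c, 0 ≤ κ c)
    (hρ : ∀ v, 0 ≤ ρ v) (hx : ∀ v c, |x v c| ≤ τ v + κ c) (hyy : ∀ u v, |y u v| ≤ ρ u + ρ v)
    (hs : ∑ v, τ v + ∑ c, κ c + ∑ v, ρ v ≤ 1) (M : ℝ) (hM : 0 ≤ M)
    (hB : ∀ j, ∑ i, |∑ h ∈ BB j i, t h| ≤ M) :
    ∑ h, t h * zz x y hy h ≤ 2 * M := by
  refine bp_lin t x y hy τ κ ρ hτ hκ hρ hx hyy hs M hM ?_ ?_ ?_ ?_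
  · intro v
    have h := hB (.inl (.inl v))
    rw [Fintype.sum_sum_type] at h
    simp only [BB, Finset.sum_empty, abs_zero, Finset.sum_const_zero, zero_add,
      bp_blk t v _ (fun _ => True)] at h
    simpa using h
  · intro v
    have h := hB (.inl (.inr v))
    rw [Fintype.sum_sum_type] at h
    simpa only [BB, Finset.sum_empty, abs_zero, Finset.sum_const_zero, add_zero,
      bp_blkQ t] using h
  · intro c
    have h := hB (.inr (.inl c))
    rw [Fintype.sum_sum_type] at h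
    simp only [BB, Finset.sum_empty, abs_zero, Finset.sum_const_zero, add_zero] at h
    refine le_trans (le_of_eq ?_) h
    exact Finset.sum_congr rfl fun v _ => by rw [bp_blk t v c (fun u => u < v)]
  · intro c
    have h := hB (.inr (.inr c))
    rw [Fintype.sum_sum_type] at h
    simp only [BB, Finset.sum_empty, abs_zero, Finset.sum_const_zero, add_zero] at h
    refine le_trans (le_of_eq ?_) h
    exact Finset.sum_congr rfl fun v _ => by rw [bp_blk t v c (fun u => v < u)]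

/-- normalised data -/
def BGood (z : J n → ℝ) : Prop :=
  ∃ (x : Fin (2 * n) → Fin (2 * n - 1) → ℝ) (y : Fin (2 * n) → Fin (2 * n) → ℝ) (hy : Sy y)
    (τ : Fin (2 * n) → ℝ) (κ : Fin (2 * n - 1) → ℝ) (ρ : Fin (2 * n) → ℝ),
    (∀ v, 0 ≤ τ v) ∧ (∀ c, 0 ≤ κ c) ∧ (∀ v, 0 ≤ ρ v) ∧ (∀ v c, |x v c| ≤ τ v + κ c) ∧
    (∀ u v, |y u v| ≤ ρ u + ρ v) ∧ (∑ v, τ v + ∑ c, κ c + ∑ v, ρ v ≤ 1) ∧ z = zz x y hy

theorem BGood_zero : BGood (fun _ : J n => (0 : ℝ)) := by
  refine ⟨fun _ _ => 0, fun _ _ => 0, ⟨fun _ _ => rfl, fun _ => rfl⟩, fun _ => 0, fun _ => 0,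
    fun _ => 0, fun _ => le_refl _, fun _ => le_refl _, fun _ => le_refl _, by simp, by simp,
    by simp, ?_⟩
  funext h
  unfold zz
  rcases h with ⟨c, e, he⟩
  induction e using Sym2.ind with
  | _ u v => simp

/-- a violation of the law of large numbers gives normalised data -/
theorem bp_viol {pm pp d η : ℝ} (hp : Par (1 / 8) n pm pp d) (s : J n → Fin 3)
    (hs : ¬ Bulk η 0 d (Lm n s) (fun _ _ => True)) :
    ∃ z : J n → ℝ, BGood z ∧
      η * d * ((2 * n - 1 : ℕ) : ℝ) / 4 ≤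
        ∑ h, (pm - (if s h = 2 then (1 : ℝ) else 0)) * |z h| := by
  unfold Bulk at hs
  push Not at hs
  obtain ⟨x, y, hy, -, τ, κ, ρ, hτ, hκ, hρ, hx, hyy, hlt⟩ := hs
  rw [Fintype.card_fin, bp_TH x y hy, bp_SL s x y hy] at hlt
  set N : ℝ := ((2 * n - 1 : ℕ) : ℝ) with hN
  have hN1 : (2 * n - 1 : ℝ) = N := by
    rw [hN, Nat.cast_sub (by have := hp.n6; omega)]
    push_cast
    ring
  have hN0 : 0 < N := by
    have h6 : (6 : ℝ) ≤ n := by exact_mod_cast hp.n6
    rw [← hN1]; linarith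
  have hd : 0 < d := lt_of_lt_of_le one_pos hp.d1
  have hlo := hp.lo
  rw [hN1] at hlo
  set Sg : ℝ := ∑ v, τ v + ∑ c, κ c + ∑ v, ρ v with hSg
  have hτ0 : 0 ≤ ∑ v, τ v := Finset.sum_nonneg fun v _ => hτ v
  have hκ0 : 0 ≤ ∑ c, κ c := Finset.sum_nonneg fun v _ => hκ v
  have hρ0 : 0 ≤ ∑ v, ρ v := Finset.sum_nonneg fun v _ => hρ v
  have hSg0 : 0 ≤ Sg := by rw [hSg]; linarith
  have hA0 : 0 ≤ ∑ h, |zz x y hy h| := Finset.sum_nonneg fun _ _ => abs_nonneg _
  have hB0 : 0 ≤ ∑ h, (if s h = 2 then (1 : ℝ) else 0) * |zz x y hy h| :=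
    Finset.sum_nonneg fun h _ => mul_nonneg (by split_ifs <;> norm_num) (abs_nonneg _)
  set A : ℝ := ∑ h, |zz x y hy h| with hA
  set B : ℝ := ∑ h, (if s h = 2 then (1 : ℝ) else 0) * |zz x y hy h| with hB
  have hSgpos : 0 < Sg := by
    rcases hSg0.lt_or_eq with h | h
    · exact h
    · exfalso
      have t0 : ∑ v, τ v = 0 := by linarith
      have k0 : ∑ c, κ c = 0 := by linarith
      have r0 : ∑ v, ρ v = 0 := by linarith
      have t1 : ∀ v, τ v = 0 := fun v =>
        (Finset.sum_eq_zero_iff_of_nonneg (fun v _ => hτ v)).1 t0 v (Finset.mem_univ v)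
      have k1 : ∀ v, κ v = 0 := fun v =>
        (Finset.sum_eq_zero_iff_of_nonneg (fun v _ => hκ v)).1 k0 v (Finset.mem_univ v)
      have r1 : ∀ v, ρ v = 0 := fun v =>
        (Finset.sum_eq_zero_iff_of_nonneg (fun v _ => hρ v)).1 r0 v (Finset.mem_univ v)
      have x1 : ∀ v c, x v c = 0 := fun v c =>
        abs_nonpos_iff.1 (by have := hx v c; rw [t1, k1] at this; linarith)
      have y1 : ∀ u v, y u v = 0 := fun u v =>
        abs_nonpos_iff.1 (by have := hyy u v; rw [r1, r1] at this; linarith)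
      have z1 : ∀ h, zz x y hy h = 0 := by
        rintro ⟨c, e, he⟩
        unfold zz
        induction e using Sym2.ind with
        | _ u v => simp [x1, y1]
      have A1 : A = 0 := by
        rw [hA]
        exact Finset.sum_eq_zero fun h _ => by rw [z1 h, abs_zero]
      have B1 : B = 0 := by
        rw [hB]
        exact Finset.sum_eq_zero fun h _ => by rw [z1 h, abs_zero, mul_zero]
      rw [A1, B1, ← h] at hlt
      simp at hlt
  have hmain : η * d * N / 4 * Sg ≤ pm * A - B := by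
    have h1 : d * (2 * A) > 2 * N * (2 * B) + N * d * (η * (N * Sg)) := by
      have h2 := hlt
      simp only [zero_mul, add_zero] at h2
      linarith
    have h3 : 2 * (d * A) ≤ 4 * (N * pm) * A := by
      have h4 : d ≤ 2 * (N * pm) := by linarith
      nlinarith [mul_le_mul_of_nonneg_right h4 hA0]
    have h5 : N * d * (η * (N * Sg)) ≤ 4 * N * (pm * A - B) := by nlinarith
    have h6 : N * (d * (η * (N * Sg))) ≤ N * (4 * (pm * A - B)) := by nlinarith
    have h7 := le_of_mul_le_mul_left h6 hN0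
    linarith
  -- normalise
  refine ⟨fun h => Sg⁻¹ * zz x y hy h, ?_, ?_⟩
  · refine ⟨fun v c => Sg⁻¹ * x v c, fun u v => Sg⁻¹ * y u v,
      ⟨fun u v => by rw [hy.symm u v], fun v => by rw [hy.diag v, mul_zero]⟩,
      fun v => Sg⁻¹ * τ v, fun c => Sg⁻¹ * κ c, fun v => Sg⁻¹ * ρ v,
      fun v => mul_nonneg (inv_nonneg.2 hSg0) (hτ v),
      fun v => mul_nonneg (inv_nonneg.2 hSg0) (hκ v),
      fun v => mul_nonneg (inv_nonneg.2 hSg0) (hρ v), ?_, ?_, ?_, ?_⟩
    · intro v c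
      rw [abs_mul, abs_of_nonneg (inv_nonneg.2 hSg0), ← mul_add]
      exact mul_le_mul_of_nonneg_left (hx v c) (inv_nonneg.2 hSg0)
    · intro u v
      rw [abs_mul, abs_of_nonneg (inv_nonneg.2 hSg0), ← mul_add]
      exact mul_le_mul_of_nonneg_left (hyy u v) (inv_nonneg.2 hSg0)
    · rw [← Finset.mul_sum, ← Finset.mul_sum, ← Finset.mul_sum, ← mul_add, ← mul_add,
        inv_mul_cancel₀ hSgpos.ne']
    · funext h
      rcases h with ⟨c, e, he⟩
      unfold zz
      induction e using Sym2.ind with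
      | _ u v =>
        simp only [Sym2.lift_mk]
        ring
  · have h1 : ∑ h, (pm - (if s h = 2 then (1 : ℝ) else 0)) * |Sg⁻¹ * zz x y hy h| =
        Sg⁻¹ * (pm * A - B) := by
      rw [hA, hB, Finset.mul_sum, ← Finset.sum_sub_distrib, Finset.mul_sum]
      refine Finset.sum_congr rfl fun h _ => ?_
      rw [abs_mul, abs_of_nonneg (inv_nonneg.2 hSg0)]
      ring
    rw [h1, ← div_eq_inv_mul, le_div_iff₀ hSgpos]
    exact hmain

theorem bulk_prob {n : ℕ} {pm pp d η : ℝ} (hp : Par (1 / 8) n pm pp d) (hη : 0 < η) :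
    Pr (qq pm pp) (fun s : J n → Fin 3 => ¬ Bulk η 0 d (Lm n s) (fun _ _ => True)) ≤
      100 / (η * √d) := by
  classical
  have hq := qq_nonneg hp.pm0 hp.pmpp hp.pp1
  have hq1 := qq_sum pm pp
  set N : ℝ := ((2 * n - 1 : ℕ) : ℝ) with hN
  have hN1 : (2 * n - 1 : ℝ) = N := by
    rw [hN, Nat.cast_sub (by have := hp.n6; omega)]
    push_cast
    ring
  have h6 : (6 : ℝ) ≤ n := by exact_mod_cast hp.n6
  have hN0 : 0 < N := by rw [← hN1]; linarith
  have hd : 0 < d := lt_of_lt_of_le one_pos hp.d1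
  set b : Fin 3 → ℝ := fun a => if a = 2 then 1 else 0 with hb
  have hqb : ∑ a, qq pm pp a * b a = pm := by
    simp [qq, hb]
  set g : ℝ := η * d * N / 4 with hg
  have hg0 : 0 < g := by positivity
  -- the family
  have hZ : ∀ s : J n → Fin 3, ∃ z : J n → ℝ, BGood z ∧
      (¬ Bulk η 0 d (Lm n s) (fun _ _ => True) →
        g ≤ ∑ h, (pm - b (s h)) * |z h|) := by
    intro s
    by_cases hs : Bulk η 0 d (Lm n s) (fun _ _ => True)
    · exact ⟨fun _ => 0, BGood_zero, fun h => absurd hs h⟩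
    · obtain ⟨z, h1, h2⟩ := bp_viol hp s hs
      exact ⟨z, h1, fun _ => h2⟩
  choose Z hZ1 hZ2 using hZ
  set z : Option (J n → Fin 3) → J n → ℝ := fun o => o.elim (fun _ => 0) Z with hz
  have hzG : ∀ o, BGood (z o) := by
    intro o
    cases o with
    | none => exact BGood_zero
    | some s => exact hZ1 s
  set F : (J n → Fin 3) → ℝ := fun s => univ.sup' univ_nonempty
      (fun i : Option (J n → Fin 3) =>
        ∑ h, ((∑ a, qq pm pp a * b a) - b (s h)) * |z i h|) with hF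
  have hF0 : ∀ s, 0 ≤ F s := by
    intro s
    refine le_trans (le_of_eq ?_) (Finset.le_sup' (fun i : Option (J n → Fin 3) =>
        ∑ h, ((∑ a, qq pm pp a * b a) - b (s h)) * |z i h|) (Finset.mem_univ none))
    simp [hz]
  have hFg : ∀ s, ¬ Bulk η 0 d (Lm n s) (fun _ _ => True) → g ≤ F s := by
    intro s hs
    refine le_trans (hZ2 s hs) (le_trans (le_of_eq ?_) (Finset.le_sup'
      (fun i : Option (J n → Fin 3) =>
        ∑ h, ((∑ a, qq pm pp a * b a) - b (s h)) * |z i h|) (Finset.mem_univ (some s))))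
    simp only [hqb, hz, Option.elim]
  have hPr := Pr_markov (I := J n) hq hg0 hF0 hFg
  have hC := contraction (I := J n) (qq pm pp) hq hq1 b z
  have hcap : Nonempty ((Fin (2 * n) ⊕ Fin (2 * n)) ⊕ (Fin (2 * n - 1) ⊕ Fin (2 * n - 1))) :=
    ⟨.inl (.inl ⟨0, by have := hp.n6; omega⟩)⟩
  have hBl := block_max (I := J n) (qq pm pp) hq hq1 b
    (fun a => by by_cases h : a = 2 <;> simp [hb, h]) BB bp_disj N bp_card
  have hstep : Ex (qq pm pp) (fun s : J n → Fin 3 => Ex (qq pm pp)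
      (fun s' : J n → Fin 3 => univ.sup' univ_nonempty
        (fun i : Option (J n → Fin 3) => ∑ h, (b (s' h) - b (s h)) * z i h))) ≤
      2 * Ex (qq pm pp) (fun s : J n → Fin 3 => Ex (qq pm pp)
        (fun s' : J n → Fin 3 => univ.sup' univ_nonempty
          (fun j => ∑ i, |∑ h ∈ BB j i, (b (s' h) - b (s h))|))) := by
    rw [← Ex_mul_left]
    refine Ex_mono hq fun s => ?_
    rw [← Ex_mul_left]
    refine Ex_mono hq fun s' => ?_
    refine Finset.sup'_le _ _ fun o _ => ?_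
    obtain ⟨x, y, hy, τ, κ, ρ, hτ, hκ, hρ, hx, hyy, hsum, hzz⟩ := hzG o
    rw [hzz]
    have hle : ∀ j, ∑ i, |∑ h ∈ BB j i, (b (s' h) - b (s h))| ≤ univ.sup' univ_nonempty
          (fun j => ∑ i, |∑ h ∈ BB j i, (b (s' h) - b (s h))|) := fun j =>
      Finset.le_sup' (fun j => ∑ i, |∑ h ∈ BB j i, (b (s' h) - b (s h))|) (Finset.mem_univ j)
    refine bp_lin' (fun h => b (s' h) - b (s h)) x y hy τ κ ρ hτ hκ hρ hx hyy hsum _ ?_ hle
    exact le_trans (Finset.sum_nonneg fun _ _ => abs_nonneg _) (hle hcap.some)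
  rw [hqb] at hBl
  have hcι : (Fintype.card (Fin (2 * n) ⊕ Fin (2 * n - 1)) : ℝ) ≤ 4 * n := by
    have : Fintype.card (Fin (2 * n) ⊕ Fin (2 * n - 1)) ≤ 4 * n := by
      rw [Fintype.card_sum, Fintype.card_fin, Fintype.card_fin]; omega
    exact_mod_cast this
  have hcκ : (Fintype.card ((Fin (2 * n) ⊕ Fin (2 * n)) ⊕
      (Fin (2 * n - 1) ⊕ Fin (2 * n - 1))) : ℝ) ≤ 8 * n := by
    have : Fintype.card ((Fin (2 * n) ⊕ Fin (2 * n)) ⊕
      (Fin (2 * n - 1) ⊕ Fin (2 * n - 1))) ≤ 8 * n := by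
      simp only [Fintype.card_sum, Fintype.card_fin]; omega
    exact_mod_cast this
  have hpN : pm * N ≤ 9 / 8 * d := by
    have h1 := hp.hi
    rw [hN1] at h1
    have h2 : N * pm ≤ N * pp := mul_le_mul_of_nonneg_left hp.pmpp hN0.le
    linarith
  have hpN0 : 0 ≤ pm * N := mul_nonneg hp.pm0 hN0.le
  have hsd : 0 < √d := Real.sqrt_pos.2 hd
  have hsd2 : √d ^ 2 = d := Real.sq_sqrt hd.le
  have hn0 : (0 : ℝ) ≤ n := by linarith
  have hX1 : (Fintype.card (Fin (2 * n) ⊕ Fin (2 * n - 1)) : ℝ) * √(2 * pm * N) ≤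
      6 * (n * √d) := by
    have h1 : √(2 * pm * N) ≤ 3 / 2 * √d := by
      rw [Real.sqrt_le_iff]
      refine ⟨by positivity, ?_⟩
      rw [mul_pow, hsd2]
      linarith
    calc (Fintype.card (Fin (2 * n) ⊕ Fin (2 * n - 1)) : ℝ) * √(2 * pm * N)
        ≤ (4 * n) * (3 / 2 * √d) := mul_le_mul hcι h1 (Real.sqrt_nonneg _) (by positivity)
      _ = 6 * (n * √d) := by ring
  have hX2 : √(2 * pm * (Fintype.card ((Fin (2 * n) ⊕ Fin (2 * n)) ⊕
      (Fin (2 * n - 1) ⊕ Fin (2 * n - 1))) : ℝ) *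
      (Fintype.card (Fin (2 * n) ⊕ Fin (2 * n - 1)) : ℝ) * N) ≤ 17 / 2 * (n * √d) := by
    rw [Real.sqrt_le_iff]
    refine ⟨by positivity, ?_⟩
    rw [mul_pow, mul_pow, hsd2]
    calc 2 * pm * (Fintype.card ((Fin (2 * n) ⊕ Fin (2 * n)) ⊕
        (Fin (2 * n - 1) ⊕ Fin (2 * n - 1))) : ℝ) *
        (Fintype.card (Fin (2 * n) ⊕ Fin (2 * n - 1)) : ℝ) * N
        = (2 * (pm * N)) * ((Fintype.card ((Fin (2 * n) ⊕ Fin (2 * n)) ⊕
        (Fin (2 * n - 1) ⊕ Fin (2 * n - 1))) : ℝ) *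
        (Fintype.card (Fin (2 * n) ⊕ Fin (2 * n - 1)) : ℝ)) := by ring
      _ ≤ (2 * (9 / 8 * d)) * ((8 * n) * (4 * n)) := by
          refine mul_le_mul (by linarith) (mul_le_mul hcκ hcι (Nat.cast_nonneg _)
            (by positivity)) (by positivity) (by positivity)
      _ ≤ (17 / 2) ^ 2 * (n ^ 2 * d) := by nlinarith [mul_nonneg (sq_nonneg (n : ℝ)) hd.le]
  have hEF : Ex (qq pm pp) F ≤ 29 * (n * √d) := by
    have h1 := le_trans hC hstep
    have h2 := le_trans h1 (mul_le_mul_of_nonneg_left hBl (by norm_num : (0 : ℝ) ≤ 2))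
    refine le_trans h2 ?_
    linarith
  refine le_trans hPr ?_
  rw [div_le_div_iff₀ hg0 (mul_pos hη hsd)]
  have hnN : 11 * (n : ℝ) ≤ 6 * N := by rw [← hN1]; linarith
  calc Ex (qq pm pp) F * (η * √d) ≤ 29 * (n * √d) * (η * √d) :=
        mul_le_mul_of_nonneg_right hEF (mul_pos hη hsd).le
    _ = 29 * n * η * √d ^ 2 := by ring
    _ = 29 * η * d * n := by rw [hsd2]; ring
    _ ≤ 100 * g := by
        rw [hg]
        have h1 := mul_le_mul_of_nonneg_left hnN (mul_pos hη hd).le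
        nlinarith [mul_pos (mul_pos hη hd) hN0]

end BulkP

end Pool.Agent.Lib.FR
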