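import Pool.Agent.Lib.MP_6d56f7_co_FR.Stars

/-!
# The covering property of the large and of the small system
-/

set_option autoImplicit false

namespace Pool.Agent.Lib.FR

open Finset

/-- expectation of a product over independent blocks -/
theorem Ex_block {K T S : Type} [Fintype K] [DecidableEq K] [Fintype T] [DecidableEq T]
    [Fintype S] (q : S → ℝ) (F : T → (K → S) → ℝ) :
    Ex q (fun s : K × T → S => ∏ e, F e (fun c => s (c, e))) = ∏ e, Ex q (F e) := by
  classical
  have h := Ex_prod (I := T) (S := K → S) (fun a => ∏ c, q (a c)) F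
  unfold Ex at h ⊢
  rw [← h]
  refine Fintype.sum_equiv (((Equiv.prodComm K T).arrowCongr (Equiv.refl S)).trans
    (Equiv.curry T K S)) _ _ fun s => ?_
  have h1 : ∀ e c, (((Equiv.prodComm K T).arrowCongr (Equiv.refl S)).trans
    (Equiv.curry T K S)) s e c = s (c, e) := fun e c => rfl
  simp only [h1]
  congr 1
  rw [← Finset.univ_product_univ, Finset.prod_product, Finset.prod_comm]

section

variable {n : ℕ} {pm pp : ℝ}

theorem Pr_zero (h0 : 0 ≤ pm) (h1 : pm ≤ pp) (h2 : pp ≤ 1) (Y : Finset (J n)) :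
    Pr (qq pm pp) (fun s : J n → Fin 3 => ∀ j ∈ Y, s j = 0) ≤ Real.exp (-(pp * Y.card)) := by
  classical
  have hpp : 0 ≤ pp := h0.trans h1
  have h := Ex_gen pm pp 0 0 (∅ : Finset (J n)) Y (disjoint_empty_left _)
  have h3 : Pr (qq pm pp) (fun s : J n → Fin 3 => ∀ j ∈ Y, s j = 0) ≤
      pp ^ (∅ : Finset (J n)).card * (1 - pp + (pp - pm) * 0 + pm * 0) ^ Y.card := by
    rw [← h]
    refine Pr_le_Ex (qq_nonneg h0 h1 h2) (fun s => prod_nonneg fun i _ => ?_) ?_
    · split_ifs <;> first | exact zero_le_one | exact le_rfl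
    · intro s hs
      refine le_of_eq (Eq.symm (prod_eq_one fun i _ => ?_))
      by_cases hi : i ∈ Y
      · simp [hi, hs i hi]
      · simp [hi]
  refine h3.trans ?_
  rw [card_empty, pow_zero, one_mul, mul_zero, mul_zero, add_zero, add_zero]
  have h4 : 1 - pp ≤ Real.exp (-pp) := by
    have := Real.add_one_le_exp (-pp)
    linarith
  calc (1 - pp) ^ Y.card ≤ (Real.exp (-pp)) ^ Y.card :=
        pow_le_pow_left₀ (by linarith) h4 _
    _ = Real.exp (-(pp * Y.card)) := by
        rw [← Real.exp_nat_mul]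
        ring_nf

/-- the large system is covering -/
theorem cov_high (hn : 1 ≤ n) (h0 : 0 ≤ pm) (h1 : pm ≤ pp) (h2 : pp ≤ 1) :
    Pr (qq pm pp) (fun s : J n → Fin 3 => ∃ a : El n, ∀ j ∈ st n a, s j = 0) ≤
      6 * n ^ 2 * Real.exp (-((2 * n - 1) * pp)) := by
  classical
  have hq := qq_nonneg h0 h1 h2
  have h3 : Pr (qq pm pp) (fun s : J n → Fin 3 => ∃ a : El n, ∀ j ∈ st n a, s j = 0) ≤
      ∑ a : El n, Pr (qq pm pp) (fun s : J n → Fin 3 => ∀ j ∈ st n a, s j = 0) := by
    refine (Pr_mono hq ?_).trans (Pr_exists hq univ _)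
    rintro s ⟨a, ha⟩
    exact ⟨a, mem_univ _, ha⟩
  have hcast : ((2 * n - 1 : ℕ) : ℝ) = 2 * n - 1 := by
    rw [Nat.cast_sub (by omega)]
    push_cast
    ring
  have h4 : ∀ a : El n, Pr (qq pm pp) (fun s : J n → Fin 3 => ∀ j ∈ st n a, s j = 0) ≤
      Real.exp (-((2 * n - 1) * pp)) := by
    intro a
    refine (Pr_zero h0 h1 h2 _).trans ?_
    rw [st_card, hcast]
    exact le_of_eq (by ring_nf)
  refine h3.trans ((sum_le_sum fun a _ => h4 a).trans ?_)
  rw [sum_const, card_univ, El_card, nsmul_eq_mul]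
  refine mul_le_mul_of_nonneg_right ?_ (Real.exp_pos _).le
  push_cast
  rw [hcast]
  have : (1 : ℝ) ≤ n := by exact_mod_cast hn
  nlinarith

/-- the lists of the small system are not all nonempty -/
theorem cov_low (h0 : 0 ≤ pm) (h1 : pm ≤ pp) (h2 : pp ≤ 1) :
    Pr (qq pm pp) (fun s : J n → Fin 3 => ∀ e, ∃ c, s (c, e) = 2) ≤
      Real.exp (-((n * (2 * n - 1) : ℕ) * (1 - pm) ^ (2 * n - 1))) := by
  classical
  have hq := qq_nonneg h0 h1 h2
  let F : Edge (Fin (2 * n)) → (Fin (2 * n - 1) → Fin 3) → ℝ :=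
    fun _ r => 1 - ∏ c, if r c = 2 then (0 : ℝ) else 1
  have hF : ∀ e r, F e r = if ∃ c, r c = 2 then 1 else 0 := by
    intro e r
    by_cases h : ∃ c, r c = 2
    · rw [if_pos h]
      obtain ⟨c, hc⟩ := h
      simp only [F]
      rw [prod_eq_zero (mem_univ c) (by rw [if_pos hc]), sub_zero]
    · rw [if_neg h]
      simp only [F]
      rw [prod_eq_one, sub_self]
      intro c _
      rw [if_neg]
      exact fun h' => h ⟨c, h'⟩
  have h3 : Pr (qq pm pp) (fun s : J n → Fin 3 => ∀ e, ∃ c, s (c, e) = 2) ≤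
      Ex (qq pm pp) (fun s : J n → Fin 3 => ∏ e, F e (fun c => s (c, e))) := by
    refine Pr_le_Ex hq (fun s => prod_nonneg fun e _ => ?_) ?_
    · rw [hF e]
      split_ifs <;> first | exact zero_le_one | exact le_rfl
    · intro s hs
      refine le_of_eq (Eq.symm (prod_eq_one fun e _ => ?_))
      rw [hF e, if_pos (hs e)]
  have h4 : ∀ e, Ex (qq pm pp) (F e) = 1 - (1 - pm) ^ (2 * n - 1) := by
    intro e
    have h5 := Ex_sub (I := Fin (2 * n - 1)) (qq pm pp) (fun _ => 1)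
      (fun r => ∏ c, if r c = 2 then (0 : ℝ) else 1)
    have h6 := Ex_prod (I := Fin (2 * n - 1)) (qq pm pp)
      (fun _ a => if a = 2 then (0 : ℝ) else 1)
    have h7 : ∑ a, qq pm pp a * (if a = 2 then (0 : ℝ) else 1) = 1 - pm := by
      simp [qq, Fin.sum_univ_three]
    rw [h7, prod_const, card_univ, Fintype.card_fin] at h6
    rw [Ex_const (qq_sum pm pp), h6] at h5
    exact h5
  rw [Ex_block, prod_congr rfl fun e _ => h4 e, prod_const, card_univ, edge_card] at h3
  refine h3.trans ?_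
  have hx0 : 0 ≤ (1 - pm) ^ (2 * n - 1) := pow_nonneg (by linarith) _
  have hx1 : (1 - pm) ^ (2 * n - 1) ≤ 1 := pow_le_one₀ (by linarith) (by linarith)
  have h8 : 1 - (1 - pm) ^ (2 * n - 1) ≤ Real.exp (-(1 - pm) ^ (2 * n - 1)) := by
    have := Real.add_one_le_exp (-(1 - pm) ^ (2 * n - 1))
    linarith
  calc (1 - (1 - pm) ^ (2 * n - 1)) ^ (n * (2 * n - 1))
      ≤ (Real.exp (-(1 - pm) ^ (2 * n - 1))) ^ (n * (2 * n - 1)) :=
        pow_le_pow_left₀ (by linarith) h8 _
    _ = Real.exp (-((n * (2 * n - 1) : ℕ) * (1 - pm) ^ (2 * n - 1))) := by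
        rw [← Real.exp_nat_mul]
        ring_nf

end

end Pool.Agent.Lib.FR
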