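import Mathlib

set_option autoImplicit false

/-!
Project FR (MP_dcb6ed_co, MP_6d56f7_co): fractional 1-factorizations of `K_{2n}` from random lists.

* Deterministic part: a family of lists is a symmetric kernel `L : V → V → Finset C` with
  `L v v = ∅`; the hyperedges are the triples `(u, v, c)` with `c ∈ L u v`, each unordered one
  counted twice.  A real function on the objects (edges, and pairs vertex-colour) is a pair
  `x : V → C → ℝ`, `y : V → V → ℝ` (`y` symmetric, zero on the diagonal), and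
  `z(u, v, c) = y u v + x u c + x v c`.
* Random part: every pair (colour, edge) gets a state in `Fin 3`:
  `2` (in the small list system), `1` (only in the large one), `0` (in none).
-/

namespace Pool.Agent.Lib.FR

open Finset

/-- the edges of the complete graph on `V` -/
abbrev Edge (V : Type) : Type := {e : Sym2 V // ¬ e.IsDiag}

section Kernel

variable {V C : Type} [Fintype V] [DecidableEq V] [Fintype C] [DecidableEq C]

/-- the lists form a symmetric kernel without diagonal -/
structure Ker (L : V → V → Finset C) : Prop where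
  symm : ∀ u v, L u v = L v u
  diag : ∀ v, L v v = ∅

/-- the degree of the pair `(v, c)` -/
def dP (L : V → V → Finset C) (v : V) (c : C) : ℕ := (univ.filter (fun u => c ∈ L u v)).card

/-- `y` is symmetric and vanishes on the diagonal -/
structure Sy (y : V → V → ℝ) : Prop where
  symm : ∀ u v, y u v = y v u
  diag : ∀ v, y v v = 0

/-- sum of `|z(h)|` over the (ordered) hyperedges of `L` -/
noncomputable def SL (L : V → V → Finset C) (x : V → C → ℝ) (y : V → V → ℝ) : ℝ :=
  ∑ u, ∑ v, ∑ c ∈ L u v, |y u v + x u c + x v c|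

/-- sum of `|z(h)|` over all (ordered) hyperedges of the complete host -/
noncomputable def TH (x : V → C → ℝ) (y : V → V → ℝ) : ℝ :=
  ∑ u, ∑ v, if u = v then 0 else ∑ c, |y u v + x u c + x v c|

/-- the norm of `(x, y)`, each object counted twice -/
noncomputable def nrm (x : V → C → ℝ) (y : V → V → ℝ) : ℝ :=
  2 * (∑ v, ∑ c, |x v c|) + ∑ u, ∑ v, |y u v|

/-- the norm of the restriction of `(x, y)` to the objects in `SP`, `SE` -/
noncomputable def nrmS (SP : V → C → Prop) (SE : V → V → Prop) (x : V → C → ℝ)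
    (y : V → V → ℝ) : ℝ := by
  classical exact 2 * (∑ v, ∑ c, if SP v c then |x v c| else 0) +
    ∑ u, ∑ v, if SE u v then |y u v| else 0

/-- local sparsity of the row graphs and of the column graphs -/
structure Sparse (ε θ d : ℝ) (L : V → V → Finset C) : Prop where
  row : ∀ (v : V) (A : Finset V) (Y : Finset C),
    ((A.card : ℝ) ≤ θ * Fintype.card C ∨ (Y.card : ℝ) ≤ θ * Fintype.card C) →
    (((A ×ˢ Y).filter (fun p => p.2 ∈ L p.1 v)).card : ℝ) ≤ ε * d * (A.card + Y.card)
  col : ∀ (c : C) (A Y : Finset V), (A.card : ℝ) ≤ θ * Fintype.card C →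
    (((A ×ˢ Y).filter (fun p => c ∈ L p.1 p.2)).card : ℝ) ≤ ε * d * (A.card + Y.card)

/-- all degrees are at most `D` -/
structure MaxDeg (D : ℝ) (L : V → V → Finset C) : Prop where
  edge : ∀ u v, ((L u v).card : ℝ) ≤ D
  pair : ∀ v c, (dP L v c : ℝ) ≤ D

/-- the uniform law of large numbers for the functions with row and column scales which satisfy
`W` -/
def Bulk (η η' d : ℝ) (L : V → V → Finset C) (W : (V → C → ℝ) → (V → V → ℝ) → Prop) : Prop :=
  ∀ (x : V → C → ℝ) (y : V → V → ℝ), Sy y → W x y →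
    ∀ (τ : V → ℝ) (κ : C → ℝ) (ρ : V → ℝ), (∀ v, 0 ≤ τ v) → (∀ c, 0 ≤ κ c) → (∀ v, 0 ≤ ρ v) →
      (∀ v c, |x v c| ≤ τ v + κ c) → (∀ u v, |y u v| ≤ ρ u + ρ v) →
      d * TH x y ≤ 2 * Fintype.card C * SL L x y +
        Fintype.card C * d * (η * (Fintype.card C * (∑ v, τ v + ∑ c, κ c + ∑ v, ρ v)) +
          η' * nrm x y)

/-- `(x, y)` vanishes on the removed objects -/
def Zero (RP : V → C → Prop) (RE : V → V → Prop) (x : V → C → ℝ) (y : V → V → ℝ) : Prop :=
  (∀ v c, RP v c → x v c = 0) ∧ ∀ u v, RE u v → y u v = 0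

/-- the rows of `x` have median zero -/
def Med (x : V → C → ℝ) : Prop :=
  ∀ v, 2 * (univ.filter (fun c => 0 < x v c)).card ≤ Fintype.card C ∧
    2 * (univ.filter (fun c => x v c < 0)).card ≤ Fintype.card C

/-- no hyperedge of `L` contains a removed object, and in every row as many pairs as edges are
removed -/
structure Red (L : V → V → Finset C) (RP : V → C → Prop) (RE : V → V → Prop) : Prop where
  symm : ∀ u v, RE u v → RE v u
  edge : ∀ u v, RE u v → L u v = ∅
  pair : ∀ v c, RP v c → ∀ u, c ∉ L u v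
  bal : ∀ v, Nat.card {c : C // RP v c} = Nat.card {u : V // u ≠ v ∧ RE u v}

/-- all objects which are not removed have degree at least `D` -/
structure MinDeg (D : ℝ) (L : V → V → Finset C) (RP : V → C → Prop) (RE : V → V → Prop) :
    Prop where
  edge : ∀ u v, u ≠ v → ¬ RE u v → D ≤ ((L u v).card : ℝ)
  pair : ∀ v c, ¬ RP v c → D ≤ (dP L v c : ℝ)

/-- outside the bad sets `BP`, `BE` (and the removed objects) the degrees are within `δ d` of `d`,
and every object has at most `δ' d` bad neighbours -/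
structure Near (δ δ' d : ℝ) (L : V → V → Finset C) (RP : V → C → Prop) (RE : V → V → Prop)
    (BP : V → C → Prop) (BE : V → V → Prop) : Prop where
  symm : ∀ u v, BE u v → BE v u
  goodE : ∀ u v, u ≠ v → ¬ RE u v → ¬ BE u v → |((L u v).card : ℝ) - d| ≤ δ * d
  goodP : ∀ v c, ¬ RP v c → ¬ BP v c → |(dP L v c : ℝ) - d| ≤ δ * d
  fewE : ∀ u v, (Nat.card {c : C // c ∈ L u v ∧ (BP u c ∨ BP v c)} : ℝ) ≤ δ' * d
  fewP : ∀ v c, (Nat.card {u : V // c ∈ L u v ∧ (BE u v ∨ BP u c)} : ℝ) ≤ δ' * d

end Kernel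

section Random

/-- the index set: pairs (colour, edge) of `K_{2n}` -/
abbrev J (n : ℕ) : Type := Fin (2 * n - 1) × Edge (Fin (2 * n))

/-- weights of the three states -/
noncomputable def qq (pm pp : ℝ) : Fin 3 → ℝ := ![1 - pp, pp - pm, pm]

/-- expectation in a finite product space with coordinate weights `q` -/
noncomputable def Ex {I S : Type} [Fintype I] [DecidableEq I] [Fintype S] (q : S → ℝ)
    (F : (I → S) → ℝ) : ℝ := ∑ s : I → S, (∏ i, q (s i)) * F s

/-- probability in a finite product space with coordinate weights `q` -/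
noncomputable def Pr {I S : Type} [Fintype I] [DecidableEq I] [Fintype S] (q : S → ℝ)
    (A : (I → S) → Prop) : ℝ := by
  classical exact Ex q (fun s => if A s then 1 else 0)

/-- the kernel of the coordinates whose state satisfies `P` -/
def LL (n : ℕ) (P : Fin 3 → Prop) [DecidablePred P] (s : J n → Fin 3) :
    Fin (2 * n) → Fin (2 * n) → Finset (Fin (2 * n - 1)) :=
  fun u v => univ.filter (fun c =>
    ∃ h : ¬ (s(u, v) : Sym2 (Fin (2 * n))).IsDiag, P (s (c, ⟨s(u, v), h⟩)))

/-- the small list system -/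
abbrev Lm (n : ℕ) (s : J n → Fin 3) := LL n (fun a => a = 2) s

/-- the large list system -/
abbrev Lp (n : ℕ) (s : J n → Fin 3) := LL n (fun a => a ≠ 0) s

/-- the parameters of the model: both densities are close to `d / (2n-1)` -/
structure Par (γ : ℝ) (n : ℕ) (pm pp d : ℝ) : Prop where
  n6 : 6 ≤ n
  pm0 : 0 ≤ pm
  pmpp : pm ≤ pp
  pp1 : pp ≤ 1
  d1 : 1 ≤ d
  lo : (1 - γ) * d ≤ (2 * n - 1 : ℝ) * pm
  hi : (2 * n - 1 : ℝ) * pp ≤ (1 + γ) * d

/-- an object pair `(v, c)` is bad: its degree is far from `d` -/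
def BadP (δ d : ℝ) (n : ℕ) (s : J n → Fin 3) (v : Fin (2 * n)) (c : Fin (2 * n - 1)) : Prop :=
  (dP (Lm n s) v c : ℝ) < (1 - δ) * d ∨ (1 + δ) * d < (dP (Lp n s) v c : ℝ)

/-- the edge `uv` is bad: the size of its list is far from `d` -/
def BadE (δ d : ℝ) (n : ℕ) (s : J n → Fin 3) (u v : Fin (2 * n)) : Prop :=
  u ≠ v ∧ (((Lm n s u v).card : ℝ) < (1 - δ) * d ∨ (1 + δ) * d < ((Lp n s u v).card : ℝ))

/-- every object has few bad neighbours -/
structure FewBad (δ δ' d : ℝ) (n : ℕ) (s : J n → Fin 3) : Prop where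
  fewE : ∀ u v, (Nat.card {c // c ∈ Lp n s u v ∧ (BadP δ d n s u c ∨ BadP δ d n s v c)} : ℝ) ≤
    δ' * d
  fewP : ∀ v c, (Nat.card {u // c ∈ Lp n s u v ∧ (BadE δ d n s u v ∨ BadP δ d n s u c)} : ℝ) ≤
    δ' * d

end Random

end Pool.Agent.Lib.FR
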