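import Mathlib

set_option autoImplicit false

/-!
# Edmonds' theorem on the perfect matching polytope

A symmetric weight function on the pairs of a finite set which satisfies the degree equations and
the odd cut inequalities is a convex combination of perfect matchings.
-/

namespace Pool.Agent.Lib.FR

open Finset

/-- `σ` is the partner map of a perfect matching -/
def IsPM {V : Type*} (σ : V → V) : Prop := ∀ v, σ (σ v) = v ∧ σ v ≠ v

/-- the weight of the cut `(W, complement of W)` -/
def cut {V : Type*} [Fintype V] [DecidableEq V] (x : V → V → ℝ) (W : Finset V) : ℝ :=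
  ∑ u ∈ W, ∑ v ∈ Wᶜ, x u v

/-- nonnegative symmetric weights with the degree equations and the odd cut inequalities -/
structure Edm {V : Type*} [Fintype V] [DecidableEq V] (x : V → V → ℝ) : Prop where
  nonneg : ∀ u v, 0 ≤ x u v
  symm : ∀ u v, x u v = x v u
  diag : ∀ v, x v v = 0
  deg : ∀ v, ∑ u, x v u = 1
  odd : ∀ W : Finset V, Odd W.card → 1 ≤ cut x W

/-- convex combination of perfect matchings -/
def Cvx {V : Type*} [DecidableEq V] (x : V → V → ℝ) : Prop :=
  ∃ (k : ℕ) (w : Fin k → ℝ) (σ : Fin k → V → V), (∀ i, 0 ≤ w i) ∧ (∀ i, IsPM (σ i)) ∧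
    ∑ i, w i = 1 ∧ ∀ u v, x u v = ∑ i, if σ i u = v then w i else 0

namespace Edmonds

universe u0

/-- convex combinations over arbitrary finite index types -/
theorem cvx_of {V : Type*} [DecidableEq V] {x : V → V → ℝ} {ι : Type*} [Fintype ι] (w : ι → ℝ)
    (σ : ι → V → V) (h0 : ∀ i, 0 ≤ w i) (h1 : ∀ i, w i ≠ 0 → IsPM (σ i)) (h2 : ∑ i, w i = 1)
    (h3 : ∀ u v, x u v = ∑ i, if σ i u = v then w i else 0) : Cvx x := by
  classical
  let S : Finset ι := univ.filter fun i => w i ≠ 0
  let e : S ≃ Fin (Fintype.card S) := Fintype.equivFin S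
  have hS : ∀ i : S, w i ≠ 0 := fun i => (mem_filter.1 i.2).2
  have key : ∀ f : ι → ℝ, (∀ i, w i = 0 → f i = 0) →
      ∑ i, f i = ∑ j : Fin (Fintype.card S), f (e.symm j) := by
    intro f hf
    rw [Equiv.sum_comp e.symm (fun i : S => f i), Finset.sum_coe_sort S f]
    symm
    apply Finset.sum_subset (Finset.subset_univ _)
    intro i _ hi
    apply hf
    by_contra hne
    exact hi (mem_filter.2 ⟨mem_univ _, hne⟩)
  refine ⟨Fintype.card S, fun j => w (e.symm j), fun j => σ (e.symm j), fun j => h0 _,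
    fun j => h1 _ (hS _), ?_, fun u v => ?_⟩
  · rw [← key w (fun i hi => hi), h2]
  · rw [h3 u v]
    apply key
    intro i hi
    rw [hi]
    simp

section basic

variable {V : Type*} [Fintype V] [DecidableEq V] {x : V → V → ℝ}

theorem even_card (h : Edm x) : Even (Fintype.card V) := by
  by_contra hne
  have h1 := h.odd univ (Nat.not_even_iff_odd.1 hne)
  unfold cut at h1
  simp at h1
  linarith

theorem cut_compl (h : Edm x) (W : Finset V) : cut x Wᶜ = cut x W := by
  unfold cut
  rw [compl_compl, Finset.sum_comm]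
  exact Finset.sum_congr rfl fun u _ => Finset.sum_congr rfl fun v _ => h.symm _ _

end basic

/-! ### A perfect matching in the support -/

section tutte

variable {V : Type*} [Fintype V] [DecidableEq V] {x : V → V → ℝ}

/-- the graph of the pairs of positive weight -/
def gr (x : V → V → ℝ) (hs : ∀ u v, x u v = x v u) (hd : ∀ v, x v v = 0) : SimpleGraph V where
  Adj u v := 0 < x u v
  symm := ⟨fun u v h => by rw [hs]; exact h⟩
  loopless := ⟨fun v h => by rw [hd] at h; exact lt_irrefl _ h⟩

theorem exists_pm (h : Edm x) : ∃ σ : V → V, IsPM σ ∧ ∀ v, 0 < x v (σ v) := by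
  classical
  set G := gr x h.symm h.diag with hG
  have hT : ∀ u : Set V, ¬ G.IsTutteViolator u := by
    intro U hU
    unfold SimpleGraph.IsTutteViolator at hU
    set G' := ((⊤ : G.Subgraph).deleteVerts U).coe with hG'
    have hverts : ∀ v, v ∈ ((⊤ : G.Subgraph).deleteVerts U).verts ↔ v ∉ U := by
      intro v; simp
    -- the vertices of an odd component
    let Wc : G'.ConnectedComponent → Finset V := fun c =>
      univ.filter fun v => ∃ hv : v ∈ ((⊤ : G.Subgraph).deleteVerts U).verts,
        (⟨v, hv⟩ : ((⊤ : G.Subgraph).deleteVerts U).verts) ∈ c.supp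
    have hWcard : ∀ c, (Wc c).card = c.supp.ncard := by
      intro c
      rw [Set.ncard_eq_toFinset_card']
      symm
      refine Finset.card_bij
        (fun (a : ((⊤ : G.Subgraph).deleteVerts U).verts) _ => (a : V)) ?_ ?_ ?_
      · intro a ha
        rw [Set.mem_toFinset] at ha
        exact mem_filter.2 ⟨mem_univ _, a.2, ha⟩
      · intro a _ b _ hab
        exact Subtype.ext hab
      · intro b hb
        obtain ⟨_, hv, hb'⟩ := mem_filter.1 hb
        exact ⟨⟨b, hv⟩, Set.mem_toFinset.2 hb', rfl⟩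
    have hcut : ∀ c : G'.ConnectedComponent, Odd c.supp.ncard →
        1 ≤ ∑ a ∈ Wc c, ∑ b ∈ U.toFinset, x a b := by
      intro c hc
      have h1 := h.odd (Wc c) (by rw [hWcard]; exact hc)
      refine h1.trans (Finset.sum_le_sum fun a ha => ?_)
      rw [← Finset.sum_filter_add_sum_filter_not (Wc c)ᶜ (fun b => b ∈ U)]
      have h2 : ∑ b ∈ (Wc c)ᶜ.filter (fun b => b ∉ U), x a b = 0 := by
        apply Finset.sum_eq_zero
        intro b hb
        rw [mem_filter, mem_compl] at hb
        by_contra hne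
        have hpos : 0 < x a b := lt_of_le_of_ne (h.nonneg _ _) (Ne.symm hne)
        apply hb.1
        obtain ⟨_, hv, ha'⟩ := mem_filter.1 ha
        refine mem_filter.2 ⟨mem_univ _, (hverts b).2 hb.2, ?_⟩
        rw [SimpleGraph.ConnectedComponent.mem_supp_iff] at ha' ⊢
        refine Eq.trans ?_ ha'
        rw [SimpleGraph.ConnectedComponent.eq]
        apply SimpleGraph.Adj.reachable
        rw [hG', SimpleGraph.Subgraph.coe_adj]
        have hadj : G.Adj b a := by
          show 0 < x b a
          rw [h.symm]; exact hpos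
        simp only [SimpleGraph.Subgraph.deleteVerts_adj, SimpleGraph.Subgraph.verts_top,
          Set.mem_univ, true_and, SimpleGraph.Subgraph.top_adj]
        exact ⟨hb.2, (hverts a).1 hv, hadj⟩
      rw [h2, add_zero]
      apply Finset.sum_le_sum_of_subset_of_nonneg
      · intro b hb
        rw [mem_filter] at hb
        exact Set.mem_toFinset.2 hb.2
      · intro b _ _
        exact h.nonneg _ _
    set O : Finset G'.ConnectedComponent := univ.filter fun c => Odd c.supp.ncard with hO
    have hOcard : G'.oddComponents.ncard = O.card := by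
      rw [Set.ncard_eq_toFinset_card']
      congr 1
      ext c
      simp [hO, SimpleGraph.oddComponents]
    have hdisj : (O : Set G'.ConnectedComponent).PairwiseDisjoint Wc := by
      intro c _ c' _ hne
      rw [Function.onFun, Finset.disjoint_left]
      intro a ha ha'
      obtain ⟨_, hv, h1⟩ := mem_filter.1 ha
      obtain ⟨_, hv', h2⟩ := mem_filter.1 ha'
      rw [SimpleGraph.ConnectedComponent.mem_supp_iff] at h1 h2
      exact hne (h1.symm.trans h2)
    have h1 : (O.card : ℝ) ≤ ∑ c ∈ O, ∑ a ∈ Wc c, ∑ b ∈ U.toFinset, x a b := by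
      have : (O.card : ℝ) = ∑ c ∈ O, (1 : ℝ) := by simp
      rw [this]
      exact Finset.sum_le_sum fun c hc => hcut c (mem_filter.1 hc).2
    rw [← Finset.sum_biUnion hdisj] at h1
    have h2 : ∑ a ∈ O.biUnion Wc, ∑ b ∈ U.toFinset, x a b ≤ ∑ a, ∑ b ∈ U.toFinset, x a b :=
      Finset.sum_le_sum_of_subset_of_nonneg (Finset.subset_univ _)
        fun a _ _ => Finset.sum_nonneg fun b _ => h.nonneg _ _
    rw [Finset.sum_comm (s := univ)] at h2
    have h3 : ∑ b ∈ U.toFinset, ∑ a, x a b = U.toFinset.card := by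
      rw [Finset.sum_congr rfl fun b _ => (?_ : ∑ a, x a b = 1)]
      · simp
      · rw [← h.deg b]
        exact Finset.sum_congr rfl fun a _ => h.symm _ _
    have h2' := h2.trans_eq h3
    have h4 : (O.card : ℝ) ≤ U.toFinset.card := h1.trans h2'
    have h5 : O.card ≤ U.toFinset.card := by exact_mod_cast h4
    rw [hOcard, Set.ncard_eq_toFinset_card'] at hU
    omega
  obtain ⟨M, hM⟩ := SimpleGraph.tutte.2 hT
  have hM1 : ∀ v, ∃! w, M.Adj v w := fun v => hM.1 (hM.2 v)
  choose σ hσ using hM1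
  refine ⟨σ, fun v => ⟨?_, ?_⟩, fun v => ?_⟩
  · exact ((hσ (σ v)).2 v (hσ v).1.symm).symm
  · intro hv
    have := M.adj_sub (hσ v).1
    exact G.ne_of_adj this hv.symm
  · exact M.adj_sub (hσ v).1

end tutte

/-! ### Contraction of the complement of a set -/

section contract

variable {V : Type*} [Fintype V] [DecidableEq V] {x : V → V → ℝ}

/-- the weights after contraction of the complement of `S` -/
def ctr (x : V → V → ℝ) (S : Finset V) : Option S → Option S → ℝ
  | some a, some b => x a b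
  | some a, none => ∑ t ∈ Sᶜ, x a t
  | none, some b => ∑ t ∈ Sᶜ, x t b
  | none, none => 0

theorem sum_option_coe (S : Finset V) (f : V → ℝ) (c : ℝ) (hc : c = ∑ t ∈ Sᶜ, f t)
    (g : Option S → ℝ) (hg0 : g none = c) (hg : ∀ a : S, g (some a) = f a) :
    ∑ b, g b = ∑ v, f v := by
  rw [Fintype.sum_option, hg0, hc, ← Finset.sum_add_sum_compl S f, add_comm]
  congr 1
  rw [← Finset.sum_coe_sort S f]
  exact Finset.sum_congr rfl fun a _ => hg a

theorem edm_ctr (h : Edm x) (S : Finset V) (hS : Odd S.card) (ht : cut x S = 1) :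
    Edm (ctr x S) := by
  classical
  have hnn : ∀ a b, 0 ≤ ctr x S a b := by
    intro a b
    rcases a with _ | a <;> rcases b with _ | b
    · exact le_rfl
    · exact Finset.sum_nonneg fun t _ => h.nonneg _ _
    · exact Finset.sum_nonneg fun t _ => h.nonneg _ _
    · exact h.nonneg _ _
  have hsy : ∀ a b, ctr x S a b = ctr x S b a := by
    intro a b
    rcases a with _ | a <;> rcases b with _ | b
    · rfl
    · exact Finset.sum_congr rfl fun t _ => h.symm _ _
    · exact Finset.sum_congr rfl fun t _ => h.symm _ _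
    · exact h.symm _ _
  have hcard : Even (Fintype.card (Option S)) := by
    rw [Fintype.card_option, Fintype.card_coe]
    exact hS.add_one
  -- sets without the contracted point
  have hodd0 : ∀ W : Finset (Option S), none ∉ W → Odd W.card → 1 ≤ cut (ctr x S) W := by
    intro W hn hW
    let W0 : Finset V := univ.filter fun v => ∃ hv : v ∈ S, some (⟨v, hv⟩ : S) ∈ W
    have hbij : ∀ f : Option S → ℝ, ∀ g : V → ℝ, (∀ a : S, some a ∈ W → f (some a) = g a) →
        ∑ a ∈ W, f a = ∑ v ∈ W0, g v := by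
      intro f g hfg
      symm
      refine Finset.sum_bij' (fun v hv => some ⟨v, (mem_filter.1 hv).2.1⟩)
        (fun a ha => (a.get (by
          rcases a with _ | a
          · exact absurd ha hn
          · rfl) : S)) ?_ ?_ ?_ ?_ ?_
      · intro v hv
        obtain ⟨_, h1, h2⟩ := mem_filter.1 hv
        exact h2
      · intro a ha
        rcases a with _ | a
        · exact absurd ha hn
        · exact mem_filter.2 ⟨mem_univ _, a.2, ha⟩
      · intro v hv
        rfl
      · intro a ha
        rcases a with _ | a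
        · exact absurd ha hn
        · rfl
      · intro v hv
        obtain ⟨_, h1, h2⟩ := mem_filter.1 hv
        exact (hfg ⟨v, h1⟩ h2).symm
    have hc : W.card = W0.card := by
      have := hbij (fun _ => 1) (fun _ => 1) (fun _ _ => rfl)
      simp only [Finset.sum_const, nsmul_eq_mul, mul_one] at this
      exact_mod_cast this
    have h1 := h.odd W0 (hc ▸ hW)
    refine h1.trans (le_of_eq ?_)
    unfold cut
    symm
    refine hbij _ _ fun a ha => ?_
    -- the cut of one vertex
    have hsub : W0 ⊆ S := by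
      intro v hv
      exact (mem_filter.1 hv).2.1
    have e1 : ∑ b ∈ Wᶜ, ctr x S (some a) b = ∑ b, ctr x S (some a) b - ∑ b ∈ W,
        ctr x S (some a) b := by
      rw [← Finset.sum_add_sum_compl W]
      ring
    have e2 : ∑ v ∈ W0ᶜ, x a v = ∑ v, x a v - ∑ v ∈ W0, x a v := by
      rw [← Finset.sum_add_sum_compl W0]
      ring
    rw [e1, e2, hbij (fun b => ctr x S (some a) b) (fun v => x a v) (fun b _ => rfl),
      sum_option_coe S (fun v => x a v) _ rfl (fun b => ctr x S (some a) b) rfl (fun b => rfl)]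
  refine ⟨hnn, hsy, ?_, ?_, ?_⟩
  · intro v
    rcases v with _ | v
    · rfl
    · exact h.diag _
  · intro v
    rcases v with _ | v
    · rw [Fintype.sum_option]
      have e1 : ctr x S none none = 0 := rfl
      have e2 : ∑ b : S, ctr x S none (some b) = ∑ b : S, ∑ t ∈ Sᶜ, x t b := rfl
      rw [e1, e2, zero_add, Finset.sum_coe_sort S (fun b => ∑ t ∈ Sᶜ, x t b)]
      rw [← ht]
      unfold cut
      exact Finset.sum_congr rfl fun u _ => Finset.sum_congr rfl fun v _ => h.symm _ _
    · rw [sum_option_coe S (fun b => x v b) _ rfl (fun b => ctr x S (some v) b) rfl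
        (fun b => rfl)]
      exact h.deg _
  · intro W hW
    by_cases hn : none ∈ W
    · have h1 : Odd (Wᶜ).card := by
        rw [Finset.card_compl]
        exact Nat.Even.sub_odd (Finset.card_le_univ _) hcard hW
      have h2 := hodd0 Wᶜ (by simpa using hn) h1
      refine h2.trans (le_of_eq ?_)
      unfold cut
      rw [compl_compl, Finset.sum_comm]
      exact Finset.sum_congr rfl fun u _ => Finset.sum_congr rfl fun v _ => hsy _ _
    · exact hodd0 W hn hW

/-- two partner maps are glued along a cut -/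
def glue (S : Finset V) (σ₁ : Option S → Option S)
    (σ₂ : Option (Sᶜ : Finset V) → Option (Sᶜ : Finset V)) (v : V) : V :=
  if hv : v ∈ S then
    match σ₁ (some ⟨v, hv⟩) with
    | some b => b
    | none => match σ₂ none with
      | some b => b
      | none => v
  else
    match σ₂ (some ⟨v, mem_compl.2 hv⟩) with
    | some b => b
    | none => match σ₁ none with
      | some b => b
      | none => v

theorem isPM_glue (S : Finset V) {σ₁ : Option S → Option S}
    {σ₂ : Option (Sᶜ : Finset V) → Option (Sᶜ : Finset V)} (h₁ : IsPM σ₁) (h₂ : IsPM σ₂) :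
    IsPM (glue S σ₁ σ₂) := by
  obtain ⟨b₁, hb₁⟩ : ∃ b, σ₁ none = some b := Option.ne_none_iff_exists'.1 (h₁ none).2
  obtain ⟨b₂, hb₂⟩ : ∃ b, σ₂ none = some b := Option.ne_none_iff_exists'.1 (h₂ none).2
  have e₁ : σ₁ (some b₁) = none := by rw [← hb₁]; exact (h₁ none).1
  have e₂ : σ₂ (some b₂) = none := by rw [← hb₂]; exact (h₂ none).1
  have hb₂S : (b₂ : V) ∉ S := mem_compl.1 b₂.2
  have g1 : glue S σ₁ σ₂ b₁ = b₂ := by
    unfold glue
    rw [dif_pos b₁.2]
    simp only [Subtype.coe_eta, e₁, hb₂]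
  have g2 : glue S σ₁ σ₂ b₂ = b₁ := by
    unfold glue
    rw [dif_neg hb₂S]
    simp only [Subtype.coe_eta, e₂, hb₁]
  have g3 : ∀ (v : V) (hv : v ∈ S) (c : S), σ₁ (some ⟨v, hv⟩) = some c →
      glue S σ₁ σ₂ v = c := by
    intro v hv c hc
    unfold glue
    rw [dif_pos hv]
    simp only [hc]
  have g4 : ∀ (v : V) (hv : v ∉ S) (c : (Sᶜ : Finset V)),
      σ₂ (some ⟨v, mem_compl.2 hv⟩) = some c → glue S σ₁ σ₂ v = c := by
    intro v hv c hc
    unfold glue
    rw [dif_neg hv]
    simp only [hc]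
  intro v
  by_cases hv : v ∈ S
  · rcases hc : σ₁ (some ⟨v, hv⟩) with _ | c
    · have hvb : b₁ = ⟨v, hv⟩ := by
        have := (h₁ (some ⟨v, hv⟩)).1
        rw [hc, hb₁] at this
        exact Option.some_injective _ this
      have hvb' : (b₁ : V) = v := by rw [hvb]
      rw [← hvb', g1, g2]
      exact ⟨rfl, fun h => hb₂S (h ▸ b₁.2)⟩
    · rw [g3 v hv c hc]
      have h3 : σ₁ (some ⟨(c : V), c.2⟩) = some ⟨v, hv⟩ := by
        rw [Subtype.coe_eta, ← hc]
        exact (h₁ (some ⟨v, hv⟩)).1
      refine ⟨g3 c c.2 _ h3, fun h => ?_⟩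
      apply (h₁ (some ⟨v, hv⟩)).2
      rw [hc]
      congr 1
      exact Subtype.ext h
  · rcases hc : σ₂ (some ⟨v, mem_compl.2 hv⟩) with _ | c
    · have hvb : b₂ = ⟨v, mem_compl.2 hv⟩ := by
        have := (h₂ (some ⟨v, mem_compl.2 hv⟩)).1
        rw [hc, hb₂] at this
        exact Option.some_injective _ this
      have hvb' : (b₂ : V) = v := by rw [hvb]
      rw [← hvb', g2, g1]
      exact ⟨rfl, fun h => hb₂S (h ▸ b₁.2)⟩
    · rw [g4 v hv c hc]
      have hcS : (c : V) ∉ S := mem_compl.1 c.2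
      have h3 : σ₂ (some ⟨(c : V), mem_compl.2 hcS⟩) = some ⟨v, mem_compl.2 hv⟩ := by
        rw [← hc]
        exact (h₂ (some ⟨v, mem_compl.2 hv⟩)).1
      refine ⟨g4 c hcS _ h3, fun h => ?_⟩
      apply (h₂ (some ⟨v, mem_compl.2 hv⟩)).2
      rw [hc]
      congr 1
      exact Subtype.ext h

theorem glue_SS (S : Finset V) {σ₁ : Option S → Option S}
    {σ₂ : Option (Sᶜ : Finset V) → Option (Sᶜ : Finset V)} (h₂ : IsPM σ₂)
    {u v : V} (hu : u ∈ S) (hv : v ∈ S) :
    glue S σ₁ σ₂ u = v ↔ σ₁ (some ⟨u, hu⟩) = some ⟨v, hv⟩ := by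
  obtain ⟨b₂, hb₂⟩ : ∃ b, σ₂ none = some b := Option.ne_none_iff_exists'.1 (h₂ none).2
  have hb₂S : (b₂ : V) ∉ S := mem_compl.1 b₂.2
  unfold glue
  rw [dif_pos hu]
  rcases hc : σ₁ (some ⟨u, hu⟩) with _ | c
  · simp only [hb₂]
    constructor
    · intro h
      exact absurd (h ▸ hv) hb₂S
    · intro h
      exact absurd h (by simp)
  · simp only [Option.some.injEq]
    constructor
    · intro h
      exact Subtype.ext h
    · intro h
      rw [h]

theorem glue_CC (S : Finset V) {σ₁ : Option S → Option S}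
    {σ₂ : Option (Sᶜ : Finset V) → Option (Sᶜ : Finset V)} (h₁ : IsPM σ₁)
    {u v : V} (hu : u ∉ S) (hv : v ∉ S) :
    glue S σ₁ σ₂ u = v ↔ σ₂ (some ⟨u, mem_compl.2 hu⟩) = some ⟨v, mem_compl.2 hv⟩ := by
  obtain ⟨b₁, hb₁⟩ : ∃ b, σ₁ none = some b := Option.ne_none_iff_exists'.1 (h₁ none).2
  unfold glue
  rw [dif_neg hu]
  rcases hc : σ₂ (some ⟨u, mem_compl.2 hu⟩) with _ | c
  · simp only [hb₁]
    constructor
    · intro h
      exact absurd (h ▸ b₁.2) hv
    · intro h
      exact absurd h (by simp)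
  · simp only [Option.some.injEq]
    constructor
    · intro h
      exact Subtype.ext h
    · intro h
      rw [h]

theorem glue_SC (S : Finset V) {σ₁ : Option S → Option S}
    {σ₂ : Option (Sᶜ : Finset V) → Option (Sᶜ : Finset V)} (h₁ : IsPM σ₁) (h₂ : IsPM σ₂)
    {u v : V} (hu : u ∈ S) (hv : v ∉ S) :
    glue S σ₁ σ₂ u = v ↔ (σ₁ none = some ⟨u, hu⟩ ∧ σ₂ none = some ⟨v, mem_compl.2 hv⟩) := by
  obtain ⟨b₂, hb₂⟩ : ∃ b, σ₂ none = some b := Option.ne_none_iff_exists'.1 (h₂ none).2
  have h0 : σ₁ none = some ⟨u, hu⟩ ↔ σ₁ (some ⟨u, hu⟩) = none := by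
    constructor
    · intro h
      rw [← h]
      exact (h₁ none).1
    · intro h
      rw [← h]
      exact (h₁ _).1
  rw [h0]
  unfold glue
  rw [dif_pos hu]
  rcases hc : σ₁ (some ⟨u, hu⟩) with _ | c
  · simp only [hb₂, true_and, Option.some.injEq]
    constructor
    · intro h
      exact Subtype.ext h
    · intro h
      rw [h]
  · simp only [reduceCtorEq, false_and, iff_false]
    intro h
    exact hv (h ▸ c.2)

theorem cvx_glue (h : Edm x) (S : Finset V) (ht : cut x S = 1) (hc₁ : Cvx (ctr x S))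
    (hc₂ : Cvx (ctr x Sᶜ)) : Cvx x := by
  classical
  obtain ⟨k₁, w₁, σ₁, hw₁, hp₁, hs₁, hx₁⟩ := hc₁
  obtain ⟨k₂, w₂, σ₂, hw₂, hp₂, hs₂, hx₂⟩ := hc₂
  have hb : ∀ i, ∃ b : S, σ₁ i none = some b := fun i =>
    Option.ne_none_iff_exists'.1 (hp₁ i none).2
  have ha : ∀ j, ∃ a : (Sᶜ : Finset V), σ₂ j none = some a := fun j =>
    Option.ne_none_iff_exists'.1 (hp₂ j none).2
  choose b hb using hb
  choose a ha using ha
  set β : S → ℝ := fun s => ctr x S none (some s) with hβ
  set α : (Sᶜ : Finset V) → ℝ := fun s => ctr x Sᶜ none (some s) with hα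
  set R : S → (Sᶜ : Finset V) → ℝ := fun s t => x s t / (β s * α t) with hR
  have hβx : ∀ (s : S) (t : (Sᶜ : Finset V)), x s t ≤ β s := by
    intro s t
    show x s t ≤ ∑ t ∈ Sᶜ, x t s
    rw [h.symm]
    exact Finset.single_le_sum (f := fun t => x t s) (fun t _ => h.nonneg _ _) t.2
  have hαx : ∀ (s : S) (t : (Sᶜ : Finset V)), x s t ≤ α t := by
    intro s t
    show x s t ≤ ∑ s ∈ Sᶜᶜ, x s t
    exact Finset.single_le_sum (f := fun s => x s t) (fun s _ => h.nonneg _ _)
      (by rw [compl_compl]; exact s.2)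
  have hβ0 : ∀ s, 0 ≤ β s := fun s => Finset.sum_nonneg fun t _ => h.nonneg _ _
  have hα0 : ∀ s, 0 ≤ α s := fun s => Finset.sum_nonneg fun t _ => h.nonneg _ _
  have hRx : ∀ s t, β s * (α t * R s t) = x s t := by
    intro s t
    by_cases h1 : β s * α t = 0
    · have h2 : x s t = 0 := by
        rcases mul_eq_zero.1 h1 with h3 | h3
        · exact le_antisymm (h3 ▸ hβx s t) (h.nonneg _ _)
        · exact le_antisymm (h3 ▸ hαx s t) (h.nonneg _ _)
      rw [hR]
      simp only [h2, zero_div, mul_zero]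
    · rw [hR, ← mul_assoc]
      exact mul_div_cancel₀ _ h1
  have hR0 : ∀ s t, 0 ≤ R s t := fun s t =>
    div_nonneg (h.nonneg _ _) (mul_nonneg (hβ0 s) (hα0 t))
  -- marginals
  have hm₁ : ∀ F : S → ℝ, ∑ i, w₁ i * F (b i) = ∑ s, β s * F s := by
    intro F
    have e1 : ∀ s, β s = ∑ i, if b i = s then w₁ i else 0 := by
      intro s
      rw [hβ]
      simp only [hx₁, hb, Option.some.injEq]
    simp only [e1, Finset.sum_mul, ite_mul, zero_mul]
    rw [Finset.sum_comm]
    refine Finset.sum_congr rfl fun i _ => ?_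
    rw [Finset.sum_ite_eq]
    simp
  have hm₂ : ∀ F : (Sᶜ : Finset V) → ℝ, ∑ j, w₂ j * F (a j) = ∑ t, α t * F t := by
    intro F
    have e1 : ∀ s, α s = ∑ j, if a j = s then w₂ j else 0 := by
      intro s
      rw [hα]
      simp only [hx₂, ha, Option.some.injEq]
    simp only [e1, Finset.sum_mul, ite_mul, zero_mul]
    rw [Finset.sum_comm]
    refine Finset.sum_congr rfl fun i _ => ?_
    rw [Finset.sum_ite_eq]
    simp
  have hcross : ∀ s : S, ∑ t : (Sᶜ : Finset V), x s t = β s := by
    intro s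
    rw [Finset.sum_coe_sort Sᶜ (fun t => x s t)]
    exact Finset.sum_congr rfl fun t _ => h.symm _ _
  have hcross' : ∀ t : (Sᶜ : Finset V), ∑ s : S, x s t = α t := by
    intro t
    rw [Finset.sum_coe_sort S (fun s => x s t)]
    show _ = ∑ s ∈ Sᶜᶜ, x s t
    rw [compl_compl]
  have hone₁ : ∀ i, w₁ i ≠ 0 → ∑ j, w₂ j * R (b i) (a j) = 1 := by
    intro i hi
    rw [hm₂ (fun t => R (b i) t)]
    have hpos : β (b i) ≠ 0 := by
      have e1 : β (b i) = ∑ i', if b i' = b i then w₁ i' else 0 := by
        rw [hβ]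
        simp only [hx₁, hb, Option.some.injEq]
      have e2 : w₁ i ≤ β (b i) := by
        rw [e1]
        have := Finset.single_le_sum (f := fun i' => if b i' = b i then w₁ i' else 0)
          (s := univ) (fun i' _ => by split_ifs; exacts [hw₁ _, le_rfl]) (mem_univ i)
        simpa using this
      have e3 : 0 < w₁ i := lt_of_le_of_ne (hw₁ i) (Ne.symm hi)
      exact (e3.trans_le e2).ne'
    have e4 : β (b i) * ∑ t, α t * R (b i) t = β (b i) * 1 := by
      rw [Finset.mul_sum, mul_one]
      exact (Finset.sum_congr rfl fun t _ => hRx _ _).trans (hcross (b i))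
    exact mul_left_cancel₀ hpos e4
  have hone₂ : ∀ j, w₂ j ≠ 0 → ∑ i, w₁ i * R (b i) (a j) = 1 := by
    intro j hj
    rw [hm₁ (fun s => R s (a j))]
    have hpos : α (a j) ≠ 0 := by
      have e1 : α (a j) = ∑ j', if a j' = a j then w₂ j' else 0 := by
        rw [hα]
        simp only [hx₂, ha, Option.some.injEq]
      have e2 : w₂ j ≤ α (a j) := by
        rw [e1]
        have := Finset.single_le_sum (f := fun j' => if a j' = a j then w₂ j' else 0)
          (s := univ) (fun j' _ => by split_ifs; exacts [hw₂ _, le_rfl]) (mem_univ j)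
        simpa using this
      have e3 : 0 < w₂ j := lt_of_le_of_ne (hw₂ j) (Ne.symm hj)
      exact (e3.trans_le e2).ne'
    have e4 : α (a j) * ∑ s, β s * R s (a j) = α (a j) * 1 := by
      rw [Finset.mul_sum, mul_one]
      refine (Finset.sum_congr rfl fun s _ => ?_).trans (hcross' (a j))
      rw [← hRx s (a j)]
      ring
    exact mul_left_cancel₀ hpos e4
  have hSC : ∀ u (hu : u ∈ S) v (hv : v ∉ S), x u v = ∑ p : Fin k₁ × Fin k₂,
      if glue S (σ₁ p.1) (σ₂ p.2) u = v then w₁ p.1 * w₂ p.2 * R (b p.1) (a p.2) else 0 := by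
    intro u hu v hv
    rw [← hRx ⟨u, hu⟩ ⟨v, mem_compl.2 hv⟩, Fintype.sum_prod_type]
    have e1 : ∀ i j, (if glue S (σ₁ i) (σ₂ j) u = v then w₁ i * w₂ j * R (b i) (a j) else 0) =
        w₁ i * ((if b i = ⟨u, hu⟩ then 1 else 0) *
          (w₂ j * ((if a j = ⟨v, mem_compl.2 hv⟩ then 1 else 0) *
            R ⟨u, hu⟩ ⟨v, mem_compl.2 hv⟩))) := by
      intro i j
      simp only [glue_SC S (hp₁ i) (hp₂ j) hu hv, hb, ha, Option.some.injEq]
      by_cases h1 : b i = ⟨u, hu⟩
      · by_cases h2 : a j = ⟨v, mem_compl.2 hv⟩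
        · rw [if_pos ⟨h1, h2⟩, if_pos h1, if_pos h2, h1, h2]
          ring
        · rw [if_neg (fun h3 => h2 h3.2), if_neg h2]
          ring
      · rw [if_neg (fun h3 => h1 h3.1), if_neg h1]
        ring
    simp only [e1]
    simp only [← Finset.mul_sum]
    rw [hm₂ (fun t => (if t = ⟨v, mem_compl.2 hv⟩ then 1 else 0) *
      R ⟨u, hu⟩ ⟨v, mem_compl.2 hv⟩), hm₁ (fun s => (if s = ⟨u, hu⟩ then 1 else 0) *
      ∑ t, α t * ((if t = ⟨v, mem_compl.2 hv⟩ then 1 else 0) * R ⟨u, hu⟩ ⟨v, mem_compl.2 hv⟩))]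
    simp
  refine cvx_of (fun p : Fin k₁ × Fin k₂ => w₁ p.1 * w₂ p.2 * R (b p.1) (a p.2))
    (fun p => glue S (σ₁ p.1) (σ₂ p.2))
    (fun p => mul_nonneg (mul_nonneg (hw₁ _) (hw₂ _)) (hR0 _ _))
    (fun p _ => isPM_glue S (hp₁ _) (hp₂ _)) ?_ ?_
  · rw [Fintype.sum_prod_type]
    simp only [mul_assoc, ← Finset.mul_sum]
    rw [hm₁ (fun s => ∑ j, w₂ j * R s (a j))]
    have e1 : ∀ s, ∑ j, w₂ j * R s (a j) = ∑ t, α t * R s t := fun s => hm₂ (fun t => R s t)
    simp only [e1, Finset.mul_sum, hRx, hcross]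
    rw [← ht, cut, ← Finset.sum_coe_sort S]
    exact Finset.sum_congr rfl fun s _ => Finset.sum_congr rfl fun t _ => h.symm _ _
  · intro u v
    by_cases hu : u ∈ S
    · by_cases hv : v ∈ S
      · rw [Fintype.sum_prod_type]
        have e1 : x u v = ∑ i, if σ₁ i (some ⟨u, hu⟩) = some ⟨v, hv⟩ then w₁ i else 0 :=
          hx₁ (some ⟨u, hu⟩) (some ⟨v, hv⟩)
        rw [e1]
        refine Finset.sum_congr rfl fun i _ => ?_
        simp only [glue_SS S (hp₂ _) hu hv]
        by_cases h1 : σ₁ i (some ⟨u, hu⟩) = some ⟨v, hv⟩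
        · simp only [if_pos h1]
          by_cases h2 : w₁ i = 0
          · simp [h2]
          · simp only [mul_assoc, ← Finset.mul_sum]
            rw [hone₁ i h2, mul_one]
        · simp [if_neg h1]
      · exact hSC u hu v hv
    · by_cases hv : v ∈ S
      · rw [h.symm, hSC v hv u hu]
        refine Finset.sum_congr rfl fun p _ => ?_
        have hp := isPM_glue S (hp₁ p.1) (hp₂ p.2)
        have e1 : glue S (σ₁ p.1) (σ₂ p.2) v = u ↔ glue S (σ₁ p.1) (σ₂ p.2) u = v := by
          constructor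
          · intro h1; rw [← h1]; exact (hp v).1
          · intro h1; rw [← h1]; exact (hp u).1
        simp only [e1]
      · rw [Fintype.sum_prod_type, Finset.sum_comm]
        have e1 : x u v = ∑ j, if σ₂ j (some ⟨u, mem_compl.2 hu⟩) = some ⟨v, mem_compl.2 hv⟩
            then w₂ j else 0 :=
          hx₂ (some ⟨u, mem_compl.2 hu⟩) (some ⟨v, mem_compl.2 hv⟩)
        rw [e1]
        refine Finset.sum_congr rfl fun j _ => ?_
        simp only [glue_CC S (hp₁ _) hu hv]
        by_cases h1 : σ₂ j (some ⟨u, mem_compl.2 hu⟩) = some ⟨v, mem_compl.2 hv⟩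
        · simp only [if_pos h1]
          by_cases h2 : w₂ j = 0
          · simp [h2]
          · have e2 : ∀ i, w₁ i * w₂ j * R (b i) (a j) = w₂ j * (w₁ i * R (b i) (a j)) := by
              intro i; ring
            simp only [e2, ← Finset.mul_sum]
            rw [hone₂ j h2, mul_one]
        · simp [if_neg h1]

end contract

/-! ### Peeling off a perfect matching -/

section peel

variable {V : Type*} [Fintype V] [DecidableEq V] {x : V → V → ℝ}

/-- the number of vertices of `W` which are matched to the outside -/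
def ct (σ : V → V) (W : Finset V) : ℕ := (W.filter fun u => σ u ∉ W).card

theorem ct_eq (σ : V → V) (W : Finset V) :
    ∑ u ∈ W, ∑ v ∈ Wᶜ, (if σ u = v then (1 : ℝ) else 0) = ct σ W := by
  unfold ct
  rw [Finset.card_filter, Nat.cast_sum]
  refine Finset.sum_congr rfl fun u _ => ?_
  rw [Finset.sum_ite_eq]
  simp

omit [Fintype V] in
theorem cvx_add {x' : V → V → ℝ} {σ : V → V} (hσ : IsPM σ) {e : ℝ} (h0 : 0 ≤ e) (h1 : e ≤ 1)
    (hx : ∀ u v, x u v = e * (if σ u = v then 1 else 0) + (1 - e) * x' u v) (hc : Cvx x') :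
    Cvx x := by
  obtain ⟨k, w, τ, hw, hτ, hs, hxx⟩ := hc
  refine cvx_of (ι := Option (Fin k)) (fun i => i.elim e fun j => (1 - e) * w j)
    (fun i => i.elim σ τ) ?_ ?_ ?_ ?_
  · intro i
    rcases i with _ | i
    · exact h0
    · exact mul_nonneg (by linarith) (hw i)
  · intro i _
    rcases i with _ | i
    · exact hσ
    · exact hτ i
  · rw [Fintype.sum_option]
    simp only [Option.elim]
    rw [← Finset.mul_sum, hs]
    ring
  · intro u v
    rw [Fintype.sum_option, hx, hxx, Finset.mul_sum]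
    refine congrArg₂ (· + ·) ?_ (Finset.sum_congr rfl fun i _ => ?_)
    · show (e * if σ u = v then (1 : ℝ) else 0) = if σ u = v then e else 0
      split_ifs <;> simp
    · show (1 - e) * (if τ i u = v then w i else 0) = if τ i u = v then (1 - e) * w i else 0
      split_ifs <;> simp

omit [Fintype V] in
theorem cvx_self {σ : V → V} (hσ : IsPM σ) (hx : ∀ u v, x u v = if σ u = v then 1 else 0) :
    Cvx x := by
  refine cvx_of (ι := Unit) (fun _ => 1) (fun _ => σ) (fun _ => zero_le_one) (fun _ _ => hσ)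
    (by simp) ?_
  intro u v
  rw [hx]
  simp

/-- the number of pairs of nonzero weight -/
noncomputable def sz (x : V → V → ℝ) : ℕ := by
  classical exact (univ.filter fun p : V × V => x p.1 p.2 ≠ 0).card

/-- one step of the induction -/
theorem step (h : Edm x) : Cvx x ∨ ∃ (σ : V → V) (e : ℝ) (x' : V → V → ℝ), IsPM σ ∧ 0 ≤ e ∧
    e ≤ 1 ∧ (∀ u v, x u v = e * (if σ u = v then 1 else 0) + (1 - e) * x' u v) ∧ Edm x' ∧
    (sz x' < sz x ∨ ∃ W : Finset V, Odd W.card ∧ 2 ≤ W.card ∧ 2 ≤ (Wᶜ).card ∧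
      cut x' W = 1) := by
  classical
  obtain ⟨σ, hσ, hpos⟩ := exists_pm h
  -- the finitely many bounds for `e`
  let F : Finset ℝ := insert 1 ((univ.image fun v => x v (σ v)) ∪
    ((univ.filter fun W : Finset V => Odd W.card ∧ 2 ≤ ct σ W).image
      fun W => (cut x W - 1) / (ct σ W - 1)))
  have hFne : F.Nonempty := ⟨1, mem_insert_self _ _⟩
  set e := F.min' hFne with he
  have heF : e ∈ F := F.min'_mem hFne
  have hle : ∀ a ∈ F, e ≤ a := fun a ha => F.min'_le a ha
  have he1 : e ≤ 1 := hle 1 (mem_insert_self _ _)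
  have hev : ∀ v, e ≤ x v (σ v) := fun v => hle _ (mem_insert_of_mem (mem_union_left _
    (mem_image_of_mem _ (mem_univ v))))
  have heW : ∀ W : Finset V, Odd W.card → 2 ≤ ct σ W → e * (ct σ W - 1) ≤ cut x W - 1 := by
    intro W hW h2
    have h3 := hle _ (mem_insert_of_mem (mem_union_right _ (mem_image_of_mem
      (fun W : Finset V => (cut x W - 1) / ((ct σ W : ℝ) - 1))
      (mem_filter.2 ⟨mem_univ W, hW, h2⟩))))
    have h4 : (0 : ℝ) < (ct σ W : ℝ) - 1 := by
      have : (2 : ℝ) ≤ ct σ W := by exact_mod_cast h2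
      linarith
    rwa [le_div_iff₀ h4] at h3
  have he0 : 0 ≤ e := by
    rcases mem_insert.1 heF with h1 | h1
    · rw [h1]; exact zero_le_one
    rcases mem_union.1 h1 with h1 | h1
    · obtain ⟨v, _, hv⟩ := mem_image.1 h1
      rw [← hv]; exact h.nonneg _ _
    · obtain ⟨W, hW, hv⟩ := mem_image.1 h1
      obtain ⟨_, hW1, hW2⟩ := mem_filter.1 hW
      rw [← hv]
      have h4 : (0 : ℝ) < (ct σ W : ℝ) - 1 := by
        have : (2 : ℝ) ≤ ct σ W := by exact_mod_cast hW2
        linarith
      exact div_nonneg (by linarith [h.odd W hW1]) h4.le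
  by_cases hone : e = 1
  · left
    apply cvx_self hσ
    intro u v
    have h1 : ∀ v, x v (σ v) = 1 := by
      intro v
      refine le_antisymm ?_ (hone ▸ hev v)
      rw [← h.deg v]
      exact Finset.single_le_sum (f := fun u => x v u) (fun u _ => h.nonneg _ _)
        (mem_univ (σ v))
    by_cases h2 : σ u = v
    · rw [if_pos h2, ← h2, h1]
    · rw [if_neg h2]
      have h3 := h.deg u
      rw [← Finset.add_sum_erase _ _ (mem_univ (σ u)), h1] at h3
      have h4 : ∑ w ∈ univ.erase (σ u), x u w = 0 := by linarith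
      exact (Finset.sum_eq_zero_iff_of_nonneg fun w _ => h.nonneg _ _).1 h4 v
        (mem_erase.2 ⟨fun h5 => h2 h5.symm, mem_univ _⟩)
  right
  have hlt : e < 1 := lt_of_le_of_ne he1 hone
  have hpos1 : (0 : ℝ) < 1 - e := by linarith
  set x' : V → V → ℝ := fun u v => (x u v - e * (if σ u = v then 1 else 0)) / (1 - e) with hx'
  have hxx : ∀ u v, x u v = e * (if σ u = v then 1 else 0) + (1 - e) * x' u v := by
    intro u v
    rw [hx']
    field_simp
    ring
  have hcut : ∀ W : Finset V, cut x' W = (cut x W - e * ct σ W) / (1 - e) := by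
    intro W
    unfold cut
    rw [hx', ← ct_eq σ W]
    simp only [← Finset.sum_div, Finset.sum_sub_distrib, ← Finset.mul_sum]
  have hE : Edm x' := by
    refine ⟨?_, ?_, ?_, ?_, ?_⟩
    · intro u v
      refine div_nonneg ?_ hpos1.le
      by_cases h2 : σ u = v
      · rw [if_pos h2, mul_one, ← h2]
        linarith [hev u]
      · rw [if_neg h2, mul_zero, sub_zero]
        exact h.nonneg _ _
    · intro u v
      show (_ - _) / _ = (_ - _) / _
      have h1 : (σ u = v) ↔ (σ v = u) := by
        constructor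
        · intro h1; rw [← h1]; exact (hσ u).1
        · intro h1; rw [← h1]; exact (hσ v).1
      rw [h.symm u v]
      simp only [h1]
    · intro v
      show (_ - _) / _ = _
      rw [h.diag, if_neg (hσ v).2]
      simp
    · intro v
      rw [hx']
      simp only [← Finset.sum_div, Finset.sum_sub_distrib, ← Finset.mul_sum, h.deg]
      rw [Finset.sum_ite_eq, if_pos (mem_univ _), mul_one]
      exact div_self hpos1.ne'
    · intro W hW
      rw [hcut, le_div_iff₀ hpos1]
      have h1 := h.odd W hW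
      by_cases h2 : 2 ≤ ct σ W
      · have h3 := heW W hW h2
        nlinarith
      · have h3 : (ct σ W : ℝ) ≤ 1 := by
          have : ct σ W ≤ 1 := by omega
          exact_mod_cast this
        nlinarith
  refine ⟨σ, e, x', hσ, he0, he1, hxx, hE, ?_⟩
  rcases mem_insert.1 heF with h1 | h1
  · exact absurd h1 hone
  rcases mem_union.1 h1 with h1 | h1
  · left
    obtain ⟨v, _, hv⟩ := mem_image.1 h1
    unfold sz
    apply Finset.card_lt_card
    rw [Finset.ssubset_iff_of_subset]
    · refine ⟨(v, σ v), mem_filter.2 ⟨mem_univ _, (hpos v).ne'⟩, ?_⟩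
      intro h2
      apply (mem_filter.1 h2).2
      show (_ - _) / _ = (0 : ℝ)
      rw [if_pos rfl, mul_one]
      have : x v (σ v) = e := hv
      rw [this, sub_self, zero_div]
    · intro p hp
      refine mem_filter.2 ⟨mem_univ _, fun h2 => (mem_filter.1 hp).2 ?_⟩
      show (_ - _) / _ = (0 : ℝ)
      have h3 : σ p.1 ≠ p.2 := by
        intro h3
        have := hpos p.1
        rw [h3, h2] at this
        exact lt_irrefl _ this
      rw [h2, if_neg h3]
      simp
  · right
    obtain ⟨W, hW, hv⟩ := mem_image.1 h1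
    obtain ⟨_, hW1, hW2⟩ := mem_filter.1 hW
    refine ⟨W, hW1, hW2.trans (Finset.card_filter_le _ _), ?_, ?_⟩
    · refine hW2.trans ?_
      unfold ct
      apply Finset.card_le_card_of_injOn σ
      · intro u hu
        exact mem_coe.2 (mem_compl.2 (mem_filter.1 (mem_coe.1 hu)).2)
      · intro u _ v _ huv
        rw [← (hσ u).1, huv, (hσ v).1]
    · have h4 : (0 : ℝ) < (ct σ W : ℝ) - 1 := by
        have : (2 : ℝ) ≤ ct σ W := by exact_mod_cast hW2
        linarith
      have h5 : cut x W - 1 = e * (ct σ W - 1) := by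
        rw [← hv]
        field_simp
      rw [hcut, div_eq_iff hpos1.ne']
      linarith

end peel

/-- the induction on the number of vertices -/
theorem main_aux : ∀ (n : ℕ) (V : Type u0) [Fintype V] [DecidableEq V] (x : V → V → ℝ),
    Fintype.card V = n → Edm x → Cvx x := by
  intro n
  induction n using Nat.strong_induction_on with
  | _ n ih =>
    intro V _ _
    -- a tight cut
    have tight : ∀ x : V → V → ℝ, Fintype.card V = n → Edm x → (∃ W : Finset V, Odd W.card ∧
        2 ≤ W.card ∧ 2 ≤ (Wᶜ).card ∧ cut x W = 1) → Cvx x := by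
      intro x hn h hW
      obtain ⟨W, h1, h2, h3, h4⟩ := hW
      have h5 : W.card + (Wᶜ).card = n := by rw [Finset.card_add_card_compl, hn]
      have h6 : Odd (Wᶜ).card := by
        rw [Finset.card_compl]
        exact Nat.Even.sub_odd (Finset.card_le_univ _) (even_card h) h1
      have h7 : cut x Wᶜ = 1 := by rw [cut_compl h, h4]
      refine cvx_glue h W h4 (ih (W.card + 1) (by omega) _ _ (by simp) (edm_ctr h W h1 h4))
        (ih ((Wᶜ).card + 1) (by omega) _ _ ?_ (edm_ctr h Wᶜ h6 h7))
      rw [Fintype.card_option, Fintype.card_coe]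
    have inner : ∀ (k : ℕ) (x : V → V → ℝ), Fintype.card V = n → Edm x → sz x = k → Cvx x := by
      intro k
      induction k using Nat.strong_induction_on with
      | _ k ihk =>
        intro x hn h hk
        rcases step h with h1 | ⟨σ, e, x', hσ, he0, he1, hxx, hE, h2⟩
        · exact h1
        · refine cvx_add hσ he0 he1 hxx ?_
          rcases h2 with h2 | h2
          · exact ihk (sz x') (hk ▸ h2) x' hn hE rfl
          · exact tight x' hn hE h2
    intro x hn h
    exact inner (sz x) x hn h rfl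

end Edmonds

/-- **Edmonds' theorem**: weights which satisfy the degree equations and the odd cut inequalities
are convex combinations of perfect matchings -/
theorem edmonds {V : Type*} [Fintype V] [DecidableEq V] {x : V → V → ℝ} (h : Edm x) : Cvx x :=
  Edmonds.main_aux _ V x rfl h

/-- `M` is a perfect matching of the complete graph on `V` -/
def PerfM {V : Type*} (M : Finset {e : Sym2 V // ¬ e.IsDiag}) : Prop :=
  ∀ v, ∃! e, e ∈ M ∧ v ∈ (e : Sym2 V)

/-- Edmonds' theorem in terms of sets of edges -/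
theorem edmonds_sets {V : Type*} [Fintype V] [DecidableEq V] {x : V → V → ℝ} (h : Edm x) :
    ∃ P : Finset {e : Sym2 V // ¬ e.IsDiag} → ℝ, (∀ M, 0 ≤ P M) ∧
      (∀ M, P M ≠ 0 → PerfM M) ∧ ∑ M, P M = 1 ∧
      (∀ M, P M ≠ 0 → ∀ u v, (he : ¬ (s(u, v) : Sym2 V).IsDiag) → ⟨s(u, v), he⟩ ∈ M →
        x u v ≠ 0) ∧
      ∀ u v, (he : ¬ (s(u, v) : Sym2 V).IsDiag) →
        ∑ M, (if ⟨s(u, v), he⟩ ∈ M then P M else 0) = x u v := by
  classical
  obtain ⟨k, w, σ, hw, hσ, hs, hx⟩ := edmonds h
  let S : Fin k → Finset {e : Sym2 V // ¬ e.IsDiag} := fun i =>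
    univ.filter fun e => ∃ v, (e : Sym2 V) = s(v, σ i v)
  have hmem : ∀ i u v (he : ¬ (s(u, v) : Sym2 V).IsDiag),
      (⟨s(u, v), he⟩ : {e : Sym2 V // ¬ e.IsDiag}) ∈ S i ↔ σ i u = v := by
    intro i u v he
    constructor
    · intro h1
      obtain ⟨_, a, ha⟩ := mem_filter.1 h1
      rcases Sym2.eq_iff.1 ha with ⟨h2, h3⟩ | ⟨h2, h3⟩
      · rw [h2, h3]
      · rw [h2, h3]
        exact (hσ i a).1
    · intro h1
      exact mem_filter.2 ⟨mem_univ _, u, by rw [h1]⟩
  refine ⟨fun M => ∑ i, if S i = M then w i else 0, ?_, ?_, ?_, ?_, ?_⟩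
  · intro M
    exact Finset.sum_nonneg fun i _ => by split_ifs; exacts [hw i, le_rfl]
  · intro M hM
    obtain ⟨i, _, hi⟩ := Finset.exists_ne_zero_of_sum_ne_zero hM
    have hSi : S i = M := by
      by_contra hne
      rw [if_neg hne] at hi
      exact hi rfl
    subst hSi
    intro v
    have hd : ¬ (s(v, σ i v) : Sym2 V).IsDiag := by
      rw [Sym2.mk_isDiag_iff]
      exact fun h1 => (hσ i v).2 h1.symm
    refine ⟨⟨s(v, σ i v), hd⟩, ⟨(hmem i v _ hd).2 rfl, Sym2.mem_mk_left _ _⟩, ?_⟩
    rintro ⟨e, he⟩ ⟨he1, he2⟩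
    obtain ⟨b, hb⟩ := Sym2.mem_iff_exists.1 he2
    apply Subtype.ext
    have hb' : e = s(v, b) := hb
    subst hb'
    show s(v, b) = s(v, σ i v)
    rw [(hmem i v b he).1 he1]
  · rw [Finset.sum_comm, ← hs]
    refine Finset.sum_congr rfl fun i _ => ?_
    rw [Finset.sum_ite_eq, if_pos (mem_univ _)]
  · intro M hM u v he hmM
    obtain ⟨i, _, hi⟩ := Finset.exists_ne_zero_of_sum_ne_zero hM
    have hSi : S i = M := by
      by_contra hne
      rw [if_neg hne] at hi
      exact hi rfl
    rw [if_pos hSi] at hi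
    rw [← hSi] at hmM
    have h1 := (hmem i u v he).1 hmM
    rw [hx]
    apply ne_of_gt
    refine lt_of_lt_of_le (lt_of_le_of_ne (hw i) (Ne.symm hi)) ?_
    have := Finset.single_le_sum (f := fun i => if σ i u = v then w i else 0) (s := univ)
      (fun i _ => by split_ifs; exacts [hw _, le_rfl]) (mem_univ i)
    simpa [h1] using this
  · intro u v he
    rw [hx]
    have e1 : ∀ M : Finset {e : Sym2 V // ¬ e.IsDiag},
        (if (⟨s(u, v), he⟩ : {e : Sym2 V // ¬ e.IsDiag}) ∈ M then
          ∑ i, (if S i = M then w i else 0) else 0) =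
        ∑ i, if S i = M then (if σ i u = v then w i else 0) else 0 := by
      intro M
      split_ifs with h1
      · refine Finset.sum_congr rfl fun i _ => ?_
        by_cases h2 : S i = M
        · rw [if_pos h2, if_pos h2, if_pos ((hmem i u v he).1 (h2 ▸ h1))]
        · rw [if_neg h2, if_neg h2]
      · symm
        apply Finset.sum_eq_zero
        intro i _
        by_cases h2 : S i = M
        · rw [if_pos h2, if_neg]
          intro h3
          exact h1 (h2 ▸ (hmem i u v he).2 h3)
        · rw [if_neg h2]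
    simp only [e1]
    rw [Finset.sum_comm]
    refine Finset.sum_congr rfl fun i _ => ?_
    rw [Finset.sum_ite_eq, if_pos (mem_univ _)]

end Pool.Agent.Lib.FR
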