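import Pool.Agent.Lib.MP_6d56f7_co_FR.Defs
import Pool.Agent.Lib.MP_6d56f7_co_FR.Edmonds

/-! # Fractional list edge-colourings: definitions for the final statements -/

set_option autoImplicit false

namespace Pool.Agent.Lib.FR

open Finset

/-- the number of edges of colour `c` across a balanced cut is at least `K` -/
def CutB {V C : Type} [Fintype V] [DecidableEq V] [Fintype C] [DecidableEq C] (K θ : ℝ)
    (L : V → V → Finset C) : Prop :=
  ∀ (c : C) (W : Finset V), θ * Fintype.card C < W.card → 2 * W.card ≤ Fintype.card V →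
    K ≤ (((W ×ˢ Wᶜ).filter (fun p => c ∈ L p.1 p.2)).card : ℝ)

/-- the probability of `Q` for a random `(p, 2n-1)`-list assignment of `K_{2n}` -/
noncomputable def listProb (n : ℕ) (p : ℝ)
    (Q : (Edge (Fin (2 * n)) → Finset (Fin (2 * n - 1))) → Prop) : ℝ := by
  classical
  exact ∑ L : Edge (Fin (2 * n)) → Finset (Fin (2 * n - 1)),
    if Q L then ∏ e, ∏ c, (if c ∈ L e then p else 1 - p) else 0

/-- the probability that the edge `e` is in the random perfect matching of colour `c` -/
noncomputable def marg {n : ℕ} (P : Fin (2 * n - 1) → Finset (Edge (Fin (2 * n))) → ℝ)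
    (c : Fin (2 * n - 1)) (e : Edge (Fin (2 * n))) : ℝ := by
  classical
  exact ∑ M, if e ∈ M then P c M else 0

/-- a fractional `L`-edge-colouring: for every colour `c` a probability distribution on the perfect
matchings all of whose edges have `c` in their lists, such that every edge is covered once on
average -/
structure FracCol {n : ℕ} (L : Edge (Fin (2 * n)) → Finset (Fin (2 * n - 1)))
    (P : Fin (2 * n - 1) → Finset (Edge (Fin (2 * n))) → ℝ) : Prop where
  nonneg : ∀ c M, 0 ≤ P c M
  match_ : ∀ c M, P c M ≠ 0 → PerfM M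
  list : ∀ c M, P c M ≠ 0 → ∀ e ∈ M, c ∈ L e
  one : ∀ c, ∑ M, P c M = 1
  cover : ∀ e, ∑ c, marg P c e = 1

end Pool.Agent.Lib.FR
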