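import Pool.Agent.Lib.MP_6d56f7_co_FR.Api

/-!
# Tail bounds in a product of three-state spaces
-/

set_option autoImplicit false

namespace Pool.Agent.Lib.FR

open Finset

section Three

variable {I : Type} [Fintype I] [DecidableEq I]

/-- the generating function -/
theorem Ex_gen (pm pp z w : ℝ) (X Y : Finset I) (hXY : Disjoint X Y) :
    Ex (qq pm pp) (fun s => ∏ i, (if i ∈ X then (if s i ≠ 0 then 1 else 0) else
      if i ∈ Y then (if s i = 2 then z else if s i = 1 then w else 1) else 1)) =
      pp ^ X.card * (1 - pp + (pp - pm) * w + pm * z) ^ Y.card := by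
  classical
  rw [Ex_prod (qq pm pp) (fun i (a : Fin 3) => (if i ∈ X then (if a ≠ 0 then 1 else 0) else
      if i ∈ Y then (if a = 2 then z else if a = 1 then w else 1) else (1 : ℝ)))]
  have h1 : ∀ i, ∑ a, qq pm pp a * (if i ∈ X then (if a ≠ 0 then 1 else 0) else
      if i ∈ Y then (if a = 2 then z else if a = 1 then w else 1) else (1 : ℝ)) =
      (if i ∈ X then pp else 1) * (if i ∈ Y then (1 - pp + (pp - pm) * w + pm * z) else 1) := by
    intro i
    by_cases hX : i ∈ X
    · have hY : i ∉ Y := fun h => (disjoint_left.mp hXY) hX h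
      simp [hX, hY, qq, Fin.sum_univ_three]
    · by_cases hY : i ∈ Y
      · simp [hX, hY, qq, Fin.sum_univ_three]
      · simp [hX, hY, qq, Fin.sum_univ_three]
  rw [prod_congr rfl fun i _ => h1 i, prod_mul_distrib]
  congr 1
  · rw [prod_ite_mem, univ_inter, prod_const]
  · rw [prod_ite_mem, univ_inter, prod_const]

/-- lower tail of the number of coordinates in state two, jointly with a cylinder -/
theorem low_tail {pm pp : ℝ} (h0 : 0 ≤ pm) (h1 : pm ≤ pp) (h2 : pp ≤ 1) (X Y : Finset I)
    (hXY : Disjoint X Y) {lam : ℝ} (hl : 0 ≤ lam) (k : ℝ) :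
    Pr (qq pm pp) (fun s => (∀ i ∈ X, s i ≠ 0) ∧
      ((Y.filter fun i => s i = 2).card : ℝ) ≤ k) ≤
      pp ^ X.card * Real.exp (lam * k - (1 - Real.exp (-lam)) * pm * Y.card) := by
  classical
  have hpp : 0 ≤ pp := h0.trans h1
  set z := Real.exp (-lam) with hz
  have hzp : 0 < z := Real.exp_pos _
  have hF : ∀ s : I → Fin 3, 0 ≤ ∏ i, (if i ∈ X then (if s i ≠ 0 then (1 : ℝ) else 0) else
      if i ∈ Y then (if s i = 2 then z else if s i = 1 then 1 else 1) else 1) := by
    intro s
    refine prod_nonneg fun i _ => ?_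
    split_ifs <;> first | exact zero_le_one | exact le_rfl | exact hzp.le
  have hkey := Ex_gen pm pp z 1 X Y hXY
  have hle : Pr (qq pm pp) (fun s => (∀ i ∈ X, s i ≠ 0) ∧
      ((Y.filter fun i => s i = 2).card : ℝ) ≤ k) ≤
      Ex (qq pm pp) (fun s => Real.exp (lam * k) *
        ∏ i, (if i ∈ X then (if s i ≠ 0 then (1 : ℝ) else 0) else
        if i ∈ Y then (if s i = 2 then z else if s i = 1 then 1 else 1) else 1)) := by
    refine Pr_le_Ex (qq_nonneg h0 h1 h2) (fun s => mul_nonneg (Real.exp_pos _).le (hF s)) ?_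
    rintro s ⟨hX, hY⟩
    have hprod : ∏ i, (if i ∈ X then (if s i ≠ 0 then (1 : ℝ) else 0) else
        if i ∈ Y then (if s i = 2 then z else if s i = 1 then 1 else 1) else 1) =
        z ^ (Y.filter fun i => s i = 2).card := by
      have e1 : ∀ i, (if i ∈ X then (if s i ≠ 0 then (1 : ℝ) else 0) else
        if i ∈ Y then (if s i = 2 then z else if s i = 1 then 1 else 1) else 1) =
        if i ∈ Y.filter (fun i => s i = 2) then z else 1 := by
        intro i
        by_cases hiX : i ∈ X
        · have hiY : i ∉ Y := fun h => (disjoint_left.mp hXY) hiX h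
          simp [hiX, hiY, hX i hiX]
        · by_cases hiY : i ∈ Y <;> by_cases hs2 : s i = 2 <;> simp [hiX, hiY, hs2]
      rw [prod_congr rfl fun i _ => e1 i, prod_ite_mem, univ_inter, prod_const]
    rw [hprod, hz, ← Real.exp_nat_mul, ← Real.exp_add]
    refine Real.one_le_exp ?_
    nlinarith
  refine hle.trans ?_
  rw [Ex_mul_left, hkey]
  have e2 : (1 - pp + (pp - pm) * 1 + pm * z) = 1 - (1 - z) * pm := by ring
  rw [e2]
  have hz1 : z ≤ 1 := by
    rw [hz]
    exact Real.exp_le_one_iff.mpr (by linarith)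
  have e3 : (1 - (1 - z) * pm) ^ Y.card ≤ Real.exp (-((1 - z) * pm * Y.card)) := by
    have h3 : 1 - (1 - z) * pm ≤ Real.exp (-((1 - z) * pm)) := by
      have := Real.add_one_le_exp (-((1 - z) * pm))
      linarith
    have h4 : 0 ≤ 1 - (1 - z) * pm := by
      nlinarith [h1.trans h2]
    calc (1 - (1 - z) * pm) ^ Y.card ≤ (Real.exp (-((1 - z) * pm))) ^ Y.card :=
          pow_le_pow_left₀ h4 h3 _
      _ = Real.exp (-((1 - z) * pm * Y.card)) := by
          rw [← Real.exp_nat_mul]
          ring_nf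
  calc Real.exp (lam * k) * (pp ^ X.card * (1 - (1 - z) * pm) ^ Y.card)
      ≤ Real.exp (lam * k) * (pp ^ X.card * Real.exp (-((1 - z) * pm * Y.card))) := by
        gcongr
    _ = pp ^ X.card * Real.exp (lam * k - (1 - z) * pm * Y.card) := by
        have e5 : lam * k - (1 - z) * pm * Y.card = lam * k + -((1 - z) * pm * Y.card) := by ring
        rw [e5, Real.exp_add]
        ring

/-- upper tail of the number of coordinates not in state zero, jointly with a cylinder -/
theorem high_tail {pm pp : ℝ} (h0 : 0 ≤ pm) (h1 : pm ≤ pp) (h2 : pp ≤ 1) (X Y : Finset I)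
    (hXY : Disjoint X Y) {lam : ℝ} (hl : 0 ≤ lam) (k : ℝ) :
    Pr (qq pm pp) (fun s => (∀ i ∈ X, s i ≠ 0) ∧
      k ≤ ((Y.filter fun i => s i ≠ 0).card : ℝ)) ≤
      pp ^ X.card * Real.exp (-(lam * k) + (Real.exp lam - 1) * pp * Y.card) := by
  classical
  have hpp : 0 ≤ pp := h0.trans h1
  set z := Real.exp lam with hz
  have hzp : 0 < z := Real.exp_pos _
  have hz1 : 1 ≤ z := Real.one_le_exp hl
  have hF : ∀ s : I → Fin 3, 0 ≤ ∏ i, (if i ∈ X then (if s i ≠ 0 then (1 : ℝ) else 0) else
      if i ∈ Y then (if s i = 2 then z else if s i = 1 then z else 1) else 1) := by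
    intro s
    refine prod_nonneg fun i _ => ?_
    split_ifs <;> first | exact zero_le_one | exact le_rfl | exact hzp.le
  have hkey := Ex_gen pm pp z z X Y hXY
  have hle : Pr (qq pm pp) (fun s => (∀ i ∈ X, s i ≠ 0) ∧
      k ≤ ((Y.filter fun i => s i ≠ 0).card : ℝ)) ≤
      Ex (qq pm pp) (fun s => Real.exp (-(lam * k)) *
        ∏ i, (if i ∈ X then (if s i ≠ 0 then (1 : ℝ) else 0) else
        if i ∈ Y then (if s i = 2 then z else if s i = 1 then z else 1) else 1)) := by
    refine Pr_le_Ex (qq_nonneg h0 h1 h2) (fun s => mul_nonneg (Real.exp_pos _).le (hF s)) ?_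
    rintro s ⟨hX, hY⟩
    have hprod : ∏ i, (if i ∈ X then (if s i ≠ 0 then (1 : ℝ) else 0) else
        if i ∈ Y then (if s i = 2 then z else if s i = 1 then z else 1) else 1) =
        z ^ (Y.filter fun i => s i ≠ 0).card := by
      have e1 : ∀ i, (if i ∈ X then (if s i ≠ 0 then (1 : ℝ) else 0) else
        if i ∈ Y then (if s i = 2 then z else if s i = 1 then z else 1) else 1) =
        if i ∈ Y.filter (fun i => s i ≠ 0) then z else 1 := by
        intro i
        by_cases hiX : i ∈ X
        · have hiY : i ∉ Y := fun h => (disjoint_left.mp hXY) hiX h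
          simp [hiX, hiY, hX i hiX]
        · by_cases hiY : i ∈ Y
          · have h3 : s i = 0 ∨ s i = 1 ∨ s i = 2 := by
              generalize s i = a
              fin_cases a <;> simp
            rcases h3 with h3 | h3 | h3 <;> simp [hiX, hiY, h3]
          · simp [hiX, hiY]
      rw [prod_congr rfl fun i _ => e1 i, prod_ite_mem, univ_inter, prod_const]
    rw [hprod, hz, ← Real.exp_nat_mul, ← Real.exp_add]
    refine Real.one_le_exp ?_
    nlinarith
  refine hle.trans ?_
  rw [Ex_mul_left, hkey]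
  have e2 : (1 - pp + (pp - pm) * z + pm * z) = 1 + (z - 1) * pp := by ring
  rw [e2]
  have e3 : (1 + (z - 1) * pp) ^ Y.card ≤ Real.exp ((z - 1) * pp * Y.card) := by
    have h3 : 1 + (z - 1) * pp ≤ Real.exp ((z - 1) * pp) := by
      have := Real.add_one_le_exp ((z - 1) * pp)
      linarith
    have h4 : 0 ≤ 1 + (z - 1) * pp := by
      nlinarith
    calc (1 + (z - 1) * pp) ^ Y.card ≤ (Real.exp ((z - 1) * pp)) ^ Y.card :=
          pow_le_pow_left₀ h4 h3 _
      _ = Real.exp ((z - 1) * pp * Y.card) := by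
          rw [← Real.exp_nat_mul]
          ring_nf
  calc Real.exp (-(lam * k)) * (pp ^ X.card * (1 + (z - 1) * pp) ^ Y.card)
      ≤ Real.exp (-(lam * k)) * (pp ^ X.card * Real.exp ((z - 1) * pp * Y.card)) := by
        gcongr
    _ = pp ^ X.card * Real.exp (-(lam * k) + (z - 1) * pp * Y.card) := by
        rw [Real.exp_add]
        ring

end Three

end Pool.Agent.Lib.FR
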