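import Mathlib
import Pool.Agent.Lib.MP_6d56f7_co_FR.Defs
import Pool.Agent.Lib.MP_6d56f7_co_FR.DefsT
import Pool.Agent.Lib.MP_6d56f7_co_FR.Api
import Pool.Agent.Lib.MP_6d56f7_co_FR.Tails

/-! # Module T3 of project FR: balanced cuts have many edges of every colour -/

set_option autoImplicit false

namespace Pool.Agent.Lib.FR

open Finset

namespace CutP

/-- the coordinates (colour `c`, edge between `W` and its complement) -/
def Y (n : ℕ) (c : Fin (2 * n - 1)) (W : Finset (Fin (2 * n))) : Finset (J n) :=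
  univ.filter (fun j => j.1 = c ∧ ∃ p ∈ W ×ˢ Wᶜ, (j.2.1 : Sym2 (Fin (2 * n))) = s(p.1, p.2))

theorem inj_pair {n : ℕ} (W : Finset (Fin (2 * n))) :
    Set.InjOn (fun p : Fin (2 * n) × Fin (2 * n) => (s(p.1, p.2) : Sym2 (Fin (2 * n))))
      (W ×ˢ Wᶜ : Finset (Fin (2 * n) × Fin (2 * n))) := by
  rintro ⟨u, v⟩ h1 ⟨u', v'⟩ h2 h
  simp only [coe_product, coe_compl, Set.mem_prod, mem_coe, Set.mem_compl_iff] at h1 h2
  simp only [Sym2.eq_iff] at h
  rcases h with ⟨rfl, rfl⟩ | ⟨rfl, rfl⟩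
  · rfl
  · exact absurd h1.1 h2.2

theorem card_filter_Y {n : ℕ} (c : Fin (2 * n - 1)) (W : Finset (Fin (2 * n)))
    (R : J n → Prop) [DecidablePred R] :
    ((W ×ˢ Wᶜ).filter (fun p => ∃ h : ¬ (s(p.1, p.2) : Sym2 (Fin (2 * n))).IsDiag,
      R (c, ⟨s(p.1, p.2), h⟩))).card = ((Y n c W).filter R).card := by
  classical
  have h1 : Set.InjOn (fun p : Fin (2 * n) × Fin (2 * n) => (s(p.1, p.2) : Sym2 (Fin (2 * n))))
      ((W ×ˢ Wᶜ).filter (fun p => ∃ h : ¬ (s(p.1, p.2) : Sym2 (Fin (2 * n))).IsDiag,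
      R (c, ⟨s(p.1, p.2), h⟩)) : Finset (Fin (2 * n) × Fin (2 * n))) :=
    (inj_pair W).mono (by
      intro p hp
      exact mem_coe.2 (mem_filter.1 (mem_coe.1 hp)).1)
  have h2 : Set.InjOn (fun j : J n => (j.2.1 : Sym2 (Fin (2 * n))))
      ((Y n c W).filter R : Finset (J n)) := by
    rintro ⟨c1, ⟨e1, he1⟩⟩ hj1 ⟨c2, ⟨e2, he2⟩⟩ hj2 h
    simp only [Y, coe_filter, mem_filter, mem_univ, true_and, Set.mem_ofPred_eq] at hj1 hj2
    simp only at h
    obtain rfl := hj1.1.1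
    obtain rfl := hj2.1.1
    subst h
    rfl
  rw [← card_image_of_injOn h1, ← card_image_of_injOn h2]
  congr 1
  ext e
  simp only [mem_image, mem_filter, Y, mem_univ, true_and]
  constructor
  · rintro ⟨p, ⟨hp, hd, hR⟩, rfl⟩
    exact ⟨(c, ⟨s(p.1, p.2), hd⟩), ⟨⟨rfl, p, hp, rfl⟩, hR⟩, rfl⟩
  · rintro ⟨⟨c', ⟨e', he'⟩⟩, ⟨⟨hc, p, hp, he⟩, hR⟩, rfl⟩
    simp only at hc he
    subst hc
    subst he
    exact ⟨p, ⟨hp, he', hR⟩, rfl⟩

theorem card_Y {n : ℕ} (c : Fin (2 * n - 1)) (W : Finset (Fin (2 * n))) :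
    (Y n c W).card = W.card * Wᶜ.card := by
  classical
  have h := card_filter_Y c W (fun _ => True)
  rw [filter_true_of_mem (s := Y n c W) (fun _ _ => trivial)] at h
  rw [← h, filter_true_of_mem, card_product]
  intro p hp
  rw [mem_product, mem_compl] at hp
  refine ⟨?_, trivial⟩
  intro hd
  rw [Sym2.mk_isDiag_iff] at hd
  exact hp.2 (hd ▸ hp.1)

theorem expo {n : ℕ} {pm pp d θ w : ℝ} (hp : Par (1 / 8) n pm pp d) (hθ : 0 ≤ θ)
    (hw : θ * (2 * n - 1) < w) (hwn : w ≤ n) :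
    1 * (θ * d * n / 8) - (1 - Real.exp (-1)) * pm * (w * (2 * n - w)) ≤
      -(2 / 5 * θ * d * n) := by
  have hn : (6 : ℝ) ≤ n := by exact_mod_cast hp.n6
  have he : Real.exp (-1) < 0.37 := lt_trans Real.exp_neg_one_lt_d9 (by norm_num)
  have hpm := hp.pm0
  have hlo := hp.lo
  have h1 : θ * (2 * n - 1) * n ≤ w * (2 * n - w) := by
    have h2 : (0 : ℝ) ≤ θ * (2 * n - 1) := mul_nonneg hθ (by linarith)
    nlinarith
  have h3 : (7 / 8 * d) * (θ * n) ≤ ((2 * n - 1) * pm) * (θ * n) := by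
    apply mul_le_mul_of_nonneg_right _ (by positivity)
    linarith
  have h4 : pm * (θ * (2 * n - 1) * n) ≤ pm * (w * (2 * n - w)) :=
    mul_le_mul_of_nonneg_left h1 hpm
  have h5 : (0 : ℝ) ≤ pm * (w * (2 * n - w)) := by
    refine le_trans (mul_nonneg hpm ?_) h4
    exact mul_nonneg (mul_nonneg hθ (by linarith)) (by linarith)
  have h6 : 0.63 * (pm * (w * (2 * n - w))) ≤
      (1 - Real.exp (-1)) * (pm * (w * (2 * n - w))) :=
    mul_le_mul_of_nonneg_right (by linarith) h5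
  have h7 : (0 : ℝ) ≤ θ * d * n := by
    have := hp.d1
    positivity
  nlinarith

end CutP

theorem cut_prob {n : ℕ} {pm pp d θ : ℝ} (hp : Par (1 / 8) n pm pp d) (hθ : 0 ≤ θ) :
    Pr (qq pm pp) (fun s : J n → Fin 3 => ¬ CutB (θ * d * n / 8) θ (Lm n s)) ≤
      2 * n * 4 ^ n * Real.exp (-(2 / 5 * θ * d * n)) := by
  classical
  have hq := qq_nonneg hp.pm0 hp.pmpp hp.pp1
  have hn1 : 1 ≤ n := by have := hp.n6; omega
  have hcast : ((2 * n - 1 : ℕ) : ℝ) = 2 * n - 1 := by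
    rw [Nat.cast_sub (by omega)]; push_cast; ring
  set T : Finset (Fin (2 * n - 1) × Finset (Fin (2 * n))) :=
    univ.filter (fun q => θ * (2 * n - 1) < (q.2.card : ℝ) ∧ 2 * q.2.card ≤ 2 * n) with hT
  have h1 : Pr (qq pm pp) (fun s : J n → Fin 3 => ¬ CutB (θ * d * n / 8) θ (Lm n s)) ≤
      Pr (qq pm pp) (fun s : J n → Fin 3 => ∃ q ∈ T, (∀ i ∈ (∅ : Finset (J n)), s i ≠ 0) ∧
        (((CutP.Y n q.1 q.2).filter fun i => s i = 2).card : ℝ) ≤ θ * d * n / 8) := by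
    refine Pr_mono hq fun s hs => ?_
    unfold CutB at hs
    push Not at hs
    obtain ⟨c, W, hW1, hW2, hW3⟩ := hs
    rw [Fintype.card_fin] at hW1 hW2
    rw [hcast] at hW1
    refine ⟨(c, W), mem_filter.2 ⟨mem_univ _, hW1, hW2⟩, fun i hi => by simp at hi, ?_⟩
    rw [← CutP.card_filter_Y c W (fun i => s i = 2)]
    refine le_trans (le_of_eq ?_) hW3.le
    congr 2
    ext p
    simp only [mem_filter, LL, mem_univ, true_and]
  have h2 := Pr_exists hq T (fun q (s : J n → Fin 3) => (∀ i ∈ (∅ : Finset (J n)), s i ≠ 0) ∧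
        (((CutP.Y n q.1 q.2).filter fun i => s i = 2).card : ℝ) ≤ θ * d * n / 8)
  have h3 : ∀ q ∈ T, Pr (qq pm pp) (fun s : J n → Fin 3 => (∀ i ∈ (∅ : Finset (J n)), s i ≠ 0) ∧
        (((CutP.Y n q.1 q.2).filter fun i => s i = 2).card : ℝ) ≤ θ * d * n / 8) ≤
        Real.exp (-(2 / 5 * θ * d * n)) := by
    intro q hqT
    obtain ⟨-, hq1, hq2⟩ := mem_filter.1 hqT
    have h4 := low_tail hp.pm0 hp.pmpp hp.pp1 (∅ : Finset (J n)) (CutP.Y n q.1 q.2)
      (disjoint_empty_left _) (zero_le_one (α := ℝ)) (θ * d * n / 8)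
    refine h4.trans ?_
    rw [card_empty, pow_zero, one_mul, Real.exp_le_exp, CutP.card_Y]
    have h5 : ((q.2ᶜ.card : ℕ) : ℝ) = 2 * n - (q.2.card : ℝ) := by
      rw [card_compl, Fintype.card_fin, Nat.cast_sub (by omega)]
      push_cast
      ring
    rw [Nat.cast_mul, h5]
    exact CutP.expo hp hθ hq1 (by exact_mod_cast (by omega : q.2.card ≤ n))
  have h6 : (T.card : ℝ) ≤ 2 * n * 4 ^ n := by
    have h7 : T.card ≤ (2 * n - 1) * 2 ^ (2 * n) := by
      refine (card_filter_le _ _).trans ?_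
      rw [card_univ, Fintype.card_prod, Fintype.card_fin, Fintype.card_finset, Fintype.card_fin]
    have h8 : T.card ≤ 2 * n * 4 ^ n := by
      refine h7.trans ?_
      rw [pow_mul]
      exact Nat.mul_le_mul (by omega) (by norm_num)
    exact_mod_cast h8
  calc _ ≤ _ := h1
    _ ≤ _ := h2
    _ ≤ ∑ _q ∈ T, Real.exp (-(2 / 5 * θ * d * n)) := sum_le_sum h3
    _ = T.card * Real.exp (-(2 / 5 * θ * d * n)) := by rw [sum_const, nsmul_eq_mul]
    _ ≤ _ := mul_le_mul_of_nonneg_right h6 (Real.exp_pos _).le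

end Pool.Agent.Lib.FR
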