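import Pool.Agent.Lib.MP_6d56f7_co_FR.Stars
import Pool.Agent.Lib.MP_6d56f7_co_FR.Block

/-!
# Every object has few bad neighbours
-/

set_option autoImplicit false

namespace Pool.Agent.Lib.FR

open Finset

namespace FewB

/-- events which depend on disjoint sets of coordinates -/
theorem Pr_all {I S κ : Type} [Fintype I] [DecidableEq I] [Fintype S] [DecidableEq κ]
    {q : S → ℝ} (hq : ∀ a, 0 ≤ q a) (hq1 : ∑ a, q a = 1) (A : κ → (I → S) → Prop)
    (Z : κ → Finset I) {P : ℝ} (hP0 : 0 ≤ P) (T : Finset κ)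
    (hdep : ∀ k ∈ T, ∀ u v : I → S, (∀ i ∈ Z k, u i = v i) → A k u → A k v)
    (hdisj : ∀ k ∈ T, ∀ l ∈ T, k ≠ l → Disjoint (Z k) (Z l))
    (hP : ∀ k ∈ T, Pr q (A k) ≤ P) :
    Pr q (fun s => ∀ k ∈ T, A k s) ≤ P ^ T.card := by
  classical
  induction T using Finset.induction_on with
  | empty =>
    rw [card_empty, pow_zero]
    exact Pr_le_one hq hq1 _
  | insert k T hk ih =>
    have ih' := ih (fun l hl => hdep l (mem_insert_of_mem hl))
      (fun l hl l' hl' => hdisj l (mem_insert_of_mem hl) l' (mem_insert_of_mem hl'))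
      (fun l hl => hP l (mem_insert_of_mem hl))
    have e1 : Pr q (fun s => ∀ l ∈ insert k T, A l s) =
        Ex q (fun s => (if A k s then (1 : ℝ) else 0) * if ∀ l ∈ T, A l s then 1 else 0) := by
      rw [Pr_eq]
      congr 1
      funext s
      by_cases h1 : A k s
      · by_cases h2 : ∀ l ∈ T, A l s
        · rw [if_pos h1, if_pos h2, if_pos, mul_one]
          intro l hl
          rcases mem_insert.1 hl with h3 | h3
          · rw [h3]; exact h1
          · exact h2 l h3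
        · rw [if_neg h2, mul_zero, if_neg]
          exact fun h3 => h2 fun l hl => h3 l (mem_insert_of_mem hl)
      · rw [if_neg h1, zero_mul, if_neg]
        exact fun h3 => h1 (h3 k (mem_insert_self _ _))
    rw [e1, Block.Ex_mul hq1 (Z k)]
    · rw [← Pr_eq, ← Pr_eq, card_insert_of_notMem hk, pow_succ, mul_comm (P ^ T.card)]
      exact mul_le_mul (hP k (mem_insert_self _ _)) ih' (Pr_nonneg hq _) hP0
    · intro u v huv
      have h3 : A k u ↔ A k v := ⟨hdep k (mem_insert_self _ _) u v huv,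
        hdep k (mem_insert_self _ _) v u fun i hi => (huv i hi).symm⟩
      simp only [h3]
    · intro u v huv
      have h3 : (∀ l ∈ T, A l u) ↔ ∀ l ∈ T, A l v := by
        constructor
        · intro h l hl
          refine hdep l (mem_insert_of_mem hl) u v (fun i hi => huv i ?_) (h l hl)
          have := hdisj k (mem_insert_self _ _) l (mem_insert_of_mem hl)
            (fun h4 => hk (h4 ▸ hl))
          exact fun h5 => Finset.disjoint_left.1 this h5 hi
        · intro h l hl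
          refine hdep l (mem_insert_of_mem hl) v u (fun i hi => (huv i ?_).symm) (h l hl)
          have := hdisj k (mem_insert_self _ _) l (mem_insert_of_mem hl)
            (fun h4 => hk (h4 ▸ hl))
          exact fun h5 => Finset.disjoint_left.1 this h5 hi
      simp only [h3]

/-- the elementary event -/
def Ev {n : ℕ} (g : J n) (Y : Finset (J n)) (a b : ℝ) (s : J n → Fin 3) : Prop :=
  s g ≠ 0 ∧ (((Y.filter fun i => s i = 2).card : ℝ) ≤ a ∨
    b ≤ ((Y.filter fun i => s i ≠ 0).card : ℝ))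

theorem Ev_dep {n : ℕ} {g : J n} {Y : Finset (J n)} {a b : ℝ} {u v : J n → Fin 3}
    (h : ∀ i ∈ insert g Y, u i = v i) (hu : Ev g Y a b u) : Ev g Y a b v := by
  have e1 : Y.filter (fun i => v i = 2) = Y.filter (fun i => u i = 2) :=
    filter_congr fun i hi => by rw [h i (mem_insert_of_mem hi)]
  have e2 : Y.filter (fun i => v i ≠ 0) = Y.filter (fun i => u i ≠ 0) :=
    filter_congr fun i hi => by rw [h i (mem_insert_of_mem hi)]
  refine ⟨?_, ?_⟩
  · rw [← h g (mem_insert_self _ _)]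
    exact hu.1
  · rw [e1, e2]
    exact hu.2

theorem Ev_prob {n k : ℕ} {pm pp d δ : ℝ} (hδ : 0 < δ) (hδ1 : δ ≤ 1 / 2)
    (hp : Par (δ / 8) n pm pp d) (hk : 8 * (k : ℝ) ≤ δ * d) (g : J n) (Y : Finset (J n))
    (hg : g ∉ Y) (hY : (2 * n - 1 : ℝ) - k ≤ Y.card) (hY' : (Y.card : ℝ) ≤ 2 * n - 1) :
    Pr (qq pm pp) (Ev g Y ((1 - δ) * d) ((1 + δ) * d - k)) ≤
      pp * (2 * Real.exp (-(δ ^ 2 * d / 8))) := by
  have h0 := hp.pm0
  have h1 := hp.pmpp
  have h2 := hp.pp1
  have hpp : 0 ≤ pp := h0.trans h1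
  have hd : 0 < d := lt_of_lt_of_le one_pos hp.d1
  have hk0 : (0 : ℝ) ≤ k := k.cast_nonneg
  have hX : Disjoint ({g} : Finset (J n)) Y := by simpa using hg
  have hq := qq_nonneg h0 h1 h2
  have l1 := low_tail h0 h1 h2 {g} Y hX (lam := 3 * δ / 4) (by positivity) ((1 - δ) * d)
  have l2 := high_tail h0 h1 h2 {g} Y hX (lam := δ / 3) (by positivity) ((1 + δ) * d - k)
  have h3 : Pr (qq pm pp) (Ev g Y ((1 - δ) * d) ((1 + δ) * d - k)) ≤
      Pr (qq pm pp) (fun s => ((∀ i ∈ ({g} : Finset (J n)), s i ≠ 0) ∧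
        ((Y.filter fun i => s i = 2).card : ℝ) ≤ (1 - δ) * d) ∨
        ((∀ i ∈ ({g} : Finset (J n)), s i ≠ 0) ∧
        (1 + δ) * d - k ≤ ((Y.filter fun i => s i ≠ 0).card : ℝ))) := by
    refine Pr_mono hq fun s hs => ?_
    rcases hs.2 with h | h
    · exact Or.inl ⟨fun i hi => by rw [mem_singleton.1 hi]; exact hs.1, h⟩
    · exact Or.inr ⟨fun i hi => by rw [mem_singleton.1 hi]; exact hs.1, h⟩
  refine h3.trans ((Pr_or hq _ _).trans ((add_le_add l1 l2).trans ?_))
  rw [card_singleton, pow_one]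
  have hpmY : (1 - δ / 4) * d ≤ pm * Y.card := by
    have e1 : pm * ((2 * n - 1 : ℝ) - k) ≤ pm * Y.card := mul_le_mul_of_nonneg_left hY h0
    have e2 := hp.lo
    have e3 : pm * k ≤ k := by
      have : pm ≤ 1 := h1.trans h2
      nlinarith
    nlinarith
  have hppY : pp * Y.card ≤ (1 + δ / 8) * d := by
    have e1 : pp * Y.card ≤ pp * (2 * n - 1 : ℝ) := mul_le_mul_of_nonneg_left hY' hpp
    have e2 := hp.hi
    linarith
  have t1 : 3 * δ / 4 * ((1 - δ) * d) - (1 - Real.exp (-(3 * δ / 4))) * pm * Y.card ≤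
      -(δ ^ 2 * d / 8) := by
    have e1 : Real.exp (-(3 * δ / 4)) ≤ 1 - 3 * δ / 4 + (3 * δ / 4) ^ 2 / 2 := by
      have := Real.exp_bound' (x := 3 * δ / 4) (by positivity) (by linarith) (n := 2) (by norm_num)
      have h5 : Real.exp (-(3 * δ / 4)) = (Real.exp (3 * δ / 4))⁻¹ := Real.exp_neg _
      have h6 : 1 + 3 * δ / 4 + (3 * δ / 4) ^ 2 / 2 ≤ Real.exp (3 * δ / 4) :=
        Real.quadratic_le_exp_of_nonneg (by positivity)
      rw [h5, inv_le_comm₀ (Real.exp_pos _) (by nlinarith)]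
      refine le_trans ?_ h6
      rw [inv_le_comm₀ (by nlinarith) (by positivity)]
      rw [inv_le_iff_one_le_mul₀ (by positivity)]
      nlinarith [sq_nonneg (3 * δ / 4), sq_nonneg ((3 * δ / 4) ^ 2)]
    have e2 : 3 * δ / 4 - (3 * δ / 4) ^ 2 / 2 ≤ 1 - Real.exp (-(3 * δ / 4)) := by linarith
    have e3 : 0 ≤ 3 * δ / 4 - (3 * δ / 4) ^ 2 / 2 := by nlinarith
    have e4 : (3 * δ / 4 - (3 * δ / 4) ^ 2 / 2) * ((1 - δ / 4) * d) ≤
        (1 - Real.exp (-(3 * δ / 4))) * (pm * Y.card) :=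
      mul_le_mul e2 hpmY (by nlinarith) (e3.trans e2)
    have e5 : (1 - Real.exp (-(3 * δ / 4))) * pm * Y.card =
        (1 - Real.exp (-(3 * δ / 4))) * (pm * Y.card) := mul_assoc _ _ _
    rw [e5]
    have e6 : 3 * δ / 4 * ((1 - δ) * d) - (3 * δ / 4 - (3 * δ / 4) ^ 2 / 2) * ((1 - δ / 4) * d) ≤
        -(δ ^ 2 * d / 8) := by
      have e7 : 3 * δ / 4 * ((1 - δ) * d) -
          (3 * δ / 4 - (3 * δ / 4) ^ 2 / 2) * ((1 - δ / 4) * d) + δ ^ 2 * d / 8 =
          -(δ ^ 2 * d) * (5 / 32 + 9 * δ / 128) := by ring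
      have e8 : 0 ≤ δ ^ 2 * d := by positivity
      nlinarith
    linarith
  have t2 : -(δ / 3 * ((1 + δ) * d - k)) + (Real.exp (δ / 3) - 1) * pp * Y.card ≤
      -(δ ^ 2 * d / 8) := by
    have e1 : Real.exp (δ / 3) - 1 ≤ δ / 3 + (δ / 3) ^ 2 := by
      have := Real.abs_exp_sub_one_sub_id_le (x := δ / 3) (by rw [abs_of_pos] <;> linarith)
      have := (abs_le.1 this).2
      linarith
    have e2 : 0 ≤ Real.exp (δ / 3) - 1 := by
      have := Real.one_le_exp (x := δ / 3) (by positivity)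
      linarith
    have e4 : (Real.exp (δ / 3) - 1) * (pp * Y.card) ≤
        (δ / 3 + (δ / 3) ^ 2) * ((1 + δ / 8) * d) :=
      mul_le_mul e1 hppY (by positivity) (by positivity)
    have e5 : (Real.exp (δ / 3) - 1) * pp * Y.card =
        (Real.exp (δ / 3) - 1) * (pp * Y.card) := mul_assoc _ _ _
    rw [e5]
    have e6 : δ / 3 * k ≤ δ / 3 * (δ * d / 8) := mul_le_mul_of_nonneg_left (by linarith)
      (by positivity)
    have e7 : -(δ / 3 * ((1 + δ) * d)) + δ / 3 * (δ * d / 8) +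
        (δ / 3 + (δ / 3) ^ 2) * ((1 + δ / 8) * d) + δ ^ 2 * d / 8 =
        -(δ ^ 2 * d) * (1 / 72 - δ / 72) := by ring
    have e8 : 0 ≤ δ ^ 2 * d := by positivity
    nlinarith
  have t3 := Real.exp_le_exp.2 t1
  have t4 := Real.exp_le_exp.2 t2
  nlinarith

theorem dP_eq (n : ℕ) (P : Fin 3 → Prop) [DecidablePred P] (s : J n → Fin 3) (u : Fin (2 * n))
    (c : Fin (2 * n - 1)) :
    dP (LL n P s) u c = ((st n (.inr (u, c))).filter fun j => P (s j)).card := by
  unfold dP
  refine Finset.card_bij (fun w hw => (c, ⟨s(w, u), (mem_LL.1 (mem_filter.1 hw).2).fst⟩)) ?_ ?_ ?_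
  · intro w hw
    rw [mem_filter, mem_st_inr]
    exact ⟨⟨rfl, Sym2.mem_mk_right _ _⟩, (mem_LL.1 (mem_filter.1 hw).2).snd⟩
  · intro w _ w' _ h
    have h2 := congrArg (fun j : J n => j.2.1) h
    simp only at h2
    exact Sym2.congr_left.1 h2
  · rintro ⟨c', ⟨e, he⟩⟩ hj
    obtain ⟨h1, h2⟩ := mem_filter.1 hj
    rw [mem_st_inr] at h1
    obtain ⟨h3, h4⟩ := h1
    simp only at h3 h4
    subst h3
    obtain ⟨w, hw⟩ := h4
    have hw' : e = s(w, u) := hw.trans Sym2.eq_swap
    subst hw'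
    exact ⟨w, mem_filter.2 ⟨mem_univ _, mem_LL.2 ⟨he, h2⟩⟩, rfl⟩

theorem list_eq (n : ℕ) (P : Fin 3 → Prop) [DecidablePred P] (s : J n → Fin 3)
    (u v : Fin (2 * n)) (h : ¬ (s(u, v) : Sym2 (Fin (2 * n))).IsDiag) :
    (LL n P s u v).card = ((st n (.inl ⟨s(u, v), h⟩)).filter fun j => P (s j)).card := by
  refine Finset.card_bij (fun c _ => (c, ⟨s(u, v), h⟩)) ?_ ?_ ?_
  · intro c hc
    rw [mem_filter, mem_st_inl]
    exact ⟨rfl, (mem_LL.1 hc).snd⟩
  · intro c _ c' _ h1
    exact congrArg Prod.fst h1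
  · rintro ⟨c, e⟩ hj
    obtain ⟨h1, h2⟩ := mem_filter.1 hj
    rw [mem_st_inl] at h1
    simp only at h1
    subst h1
    exact ⟨c, mem_LL.2 ⟨h, h2⟩, rfl⟩

/-- from a bad object to the elementary event -/
theorem ev_of {n k : ℕ} {d δ : ℝ} {s : J n → Fin 3} (a : El n) (g : J n) (Y : Finset (J n))
    (hs : s g ≠ 0) (hY : Y ⊆ st n a) (hY' : (st n a \ Y).card ≤ k)
    (hb : (((st n a).filter fun j => s j = 2).card : ℝ) < (1 - δ) * d ∨
      (1 + δ) * d < (((st n a).filter fun j => s j ≠ 0).card : ℝ)) :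
    Ev g Y ((1 - δ) * d) ((1 + δ) * d - k) s := by
  refine ⟨hs, ?_⟩
  rcases hb with hb | hb
  · left
    have h1 : ((Y.filter fun j => s j = 2).card : ℝ) ≤
        (((st n a).filter fun j => s j = 2).card : ℝ) := by
      exact_mod_cast card_le_card (filter_subset_filter _ hY)
    linarith
  · right
    have h1 : ((st n a).filter fun j => s j ≠ 0).card ≤
        (Y.filter fun j => s j ≠ 0).card + k := by
      have h2 : (st n a).filter (fun j => s j ≠ 0) ⊆
          (Y.filter fun j => s j ≠ 0) ∪ (st n a \ Y) := by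
        intro j hj
        rw [mem_filter] at hj
        by_cases hjY : j ∈ Y
        · exact mem_union_left _ (mem_filter.2 ⟨hjY, hj.2⟩)
        · exact mem_union_right _ (mem_sdiff.2 ⟨hj.1, hjY⟩)
      exact (card_le_card h2).trans ((card_union_le _ _).trans (Nat.add_le_add_left hY' _))
    have h2 : (((st n a).filter fun j => s j ≠ 0).card : ℝ) ≤
        (Y.filter fun j => s j ≠ 0).card + k := by exact_mod_cast h1
    linarith

/-- the bound of one family of events -/
theorem family {n k : ℕ} {pm pp d δ : ℝ} (hδ : 0 < δ) (hδ1 : δ ≤ 1 / 2)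
    (hp : Par (δ / 8) n pm pp d) (hk : 8 * (k : ℝ) ≤ δ * d) {κ : Type} [Fintype κ]
    [DecidableEq κ] (hκ : Fintype.card κ ≤ 2 * n) (g : κ → J n)
    (Y : Finset κ → κ → Finset (J n)) (a : κ → El n)
    (hg : ∀ T t, t ∈ T → g t ∉ Y T t) (hga : ∀ t, g t ∈ st n (a t))
    (hY : ∀ T t, T.card = k → t ∈ T → Y T t ⊆ st n (a t))
    (hYk : ∀ T t, T.card = k → t ∈ T → (st n (a t) \ Y T t).card ≤ k)
    (hdis : ∀ T : Finset κ, T.card = k → ∀ t ∈ T, ∀ t' ∈ T, t ≠ t' →
      Disjoint (insert (g t) (Y T t)) (insert (g t') (Y T t'))) :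
    Pr (qq pm pp) (fun s : J n → Fin 3 => ∃ T ∈ powersetCard k (univ : Finset κ), ∀ t ∈ T,
      Ev (g t) (Y T t) ((1 - δ) * d) ((1 + δ) * d - k) s) ≤
      (20 * d * Real.exp (-(δ ^ 2 * d / 8))) ^ k := by
  have h0 := hp.pm0
  have h1 := hp.pmpp
  have h2 := hp.pp1
  have hpp : 0 ≤ pp := h0.trans h1
  have hd : 0 < d := lt_of_lt_of_le one_pos hp.d1
  have hq := qq_nonneg h0 h1 h2
  have hn : (6 : ℝ) ≤ n := by exact_mod_cast hp.n6
  have hP0 : 0 ≤ pp * (2 * Real.exp (-(δ ^ 2 * d / 8))) := by positivity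
  refine (Pr_exists hq _ _).trans ?_
  have h3 : ∀ T ∈ powersetCard k (univ : Finset κ),
      Pr (qq pm pp) (fun s : J n → Fin 3 => ∀ t ∈ T,
        Ev (g t) (Y T t) ((1 - δ) * d) ((1 + δ) * d - k) s) ≤
      (pp * (2 * Real.exp (-(δ ^ 2 * d / 8)))) ^ k := by
    intro T hT
    have hTk := (mem_powersetCard.1 hT).2
    have h4 := Pr_all hq (qq_sum pm pp)
      (fun t s => Ev (g t) (Y T t) ((1 - δ) * d) ((1 + δ) * d - k) s)
      (fun t => insert (g t) (Y T t)) hP0 T (fun t _ u v huv hu => Ev_dep huv hu)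
      (hdis T hTk) (fun t ht => ?_)
    · rwa [hTk] at h4
    · have hc := st_card n (a t)
      have hle : (Y T t).card ≤ 2 * n - 1 := by
        rw [← hc]
        exact card_le_card (hY T t hTk ht)
      have hge : 2 * n - 1 ≤ (Y T t).card + k := by
        rw [← hc]
        have h5 := card_le_card_sdiff_add_card (s := st n (a t)) (t := Y T t)
        have h6 := hYk T t hTk ht
        omega
      have h6 := hp.n6
      refine Ev_prob hδ hδ1 hp hk (g t) (Y T t) (hg T t ht) ?_ ?_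
      · have h7 : ((2 * n : ℕ) : ℝ) ≤ (((Y T t).card + k + 1 : ℕ) : ℝ) := by
          exact_mod_cast (by omega : 2 * n ≤ (Y T t).card + k + 1)
        push_cast at h7
        linarith
      · have h7 : (((Y T t).card + 1 : ℕ) : ℝ) ≤ ((2 * n : ℕ) : ℝ) := by
          exact_mod_cast (by omega : (Y T t).card + 1 ≤ 2 * n)
        push_cast at h7
        linarith
  refine (Finset.sum_le_sum h3).trans ?_
  rw [Finset.sum_const, card_powersetCard, nsmul_eq_mul, card_univ]
  have h4 : ((Fintype.card κ).choose k : ℝ) ≤ (2 * n : ℝ) ^ k := by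
    have h5 : (Fintype.card κ).choose k ≤ (2 * n) ^ k :=
      (Nat.choose_le_pow _ _).trans (Nat.pow_le_pow_left hκ k)
    exact_mod_cast h5
  calc ((Fintype.card κ).choose k : ℝ) * (pp * (2 * Real.exp (-(δ ^ 2 * d / 8)))) ^ k
      ≤ (2 * n : ℝ) ^ k * (pp * (2 * Real.exp (-(δ ^ 2 * d / 8)))) ^ k :=
        mul_le_mul_of_nonneg_right h4 (by positivity)
    _ = (2 * n * pp * 2 * Real.exp (-(δ ^ 2 * d / 8))) ^ k := by
        rw [← mul_pow]
        ring_nf
    _ ≤ (20 * d * Real.exp (-(δ ^ 2 * d / 8))) ^ k := by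
        refine pow_le_pow_left₀ (by positivity) ?_ k
        refine mul_le_mul_of_nonneg_right ?_ (Real.exp_pos _).le
        have h5 := hp.hi
        have h6 : (2 * n : ℝ) * pp ≤ 2 * ((2 * n - 1 : ℝ) * pp) := by nlinarith
        nlinarith

end FewB

open FewB in
theorem fewbad_prob {n k : ℕ} {pm pp d δ δ' : ℝ} (hδ : 0 < δ) (hδ1 : δ ≤ 1 / 2)
    (hp : Par (δ / 8) n pm pp d) (hk : 8 * (k : ℝ) ≤ δ * d) (hk' : 4 * (k : ℝ) ≤ δ' * d) :
    Pr (qq pm pp) (fun s : J n → Fin 3 => ¬ FewBad δ δ' d n s) ≤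
      20 * n ^ 2 * (20 * d * Real.exp (-(δ ^ 2 * d / 8))) ^ k := by
  classical
  have h0 := hp.pm0
  have h1 := hp.pmpp
  have h2 := hp.pp1
  have hpp : 0 ≤ pp := h0.trans h1
  have hd : 0 < d := lt_of_lt_of_le one_pos hp.d1
  have hq := qq_nonneg h0 h1 h2
  have hn : (6 : ℝ) ≤ n := by exact_mod_cast hp.n6
  have hn6 := hp.n6
  by_cases hk0 : k = 0
  · subst hk0
    rw [pow_zero, mul_one]
    refine (Pr_le_one hq (qq_sum _ _) _).trans ?_
    nlinarith
  have hk1 : 1 ≤ k := Nat.one_le_iff_ne_zero.2 hk0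
  have hdg : ∀ u v : Fin (2 * n), u ≠ v → ¬ (s(u, v) : Sym2 (Fin (2 * n))).IsDiag := by
    intro u v huv h
    exact huv (Sym2.mk_isDiag_iff.1 h)
  set B : ℝ := (20 * d * Real.exp (-(δ ^ 2 * d / 8))) ^ k with hB
  have hB0 : 0 ≤ B := by positivity
  -- family A: colours
  set EA : Fin (2 * n) → Fin (2 * n) → (J n → Fin 3) → Prop := fun u v s =>
    ∃ h : ¬ (s(u, v) : Sym2 (Fin (2 * n))).IsDiag,
      ∃ T ∈ powersetCard k (univ : Finset (Fin (2 * n - 1))), ∀ c ∈ T,
        Ev (c, ⟨s(u, v), h⟩) ((st n (.inr (u, c))).erase (c, ⟨s(u, v), h⟩))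
          ((1 - δ) * d) ((1 + δ) * d - k) s with hEA
  have hA : ∀ u v, Pr (qq pm pp) (EA u v) ≤ B := by
    intro u v
    by_cases h : ¬ (s(u, v) : Sym2 (Fin (2 * n))).IsDiag
    · refine le_trans (Pr_mono hq fun s hs => ?_) (family hδ hδ1 hp hk
        (κ := Fin (2 * n - 1)) (by rw [Fintype.card_fin]; omega)
        (fun c => (c, ⟨s(u, v), h⟩)) (fun _ c => (st n (.inr (u, c))).erase (c, ⟨s(u, v), h⟩))
        (fun c => .inr (u, c)) ?_ ?_ ?_ ?_ ?_)
      · exact hs.snd
      · intro T t _ ht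
        exact (mem_erase.1 ht).1 rfl
      · intro t
        exact mem_st_inr.2 ⟨rfl, Sym2.mem_mk_left _ _⟩
      · intro T t _ _
        exact erase_subset _ _
      · intro T t _ _
        refine le_trans (card_le_card (t := {((t, ⟨s(u, v), h⟩) : J n)}) ?_)
          (by rw [card_singleton]; exact hk1)
        intro j hj
        rw [mem_sdiff, mem_erase] at hj
        rw [mem_singleton]
        by_contra hne
        exact hj.2 ⟨hne, hj.1⟩
      · intro T _ t _ t' _ htt
        rw [insert_erase (mem_st_inr.2 ⟨rfl, Sym2.mem_mk_left _ _⟩),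
          insert_erase (mem_st_inr.2 ⟨rfl, Sym2.mem_mk_left _ _⟩), Finset.disjoint_left]
        intro j hj hj'
        rw [mem_st_inr] at hj hj'
        exact htt (hj.1.symm.trans hj'.1)
    · have h3 : Pr (qq pm pp) (EA u v) = 0 := by
        rw [Pr_eq]
        unfold Ex
        refine sum_eq_zero fun s _ => ?_
        have h4 : ¬ EA u v s := fun h5 => h h5.fst
        show (∏ i, qq pm pp (s i)) * (if EA u v s then (1 : ℝ) else 0) = 0
        rw [if_neg h4, mul_zero]
      rw [h3]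
      exact hB0
  -- family B: edges at `v`
  set EB : Fin (2 * n) → Fin (2 * n - 1) → (J n → Fin 3) → Prop := fun v c s =>
    ∃ T ∈ powersetCard k (univ : Finset {u : Fin (2 * n) // u ≠ v}), ∀ u ∈ T,
        Ev (c, ⟨s(u.1, v), hdg _ _ u.2⟩)
          ((st n (.inl ⟨s(u.1, v), hdg _ _ u.2⟩)).erase (c, ⟨s(u.1, v), hdg _ _ u.2⟩))
          ((1 - δ) * d) ((1 + δ) * d - k) s with hEB
  have hBB : ∀ v c, Pr (qq pm pp) (EB v c) ≤ B := by
    intro v c
    refine family hδ hδ1 hp hk (κ := {u : Fin (2 * n) // u ≠ v}) ?_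
        (fun u => (c, ⟨s(u.1, v), hdg _ _ u.2⟩))
        (fun _ u => (st n (.inl ⟨s(u.1, v), hdg _ _ u.2⟩)).erase
          (c, ⟨s(u.1, v), hdg _ _ u.2⟩))
        (fun u => .inl ⟨s(u.1, v), hdg _ _ u.2⟩) ?_ ?_ ?_ ?_ ?_
    · refine (Fintype.card_subtype_le _).trans ?_
      rw [Fintype.card_fin]
    · intro T t _ ht
      exact (mem_erase.1 ht).1 rfl
    · intro t
      exact mem_st_inl.2 rfl
    · intro T t _ _
      exact erase_subset _ _
    · intro T t _ _
      refine le_trans (card_le_card (t := {((c, ⟨s(t.1, v), hdg _ _ t.2⟩) : J n)}) ?_)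
        (by rw [card_singleton]; exact hk1)
      intro j hj
      rw [mem_sdiff, mem_erase] at hj
      rw [mem_singleton]
      by_contra hne
      exact hj.2 ⟨hne, hj.1⟩
    · intro T _ t _ t' _ htt
      rw [insert_erase (mem_st_inl.2 rfl), insert_erase (mem_st_inl.2 rfl),
        Finset.disjoint_left]
      intro j hj hj'
      rw [mem_st_inl] at hj hj'
      have h3 := congrArg Subtype.val (hj.symm.trans hj')
      simp only at h3
      exact htt (Subtype.ext (Sym2.congr_left.1 h3))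
  -- family C: the vertices in the colour `c`
  set YC : (v : Fin (2 * n)) → Fin (2 * n - 1) → Finset {u : Fin (2 * n) // u ≠ v} →
      {u : Fin (2 * n) // u ≠ v} → Finset (J n) := fun v c T u =>
    (st n (.inr (u.1, c))).filter fun j => ∀ w ∈ j.2.1, w ≠ u.1 → w ≠ v ∧ w ∉ T.image Subtype.val
    with hYC
  set EC : Fin (2 * n) → Fin (2 * n - 1) → (J n → Fin 3) → Prop := fun v c s =>
    ∃ T ∈ powersetCard k (univ : Finset {u : Fin (2 * n) // u ≠ v}), ∀ u ∈ T,
        Ev (c, ⟨s(u.1, v), hdg _ _ u.2⟩) (YC v c T u)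
          ((1 - δ) * d) ((1 + δ) * d - k) s with hEC
  have hYCk : ∀ v c T, T.card = k → ∀ u ∈ T, (st n (.inr (u.1, c)) \ YC v c T u).card ≤ k := by
    intro v c T hT u hu
    have h3 : st n (.inr (u.1, c)) \ YC v c T u ⊆
        (insert v ((T.erase u).image Subtype.val)).biUnion
          (fun w => st n (.inr (u.1, c)) ∩ st n (.inr (w, c))) := by
      intro j hj
      obtain ⟨h4, h5⟩ := mem_sdiff.1 hj
      have h6 : ∃ w ∈ j.2.1, w ≠ u.1 ∧ ¬ (w ≠ v ∧ w ∉ T.image Subtype.val) := by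
        by_contra hcon
        push Not at hcon
        apply h5
        rw [hYC]
        refine mem_filter.2 ⟨h4, fun w hw hwu => ?_⟩
        by_contra h7
        apply h7
        exact ⟨(hcon w hw hwu).1, by simpa using (hcon w hw hwu).2⟩
      obtain ⟨w, hw, hwu, h7⟩ := h6
      rw [mem_biUnion]
      refine ⟨w, ?_, mem_inter.2 ⟨h4, mem_st_inr.2 ⟨(mem_st_inr.1 h4).1, hw⟩⟩⟩
      by_cases hwv : w = v
      · rw [hwv]; exact mem_insert_self _ _
      · have h8 : w ∈ T.image Subtype.val := by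
          by_contra h9
          exact h7 ⟨hwv, h9⟩
        obtain ⟨w', hw', rfl⟩ := mem_image.1 h8
        refine mem_insert_of_mem (mem_image_of_mem _ (mem_erase.2 ⟨?_, hw'⟩))
        intro h9
        exact hwu (by rw [h9])
    refine (card_le_card h3).trans ?_
    refine (card_biUnion_le_card_mul _ _ 1 ?_).trans ?_
    · intro w hw
      have hne : (Sum.inr (u.1, c) : El n) ≠ .inr (w, c) := by
        intro h4
        have h5 : u.1 = w := congrArg Prod.fst (Sum.inr_injective h4)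
        rcases mem_insert.1 hw with h6 | h6
        · exact u.2 (h5.trans h6)
        · obtain ⟨w', hw', h7⟩ := mem_image.1 h6
          exact (mem_erase.1 hw').1 (Subtype.ext (h7.trans h5.symm))
      rw [card_le_one]
      intro j hj j' hj'
      rw [mem_inter] at hj hj'
      exact st_inter hne hj.1 hj.2 hj'.1 hj'.2
    · rw [mul_one]
      refine (card_insert_le _ _).trans ?_
      have h4 := card_image_le (s := T.erase u) (f := (Subtype.val : _ → Fin (2 * n)))
      rw [card_erase_of_mem hu] at h4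
      have h5 : 0 < T.card := card_pos.2 ⟨u, hu⟩
      omega
  have hCC : ∀ v c, Pr (qq pm pp) (EC v c) ≤ B := by
    intro v c
    refine family hδ hδ1 hp hk (κ := {u : Fin (2 * n) // u ≠ v}) ?_
        (fun u => (c, ⟨s(u.1, v), hdg _ _ u.2⟩)) (fun T u => YC v c T u)
        (fun u => .inr (u.1, c)) ?_ ?_ ?_ ?_ ?_
    · refine (Fintype.card_subtype_le _).trans ?_
      rw [Fintype.card_fin]
    · intro T t _ ht
      have h3 := (mem_filter.1 ht).2 v (Sym2.mem_mk_right _ _) (Ne.symm t.2)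
      exact h3.1 rfl
    · intro t
      exact mem_st_inr.2 ⟨rfl, Sym2.mem_mk_left _ _⟩
    · intro T t _ _
      exact filter_subset _ _
    · intro T t hT ht
      exact hYCk v c T hT t ht
    · intro T _ t ht t' ht' htt
      have hne : t.1 ≠ t'.1 := fun h => htt (Subtype.ext h)
      have aux : ∀ t t' : {u : Fin (2 * n) // u ≠ v}, t ∈ T → t' ∈ T → t.1 ≠ t'.1 →
          ∀ j ∈ YC v c T t, t'.1 ∉ j.2.1 := by
        intro t t' _ ht' hne j hj hmem
        have h3 := (mem_filter.1 hj).2 t'.1 hmem (Ne.symm hne)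
        exact h3.2 (mem_image_of_mem _ ht')
      rw [Finset.disjoint_left]
      intro j hj hj'
      rcases mem_insert.1 hj with h3 | h3
      · rcases mem_insert.1 hj' with h4 | h4
        · have h5 := congrArg (fun j : J n => j.2.1) (h3.symm.trans h4)
          simp only at h5
          exact hne (Sym2.congr_left.1 h5)
        · apply aux t' t ht' ht (Ne.symm hne) j h4
          rw [h3]
          exact Sym2.mem_mk_left _ _
      · rcases mem_insert.1 hj' with h4 | h4
        · apply aux t t' ht ht' hne j h3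
          rw [h4]
          exact Sym2.mem_mk_left _ _
        · exact aux t t' ht ht' hne j h3 (mem_st_inr.1 (mem_filter.1 h4).1).2
  -- the bad event
  have hbad : ∀ s : J n → Fin 3, ¬ FewBad δ δ' d n s →
      (∃ u ∈ (univ : Finset (Fin (2 * n))), ∃ v ∈ (univ : Finset (Fin (2 * n))), EA u v s) ∨
      ((∃ v ∈ (univ : Finset (Fin (2 * n))), ∃ c ∈ (univ : Finset (Fin (2 * n - 1))),
        EB v c s) ∨
      (∃ v ∈ (univ : Finset (Fin (2 * n))), ∃ c ∈ (univ : Finset (Fin (2 * n - 1))),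
        EC v c s)) := by
    intro s hs
    have toA : ∀ u v, k ≤ (univ.filter fun c => c ∈ Lp n s u v ∧ BadP δ d n s u c).card →
        EA u v s := by
      intro u v hcard
      obtain ⟨T, hT, hTk⟩ := exists_subset_card_eq hcard
      have hTne : T.Nonempty := card_pos.1 (by omega)
      obtain ⟨c0, hc0⟩ := hTne
      have h3 := (mem_filter.1 (hT hc0)).2.1
      obtain ⟨h, _⟩ := mem_LL.1 h3
      refine ⟨h, T, mem_powersetCard.2 ⟨subset_univ _, hTk⟩, fun c hc => ?_⟩
      obtain ⟨_, h4, h5⟩ := mem_filter.1 (hT hc)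
      refine ev_of (.inr (u, c)) _ _ (mem_LL.1 h4).snd (erase_subset _ _) ?_ ?_
      · refine le_trans (card_le_card (t := {((c, ⟨s(u, v), h⟩) : J n)}) ?_)
          (by rw [card_singleton]; exact hk1)
        intro j hj
        rw [mem_sdiff, mem_erase] at hj
        rw [mem_singleton]
        by_contra hne
        exact hj.2 ⟨hne, hj.1⟩
      · unfold BadP at h5
        rw [dP_eq, dP_eq] at h5
        exact h5
    have toB : ∀ v c, k ≤ (univ.filter fun u => c ∈ Lp n s u v ∧ BadE δ d n s u v).card →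
        EB v c s := by
      intro v c hcard
      obtain ⟨T, hT, hTk⟩ := exists_subset_card_eq hcard
      have hTv : ∀ u ∈ T, u ≠ v := fun u hu => (mem_filter.1 (hT hu)).2.2.1
      refine ⟨T.subtype (fun u => u ≠ v), mem_powersetCard.2 ⟨subset_univ _, ?_⟩, ?_⟩
      · rw [card_subtype, filter_true_of_mem hTv, hTk]
      · intro u hu
        have huT : u.1 ∈ T := mem_subtype.1 hu
        obtain ⟨_, h4, h5⟩ := mem_filter.1 (hT huT)
        refine ev_of (.inl ⟨s(u.1, v), hdg _ _ u.2⟩) _ _ (mem_LL.1 h4).snd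
          (erase_subset _ _) ?_ ?_
        · refine le_trans (card_le_card (t := {((c, ⟨s(u.1, v), hdg _ _ u.2⟩) : J n)}) ?_)
            (by rw [card_singleton]; exact hk1)
          intro j hj
          rw [mem_sdiff, mem_erase] at hj
          rw [mem_singleton]
          by_contra hne
          exact hj.2 ⟨hne, hj.1⟩
        · have h6 := h5.2
          rw [list_eq n _ s u.1 v (hdg _ _ u.2), list_eq n _ s u.1 v (hdg _ _ u.2)] at h6
          exact h6
    have toC : ∀ v c, k ≤ (univ.filter fun u => c ∈ Lp n s u v ∧ BadP δ d n s u c).card →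
        EC v c s := by
      intro v c hcard
      obtain ⟨T, hT, hTk⟩ := exists_subset_card_eq hcard
      have hTv : ∀ u ∈ T, u ≠ v := by
        intro u hu huv
        have h3 := (mem_filter.1 (hT hu)).2.1
        obtain ⟨h, _⟩ := mem_LL.1 h3
        exact h (Sym2.mk_isDiag_iff.2 huv)
      have hcT : (T.subtype (fun u => u ≠ v)).card = k := by
        rw [card_subtype, filter_true_of_mem hTv, hTk]
      refine ⟨T.subtype (fun u => u ≠ v), mem_powersetCard.2 ⟨subset_univ _, hcT⟩, ?_⟩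
      intro u hu
      have huT : u.1 ∈ T := mem_subtype.1 hu
      obtain ⟨_, h4, h5⟩ := mem_filter.1 (hT huT)
      refine ev_of (.inr (u.1, c)) _ _ (mem_LL.1 h4).snd (filter_subset _ _)
        (hYCk v c _ hcT u hu) ?_
      unfold BadP at h5
      rw [dP_eq, dP_eq] at h5
      exact h5
    have half : ∀ {ι : Type} [Fintype ι] (P Q R : ι → Prop),
        δ' * d < (Nat.card {i // P i ∧ (Q i ∨ R i)} : ℝ) →
        k ≤ (univ.filter fun i => P i ∧ Q i).card ∨ k ≤ (univ.filter fun i => P i ∧ R i).card := by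
      intro ι _ P Q R h3
      by_contra hcon
      push Not at hcon
      have h4 : Nat.card {i // P i ∧ (Q i ∨ R i)} ≤
          (univ.filter fun i => P i ∧ Q i).card + (univ.filter fun i => P i ∧ R i).card := by
        rw [Nat.card_eq_fintype_card, Fintype.card_subtype]
        refine le_trans (card_le_card ?_) (card_union_le _ _)
        intro i hi
        obtain ⟨_, h5, h6⟩ := mem_filter.1 hi
        rcases h6 with h6 | h6
        · exact mem_union_left _ (mem_filter.2 ⟨mem_univ _, h5, h6⟩)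
        · exact mem_union_right _ (mem_filter.2 ⟨mem_univ _, h5, h6⟩)
      have h5 : Nat.card {i // P i ∧ (Q i ∨ R i)} ≤ 2 * k := by omega
      have h6 : (Nat.card {i // P i ∧ (Q i ∨ R i)} : ℝ) ≤ 2 * k := by exact_mod_cast h5
      have h7 : (0 : ℝ) ≤ k := k.cast_nonneg
      linarith
    by_cases hE : ∀ u v, (Nat.card {c // c ∈ Lp n s u v ∧
        (BadP δ d n s u c ∨ BadP δ d n s v c)} : ℝ) ≤ δ' * d
    · have hP : ¬ ∀ v c, (Nat.card {u // c ∈ Lp n s u v ∧
          (BadE δ d n s u v ∨ BadP δ d n s u c)} : ℝ) ≤ δ' * d := fun h => hs ⟨hE, h⟩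
      push Not at hP
      obtain ⟨v, c, hvc⟩ := hP
      right
      rcases half _ _ _ hvc with h3 | h3
      · left
        exact ⟨v, mem_univ _, c, mem_univ _, toB v c (by convert h3)⟩
      · right
        exact ⟨v, mem_univ _, c, mem_univ _, toC v c (by convert h3)⟩
    · push Not at hE
      obtain ⟨u, v, huv⟩ := hE
      left
      rcases half _ _ _ huv with h3 | h3
      · exact ⟨u, mem_univ _, v, mem_univ _, toA u v (by convert h3)⟩
      · refine ⟨v, mem_univ _, u, mem_univ _, toA v u ?_⟩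
        have h4 : Lp n s u v = Lp n s v u := (ker_LL n _ s).symm u v
        rw [h4] at h3
        convert h3
  refine (Pr_mono hq hbad).trans ?_
  refine (Pr_or hq _ _).trans ?_
  refine (add_le_add le_rfl (Pr_or hq _ _)).trans ?_
  have e1 : Pr (qq pm pp) (fun s => ∃ u ∈ (univ : Finset (Fin (2 * n))),
      ∃ v ∈ (univ : Finset (Fin (2 * n))), EA u v s) ≤ 4 * n ^ 2 * B := by
    refine (Pr_exists hq _ _).trans ?_
    refine (Finset.sum_le_sum fun u _ => (Pr_exists hq _ _).trans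
      (Finset.sum_le_sum fun v _ => hA u v)).trans (le_of_eq ?_)
    simp only [Finset.sum_const, card_univ, Fintype.card_fin, nsmul_eq_mul]
    push_cast
    ring
  have hc : (((2 * n - 1 : ℕ) : ℕ) : ℝ) ≤ 2 * n := by
    have : 2 * n - 1 ≤ 2 * n := Nat.sub_le _ _
    exact_mod_cast this
  have gen : ∀ F : Fin (2 * n) → Fin (2 * n - 1) → (J n → Fin 3) → Prop,
      (∀ v c, Pr (qq pm pp) (F v c) ≤ B) →
      Pr (qq pm pp) (fun s => ∃ v ∈ (univ : Finset (Fin (2 * n))),
        ∃ c ∈ (univ : Finset (Fin (2 * n - 1))), F v c s) ≤ 4 * n ^ 2 * B := by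
    intro F hF
    refine (Pr_exists hq _ _).trans ?_
    refine (Finset.sum_le_sum fun u _ => (Pr_exists hq _ _).trans
      (Finset.sum_le_sum fun v _ => hF u v)).trans ?_
    simp only [Finset.sum_const, card_univ, Fintype.card_fin, nsmul_eq_mul]
    have h3 : ((2 * n - 1 : ℕ) : ℝ) * B ≤ 2 * n * B := mul_le_mul_of_nonneg_right hc hB0
    calc ((2 * n : ℕ) : ℝ) * (((2 * n - 1 : ℕ) : ℝ) * B) ≤ ((2 * n : ℕ) : ℝ) * (2 * n * B) :=
          mul_le_mul_of_nonneg_left h3 (Nat.cast_nonneg _)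
      _ = 4 * n ^ 2 * B := by push_cast; ring
  have e2 := gen EB hBB
  have e3 := gen EC hCC
  have h3 : 0 ≤ (n : ℝ) ^ 2 * B := by positivity
  linarith

end Pool.Agent.Lib.FR
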