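import Pool.Agent.Lib.MP_6d56f7_co_FR.Stars

/-!
# Maximum and minimum degree of a random list system
-/

set_option autoImplicit false

namespace Pool.Agent.Lib.FR

open Finset

namespace MaxMin

/-- the size of a list as a number of coordinates in the star of the edge -/
theorem card_LL {n : ℕ} (P : Fin 3 → Prop) [DecidablePred P] (s : J n → Fin 3)
    (u v : Fin (2 * n)) (h : ¬ (s(u, v) : Sym2 (Fin (2 * n))).IsDiag) :
    (LL n P s u v).card = ((st n (.inl ⟨s(u, v), h⟩)).filter (fun i => P (s i))).card := by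
  refine card_bij (fun c _ => ((c, ⟨s(u, v), h⟩) : J n)) ?_ ?_ ?_
  · intro c hc
    obtain ⟨h1, h2⟩ := mem_LL.mp hc
    exact mem_filter.mpr ⟨mem_st_inl.mpr rfl, h2⟩
  · intro c _ c' _ hcc
    exact congrArg Prod.fst hcc
  · rintro ⟨c, e⟩ hc
    obtain ⟨h1, h2⟩ := mem_filter.mp hc
    have h3 := mem_st_inl.mp h1
    simp only at h3
    subst h3
    exact ⟨c, mem_LL.mpr ⟨h, h2⟩, rfl⟩

/-- the degree of a pair as a number of coordinates in the star of the pair -/
theorem card_dP {n : ℕ} (P : Fin 3 → Prop) [DecidablePred P] (s : J n → Fin 3)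
    (v : Fin (2 * n)) (c : Fin (2 * n - 1)) :
    dP (LL n P s) v c = ((st n (.inr (v, c))).filter (fun i => P (s i))).card := by
  unfold dP
  refine card_bij (fun u hu => ((c, ⟨s(u, v), (mem_LL.mp (mem_filter.mp hu).2).1⟩) : J n))
    ?_ ?_ ?_
  · intro u hu
    obtain ⟨h1, h2⟩ := mem_LL.mp (mem_filter.mp hu).2
    exact mem_filter.mpr ⟨mem_st_inr.mpr ⟨rfl, Sym2.mem_mk_right _ _⟩, h2⟩
  · intro u hu u' hu' huu
    have h2 := congrArg (fun j : J n => j.2.1) huu
    simp only at h2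
    exact Sym2.congr_left.mp h2
  · rintro ⟨c', e⟩ hc
    obtain ⟨h1, h2⟩ := mem_filter.mp hc
    obtain ⟨h3, h4⟩ := mem_st_inr.mp h1
    simp only at h3 h4
    subst h3
    obtain ⟨w, hw⟩ := h4
    have hw' : e.1 = s(w, v) := by rw [hw]; exact Sym2.eq_swap
    have he : e = ⟨s(w, v), hw' ▸ e.2⟩ := Subtype.ext hw'
    refine ⟨w, mem_filter.mpr ⟨mem_univ _, mem_LL.mpr ⟨hw' ▸ e.2, ?_⟩⟩, ?_⟩
    · rw [← he]; exact h2
    · rw [← he]

/-- union bound over the lists and the pairs -/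
theorem union {n : ℕ} {q : Fin 3 → ℝ} (hq : ∀ a, 0 ≤ q a) (A : El n → (J n → Fin 3) → Prop)
    {B : ℝ} (hB : ∀ a, Pr q (A a) ≤ B) (hB0 : 0 ≤ B) {E : (J n → Fin 3) → Prop}
    (hE : ∀ s, E s → ∃ a, A a s) : Pr q E ≤ 8 * n ^ 2 * B := by
  have h1 : Pr q E ≤ Pr q (fun s => ∃ a ∈ (univ : Finset (El n)), A a s) :=
    Pr_mono hq fun s hs => by
      obtain ⟨a, ha⟩ := hE s hs
      exact ⟨a, mem_univ _, ha⟩
  refine h1.trans ((Pr_exists hq _ _).trans ?_)
  refine (sum_le_card_nsmul _ _ B fun a _ => hB a).trans ?_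
  rw [nsmul_eq_mul, card_univ, El_card]
  refine mul_le_mul_of_nonneg_right ?_ hB0
  have h2 : 3 * (n * (2 * n - 1)) ≤ 8 * n ^ 2 := by
    have : n * (2 * n - 1) ≤ n * (2 * n) := Nat.mul_le_mul_left _ (Nat.sub_le _ _)
    nlinarith
  exact_mod_cast h2

theorem cast_sub {n : ℕ} (hn : 1 ≤ n) : ((2 * n - 1 : ℕ) : ℝ) = 2 * n - 1 := by
  rw [Nat.cast_sub (by omega)]
  push_cast
  ring

theorem exp54 : Real.exp (5 / 4) ≤ 3491 / 1000 := by
  have h1 := Real.exp_one_lt_d9
  have h2 : Real.exp (1 / 4) ≤ 12841 / 10000 := by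
    have h3 : Real.exp (1 / 4) ^ 4 = Real.exp 1 := by
      rw [← Real.exp_nat_mul]; norm_num
    by_contra hc
    push Not at hc
    have h4 : (12841 / 10000 : ℝ) ^ 4 < Real.exp (1 / 4) ^ 4 :=
      pow_lt_pow_left₀ hc (by norm_num) (by norm_num)
    rw [h3] at h4
    norm_num at h4 h1
    linarith
  have h5 : Real.exp (5 / 4) = Real.exp 1 * Real.exp (1 / 4) := by
    rw [← Real.exp_add]; norm_num
  rw [h5]
  have h6 := Real.exp_pos 1
  have h7 := Real.exp_pos (1 / 4)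
  nlinarith

end MaxMin

theorem maxdeg_prob {n : ℕ} {pm pp d : ℝ} (hp : Par (1 / 8) n pm pp d) :
    Pr (qq pm pp) (fun s : J n → Fin 3 => ¬ MaxDeg (4 * d) (Lp n s)) ≤
      8 * n ^ 2 * Real.exp (-(2 * d)) := by
  classical
  have hq := qq_nonneg hp.pm0 hp.pmpp hp.pp1
  have hn : 1 ≤ n := by have := hp.n6; omega
  refine MaxMin.union hq (fun a s => (∀ i ∈ (∅ : Finset (J n)), s i ≠ 0) ∧
    4 * d ≤ (((st n a).filter fun i => s i ≠ 0).card : ℝ)) ?_ (Real.exp_pos _).le ?_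
  · intro a
    have h1 := high_tail hp.pm0 hp.pmpp hp.pp1 ∅ (st n a) (disjoint_empty_left _)
      (lam := 5 / 4) (by norm_num) (4 * d)
    refine h1.trans ?_
    rw [card_empty, pow_zero, one_mul, st_card, MaxMin.cast_sub hn]
    refine Real.exp_le_exp.mpr ?_
    have h2 := hp.hi
    have h3 := MaxMin.exp54
    have h4 : (1 : ℝ) ≤ Real.exp (5 / 4) := Real.one_le_exp (by norm_num)
    have h5 := hp.d1
    have h6 : (Real.exp (5 / 4) - 1) * pp * (2 * n - 1) ≤ (Real.exp (5 / 4) - 1) * (9 / 8 * d) := by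
      have : (Real.exp (5 / 4) - 1) * pp * (2 * n - 1) =
        (Real.exp (5 / 4) - 1) * ((2 * n - 1) * pp) := by ring
      rw [this]
      refine mul_le_mul_of_nonneg_left ?_ (by linarith)
      linarith
    have h7 : (Real.exp (5 / 4) - 1) * (9 / 8 * d) ≤ (3491 / 1000 - 1) * (9 / 8 * d) := by
      refine mul_le_mul_of_nonneg_right (by linarith) (by linarith)
    linarith
  · intro s hs
    by_contra hc
    push Not at hc
    refine hs ⟨?_, ?_⟩
    · intro u v
      by_cases huv : (s(u, v) : Sym2 (Fin (2 * n))).IsDiag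
      · have h1 : (Lp n s u v) = ∅ := by
          ext c
          rw [mem_LL]
          simp [huv]
        rw [h1, card_empty, Nat.cast_zero]
        have := hp.d1
        linarith
      · rw [MaxMin.card_LL _ s u v huv]
        exact (hc (.inl ⟨s(u, v), huv⟩) (by simp)).le
    · intro v c
      rw [MaxMin.card_dP]
      exact (hc (.inr (v, c)) (by simp)).le

theorem mindeg_prob {n : ℕ} {p lam c₁ : ℝ} (hn : 1 ≤ n) (h0 : 0 ≤ p) (h1 : p ≤ 1)
    (hlam : 0 ≤ lam) :
    Pr (qq p p) (fun s : J n → Fin 3 =>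
      ¬ MinDeg (c₁ * ((2 * n - 1 : ℝ) * p)) (Lm n s) (fun _ _ => False) (fun _ _ => False)) ≤
      8 * n ^ 2 * Real.exp (-((1 - Real.exp (-lam) - lam * c₁) * ((2 * n - 1 : ℝ) * p))) := by
  classical
  have hq := qq_nonneg h0 le_rfl h1
  refine MaxMin.union hq (fun a s => (∀ i ∈ (∅ : Finset (J n)), s i ≠ 0) ∧
    (((st n a).filter fun i => s i = 2).card : ℝ) ≤ c₁ * ((2 * n - 1 : ℝ) * p)) ?_
    (Real.exp_pos _).le ?_
  · intro a
    have h2 := low_tail h0 le_rfl h1 ∅ (st n a) (disjoint_empty_left _) hlam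
      (c₁ * ((2 * n - 1 : ℝ) * p))
    refine h2.trans (le_of_eq ?_)
    rw [card_empty, pow_zero, one_mul, st_card, MaxMin.cast_sub hn]
    congr 1
    ring
  · intro s hs
    by_contra hc
    push Not at hc
    refine hs ⟨?_, ?_⟩
    · intro u v huv _
      have hd : ¬ (s(u, v) : Sym2 (Fin (2 * n))).IsDiag := by
        rw [Sym2.mk_isDiag_iff]; exact huv
      rw [MaxMin.card_LL _ s u v hd]
      exact (hc (.inl ⟨s(u, v), hd⟩) (by simp)).le
    · intro v c _
      rw [MaxMin.card_dP]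
      exact (hc (.inr (v, c)) (by simp)).le

end Pool.Agent.Lib.FR
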