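import Pool.Agent.Lib.MP_6d56f7_co_FR.Api

/-!
# Uniform orderings as mixtures of product measures
-/

set_option autoImplicit false

namespace Pool.Agent.Lib.FR

open Finset

/-- the states decrease along the ordering -/
def Compat {J : Type} {m : ℕ} (σ : J ≃ Fin m) (s : J → Fin 3) : Prop :=
  ∀ i j, s j < s i → σ i < σ j

namespace MixAux

open Classical

variable {J : Type} [Fintype J] [DecidableEq J] {m : ℕ}

/-- the number of compatible orderings -/
noncomputable def num (m : ℕ) (s : J → Fin 3) : ℕ :=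
  (univ.filter fun σ : J ≃ Fin m => Compat σ s).card

theorem exists_compat (σ₀ : J ≃ Fin m) (s : J → Fin 3) : ∃ σ : J ≃ Fin m, Compat σ s := by
  -- order by (2 - s, σ₀)
  let key : J → ℕ := fun j => (2 - (s j : ℕ)) * m + (σ₀ j : ℕ)
  have hinj : Function.Injective key := by
    intro i j h
    have hi := (σ₀ i).2
    have hj := (σ₀ j).2
    have h1 : (σ₀ i : ℕ) = (σ₀ j : ℕ) := by
      have e1 : key i % m = (σ₀ i : ℕ) := by
        simp only [key]
        rw [mul_comm, Nat.mul_add_mod, Nat.mod_eq_of_lt hi]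
      have e2 : key j % m = (σ₀ j : ℕ) := by
        simp only [key]
        rw [mul_comm, Nat.mul_add_mod, Nat.mod_eq_of_lt hj]
      rw [← e1, ← e2, h]
    exact σ₀.injective (Fin.ext h1)
  let T : Finset ℕ := univ.image key
  have hT : T.card = m := by
    rw [card_image_of_injective _ hinj, card_univ, Fintype.card_congr σ₀, Fintype.card_fin]
  let e : Fin m ≃o T := T.orderIsoOfFin hT
  let f : J → T := fun j => ⟨key j, mem_image_of_mem _ (mem_univ j)⟩
  have hf : Function.Bijective f := by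
    constructor
    · intro i j h
      exact hinj (congrArg Subtype.val h)
    · rintro ⟨k, hk⟩
      obtain ⟨j, -, rfl⟩ := mem_image.mp hk
      exact ⟨j, rfl⟩
  refine ⟨(Equiv.ofBijective f hf).trans e.symm.toEquiv, ?_⟩
  intro i j hij
  have h1 : key i < key j := by
    have hi := (σ₀ i).2
    have h2 : (s j : ℕ) < (s i : ℕ) := hij
    have h3 : (s i : ℕ) < 3 := (s i).2
    have h4 : 2 - (s i : ℕ) + 1 ≤ 2 - (s j : ℕ) := by omega
    have h5 : (2 - (s i : ℕ) + 1) * m ≤ (2 - (s j : ℕ)) * m := Nat.mul_le_mul_right m h4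
    have h6 : (2 - (s i : ℕ) + 1) * m = (2 - (s i : ℕ)) * m + m := by ring
    simp only [key]
    omega
  have h2 : f i < f j := h1
  show e.symm (f i) < e.symm (f j)
  exact e.symm.lt_iff_lt.mpr h2

theorem num_pos (σ₀ : J ≃ Fin m) (s : J → Fin 3) : 0 < num m s := by
  obtain ⟨σ, hσ⟩ := exists_compat σ₀ s
  exact card_pos.mpr ⟨σ, by simpa using hσ⟩

theorem num_comp (π : J ≃ J) (s : J → Fin 3) : num m (s ∘ π) = num m s := by
  unfold num
  refine card_bij' (fun σ _ => π.symm.trans σ) (fun σ _ => π.trans σ) ?_ ?_ ?_ ?_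
  · intro σ hσ
    simp only [mem_filter, mem_univ, true_and] at hσ ⊢
    intro i j hij
    have := hσ (π.symm i) (π.symm j) (by simpa using hij)
    simpa using this
  · intro σ hσ
    simp only [mem_filter, mem_univ, true_and] at hσ ⊢
    intro i j hij
    exact hσ (π i) (π j) hij
  · intro σ _
    ext j
    simp
  · intro σ _
    ext j
    simp

/-- the weight of an ordering -/
noncomputable def wt (q : Fin 3 → ℝ) (σ : J ≃ Fin m) : ℝ :=
  ∑ s : J → Fin 3, if Compat σ s then (∏ i, q (s i)) / (num m s : ℝ) else 0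

theorem wt_eq (q : Fin 3 → ℝ) (σ τ : J ≃ Fin m) : wt q σ = wt q τ := by
  unfold wt
  let π : J ≃ J := σ.trans τ.symm
  -- s for τ corresponds to s ∘ π for σ
  symm
  refine Fintype.sum_equiv (Equiv.arrowCongr π.symm (Equiv.refl (Fin 3))) _ _ ?_
  intro s
  have h1 : (Equiv.arrowCongr π.symm (Equiv.refl (Fin 3))) s = s ∘ π := by
    funext j
    simp [Equiv.arrowCongr]
  rw [h1]
  have h2 : Compat τ s ↔ Compat σ (s ∘ π) := by
    constructor
    · intro h i j hij
      have := h (π i) (π j) hij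
      simpa [π] using this
    · intro h i j hij
      have := h (π.symm i) (π.symm j) (by simpa using hij)
      simpa [π] using this
  have h3 : ∏ i, q ((s ∘ π) i) = ∏ i, q (s i) := Equiv.prod_comp π (fun i => q (s i))
  rw [num_comp, h3]
  by_cases h : Compat τ s
  · rw [if_pos h, if_pos (h2.mp h)]
  · rw [if_neg h, if_neg (fun h' => h (h2.mpr h'))]

theorem sum_wt (q : Fin 3 → ℝ) (hs : ∑ a, q a = 1) (σ₀ : J ≃ Fin m) :
    ∑ σ : J ≃ Fin m, wt q σ = 1 := by
  unfold wt
  rw [sum_comm]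
  have h1 : ∀ s : J → Fin 3, ∑ σ : J ≃ Fin m,
      (if Compat σ s then (∏ i, q (s i)) / (num m s : ℝ) else 0) = ∏ i, q (s i) := by
    intro s
    rw [← sum_filter, sum_const, nsmul_eq_mul]
    have h2 : ((univ.filter fun σ : J ≃ Fin m => Compat σ s).card : ℝ) = (num m s : ℝ) := rfl
    rw [h2]
    have h3 : (num m s : ℝ) ≠ 0 := by exact_mod_cast (num_pos σ₀ s).ne'
    field_simp
  rw [sum_congr rfl fun s _ => h1 s]
  rw [← Fintype.piFinset_univ, ← prod_univ_sum (fun _ : J => (univ : Finset (Fin 3)))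
    (fun _ a => q a)]
  simp [hs]

end MixAux

open Classical in
/-- the share of the bad orderings is at most the probability of the bad states -/
theorem mix {J : Type} [Fintype J] [DecidableEq J] {m : ℕ} (hm : Fintype.card J = m)
    (q : Fin 3 → ℝ) (hq : ∀ a, 0 ≤ q a) (hs : ∑ a, q a = 1)
    (Bad : (J ≃ Fin m) → Prop) (BadS : (J → Fin 3) → Prop)
    (h : ∀ σ s, Compat σ s → Bad σ → BadS s) :
    (Set.ncard {σ : J ≃ Fin m | Bad σ} : ℝ) / (Nat.card (J ≃ Fin m) : ℝ) ≤ Pr q BadS := by
  obtain ⟨σ₀⟩ : Nonempty (J ≃ Fin m) := ⟨Fintype.equivFinOfCardEq hm⟩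
  set N : ℝ := (Nat.card (J ≃ Fin m) : ℝ) with hN
  have hNc : N = (Fintype.card (J ≃ Fin m) : ℝ) := by rw [hN, Nat.card_eq_fintype_card]
  have hNpos : 0 < N := by
    rw [hNc]
    exact_mod_cast Fintype.card_pos_iff.mpr ⟨σ₀⟩
  have hw : ∀ σ : J ≃ Fin m, MixAux.wt q σ = 1 / N := by
    intro σ
    have h1 := MixAux.sum_wt q hs σ₀
    rw [sum_congr rfl fun τ _ => MixAux.wt_eq q τ σ, sum_const, nsmul_eq_mul, card_univ,
      ← hNc] at h1
    field_simp
    linarith
  have hcard : (Set.ncard {σ : J ≃ Fin m | Bad σ} : ℝ) / N =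
      ∑ σ ∈ univ.filter (fun σ : J ≃ Fin m => Bad σ), MixAux.wt q σ := by
    rw [sum_congr rfl fun τ _ => hw τ, sum_const, nsmul_eq_mul, Set.ncard_eq_toFinset_card',
      Set.toFinset_setOf]
    ring
  rw [hcard]
  unfold MixAux.wt
  rw [sum_comm]
  rw [Pr_eq]
  unfold Ex
  refine sum_le_sum fun s _ => ?_
  beta_reduce
  have hP : 0 ≤ ∏ i, q (s i) := prod_nonneg fun i _ => hq _
  have hn : (0 : ℝ) < (MixAux.num m s : ℝ) := by exact_mod_cast MixAux.num_pos σ₀ s
  by_cases hb : BadS s
  · rw [if_pos hb, mul_one]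
    calc ∑ σ ∈ univ.filter (fun σ : J ≃ Fin m => Bad σ),
          (if Compat σ s then (∏ i, q (s i)) / (MixAux.num m s : ℝ) else 0)
        ≤ ∑ σ : J ≃ Fin m, (if Compat σ s then (∏ i, q (s i)) / (MixAux.num m s : ℝ) else 0) := by
          refine sum_le_sum_of_subset_of_nonneg (filter_subset _ _) fun σ _ _ => ?_
          split_ifs
          · positivity
          · exact le_rfl
      _ = ∏ i, q (s i) := by
          rw [← sum_filter, sum_const, nsmul_eq_mul]
          have h2 : ((univ.filter fun σ : J ≃ Fin m => Compat σ s).card : ℝ) =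
            (MixAux.num m s : ℝ) := rfl
          rw [h2]
          field_simp
  · rw [if_neg hb, mul_zero]
    refine le_of_eq (sum_eq_zero fun σ hσ => ?_)
    rw [if_neg]
    intro hc
    exact hb (h σ s hc (mem_filter.mp hσ).2)

end Pool.Agent.Lib.FR
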