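import Pool.Agent.Lib.MP_6d56f7_co_FR.Api

set_option autoImplicit false
set_option linter.unusedSectionVars false

/-! Project FR, module K10: the large random list system is locally sparse. -/

namespace Pool.Agent.Lib.FR

open Finset

namespace SparseP

/-- indicator of the states of the large system -/
noncomputable def bb (a : Fin 3) : ℝ := if a ≠ 0 then 1 else 0

theorem bb_nonneg (a : Fin 3) : 0 ≤ bb a := by unfold bb; split_ifs <;> norm_num

theorem exp_mul_sub_one_le {lam : ℝ} (hl : 0 ≤ lam) {m : ℕ} (hm : m ≤ 2) :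
    Real.exp (lam * m) - 1 ≤ m * Real.exp (2 * lam) := by
  have h1 : Real.exp lam ≤ Real.exp (2 * lam) := Real.exp_le_exp.2 (by linarith)
  have h2 : 0 < Real.exp (2 * lam) := Real.exp_pos _
  interval_cases m
  · simp
  · simp only [Nat.cast_one, mul_one, one_mul]; linarith
  · rw [mul_comm lam]
    push_cast
    linarith

theorem mgf {I : Type} [Fintype I] [DecidableEq I] {pm pp lam : ℝ} (h0 : 0 ≤ pm) (h1 : pm ≤ pp)
    (h2 : pp ≤ 1) (hl : 0 ≤ lam) (m : I → ℕ) (hm : ∀ h, m h ≤ 2) :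
    Ex (qq pm pp) (fun s : I → Fin 3 => Real.exp (lam * ∑ h, (m h : ℝ) * bb (s h))) ≤
      Real.exp (pp * Real.exp (2 * lam) * ∑ h, (m h : ℝ)) := by
  have e1 : (fun s : I → Fin 3 => Real.exp (lam * ∑ h, (m h : ℝ) * bb (s h))) =
      fun s => ∏ h, Real.exp (lam * m h * bb (s h)) := by
    funext s
    rw [← Real.exp_sum, Finset.mul_sum]
    congr 1
    exact Finset.sum_congr rfl fun h _ => by ring
  rw [e1, Ex_prod (qq pm pp) (fun h a => Real.exp (lam * m h * bb a))]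
  rw [Finset.mul_sum, Real.exp_sum]
  refine Finset.prod_le_prod (fun h _ => Finset.sum_nonneg fun a _ =>
    mul_nonneg (qq_nonneg h0 h1 h2 a) (Real.exp_pos _).le) fun h _ => ?_
  have e2 : ∑ a : Fin 3, qq pm pp a * Real.exp (lam * m h * bb a) =
      1 + pp * (Real.exp (lam * m h) - 1) := by
    simp [qq, Fin.sum_univ_three, bb]
    ring
  rw [e2]
  have h3 := exp_mul_sub_one_le hl (hm h)
  have h4 : 0 ≤ pp := h0.trans h1
  have h5 : pp * (Real.exp (lam * m h) - 1) ≤ pp * Real.exp (2 * lam) * m h := by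
    calc pp * (Real.exp (lam * m h) - 1) ≤ pp * (m h * Real.exp (2 * lam)) :=
          mul_le_mul_of_nonneg_left h3 h4
      _ = _ := by ring
  have h6 := Real.add_one_le_exp (pp * Real.exp (2 * lam) * m h)
  linarith

section Graph

variable {n : ℕ} {X Y : Type} [Fintype X] [DecidableEq X] [Fintype Y] [DecidableEq Y]

open Classical in
/-- the number of present pairs -/
noncomputable def cnt (R : X → Y → J n → Prop) (s : J n → Fin 3) (A : Finset X)
    (B : Finset Y) : ℕ :=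
  ((A ×ˢ B).filter (fun p => ∃ h, R p.1 p.2 h ∧ s h ≠ 0)).card

open Classical in
/-- multiplicity of an index -/
noncomputable def mul (R : X → Y → J n → Prop) (A : Finset X) (B : Finset Y) (h : J n) : ℕ :=
  ((A ×ˢ B).filter (fun p => R p.1 p.2 h)).card

theorem mul_le_card {R : X → Y → J n → Prop} {A : Finset X} {B : Finset Y} {h : J n}
    (T : Finset (X × Y)) (hT : ∀ p : X × Y, R p.1 p.2 h → p ∈ T) : mul R A B h ≤ T.card := by
  classical
  unfold mul
  refine Finset.card_le_card fun p hp => hT p ?_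
  rw [Finset.mem_filter] at hp
  exact hp.2

theorem cnt_eq {R : X → Y → J n → Prop} {s : J n → Fin 3} {A : Finset X} {B : Finset Y}
    (Q : X × Y → Prop) [DecidablePred Q] (hQ : ∀ p, Q p ↔ ∃ h, R p.1 p.2 h ∧ s h ≠ 0) :
    ((A ×ˢ B).filter Q).card = cnt R s A B := by
  classical
  unfold cnt
  congr 1
  ext p
  rw [Finset.mem_filter, Finset.mem_filter, hQ]

theorem cnt_le (R : X → Y → J n → Prop) (s : J n → Fin 3) (A : Finset X) (B : Finset Y) :
    (cnt R s A B : ℝ) ≤ ∑ h, (mul R A B h : ℝ) * bb (s h) := by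
  classical
  have h1 : ((A ×ˢ B).filter (fun p => ∃ h, R p.1 p.2 h ∧ s h ≠ 0)) ⊆
      univ.biUnion (fun h : J n => if s h ≠ 0 then (A ×ˢ B).filter (fun p => R p.1 p.2 h)
        else ∅) := by
    intro p hp
    rw [Finset.mem_filter] at hp
    obtain ⟨hp, h, hR, hs⟩ := hp
    rw [Finset.mem_biUnion]
    refine ⟨h, Finset.mem_univ _, ?_⟩
    rw [if_pos hs, Finset.mem_filter]
    exact ⟨hp, hR⟩
  have h2 := (Finset.card_le_card h1).trans Finset.card_biUnion_le
  have h3 : ((cnt R s A B : ℕ) : ℝ) ≤ ((∑ h : J n, (if s h ≠ 0 then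
      (A ×ˢ B).filter (fun p => R p.1 p.2 h) else ∅).card : ℕ) : ℝ) := by
    unfold cnt
    exact_mod_cast h2
  refine h3.trans ?_
  push_cast
  refine Finset.sum_le_sum fun h _ => ?_
  unfold bb mul
  split_ifs with hs
  · rw [mul_one]
  · simp

theorem sum_mul_le {R : X → Y → J n → Prop}
    (hR1 : ∀ x y h h', R x y h → R x y h' → h = h') (A : Finset X) (B : Finset Y) :
    ∑ h, (mul R A B h : ℝ) ≤ A.card * B.card := by
  classical
  have h1 : ∑ h : J n, mul R A B h ≤ (A ×ˢ B).card := by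
    unfold mul
    simp only [Finset.card_filter]
    rw [Finset.sum_comm]
    rw [Finset.card_eq_sum_ones]
    refine Finset.sum_le_sum fun p _ => ?_
    by_cases hp : ∃ h, R p.1 p.2 h
    · obtain ⟨h, hh⟩ := hp
      rw [Finset.sum_eq_single h]
      · rw [if_pos hh]
      · intro h' _ hne
        rw [if_neg fun h'' => hne (hR1 _ _ _ _ h'' hh)]
      · intro h'; exact absurd (Finset.mem_univ _) h'
    · rw [Finset.sum_eq_zero]
      · exact Nat.zero_le _
      · intro h _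
        rw [if_neg fun h' => hp ⟨h, h'⟩]
  rw [Finset.card_product] at h1
  exact_mod_cast h1

/-- the tail of the number of pairs -/
theorem tail {pm pp d ε : ℝ} (hp : Par (1 / 8) n pm pp d) (hε : 0 < ε)
    {R : X → Y → J n → Prop}
    (hR1 : ∀ x y h h', R x y h → R x y h' → h = h')
    (hR2 : ∀ A B h, mul R A B h ≤ 2) (A : Finset X) (B : Finset Y)
    (hAB : (A.card : ℝ) ≤ Real.exp (-8 / ε) * (2 * n - 1 : ℝ) ∨
      (B.card : ℝ) ≤ Real.exp (-8 / ε) * (2 * n - 1 : ℝ)) :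
    Pr (qq pm pp) (fun s : J n → Fin 3 => ε * d * (A.card + B.card) < (cnt R s A B : ℝ)) ≤
      Real.exp (-(5 / 2 * d)) ^ A.card * Real.exp (-(5 / 2 * d)) ^ B.card := by
  have hd : 1 ≤ d := hp.d1
  have hpp : 0 ≤ pp := hp.pm0.trans hp.pmpp
  have hlam : 0 ≤ 4 / ε := by positivity
  have key := mgf (I := J n) hp.pm0 hp.pmpp hp.pp1 hlam (mul R A B) (hR2 A B)
  have h1 : Pr (qq pm pp) (fun s : J n → Fin 3 =>
      ε * d * (A.card + B.card) < (cnt R s A B : ℝ)) ≤
      Ex (qq pm pp) (fun s : J n → Fin 3 =>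
        Real.exp (4 / ε * ∑ h, (mul R A B h : ℝ) * bb (s h))) /
        Real.exp (4 / ε * (ε * d * (A.card + B.card))) := by
    refine Pr_markov (qq_nonneg hp.pm0 hp.pmpp hp.pp1) (Real.exp_pos _)
      (fun s => (Real.exp_pos _).le) fun s hs => ?_
    refine Real.exp_le_exp.2 (mul_le_mul_of_nonneg_left ?_ hlam)
    exact hs.le.trans (cnt_le R s A B)
  refine h1.trans ?_
  rw [div_le_iff₀ (Real.exp_pos _)]
  refine key.trans ?_
  rw [← Real.exp_nat_mul, ← Real.exp_nat_mul, ← Real.exp_add, ← Real.exp_add]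
  refine Real.exp_le_exp.2 ?_
  have e1 : 4 / ε * (ε * d * (A.card + B.card)) = 4 * d * (A.card + B.card) := by
    field_simp
  rw [e1]
  have hs := sum_mul_le hR1 A B
  have hE : Real.exp (2 * (4 / ε)) * Real.exp (-8 / ε) = 1 := by
    rw [← Real.exp_add]
    have : 2 * (4 / ε) + -8 / ε = 0 := by ring
    rw [this, Real.exp_zero]
  have hEp : 0 < Real.exp (2 * (4 / ε)) := Real.exp_pos _
  have hA : (0 : ℝ) ≤ A.card := Nat.cast_nonneg _
  have hB : (0 : ℝ) ≤ B.card := Nat.cast_nonneg _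
  have hN := hp.hi
  have h3 : pp * Real.exp (2 * (4 / ε)) * ((A.card : ℝ) * B.card) ≤
      9 / 8 * d * (A.card + B.card) := by
    rcases hAB with h | h
    · have h4 : Real.exp (2 * (4 / ε)) * A.card ≤ 2 * n - 1 := by
        calc Real.exp (2 * (4 / ε)) * A.card
            ≤ Real.exp (2 * (4 / ε)) * (Real.exp (-8 / ε) * (2 * n - 1 : ℝ)) :=
              mul_le_mul_of_nonneg_left h hEp.le
          _ = (Real.exp (2 * (4 / ε)) * Real.exp (-8 / ε)) * (2 * n - 1 : ℝ) := by ring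
          _ = _ := by rw [hE, one_mul]
      calc pp * Real.exp (2 * (4 / ε)) * ((A.card : ℝ) * B.card)
          = pp * (Real.exp (2 * (4 / ε)) * A.card) * B.card := by ring
        _ ≤ pp * (2 * n - 1) * B.card := by gcongr
        _ = (2 * n - 1) * pp * B.card := by ring
        _ ≤ ((1 + 1 / 8) * d) * B.card := by gcongr
        _ ≤ 9 / 8 * d * (A.card + B.card) := by nlinarith [mul_nonneg (by linarith : (0:ℝ) ≤ d) hA]
    · have h4 : Real.exp (2 * (4 / ε)) * B.card ≤ 2 * n - 1 := by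
        calc Real.exp (2 * (4 / ε)) * B.card
            ≤ Real.exp (2 * (4 / ε)) * (Real.exp (-8 / ε) * (2 * n - 1 : ℝ)) :=
              mul_le_mul_of_nonneg_left h hEp.le
          _ = (Real.exp (2 * (4 / ε)) * Real.exp (-8 / ε)) * (2 * n - 1 : ℝ) := by ring
          _ = _ := by rw [hE, one_mul]
      calc pp * Real.exp (2 * (4 / ε)) * ((A.card : ℝ) * B.card)
          = pp * (Real.exp (2 * (4 / ε)) * B.card) * A.card := by ring
        _ ≤ pp * (2 * n - 1) * A.card := by gcongr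
        _ = (2 * n - 1) * pp * A.card := by ring
        _ ≤ ((1 + 1 / 8) * d) * A.card := by gcongr
        _ ≤ 9 / 8 * d * (A.card + B.card) := by nlinarith [mul_nonneg (by linarith : (0:ℝ) ≤ d) hB]
  have h5 : pp * Real.exp (2 * (4 / ε)) * ∑ h, (mul R A B h : ℝ) ≤
      pp * Real.exp (2 * (4 / ε)) * ((A.card : ℝ) * B.card) :=
    mul_le_mul_of_nonneg_left hs (mul_nonneg hpp hEp.le)
  have h6 : 0 ≤ d * (A.card + B.card) := mul_nonneg (by linarith) (by linarith)
  nlinarith [h3, h5, h6]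

theorem sum_pow_card (X : Type) [Fintype X] [DecidableEq X] (q : ℝ) :
    ∑ A ∈ (univ : Finset (Finset X)).erase ∅, q ^ A.card = (1 + q) ^ Fintype.card X - 1 := by
  have h1 : ∑ A : Finset X, q ^ A.card = (1 + q) ^ Fintype.card X := by
    have h := Finset.prod_add (fun _ : X => q) (fun _ : X => (1 : ℝ)) univ
    simp only [Finset.prod_const, one_pow, mul_one, Finset.powerset_univ] at h
    rw [← h, add_comm, Finset.card_univ]
  rw [← h1, ← Finset.add_sum_erase univ _ (Finset.mem_univ (∅ : Finset X))]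
  simp

theorem pow_sub_one_le {q : ℝ} (hq : 0 ≤ q) {M : ℕ} {t : ℝ} (hM : (M : ℝ) * q ≤ t) (ht : t ≤ 1) :
    (1 + q) ^ M - 1 ≤ 2 * t := by
  have h0 : 0 ≤ (M : ℝ) * q := mul_nonneg (Nat.cast_nonneg _) hq
  have h1 : (1 + q) ^ M ≤ Real.exp ((M : ℝ) * q) := by
    rw [Real.exp_nat_mul]
    exact pow_le_pow_left₀ (by linarith) (by linarith [Real.add_one_le_exp q]) _
  have h2 : Real.exp ((M : ℝ) * q) ≤ Real.exp t := Real.exp_le_exp.2 hM
  have h3 : |Real.exp t - 1| ≤ 2 * |t| := Real.abs_exp_sub_one_le (by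
    rw [abs_of_nonneg (h0.trans hM)]; exact ht)
  rw [abs_of_nonneg (h0.trans hM)] at h3
  have h4 := le_abs_self (Real.exp t - 1)
  linarith

/-- the union bound over one graph -/
theorem graph {pm pp d ε : ℝ} (hp : Par (1 / 8) n pm pp d) (hε : 0 < ε)
    (hd : 4 * n * Real.exp (-(5 / 2 * d)) ≤ 1)
    {R : X → Y → J n → Prop}
    (hR1 : ∀ x y h h', R x y h → R x y h' → h = h')
    (hR2 : ∀ A B h, mul R A B h ≤ 2) (hX : Fintype.card X ≤ 2 * n)
    (hY : Fintype.card Y ≤ 2 * n) :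
    Pr (qq pm pp) (fun s : J n → Fin 3 => ∃ A : Finset X, ∃ B : Finset Y,
      ((A.card : ℝ) ≤ Real.exp (-8 / ε) * (2 * n - 1 : ℝ) ∨
        (B.card : ℝ) ≤ Real.exp (-8 / ε) * (2 * n - 1 : ℝ)) ∧
      ε * d * (A.card + B.card) < (cnt R s A B : ℝ)) ≤
      16 * n ^ 2 * Real.exp (-5 * d) := by
  classical
  have hd1 : 1 ≤ d := hp.d1
  set q : ℝ := Real.exp (-(5 / 2 * d)) with hq
  have hq0 : 0 ≤ q := (Real.exp_pos _).le
  have hqn := qq_nonneg hp.pm0 hp.pmpp hp.pp1
  let good : Finset X × Finset Y → Prop := fun p =>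
    ((p.1.card : ℝ) ≤ Real.exp (-8 / ε) * (2 * n - 1 : ℝ) ∨
        (p.2.card : ℝ) ≤ Real.exp (-8 / ε) * (2 * n - 1 : ℝ))
  let T : Finset (Finset X × Finset Y) :=
    ((univ : Finset (Finset X)).erase ∅ ×ˢ (univ : Finset (Finset Y)).erase ∅)
  have h1 : Pr (qq pm pp) (fun s : J n → Fin 3 => ∃ A : Finset X, ∃ B : Finset Y,
      ((A.card : ℝ) ≤ Real.exp (-8 / ε) * (2 * n - 1 : ℝ) ∨
        (B.card : ℝ) ≤ Real.exp (-8 / ε) * (2 * n - 1 : ℝ)) ∧
      ε * d * (A.card + B.card) < (cnt R s A B : ℝ)) ≤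
      Pr (qq pm pp) (fun s : J n → Fin 3 => ∃ p ∈ T, good p ∧
        ε * d * (p.1.card + p.2.card) < (cnt R s p.1 p.2 : ℝ)) := by
    refine Pr_mono hqn fun s => ?_
    rintro ⟨A, B, hg, hc⟩
    refine ⟨(A, B), ?_, hg, hc⟩
    have hne : ∀ (A : Finset X) (B : Finset Y), (A = ∅ ∨ B = ∅) →
        ¬ (ε * d * (A.card + B.card) < (cnt R s A B : ℝ)) := by
      intro A B hAB
      have hc0 : cnt R s A B = 0 := by
        unfold cnt
        rcases hAB with rfl | rfl <;> simp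
      rw [hc0, not_lt]
      have : (0 : ℝ) ≤ A.card + B.card := by positivity
      have h2 : 0 ≤ ε * d := mul_nonneg hε.le (by linarith)
      simpa using mul_nonneg h2 this
    rw [Finset.mem_product, Finset.mem_erase, Finset.mem_erase]
    refine ⟨⟨?_, Finset.mem_univ _⟩, ⟨?_, Finset.mem_univ _⟩⟩
    · intro h; exact hne A B (Or.inl h) hc
    · intro h; exact hne A B (Or.inr h) hc
  refine h1.trans ((Pr_exists hqn T _).trans ?_)
  have h2 : ∀ p ∈ T, Pr (qq pm pp) (fun s : J n → Fin 3 => good p ∧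
        ε * d * (p.1.card + p.2.card) < (cnt R s p.1 p.2 : ℝ)) ≤
        q ^ p.1.card * q ^ p.2.card := by
    intro p _
    by_cases hg : good p
    · refine (Pr_mono hqn fun s hs => ?_).trans (tail hp hε hR1 hR2 p.1 p.2 hg)
      exact hs.2
    · have : Pr (qq pm pp) (fun s : J n → Fin 3 => good p ∧
        ε * d * (p.1.card + p.2.card) < (cnt R s p.1 p.2 : ℝ)) ≤ 0 := by
        have h3 := Pr_le_Ex (I := J n) hqn (A := fun s => good p ∧
          ε * d * (p.1.card + p.2.card) < (cnt R s p.1 p.2 : ℝ)) (F := fun _ => 0)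
          (fun _ => le_refl _) (fun s hs => absurd hs.1 hg)
        rwa [Ex_const (qq_sum pm pp)] at h3
      exact this.trans (by positivity)
  refine (Finset.sum_le_sum h2).trans ?_
  have h3 : ∑ p ∈ T, q ^ p.1.card * q ^ p.2.card =
      ((1 + q) ^ Fintype.card X - 1) * ((1 + q) ^ Fintype.card Y - 1) := by
    rw [← sum_pow_card X q, ← sum_pow_card Y q, Finset.sum_mul_sum, Finset.sum_product]
  rw [h3]
  have hX' : (Fintype.card X : ℝ) * q ≤ 2 * n * q := by
    refine mul_le_mul_of_nonneg_right ?_ hq0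
    exact_mod_cast hX
  have hY' : (Fintype.card Y : ℝ) * q ≤ 2 * n * q := by
    refine mul_le_mul_of_nonneg_right ?_ hq0
    exact_mod_cast hY
  have ht : 2 * n * q ≤ 1 := by
    have : (0 : ℝ) ≤ n * q := by positivity
    nlinarith
  have hx := pow_sub_one_le hq0 hX' ht
  have hy := pow_sub_one_le hq0 hY' ht
  have hx0 : 0 ≤ (1 + q) ^ Fintype.card X - 1 := by
    have := one_le_pow₀ (n := Fintype.card X) (by linarith : 1 ≤ 1 + q)
    linarith
  have hy0 : 0 ≤ (1 + q) ^ Fintype.card Y - 1 := by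
    have := one_le_pow₀ (n := Fintype.card Y) (by linarith : 1 ≤ 1 + q)
    linarith
  have hqq : q * q = Real.exp (-5 * d) := by
    rw [hq, ← Real.exp_add]
    congr 1
    ring
  calc ((1 + q) ^ Fintype.card X - 1) * ((1 + q) ^ Fintype.card Y - 1)
      ≤ (2 * (2 * n * q)) * (2 * (2 * n * q)) :=
        mul_le_mul hx hy hy0 (hx0.trans hx)
    _ = 16 * n ^ 2 * (q * q) := by ring
    _ = _ := by rw [hqq]

end Graph

end SparseP

open SparseP in
/-- the large random list system is locally sparse -/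
theorem sparse_prob {n : ℕ} {pm pp d ε : ℝ} (hp : Par (1 / 8) n pm pp d) (hε : 0 < ε)
    (hε1 : ε ≤ 1) (hd : 4 * n * Real.exp (-(5 / 2 * d)) ≤ 1) :
    Pr (qq pm pp) (fun s : J n → Fin 3 => ¬ Sparse ε (Real.exp (-8 / ε)) d (Lp n s)) ≤
      200 * n ^ 3 * Real.exp (-5 * d) := by
  classical
  have hqn := qq_nonneg hp.pm0 hp.pmpp hp.pp1
  have hn := hp.n6
  have hcC : (Fintype.card (Fin (2 * n - 1)) : ℝ) = 2 * n - 1 := by
    rw [Fintype.card_fin, Nat.cast_sub (by omega)]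
    push_cast
    ring
  -- the row graph of `v` and the column graph of `c`
  let RR : Fin (2 * n) → Fin (2 * n) → Fin (2 * n - 1) → J n → Prop := fun v u c h =>
    ∃ hd : ¬ (s(u, v) : Sym2 (Fin (2 * n))).IsDiag, h = (c, ⟨s(u, v), hd⟩)
  let RC : Fin (2 * n - 1) → Fin (2 * n) → Fin (2 * n) → J n → Prop := fun c u v h =>
    ∃ hd : ¬ (s(u, v) : Sym2 (Fin (2 * n))).IsDiag, h = (c, ⟨s(u, v), hd⟩)
  have hRR1 : ∀ v, ∀ x y h h', RR v x y h → RR v x y h' → h = h' := by
    rintro v x y h h' ⟨h1, rfl⟩ ⟨h2, rfl⟩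
    rfl
  have hRC1 : ∀ c, ∀ x y h h', RC c x y h → RC c x y h' → h = h' := by
    rintro v x y h h' ⟨h1, rfl⟩ ⟨h2, rfl⟩
    rfl
  have hRR2 : ∀ v A B h, SparseP.mul (RR v) A B h ≤ 2 := by
    intro v A B h
    by_cases hne : ∃ p : Fin (2 * n) × Fin (2 * n - 1), RR v p.1 p.2 h
    · obtain ⟨p, h1, e1⟩ := hne
      refine (mul_le_card {p} fun p' hp' => ?_).trans (by simp)
      obtain ⟨h2, e2⟩ := hp'
      rw [e1] at e2
      have e3 := congrArg Prod.fst e2
      have e4 := congrArg (fun x => (x.2 : Sym2 (Fin (2 * n)))) e2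
      simp only at e3 e4
      rw [Finset.mem_singleton]
      have e5 : p'.1 = p.1 := by
        rcases Sym2.eq_iff.1 e4 with ⟨h3, _⟩ | ⟨h3, h4⟩
        · exact h3.symm
        · rw [h3, ← h4]
      exact Prod.ext e5 e3.symm
    · exact (mul_le_card ∅ fun p' hp' => absurd ⟨p', hp'⟩ hne).trans (by simp)
  have hRC2 : ∀ c A B h, SparseP.mul (RC c) A B h ≤ 2 := by
    intro c A B h
    by_cases hne : ∃ p : Fin (2 * n) × Fin (2 * n), RC c p.1 p.2 h
    · obtain ⟨p, h1, e1⟩ := hne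
      refine (mul_le_card {p, (p.2, p.1)} fun p' hp' => ?_).trans Finset.card_le_two
      obtain ⟨h2, e2⟩ := hp'
      rw [e1] at e2
      have e4 := congrArg (fun x => (x.2 : Sym2 (Fin (2 * n)))) e2
      simp only at e4
      rw [Finset.mem_insert, Finset.mem_singleton]
      rcases Sym2.eq_iff.1 e4 with ⟨h3, h4⟩ | ⟨h3, h4⟩
      · exact Or.inl (Prod.ext h3.symm h4.symm)
      · exact Or.inr (Prod.ext h4.symm h3.symm)
    · exact (mul_le_card ∅ fun p' hp' => absurd ⟨p', hp'⟩ hne).trans (by simp)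
  have hcard : ∀ (v : Fin (2 * n)) (s : J n → Fin 3) (A : Finset (Fin (2 * n)))
      (B : Finset (Fin (2 * n - 1))), ((A ×ˢ B).filter (fun p => p.2 ∈ Lp n s p.1 v)).card =
      cnt (RR v) s A B := by
    intro v s A B
    refine cnt_eq _ fun p => ?_
    rw [mem_LL]
    constructor
    · rintro ⟨h1, h2⟩
      exact ⟨_, ⟨h1, rfl⟩, h2⟩
    · rintro ⟨h, ⟨h1, rfl⟩, h2⟩
      exact ⟨h1, h2⟩
  have hcardC : ∀ (c : Fin (2 * n - 1)) (s : J n → Fin 3) (A : Finset (Fin (2 * n)))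
      (B : Finset (Fin (2 * n))), ((A ×ˢ B).filter (fun p => c ∈ Lp n s p.1 p.2)).card =
      cnt (RC c) s A B := by
    intro v s A B
    refine cnt_eq _ fun p => ?_
    rw [mem_LL]
    constructor
    · rintro ⟨h1, h2⟩
      exact ⟨_, ⟨h1, rfl⟩, h2⟩
    · rintro ⟨h, ⟨h1, rfl⟩, h2⟩
      exact ⟨h1, h2⟩
  let badR : Fin (2 * n) → (J n → Fin 3) → Prop := fun v s =>
    ∃ A : Finset (Fin (2 * n)), ∃ B : Finset (Fin (2 * n - 1)),
      ((A.card : ℝ) ≤ Real.exp (-8 / ε) * (2 * n - 1 : ℝ) ∨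
        (B.card : ℝ) ≤ Real.exp (-8 / ε) * (2 * n - 1 : ℝ)) ∧
      ε * d * (A.card + B.card) < (cnt (RR v) s A B : ℝ)
  let badC : Fin (2 * n - 1) → (J n → Fin 3) → Prop := fun c s =>
    ∃ A : Finset (Fin (2 * n)), ∃ B : Finset (Fin (2 * n)),
      ((A.card : ℝ) ≤ Real.exp (-8 / ε) * (2 * n - 1 : ℝ) ∨
        (B.card : ℝ) ≤ Real.exp (-8 / ε) * (2 * n - 1 : ℝ)) ∧
      ε * d * (A.card + B.card) < (cnt (RC c) s A B : ℝ)
  have h1 : Pr (qq pm pp) (fun s : J n → Fin 3 => ¬ Sparse ε (Real.exp (-8 / ε)) d (Lp n s)) ≤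
      Pr (qq pm pp) (fun s : J n → Fin 3 => (∃ v ∈ (univ : Finset (Fin (2 * n))), badR v s) ∨
        ∃ c ∈ (univ : Finset (Fin (2 * n - 1))), badC c s) := by
    refine Pr_mono hqn fun s hs => ?_
    by_contra hcon
    push Not at hcon
    apply hs
    constructor
    · intro v A Y hAY
      by_contra hlt
      rw [not_le, hcard] at hlt
      rw [hcC] at hAY
      exact hcon.1 v (Finset.mem_univ _) ⟨A, Y, hAY, hlt⟩
    · intro c A Y hAY
      by_contra hlt
      rw [not_le, hcardC] at hlt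
      rw [hcC] at hAY
      exact hcon.2 c (Finset.mem_univ _) ⟨A, Y, Or.inl hAY, hlt⟩
  refine h1.trans ((Pr_or hqn _ _).trans ?_)
  have h2 : Pr (qq pm pp) (fun s : J n → Fin 3 =>
      ∃ v ∈ (univ : Finset (Fin (2 * n))), badR v s) ≤
      (2 * n) * (16 * n ^ 2 * Real.exp (-5 * d)) := by
    refine (Pr_exists hqn _ _).trans ?_
    have h3 : ∀ v ∈ (univ : Finset (Fin (2 * n))), Pr (qq pm pp) (badR v) ≤
        16 * n ^ 2 * Real.exp (-5 * d) := fun v _ =>
      graph hp hε hd (hRR1 v) (hRR2 v) (by simp) (by simp)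
    refine (Finset.sum_le_card_nsmul _ _ _ h3).trans (le_of_eq ?_)
    rw [Finset.card_univ, Fintype.card_fin, nsmul_eq_mul]
    push_cast
    ring
  have h3 : Pr (qq pm pp) (fun s : J n → Fin 3 =>
      ∃ c ∈ (univ : Finset (Fin (2 * n - 1))), badC c s) ≤
      (2 * n) * (16 * n ^ 2 * Real.exp (-5 * d)) := by
    refine (Pr_exists hqn _ _).trans ?_
    have h3 : ∀ c ∈ (univ : Finset (Fin (2 * n - 1))), Pr (qq pm pp) (badC c) ≤
        16 * n ^ 2 * Real.exp (-5 * d) := fun c _ =>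
      graph hp hε hd (hRC1 c) (hRC2 c) (by simp) (by simp)
    refine (Finset.sum_le_card_nsmul _ _ _ h3).trans ?_
    rw [Finset.card_univ, nsmul_eq_mul, hcC]
    refine mul_le_mul_of_nonneg_right (by linarith) ?_
    positivity
  have h4 : 0 ≤ (n : ℝ) ^ 3 * Real.exp (-5 * d) := by positivity
  calc _ ≤ (2 * n) * (16 * n ^ 2 * Real.exp (-5 * d)) +
        (2 * n) * (16 * n ^ 2 * Real.exp (-5 * d)) := add_le_add h2 h3
    _ = 64 * (n ^ 3 * Real.exp (-5 * d)) := by ring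
    _ ≤ 200 * (n ^ 3 * Real.exp (-5 * d)) := by linarith
    _ = _ := by ring

end Pool.Agent.Lib.FR
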