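import Pool.Agent.Lib.MP_6d56f7_co_FR.Glue
import Pool.Agent.Lib.MP_6d56f7_co_FR.Mix
import Pool.Agent.Lib.MP_6d56f7_co_FR.Cov
import Pool.Agent.Lib.MP_6d56f7_co_FR.Asy
import Pool.Agent.Lib.MP_6d56f7_co_FR.FewB
import Pool.Agent.Lib.MP_6d56f7_co_FR.MaxMin
import Pool.Agent.Lib.MP_6d56f7_co_FR.CutP
import Pool.Agent.Lib.MP_6d56f7_co_FR.BulkP
import Pool.Agent.Lib.MP_6d56f7_co_FR.SparseP

/-!
# Fractional list edge-colourings at the hitting time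
-/

set_option autoImplicit false

namespace Pool.Agent.Lib.FR

open Finset Filter Topology

/-- the good event -/
structure GoodS (n : ℕ) (c₁ θ η δ δ' d D : ℝ) (s : J n → Fin 3) : Prop where
  bulk : Bulk η 0 d (Lm n s) (fun _ _ => True)
  sparse : Sparse (c₁ / (16 * (1 + 264 * 4))) θ d (Lp n s)
  maxd : MaxDeg (4 * d) (Lp n s)
  few : FewBad δ δ' d n s
  low : LowOK D n s
  cut : CutB (θ * d * n / 8) θ (Lm n s)
  high : ¬ ∃ a : El n, ∀ j ∈ st n a, s j = 0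
  notc : ¬ ∀ e, ∃ c, s (c, e) = 2

theorem FracCol.mono {n : ℕ} {L L' : Edge (Fin (2 * n)) → Finset (Fin (2 * n - 1))}
    {P : Fin (2 * n - 1) → Finset (Edge (Fin (2 * n))) → ℝ} (h : ∀ e, L e ⊆ L' e)
    (hP : FracCol L P) : FracCol L' P :=
  ⟨hP.nonneg, hP.match_, fun c M hM e he => h e (hP.list c M hM e he), hP.one, hP.cover⟩

open Classical in
/-- deterministic part: a good state implies that all orderings compatible with it are good -/
theorem good_of {n : ℕ} (hn : 6 ≤ n) {c₁ θ η δ δ' d D : ℝ} (hc₁ : 0 < c₁) (hc₁' : c₁ ≤ 1)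
    (hθ : 0 < θ) (hη0 : 0 ≤ η) (hη : η / θ + 6 / d ≤ 1 / 66) (hd : 0 < d) (hδ : 0 ≤ δ)
    (hδ' : 0 ≤ δ') (hδδ' : δ + 3 / d + δ' / c₁ ≤ c₁ / (4 * 4 * (1 + 264 * 4)))
    (hD : c₁ * d + 3 ≤ D) (hcut : 8 * d + 3 * n ≤ θ * d * n / 8)
    {m : ℕ} (σ : J n ≃ Fin m) (s : J n → Fin 3) (hc : Compat σ s)
    (hg : GoodS n c₁ θ η δ δ' d D s) (t : ℕ)
    (h1 : ∀ e : Edge (Fin (2 * n)), ∃ c : Fin (2 * n - 1), (σ (c, e) : ℕ) < t)
    (h2 : ∀ v : Fin (2 * n), ∀ c : Fin (2 * n - 1),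
      ∃ e : Edge (Fin (2 * n)), v ∈ e.1 ∧ (σ (c, e) : ℕ) < t) :
    ∃ P, FracCol (fun e => univ.filter (fun c : Fin (2 * n - 1) => (σ (c, e) : ℕ) < t)) P := by
  have hcov : ∀ a : El n, ∃ j ∈ st n a, (σ j : ℕ) < t := by
    rintro (e | ⟨v, c⟩)
    · obtain ⟨c, hc⟩ := h1 e
      exact ⟨(c, e), mem_st_inl.mpr rfl, hc⟩
    · obtain ⟨e, hv, he⟩ := h2 v c
      exact ⟨(c, e), mem_st_inr.mpr ⟨rfl, hv⟩, he⟩
  let H : Finset (J n) := univ.filter (fun j => (σ j : ℕ) < t ∧ s j ≠ 0)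
  have hA : ∀ j, s j = 2 → j ∈ H := by
    intro j hj
    have h3 := hg.notc
    push Not at h3
    obtain ⟨e, he⟩ := h3
    obtain ⟨c, hc'⟩ := h1 e
    have h4 : s (c, e) < s j := by
      have h5 := he c
      rw [hj]
      revert h5
      generalize s (c, e) = a
      fin_cases a <;> simp
    have h5 : σ j < σ (c, e) := hc j (c, e) h4
    have h6 : (σ j : ℕ) < (σ (c, e) : ℕ) := h5
    refine mem_filter.mpr ⟨mem_univ _, by omega, ?_⟩
    rw [hj]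
    decide
  have hB : ∀ j ∈ H, s j ≠ 0 := fun j hj => (mem_filter.mp hj).2.2
  have hC : ∀ a : El n, ∃ j ∈ st n a, j ∈ H := by
    intro a
    obtain ⟨j1, hj1, ht1⟩ := hcov a
    by_cases h3 : s j1 = 0
    · have h4 := hg.high
      push Not at h4
      obtain ⟨j2, hj2, hs2⟩ := h4 a
      have h5 : s j1 < s j2 := by
        rw [h3]
        exact Fin.pos_of_ne_zero hs2
      have h6 : (σ j2 : ℕ) < (σ j1 : ℕ) := hc j2 j1 h5
      exact ⟨j2, hj2, mem_filter.mpr ⟨mem_univ _, by omega, hs2⟩⟩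
    · exact ⟨j1, hj1, mem_filter.mpr ⟨mem_univ _, ht1, h3⟩⟩
  obtain ⟨P, hP⟩ := glue hn hc₁ hc₁' hθ hη0 hη hd hδ hδ' hδδ' hD hcut s hg.bulk hg.sparse
    hg.maxd hg.few hg.low hg.cut H hA hB hC
  refine ⟨P, hP.mono fun e c hc' => ?_⟩
  rw [mem_filter] at hc' ⊢
  exact ⟨mem_univ _, (mem_filter.mp hc'.2).2.1⟩

/-- the probability that the state is not good -/
theorem bad_prob {n : ℕ} {c₁ θ η δ δ' d D pm pp : ℝ} {k : ℕ} (hc₁ : 0 < c₁) (hc₁' : c₁ ≤ 1)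
    (hθ : θ = Real.exp (-8 / (c₁ / (16 * (1 + 264 * 4))))) (hη : 0 < η) (hδ : 0 < δ)
    (hδ1 : δ ≤ 1 / 2) (hp : Par (δ / 8) n pm pp d)
    (hk : 8 * (k : ℝ) ≤ δ * d) (hk' : 4 * (k : ℝ) ≤ δ' * d)
    (hsp : 4 * n * Real.exp (-(5 / 2 * d)) ≤ 1) :
    Pr (qq pm pp) (fun s : J n → Fin 3 => ¬ GoodS n c₁ θ η δ δ' d D s) ≤
      100 / (η * √d) + 200 * n ^ 3 * Real.exp (-5 * d) + 8 * n ^ 2 * Real.exp (-(2 * d)) +
      20 * n ^ 2 * (20 * d * Real.exp (-(δ ^ 2 * d / 8))) ^ k +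
      36 * n ^ 3 * (12 * n ^ 2 * pp ^ 2 + pp) *
        Real.exp (2 * 4 * D - (1 - Real.exp (-4)) * (pm * (4 * n - 5))) +
      2 * n * 4 ^ n * Real.exp (-(2 / 5 * θ * d * n)) +
      6 * n ^ 2 * Real.exp (-((2 * n - 1) * pp)) +
      Real.exp (-((n * (2 * n - 1) : ℕ) * (1 - pm) ^ (2 * n - 1))) := by
  have hp8 : Par (1 / 8) n pm pp d := by
    have hd := hp.d1
    refine ⟨hp.n6, hp.pm0, hp.pmpp, hp.pp1, hp.d1, ?_, ?_⟩
    · refine le_trans ?_ hp.lo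
      nlinarith
    · refine hp.hi.trans ?_
      nlinarith
  have hn1 : 1 ≤ n := by
    have := hp.n6
    omega
  have hq := qq_nonneg hp.pm0 hp.pmpp hp.pp1
  have hθ0 : 0 ≤ θ := by
    rw [hθ]
    exact (Real.exp_pos _).le
  have b1 := bulk_prob hp8 hη
  have b2 := sparse_prob (ε := c₁ / (16 * (1 + 264 * 4))) hp8 (by positivity)
    (by
      rw [div_le_one (by norm_num)]
      linarith) hsp
  rw [← hθ] at b2
  have b3 := maxdeg_prob hp8
  have b4 := fewbad_prob hδ hδ1 hp hk hk'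
  have b5 := low_prob hn1 hp.pm0 hp.pmpp hp.pp1 (by norm_num : (0 : ℝ) ≤ 4) D
  have b6 := cut_prob hp8 hθ0
  have b7 := cov_high hn1 hp.pm0 hp.pmpp hp.pp1
  have b8 := cov_low (n := n) hp.pm0 hp.pmpp hp.pp1
  have hmain : Pr (qq pm pp) (fun s : J n → Fin 3 => ¬ GoodS n c₁ θ η δ δ' d D s) ≤
      Pr (qq pm pp) (fun s : J n → Fin 3 => (((((((¬ Bulk η 0 d (Lm n s) (fun _ _ => True)) ∨
        ¬ Sparse (c₁ / (16 * (1 + 264 * 4))) θ d (Lp n s)) ∨ ¬ MaxDeg (4 * d) (Lp n s)) ∨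
        ¬ FewBad δ δ' d n s) ∨ ¬ LowOK D n s) ∨ ¬ CutB (θ * d * n / 8) θ (Lm n s)) ∨
        (∃ a : El n, ∀ j ∈ st n a, s j = 0)) ∨ ∀ e, ∃ c, s (c, e) = 2) := by
    refine Pr_mono hq fun s hs => ?_
    by_contra hcon
    simp only [not_or, not_not] at hcon
    obtain ⟨⟨⟨⟨⟨⟨⟨g1, g2⟩, g3⟩, g4⟩, g5⟩, g6⟩, g7⟩, g8⟩ := hcon
    exact hs ⟨g1, g2, g3, g4, g5, g6, g7, g8⟩
  refine hmain.trans ?_
  refine (Pr_or hq _ _).trans (add_le_add ?_ b8)
  refine (Pr_or hq _ _).trans (add_le_add ?_ b7)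
  refine (Pr_or hq _ _).trans (add_le_add ?_ b6)
  refine (Pr_or hq _ _).trans (add_le_add ?_ b5)
  refine (Pr_or hq _ _).trans (add_le_add ?_ b4)
  refine (Pr_or hq _ _).trans (add_le_add ?_ b3)
  exact (Pr_or hq _ _).trans (add_le_add b1 b2)

open Classical in
/-- the hitting time theorem in terms of `FracCol` -/
theorem hitting : Tendsto (fun n : ℕ =>
    ((Set.ncard {σ : J n ≃ Fin (Nat.card (J n)) | ∀ t : ℕ,
      (∀ e : Edge (Fin (2 * n)), ∃ c : Fin (2 * n - 1), (σ (c, e) : ℕ) < t) →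
      (∀ v : Fin (2 * n), ∀ c : Fin (2 * n - 1),
        ∃ e : Edge (Fin (2 * n)), v ∈ e.1 ∧ (σ (c, e) : ℕ) < t) →
      ∃ P, FracCol (fun e => univ.filter (fun c : Fin (2 * n - 1) => (σ (c, e) : ℕ) < t)) P} : ℝ) /
      (Nat.card (J n ≃ Fin (Nat.card (J n))) : ℝ))) atTop (𝓝 1) := by
  -- constants
  obtain ⟨c₁, hc₁⟩ : ∃ c : ℝ, c = 1 / 400 := ⟨_, rfl⟩
  obtain ⟨κ, hκ⟩ : ∃ κ : ℝ, κ = c₁ / (4 * 4 * (1 + 264 * 4)) := ⟨_, rfl⟩
  have hκ0 : 0 < κ := by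
    rw [hκ, hc₁]
    norm_num
  obtain ⟨δ, hδ⟩ : ∃ δ : ℝ, δ = κ / 3 := ⟨_, rfl⟩
  obtain ⟨δ', hδ'⟩ : ∃ δ' : ℝ, δ' = c₁ * κ / 3 := ⟨_, rfl⟩
  obtain ⟨θ, hθ⟩ : ∃ θ : ℝ, θ = Real.exp (-8 / (c₁ / (16 * (1 + 264 * 4)))) := ⟨_, rfl⟩
  have hθ0 : 0 < θ := by
    rw [hθ]
    exact Real.exp_pos _
  obtain ⟨η, hη⟩ : ∃ η : ℝ, η = θ / 132 := ⟨_, rfl⟩
  obtain ⟨γ, hγ⟩ : ∃ γ : ℝ, γ = δ / 8 := ⟨_, rfl⟩
  obtain ⟨k, hk⟩ : ∃ k : ℕ, 16 / δ ^ 2 ≤ k := exists_nat_ge _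
  have hc0 : 0 < c₁ := by rw [hc₁]; norm_num
  have hc1 : c₁ ≤ 1 := by rw [hc₁]; norm_num
  have hδ0 : 0 < δ := by rw [hδ]; positivity
  have hδ'0 : 0 < δ' := by rw [hδ']; positivity
  have hκ1 : κ ≤ 1 / 1000 := by
    rw [hκ, hc₁]
    norm_num
  have hδ1 : δ ≤ 1 / 2 := by
    rw [hδ]
    linarith
  have hη0 : 0 < η := by rw [hη]; positivity
  have hγ0 : 0 < γ := by rw [hγ]; positivity
  have hγ1 : γ ≤ 1 / 100 := by
    rw [hγ, hδ]
    linarith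
  let d : ℕ → ℝ := fun n => 2 * Real.log n
  let pm : ℕ → ℝ := fun n => (1 - γ) * (2 * Real.log n) / (2 * n - 1)
  let pp : ℕ → ℝ := fun n => (1 + γ) * (2 * Real.log n) / (2 * n - 1)
  let B : ℕ → ℝ := fun n =>
      100 / (η * √(2 * Real.log n)) + 200 * (n : ℝ) ^ 3 * Real.exp (-5 * (2 * Real.log n)) +
      8 * (n : ℝ) ^ 2 * Real.exp (-(2 * (2 * Real.log n))) +
      20 * (n : ℝ) ^ 2 *
        (20 * (2 * Real.log n) * Real.exp (-(δ ^ 2 * (2 * Real.log n) / 8))) ^ k +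
      36 * (n : ℝ) ^ 3 * (12 * (n : ℝ) ^ 2 * pp n ^ 2 + pp n) *
        Real.exp (2 * 4 * (Real.log n / 100) - (1 - Real.exp (-4)) * (pm n * (4 * n - 5))) +
      2 * (n : ℝ) * 4 ^ n * Real.exp (-(2 / 5 * θ * (2 * Real.log n) * n)) +
      6 * (n : ℝ) ^ 2 * Real.exp (-((1 + γ) * (2 * Real.log n))) +
      Real.exp (-((n * (2 * n - 1) : ℕ) * (1 - pm n) ^ (2 * n - 1)))
  have hB : Tendsto B atTop (𝓝 0) := by
    have h := ((((((Asy.t1 hη0).add Asy.t2).add Asy.t3).add (Asy.t4 hδ0 hk)).add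
      (Asy.t5 hγ0 hγ1 (pm := pm) (pp := pp) (Eventually.of_forall fun n => rfl)
        (Eventually.of_forall fun n => rfl))).add (Asy.t6 hθ0)).add (Asy.t7 hγ0) |>.add
      (Asy.t8 hγ0 (by linarith) (p := pm) (Eventually.of_forall fun n => rfl))
    simp only [add_zero] at h
    exact h
  -- share of the bad orderings
  let Good : (n : ℕ) → (J n ≃ Fin (Nat.card (J n))) → Prop := fun n σ => ∀ t : ℕ,
      (∀ e : Edge (Fin (2 * n)), ∃ c : Fin (2 * n - 1), (σ (c, e) : ℕ) < t) →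
      (∀ v : Fin (2 * n), ∀ c : Fin (2 * n - 1),
        ∃ e : Edge (Fin (2 * n)), v ∈ e.1 ∧ (σ (c, e) : ℕ) < t) →
      ∃ P, FracCol (fun e => univ.filter (fun c : Fin (2 * n - 1) => (σ (c, e) : ℕ) < t)) P
  have hbad : ∀ᶠ n : ℕ in atTop,
      (Set.ncard {σ : J n ≃ Fin (Nat.card (J n)) | ¬ Good n σ} : ℝ) /
        (Nat.card (J n ≃ Fin (Nat.card (J n))) : ℝ) ≤ B n := by
    filter_upwards [Asy.ev_nat 6, Asy.ev_nat (128 / θ), Asy.ev_log 1, Asy.ev_log (792 / 2),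
      Asy.ev_log (9 / κ), Asy.ev_log 1200, Asy.ev_log (24 / θ), Asy.ev_log (8 * k / δ),
      Asy.ev_log (4 * k / δ'), Asy.ev_ratio (by norm_num : (0 : ℝ) < 1 / 2)] with n
      hn6 hnθ hl1 hl2 hl3 hl4 hl5 hl6 hl7 hr
    have hn6' : 6 ≤ n := by exact_mod_cast hn6
    have hnpos : (0 : ℝ) < 2 * n - 1 := by linarith
    have hlog : 0 < Real.log n := by linarith
    have hpar : Par (δ / 8) n (pm n) (pp n) (d n) := by
      refine ⟨hn6', ?_, ?_, ?_, ?_, ?_, ?_⟩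
      · exact div_nonneg (mul_nonneg (by linarith) (by positivity)) hnpos.le
      · refine div_le_div_of_nonneg_right ?_ hnpos.le
        nlinarith
      · show (1 + γ) * (2 * Real.log n) / (2 * n - 1) ≤ 1
        rw [div_le_one hnpos]
        nlinarith
      · show 1 ≤ 2 * Real.log n
        linarith
      · rw [← hγ]
        show (1 - γ) * (2 * Real.log n) ≤ (2 * n - 1) * ((1 - γ) * (2 * Real.log n) / (2 * n - 1))
        rw [mul_div_cancel₀ _ hnpos.ne']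
      · rw [← hγ]
        show (2 * n - 1) * ((1 + γ) * (2 * Real.log n) / (2 * n - 1)) ≤ (1 + γ) * (2 * Real.log n)
        rw [mul_div_cancel₀ _ hnpos.ne']
    have hd0 : 0 < d n := by
      show 0 < 2 * Real.log n
      linarith
    have e1 : η / θ + 6 / d n ≤ 1 / 66 := by
      have h3 : η / θ = 1 / 132 := by
        rw [hη]
        field_simp
      have h4 : 6 / d n ≤ 1 / 132 := by
        rw [div_le_div_iff₀ hd0 (by norm_num)]
        show 6 * 132 ≤ 1 * (2 * Real.log n)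
        linarith
      rw [h3]
      linarith
    have e2 : δ + 3 / d n + δ' / c₁ ≤ c₁ / (4 * 4 * (1 + 264 * 4)) := by
      rw [← hκ]
      have h3 : δ' / c₁ = κ / 3 := by
        rw [hδ']
        field_simp
      have h4 : 3 / d n ≤ κ / 3 := by
        rw [div_le_div_iff₀ hd0 (by norm_num)]
        show 3 * 3 ≤ κ * (2 * Real.log n)
        rw [div_le_iff₀ hκ0] at hl3
        nlinarith
      rw [h3, hδ]
      linarith
    have e3 : c₁ * d n + 3 ≤ Real.log n / 100 := by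
      show c₁ * (2 * Real.log n) + 3 ≤ Real.log n / 100
      rw [hc₁]
      linarith
    have e4 : 8 * d n + 3 * n ≤ θ * d n * n / 8 := by
      show 8 * (2 * Real.log n) + 3 * n ≤ θ * (2 * Real.log n) * n / 8
      have h3 : 3 * (n : ℝ) ≤ θ * (2 * Real.log n) * n / 16 := by
        have h4 : 48 ≤ θ * (2 * Real.log n) := by
          rw [div_le_iff₀ hθ0] at hl5
          nlinarith
        have h5 : (0 : ℝ) ≤ n := by linarith
        nlinarith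
      have h4 : 8 * (2 * Real.log n) ≤ θ * (2 * Real.log n) * n / 16 := by
        have h5 : 128 ≤ n * θ := by
          rw [div_le_iff₀ hθ0] at hnθ
          exact hnθ
        nlinarith
      linarith
    have e5 : 8 * (k : ℝ) ≤ δ * d n := by
      show 8 * (k : ℝ) ≤ δ * (2 * Real.log n)
      rw [div_le_iff₀ hδ0] at hl6
      nlinarith
    have e6 : 4 * (k : ℝ) ≤ δ' * d n := by
      show 4 * (k : ℝ) ≤ δ' * (2 * Real.log n)
      rw [div_le_iff₀ hδ'0] at hl7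
      nlinarith
    have e7 : 4 * n * Real.exp (-(5 / 2 * d n)) ≤ 1 := by
      show 4 * n * Real.exp (-(5 / 2 * (2 * Real.log n))) ≤ 1
      have h3 : Real.exp (-(5 / 2 * (2 * Real.log n))) ≤ Real.exp (-(2 * Real.log n)) := by
        rw [Real.exp_le_exp]
        linarith
      have h4 : Real.exp (-(2 * Real.log n)) = 1 / (n : ℝ) ^ 2 := by
        rw [Real.exp_neg, one_div]
        congr 1
        have h5 : (n : ℝ) ^ 2 = Real.exp (2 * Real.log n) := by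
          conv_lhs => rw [Asy.nat_eq (by linarith : (1 : ℝ) ≤ n)]
          rw [← Real.exp_nat_mul]
          norm_num
        exact h5.symm
      rw [h4] at h3
      have hn : (0 : ℝ) < n := by linarith
      calc 4 * n * Real.exp (-(5 / 2 * (2 * Real.log n))) ≤ 4 * n * (1 / (n : ℝ) ^ 2) :=
            mul_le_mul_of_nonneg_left h3 (by positivity)
        _ = 4 / n := by
            field_simp
        _ ≤ 1 := by
            rw [div_le_one hn]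
            linarith
    have hq := qq_nonneg hpar.pm0 hpar.pmpp hpar.pp1
    have hmix := mix (J := J n) (m := Nat.card (J n)) Nat.card_eq_fintype_card.symm
      (qq (pm n) (pp n)) hq (qq_sum _ _) (fun σ => ¬ Good n σ)
      (fun s => ¬ GoodS n c₁ θ η δ δ' (d n) (Real.log n / 100) s) (by
        intro σ s hc hbad hg
        exact hbad fun t h1 h2 => good_of hn6' hc0 hc1 hθ0 hη0.le e1 hd0 hδ0.le hδ'0.le e2 e3 e4
          σ s hc hg t h1 h2)
    have hbp := bad_prob (D := Real.log n / 100) hc0 hc1 hθ hη0 hδ0 hδ1 hpar e5 e6 e7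
    refine hmix.trans (hbp.trans (le_of_eq ?_))
    have e8 : (2 * (n : ℝ) - 1) * pp n = (1 + γ) * (2 * Real.log n) := by
      show (2 * (n : ℝ) - 1) * ((1 + γ) * (2 * Real.log n) / (2 * n - 1)) = _
      rw [mul_div_cancel₀ _ hnpos.ne']
    rw [e8]
  -- the complement
  have hcompl : ∀ n : ℕ, (Set.ncard {σ : J n ≃ Fin (Nat.card (J n)) | Good n σ} : ℝ) /
        (Nat.card (J n ≃ Fin (Nat.card (J n))) : ℝ) =
      1 - (Set.ncard {σ : J n ≃ Fin (Nat.card (J n)) | ¬ Good n σ} : ℝ) /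
        (Nat.card (J n ≃ Fin (Nat.card (J n))) : ℝ) := by
    intro n
    have h1 : {σ : J n ≃ Fin (Nat.card (J n)) | ¬ Good n σ} =
        {σ : J n ≃ Fin (Nat.card (J n)) | Good n σ}ᶜ := rfl
    rw [h1]
    have h2 := Set.ncard_add_ncard_compl {σ : J n ≃ Fin (Nat.card (J n)) | Good n σ}
      (Set.toFinite _) (Set.toFinite _)
    have h3 : (Nat.card (J n ≃ Fin (Nat.card (J n))) : ℝ) ≠ 0 := by
      have : Nonempty (J n ≃ Fin (Nat.card (J n))) := ⟨Finite.equivFin _⟩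
      exact_mod_cast Nat.card_pos.ne'
    rw [eq_sub_iff_add_eq, ← add_div, div_eq_one_iff_eq h3]
    exact_mod_cast h2
  have hlim : Tendsto (fun n : ℕ =>
      (Set.ncard {σ : J n ≃ Fin (Nat.card (J n)) | ¬ Good n σ} : ℝ) /
        (Nat.card (J n ≃ Fin (Nat.card (J n))) : ℝ)) atTop (𝓝 0) :=
    squeeze_zero' (Eventually.of_forall fun n => by positivity) hbad hB
  have hfin := hlim.const_sub 1
  rw [sub_zero] at hfin
  exact hfin.congr fun n => (hcompl n).symm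

end Pool.Agent.Lib.FR
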