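import Mathlib

/-!
# Duality for a box
-/

set_option autoImplicit false

namespace Pool.Agent.Lib.FR

open Finset

theorem box_duality {I X : Type} [Fintype I] [Fintype X] (A : X → I → ℝ) (b : I → ℝ)
    (hb : ∀ i, 0 ≤ b i) (g : X → ℝ)
    (h : ∀ z : X → ℝ, ∑ x, z x * g x ≤ ∑ i, b i * |∑ x, z x * A x i|) :
    ∃ w : I → ℝ, (∀ i, |w i| ≤ b i) ∧ ∀ x, ∑ i, A x i * w i = g x := by
  classical
  -- the linear map
  let T : (I → ℝ) →ₗ[ℝ] (X → ℝ) :=
    { toFun := fun w x => ∑ i, A x i * w i
      map_add' := by
        intro w w'
        funext x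
        simp only [Pi.add_apply, mul_add, Finset.sum_add_distrib]
      map_smul' := by
        intro c w
        funext x
        simp only [Pi.smul_apply, smul_eq_mul, RingHom.id_apply, Finset.mul_sum]
        exact Finset.sum_congr rfl fun i _ => by ring }
  have hT : ∀ w x, T w x = ∑ i, A x i * w i := fun w x => rfl
  let B : Set (I → ℝ) := Set.Icc (fun i => - b i) b
  have hBc : IsCompact B := isCompact_Icc
  have hBconv : Convex ℝ B := convex_Icc _ _
  have hTcont : Continuous T := LinearMap.continuous_of_finiteDimensional T
  have hKc : IsCompact (T '' B) := hBc.image hTcont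
  have hKconv : Convex ℝ (T '' B) := hBconv.linear_image T
  by_cases hg : g ∈ T '' B
  · obtain ⟨w, hw, hwg⟩ := hg
    refine ⟨w, fun i => ?_, fun x => ?_⟩
    · rw [abs_le]
      exact ⟨hw.1 i, hw.2 i⟩
    · rw [← hT, hwg]
  · exfalso
    obtain ⟨f, u, hfu, huf⟩ := geometric_hahn_banach_closed_point hKconv hKc.isClosed hg
    -- coordinates of `f`
    let z : X → ℝ := fun x => f (Pi.single x 1)
    have hf : ∀ v : X → ℝ, f v = ∑ x, z x * v x := by
      intro v
      have hv : v = ∑ x, v x • (Pi.single x (1 : ℝ) : X → ℝ) := by
        funext y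
        simp [Finset.sum_apply, Pi.single_apply]
      conv_lhs => rw [hv]
      rw [map_sum]
      exact Finset.sum_congr rfl fun x _ => by rw [map_smul, smul_eq_mul, mul_comm]
    let w : I → ℝ := fun i => b i * SignType.sign (∑ x, z x * A x i)
    have hw : w ∈ B := by
      constructor
      · intro i
        show - b i ≤ b i * _
        rcases lt_trichotomy (∑ x, z x * A x i) 0 with h0 | h0 | h0
        · simp [sign_neg h0]
        · simp [h0, hb i]
        · simp only [sign_pos h0, SignType.coe_one, mul_one]
          linarith [hb i]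
      · intro i
        show b i * _ ≤ b i
        rcases lt_trichotomy (∑ x, z x * A x i) 0 with h0 | h0 | h0
        · simp only [sign_neg h0, SignType.coe_neg_one, mul_neg, mul_one]
          linarith [hb i]
        · simp [h0, hb i]
        · simp [sign_pos h0]
    have h1 : f (T w) < u := hfu _ ⟨w, hw, rfl⟩
    have h2 : f (T w) = ∑ i, b i * |∑ x, z x * A x i| := by
      rw [hf]
      simp only [hT, Finset.mul_sum]
      rw [Finset.sum_comm]
      refine Finset.sum_congr rfl fun i _ => ?_
      have : ∑ x, z x * (A x i * w i) = w i * ∑ x, z x * A x i := by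
        rw [Finset.mul_sum]
        exact Finset.sum_congr rfl fun x _ => by ring
      rw [this]
      show b i * _ * _ = _
      rw [mul_assoc]
      congr 1
      exact sign_mul_self _
    have h3 := h z
    rw [← hf] at h3
    rw [h2] at h1
    linarith

end Pool.Agent.Lib.FR
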