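import Pool.Agent.Lib.MP_6d56f7_co_FR.Api

set_option autoImplicit false

namespace Pool.Agent.Lib.FR

open Finset

section Det

variable {V C : Type} [Fintype V] [DecidableEq V] [Fintype C] [DecidableEq C]

/-- the removed part of `SL` costs at most `K` times the norm -/
theorem SL_diff_le {L L' : V → V → Finset C} (hL : Ker L) (hL' : Ker L') {K : ℝ}
    (hsub : ∀ u v, L' u v ⊆ L u v)
    (RP : V → C → Prop) (RE : V → V → Prop)
    (hE : ∀ u v, ¬ RE u v → (((L u v) \ (L' u v)).card : ℝ) ≤ K)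
    (hP : ∀ v c, ¬ RP v c → ((univ.filter (fun u => c ∈ L u v ∧ c ∉ L' u v)).card : ℝ) ≤ K)
    (x : V → C → ℝ) (y : V → V → ℝ) (h0 : Zero RP RE x y) :
    SL L x y ≤ SL L' x y + K * nrm x y := by
  classical
  have hsplit : SL L x y = SL L' x y +
      ∑ u, ∑ v, ∑ c ∈ L u v \ L' u v, |y u v + x u c + x v c| := by
    unfold SL
    rw [← Finset.sum_add_distrib]
    refine Finset.sum_congr rfl (fun u _ => ?_)
    rw [← Finset.sum_add_distrib]
    refine Finset.sum_congr rfl (fun v _ => ?_)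
    rw [add_comm]
    exact (Finset.sum_sdiff (hsub u v)).symm
  have hx : ∀ v c, ((univ.filter (fun u => c ∈ L u v ∧ c ∉ L' u v)).card : ℝ) * |x v c| ≤
      K * |x v c| := by
    intro v c
    by_cases h : RP v c
    · rw [h0.1 v c h]; simp
    · exact mul_le_mul_of_nonneg_right (hP v c h) (abs_nonneg _)
  have hy : ∀ u v, (((L u v) \ (L' u v)).card : ℝ) * |y u v| ≤ K * |y u v| := by
    intro u v
    by_cases h : RE u v
    · rw [h0.2 u v h]; simp
    · exact mul_le_mul_of_nonneg_right (hE u v h) (abs_nonneg _)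
  -- the sum over the second endpoint
  have hXv : ∑ u, ∑ v, ∑ c ∈ L u v \ L' u v, |x v c| ≤ K * ∑ v, ∑ c, |x v c| := by
    rw [Finset.sum_comm, Finset.mul_sum]
    refine Finset.sum_le_sum (fun v _ => ?_)
    have h1 : ∑ u, ∑ c ∈ L u v \ L' u v, |x v c| =
        ∑ c, ∑ u, if c ∈ L u v ∧ c ∉ L' u v then |x v c| else 0 := by
      rw [Finset.sum_comm]
      refine Finset.sum_congr rfl (fun u _ => ?_)
      rw [← Finset.sum_filter]
      refine Finset.sum_congr ?_ (fun _ _ => rfl)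
      ext c; simp
    rw [h1, Finset.mul_sum]
    refine Finset.sum_le_sum (fun c _ => ?_)
    rw [← Finset.sum_filter, Finset.sum_const, nsmul_eq_mul]
    exact hx v c
  have hXu : ∑ u, ∑ v, ∑ c ∈ L u v \ L' u v, |x u c| ≤ K * ∑ v, ∑ c, |x v c| := by
    rw [Finset.sum_comm]
    refine le_trans (le_of_eq ?_) hXv
    refine Finset.sum_congr rfl (fun u _ => Finset.sum_congr rfl (fun v _ => ?_))
    rw [hL.symm v u, hL'.symm v u]
  have hY : ∑ u, ∑ v, ∑ _c ∈ L u v \ L' u v, |y u v| ≤ K * ∑ u, ∑ v, |y u v| := by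
    rw [Finset.mul_sum]
    refine Finset.sum_le_sum (fun u _ => ?_)
    rw [Finset.mul_sum]
    refine Finset.sum_le_sum (fun v _ => ?_)
    rw [Finset.sum_const, nsmul_eq_mul]
    exact hy u v
  have htri : ∑ u, ∑ v, ∑ c ∈ L u v \ L' u v, |y u v + x u c + x v c| ≤
      ∑ u, ∑ v, ∑ _c ∈ L u v \ L' u v, |y u v| + ∑ u, ∑ v, ∑ c ∈ L u v \ L' u v, |x u c| +
        ∑ u, ∑ v, ∑ c ∈ L u v \ L' u v, |x v c| := by
    simp only [← Finset.sum_add_distrib]
    refine Finset.sum_le_sum (fun u _ => Finset.sum_le_sum (fun v _ =>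
      Finset.sum_le_sum (fun c _ => ?_)))
    exact le_trans (abs_add_le _ _) (add_le_add_left (abs_add_le _ _) _)
  rw [hsplit]
  unfold nrm
  linarith

/- K16 RED -/
theorem bulk_red (L₀ L L' : V → V → Finset C) (hL : Ker L) (hL' : Ker L') {η d K : ℝ}
    (hd : 0 < d) (hK : 0 ≤ K) (h0 : ∀ u v, L₀ u v ⊆ L u v) (hsub : ∀ u v, L' u v ⊆ L u v)
    (RP : V → C → Prop) (RE : V → V → Prop)
    (hE : ∀ u v, ¬ RE u v → (((L u v) \ (L' u v)).card : ℝ) ≤ K)
    (hP : ∀ v c, ¬ RP v c → ((univ.filter (fun u => c ∈ L u v ∧ c ∉ L' u v)).card : ℝ) ≤ K)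
    (hB : Bulk η 0 d L₀ (fun _ _ => True)) :
    Bulk η (2 * K / d) d L' (Zero RP RE) := by
  intro x y hy hz τ κ ρ hτ hκ hρ hxb hyb
  have h1 := hB x y hy trivial τ κ ρ hτ hκ hρ hxb hyb
  have h2 : SL L₀ x y ≤ SL L' x y + K * nrm x y :=
    le_trans (SL_mono h0 x y) (SL_diff_le hL hL' hsub RP RE hE hP x y hz)
  have hC : (0 : ℝ) ≤ Fintype.card C := Nat.cast_nonneg _
  have h3 : 2 * (Fintype.card C : ℝ) * SL L₀ x y ≤
      2 * (Fintype.card C : ℝ) * (SL L' x y + K * nrm x y) :=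
    mul_le_mul_of_nonneg_left h2 (by positivity)
  have h4 : (Fintype.card C : ℝ) * d * (2 * K / d * nrm x y) =
      2 * (Fintype.card C : ℝ) * (K * nrm x y) := by
    field_simp
  have h5 : ∀ a b : ℝ, (Fintype.card C : ℝ) * d * (a + b) =
      (Fintype.card C : ℝ) * d * a + (Fintype.card C : ℝ) * d * b := fun a b => by ring
  rw [h5] at h1 ⊢
  rw [h4]
  linarith

end Det

end Pool.Agent.Lib.FR
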