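import Pool.Agent.Lib.MP_6d56f7_co_FR.Api

set_option autoImplicit false
set_option linter.unusedSectionVars false

/-! Module K13 CONTR: symmetrisation and contraction. -/

namespace Pool.Agent.Lib.FR

open Finset

variable {I S : Type} [Fintype I] [DecidableEq I] [Fintype S]

namespace Contr

/-- the pointwise inequality -/
theorem sup_pair {ι : Type} [Fintype ι] [Nonempty ι] (R a : ι → ℝ) (t : ℝ) :
    univ.sup' univ_nonempty (fun i => R i + t * |a i|) +
      univ.sup' univ_nonempty (fun i => R i + (-t) * |a i|) ≤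
    univ.sup' univ_nonempty (fun i => R i + t * a i) +
      univ.sup' univ_nonempty (fun i => R i + (-t) * a i) := by
  obtain ⟨i, _, hi⟩ := exists_mem_eq_sup' (univ_nonempty (α := ι)) (fun i => R i + t * |a i|)
  obtain ⟨j, _, hj⟩ := exists_mem_eq_sup' (univ_nonempty (α := ι)) (fun i => R i + (-t) * |a i|)
  rw [hi, hj]
  have h1 : ∀ k, R k + t * a k ≤ univ.sup' univ_nonempty (fun i => R i + t * a i) := fun k =>
    le_sup' (fun i => R i + t * a i) (mem_univ k)
  have h2 : ∀ k, R k + (-t) * a k ≤ univ.sup' univ_nonempty (fun i => R i + (-t) * a i) :=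
    fun k => le_sup' (fun i => R i + (-t) * a i) (mem_univ k)
  have h3 : t * |a i| - t * |a j| ≤ |t * a i - t * a j| := by
    rw [← mul_sub, ← mul_sub, abs_mul]
    refine (le_abs_self _).trans ?_
    rw [abs_mul]
    exact mul_le_mul_of_nonneg_left (abs_abs_sub_abs_le_abs_sub _ _) (abs_nonneg _)
  rcases le_total 0 (t * a i - t * a j) with h4 | h4
  · rw [abs_of_nonneg h4] at h3
    linarith [h1 i, h2 j]
  · rw [abs_of_nonpos h4] at h3
    linarith [h1 j, h2 i]

/-- exchange of one coordinate -/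
def sw (h0 : I) (p : (I → S) × (I → S)) : (I → S) × (I → S) :=
  (Function.update p.1 h0 (p.2 h0), Function.update p.2 h0 (p.1 h0))

theorem sw_invol (h0 : I) : Function.Involutive (sw (S := S) h0) := by
  rintro ⟨s, s'⟩
  simp only [sw]
  refine Prod.ext ?_ ?_
  · funext h
    by_cases hh : h = h0
    · subst hh; simp
    · simp [hh]
  · funext h
    by_cases hh : h = h0
    · subst hh; simp
    · simp [hh]

theorem sw_wt (q : S → ℝ) (h0 : I) (p : (I → S) × (I → S)) :
    (∏ h, q ((sw h0 p).1 h)) * (∏ h, q ((sw h0 p).2 h)) =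
      (∏ h, q (p.1 h)) * ∏ h, q (p.2 h) := by
  rw [← prod_mul_distrib, ← prod_mul_distrib]
  refine prod_congr rfl fun h _ => ?_
  by_cases hh : h = h0
  · subst hh
    simp only [sw, Function.update_self]
    ring
  · simp [sw, hh]

theorem Ex_Ex (q : S → ℝ) (F : (I → S) → (I → S) → ℝ) :
    Ex q (fun s => Ex q (fun s' => F s s')) =
      ∑ p : (I → S) × (I → S), ((∏ h, q (p.1 h)) * ∏ h, q (p.2 h)) * F p.1 p.2 := by
  unfold Ex
  rw [Fintype.sum_prod_type]
  refine sum_congr rfl fun s _ => ?_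
  rw [mul_sum]
  exact sum_congr rfl fun s' _ => by ring

/-- the mixed quantity: coordinates in `T` without absolute value -/
noncomputable def A {ι : Type} [Fintype ι] [Nonempty ι] (q : S → ℝ) (b : S → ℝ)
    (z : ι → I → ℝ) (T : Finset I) : ℝ :=
  Ex q (fun s : I → S => Ex q (fun s' : I → S => univ.sup' univ_nonempty
      (fun i : ι => ∑ h, (b (s' h) - b (s h)) * (if h ∈ T then z i h else |z i h|))))

theorem A_insert {ι : Type} [Fintype ι] [Nonempty ι] (q : S → ℝ) (hq : ∀ a, 0 ≤ q a)
    (b : S → ℝ) (z : ι → I → ℝ) (T : Finset I) (h0 : I) (hT : h0 ∉ T) :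
    A q b z T ≤ A q b z (insert h0 T) := by
  have key : ∀ U : Finset I, 2 * A q b z U =
      ∑ p : (I → S) × (I → S), ((∏ h, q (p.1 h)) * ∏ h, q (p.2 h)) *
        (univ.sup' univ_nonempty
          (fun i : ι => ∑ h, (b (p.2 h) - b (p.1 h)) * (if h ∈ U then z i h else |z i h|)) +
        univ.sup' univ_nonempty (fun i : ι => ∑ h, (b ((sw h0 p).2 h) - b ((sw h0 p).1 h)) *
          (if h ∈ U then z i h else |z i h|))) := by
    intro U
    rw [two_mul]
    simp only [mul_add, sum_add_distrib]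
    unfold A
    rw [Ex_Ex]
    congr 1
    refine Fintype.sum_equiv (sw_invol h0).toPerm _ _ fun p => ?_
    rw [Function.Involutive.coe_toPerm, sw_wt, sw_invol h0 p]
  have hle : 2 * A q b z T ≤ 2 * A q b z (insert h0 T) := by
    rw [key, key]
    refine sum_le_sum fun p _ => ?_
    refine mul_le_mul_of_nonneg_left ?_
      (mul_nonneg (prod_nonneg fun h _ => hq _) (prod_nonneg fun h _ => hq _))
    have e1 : ∀ U : Finset I, ∀ i : ι,
        ∑ h, (b (p.2 h) - b (p.1 h)) * (if h ∈ U then z i h else |z i h|) =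
        ∑ h ∈ univ.erase h0, (b (p.2 h) - b (p.1 h)) * (if h ∈ U then z i h else |z i h|) +
          (b (p.2 h0) - b (p.1 h0)) * (if h0 ∈ U then z i h0 else |z i h0|) := fun U i =>
      (sum_erase_add _ _ (mem_univ h0)).symm
    have e2 : ∀ U : Finset I, ∀ i : ι,
        ∑ h, (b ((sw h0 p).2 h) - b ((sw h0 p).1 h)) * (if h ∈ U then z i h else |z i h|) =
        ∑ h ∈ univ.erase h0, (b (p.2 h) - b (p.1 h)) * (if h ∈ U then z i h else |z i h|) +
          (-(b (p.2 h0) - b (p.1 h0))) * (if h0 ∈ U then z i h0 else |z i h0|) := by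
      intro U i
      rw [← sum_erase_add _ _ (mem_univ h0)]
      congr 1
      · refine sum_congr rfl fun h hh => ?_
        have hne : h ≠ h0 := (mem_erase.1 hh).1
        simp [sw, hne]
      · simp [sw]
    have e3 : ∀ i : ι, ∑ h ∈ univ.erase h0, (b (p.2 h) - b (p.1 h)) *
        (if h ∈ insert h0 T then z i h else |z i h|) =
        ∑ h ∈ univ.erase h0, (b (p.2 h) - b (p.1 h)) *
        (if h ∈ T then z i h else |z i h|) := by
      intro i
      refine sum_congr rfl fun h hh => ?_
      have hne : h ≠ h0 := (mem_erase.1 hh).1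
      simp [hne]
    simp only [e1, e2, e3, if_neg hT, mem_insert_self, if_true]
    exact sup_pair _ _ _
  linarith

theorem A_mono {ι : Type} [Fintype ι] [Nonempty ι] (q : S → ℝ) (hq : ∀ a, 0 ≤ q a)
    (b : S → ℝ) (z : ι → I → ℝ) (T : Finset I) : A q b z ∅ ≤ A q b z T := by
  induction T using Finset.induction_on with
  | empty => exact le_rfl
  | insert h0 T hT ih => exact ih.trans (A_insert q hq b z T h0 hT)

end Contr

/-- symmetrisation and contraction -/
theorem contraction {ι : Type} [Fintype ι] [Nonempty ι] (q : S → ℝ) (hq : ∀ a, 0 ≤ q a)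
    (hq1 : ∑ a, q a = 1) (b : S → ℝ) (z : ι → I → ℝ) :
    Ex q (fun s : I → S => univ.sup' univ_nonempty
      (fun i : ι => ∑ h, ((∑ a, q a * b a) - b (s h)) * |z i h|)) ≤
    Ex q (fun s : I → S => Ex q (fun s' : I → S => univ.sup' univ_nonempty
      (fun i : ι => ∑ h, (b (s' h) - b (s h)) * z i h))) := by
  have h1 : Ex q (fun s : I → S => univ.sup' univ_nonempty
      (fun i : ι => ∑ h, ((∑ a, q a * b a) - b (s h)) * |z i h|)) ≤ Contr.A q b z ∅ := by
    unfold Contr.A
    refine Ex_mono hq fun s => sup'_le _ _ fun i _ => ?_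
    have h2 : ∑ h, ((∑ a, q a * b a) - b (s h)) * |z i h| =
        Ex q (fun s' : I → S => ∑ h, (b (s' h) - b (s h)) * |z i h|) := by
      rw [Ex_sum]
      refine sum_congr rfl fun h _ => ?_
      rw [Ex_mul_right, Ex_sub, Ex_const hq1, Ex_coord hq1]
    rw [h2]
    refine Ex_mono hq fun s' => ?_
    have h3 := le_sup' (fun i : ι => ∑ h, (b (s' h) - b (s h)) *
      (if h ∈ (∅ : Finset I) then z i h else |z i h|)) (mem_univ i)
    simpa using h3
  refine (h1.trans (Contr.A_mono q hq b z univ)).trans (le_of_eq ?_)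
  unfold Contr.A
  simp

end Pool.Agent.Lib.FR
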