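import Pool.Agent.Lib.MP_6d56f7_co_FR.Defs

set_option autoImplicit false

/-! Module K1 HOST of project FR: expansion in the complete host. -/

namespace Pool.Agent.Lib.FR

open Finset

namespace Host

/-- the offset is at least the average difference -/
theorem offset {C : Type} [Fintype C] (y : ℝ) (s : C → ℝ) :
    ∑ c, ∑ c', |s c - s c'| ≤ 2 * Fintype.card C * ∑ c, |y + s c| := by
  have h1 : ∀ c c', |s c - s c'| ≤ |y + s c| + |y + s c'| := by
    intro c c'
    have h := abs_sub (y + s c) (y + s c')
    have e : y + s c - (y + s c') = s c - s c' := by ring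
    rwa [e] at h
  calc ∑ c, ∑ c', |s c - s c'| ≤ ∑ c, ∑ c', (|y + s c| + |y + s c'|) :=
        sum_le_sum fun c _ => sum_le_sum fun c' _ => h1 c c'
    _ = 2 * Fintype.card C * ∑ c, |y + s c| := by
        simp only [sum_add_distrib, sum_const, card_univ, nsmul_eq_mul, ← mul_sum]
        ring

/-- sums of pairs control the entries -/
theorem triples {V : Type} [Fintype V] [DecidableEq V] (h12 : 12 ≤ Fintype.card V) (D : V → ℝ) :
    5 * ((Fintype.card V : ℝ) - 1) * ∑ u, |D u| ≤
      9 * ∑ u, ∑ v, if u = v then 0 else |D u + D v| := by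
  set a : V → V → ℝ := fun u v => if u = v then 0 else |D u + D v| with ha
  have ha0 : ∀ u v, 0 ≤ a u v := by
    intro u v
    simp only [ha]
    split_ifs
    · exact le_rfl
    · exact abs_nonneg _
  have h1 : ∀ u v w, u ≠ v → u ≠ w → v ≠ w → 2 * |D u| ≤ a u v + a u w + a v w := by
    intro u v w huv huw hvw
    simp only [ha, if_neg huv, if_neg huw, if_neg hvw]
    have e : 2 * D u = (D u + D v) + (D u + D w) - (D v + D w) := by ring
    have h2 : |2 * D u| = 2 * |D u| := by
      rw [abs_mul, abs_two]
    rw [← h2, e]
    exact (abs_sub _ _).trans (add_le_add (abs_add_le _ _) le_rfl)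
  set N : ℝ := (Fintype.card V : ℝ) with hN
  have hN12 : (12 : ℝ) ≤ N := by
    rw [hN]
    exact_mod_cast h12
  have hcard : ∀ u v : V, u ≠ v → (((univ.erase u).erase v).card : ℝ) = N - 2 := by
    intro u v huv
    have h3 : v ∈ univ.erase u := mem_erase.mpr ⟨huv.symm, mem_univ _⟩
    rw [card_erase_of_mem h3, card_erase_of_mem (mem_univ u), card_univ, Nat.sub_sub,
      Nat.cast_sub (by omega), hN]
    norm_num
  have hcard1 : ∀ u : V, ((univ.erase u).card : ℝ) = N - 1 := by
    intro u
    rw [card_erase_of_mem (mem_univ u), card_univ, Nat.cast_sub (by omega), hN]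
    norm_num
  have h2 : ∀ u, (N - 1) * (N - 2) * (2 * |D u|) ≤
      ∑ v, ∑ w, (a u v + a u w + a v w) := by
    intro u
    calc (N - 1) * (N - 2) * (2 * |D u|)
        = ∑ v ∈ univ.erase u, ∑ w ∈ (univ.erase u).erase v, (2 * |D u|) := by
          rw [← hcard1 u, sum_congr rfl fun v hv => show
            ∑ w ∈ (univ.erase u).erase v, (2 * |D u|) = (N - 2) * (2 * |D u|) by
              rw [sum_const, nsmul_eq_mul, hcard u v (mem_erase.mp hv).1.symm]]
          rw [sum_const, nsmul_eq_mul]
          ring
      _ ≤ ∑ v ∈ univ.erase u, ∑ w ∈ (univ.erase u).erase v, (a u v + a u w + a v w) := by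
          refine sum_le_sum fun v hv => sum_le_sum fun w hw => ?_
          have h3 := (mem_erase.mp hv).1
          have h4 := mem_erase.mp hw
          exact h1 u v w h3.symm (mem_erase.mp h4.2).1.symm h4.1.symm
      _ ≤ ∑ v ∈ univ.erase u, ∑ w, (a u v + a u w + a v w) := by
          refine sum_le_sum fun v _ => sum_le_sum_of_subset_of_nonneg (subset_univ _) ?_
          intro w _ _
          have := ha0 u v
          have := ha0 u w
          have := ha0 v w
          positivity
      _ ≤ ∑ v, ∑ w, (a u v + a u w + a v w) := by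
          refine sum_le_sum_of_subset_of_nonneg (subset_univ _) fun v _ _ =>
            sum_nonneg fun w _ => ?_
          have := ha0 u v
          have := ha0 u w
          have := ha0 v w
          positivity
  have h3 : ∑ u, ∑ v, ∑ w, (a u v + a u w + a v w) = 3 * N * ∑ u, ∑ v, a u v := by
    have e1 : ∑ u, ∑ v, ∑ _w : V, a u v = N * ∑ u, ∑ v, a u v := by
      simp only [sum_const, card_univ, nsmul_eq_mul, ← mul_sum, ← hN]
    have e2 : ∑ u, ∑ _v : V, ∑ w, a u w = N * ∑ u, ∑ v, a u v := by
      rw [mul_sum]
      refine sum_congr rfl fun u _ => ?_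
      rw [sum_const, card_univ, nsmul_eq_mul]
    have e3 : ∑ _u : V, ∑ v, ∑ w, a v w = N * ∑ u, ∑ v, a u v := by
      rw [sum_const, card_univ, nsmul_eq_mul]
    simp only [sum_add_distrib]
    rw [e1, e2, e3]
    ring
  have h4 : (N - 1) * (N - 2) * (2 * ∑ u, |D u|) ≤ 3 * N * ∑ u, ∑ v, a u v := by
    rw [← h3]
    calc (N - 1) * (N - 2) * (2 * ∑ u, |D u|) = ∑ u, (N - 1) * (N - 2) * (2 * |D u|) := by
          rw [← mul_sum, ← mul_sum]
      _ ≤ _ := sum_le_sum fun u _ => h2 u
  have hS : 0 ≤ ∑ u, |D u| := sum_nonneg fun _ _ => abs_nonneg _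
  have hT : 0 ≤ ∑ u, ∑ v, a u v := sum_nonneg fun _ _ => sum_nonneg fun _ _ => ha0 _ _
  -- (N - 2) / N ≥ 5 / 6
  have h5 : 5 * (N - 1) * (∑ u, |D u|) * N ≤ 9 * (∑ u, ∑ v, a u v) * N := by
    have h6 : 5 * N ≤ 6 * (N - 2) := by linarith
    have h7 : 5 * (N - 1) * (∑ u, |D u|) * N ≤ 6 * (N - 2) * ((N - 1) * (∑ u, |D u|)) := by
      have h8 : 0 ≤ (N - 1) * (∑ u, |D u|) := mul_nonneg (by linarith) hS
      nlinarith
    nlinarith
  exact le_of_mul_le_mul_right h5 (by linarith)

/-- the sum of the differences of a vector with median zero -/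
theorem med_diff {C : Type} [Fintype C] (x : C → ℝ)
    (h1 : 2 * (univ.filter (fun c => 0 < x c)).card ≤ Fintype.card C)
    (h2 : 2 * (univ.filter (fun c => x c < 0)).card ≤ Fintype.card C) :
    (Fintype.card C : ℝ) * ∑ c, |x c| ≤ ∑ c, ∑ c', |x c - x c'| := by
  classical
  set N : ℝ := (Fintype.card C : ℝ) with hN
  -- the number of `c'` on the other side
  have hcnt : ∀ c, N * |x c| ≤ ∑ c', if x c * x c' ≤ 0 then 2 * |x c| else 0 := by
    intro c
    rw [← sum_filter, sum_const, nsmul_eq_mul]
    have key : x c ≠ 0 → N ≤ 2 * ((univ.filter (fun c' => x c * x c' ≤ 0)).card : ℝ) := by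
      intro hx
      rcases lt_or_gt_of_ne hx with h | h
      · have e : univ.filter (fun c' => x c * x c' ≤ 0) =
            (univ.filter (fun c' => x c' < 0))ᶜ := by
          ext c'
          rw [mem_compl, mem_filter, mem_filter]
          simp only [mem_univ, true_and, not_lt]
          constructor
          · intro h3
            by_contra h4
            push Not at h4
            have := mul_pos_of_neg_of_neg h h4
            linarith
          · intro h3
            exact mul_nonpos_of_nonpos_of_nonneg h.le h3
        rw [e, card_compl, Nat.cast_sub (card_le_univ _)]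
        have h5 : (2 * (univ.filter (fun c => x c < 0)).card : ℝ) ≤ N := by
          rw [hN]
          exact_mod_cast h2
        linarith
      · have e : univ.filter (fun c' => x c * x c' ≤ 0) =
            (univ.filter (fun c' => 0 < x c'))ᶜ := by
          ext c'
          rw [mem_compl, mem_filter, mem_filter]
          simp only [mem_univ, true_and, not_lt]
          constructor
          · intro h3
            by_contra h4
            push Not at h4
            have := mul_pos h h4
            linarith
          · intro h3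
            exact mul_nonpos_of_nonneg_of_nonpos h.le h3
        rw [e, card_compl, Nat.cast_sub (card_le_univ _)]
        have h5 : (2 * (univ.filter (fun c => 0 < x c)).card : ℝ) ≤ N := by
          rw [hN]
          exact_mod_cast h1
        linarith
    by_cases hx : x c = 0
    · rw [hx]
      simp
    · have h6 := key hx
      have h7 := abs_nonneg (x c)
      nlinarith
  have hpt : ∀ c c', (if x c * x c' ≤ 0 then |x c| + |x c'| else 0) ≤ |x c - x c'| := by
    intro c c'
    split_ifs with h
    · rcases le_total 0 (x c) with h3 | h3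
      · rcases eq_or_lt_of_le h3 with h4 | h4
        · rw [← h4]
          simp
        · have h5 : x c' ≤ 0 := by
            by_contra h6
            push Not at h6
            have := mul_pos h4 h6
            linarith
          rw [abs_of_nonneg h3, abs_of_nonpos h5]
          exact le_abs_self _
      · rcases eq_or_lt_of_le h3 with h4 | h4
        · rw [h4]
          simp
        · have h5 : 0 ≤ x c' := by
            by_contra h6
            push Not at h6
            have := mul_pos_of_neg_of_neg h4 h6
            linarith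
          rw [abs_of_nonpos h3, abs_of_nonneg h5, abs_sub_comm]
          have := le_abs_self (x c' - x c)
          linarith
    · exact abs_nonneg _
  have hsw : ∑ c, ∑ c', (if x c * x c' ≤ 0 then |x c'| else 0) =
      ∑ c, ∑ c', (if x c * x c' ≤ 0 then |x c| else 0) := by
    rw [sum_comm]
    refine sum_congr rfl fun c _ => sum_congr rfl fun c' _ => ?_
    rw [mul_comm]
  calc N * ∑ c, |x c| = ∑ c, N * |x c| := mul_sum _ _ _
    _ ≤ ∑ c, ∑ c', (if x c * x c' ≤ 0 then 2 * |x c| else 0) := sum_le_sum fun c _ => hcnt c
    _ = ∑ c, ∑ c', (if x c * x c' ≤ 0 then |x c| else 0) +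
        ∑ c, ∑ c', (if x c * x c' ≤ 0 then |x c'| else 0) := by
        rw [hsw, ← sum_add_distrib]
        refine sum_congr rfl fun c _ => ?_
        rw [← sum_add_distrib]
        refine sum_congr rfl fun c' _ => ?_
        split_ifs
        · ring
        · ring
    _ = ∑ c, ∑ c', (if x c * x c' ≤ 0 then |x c| + |x c'| else 0) := by
        rw [← sum_add_distrib]
        refine sum_congr rfl fun c _ => ?_
        rw [← sum_add_distrib]
        refine sum_congr rfl fun c' _ => ?_
        split_ifs
        · rfl
        · ring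
    _ ≤ ∑ c, ∑ c', |x c - x c'| := sum_le_sum fun c _ => sum_le_sum fun c' _ => hpt c c'

end Host

section Det

variable {V C : Type} [Fintype V] [DecidableEq V] [Fintype C] [DecidableEq C]

theorem host (x : V → C → ℝ) (y : V → V → ℝ) (hy : Sy y)
    (hV : Fintype.card V = Fintype.card C + 1) (h12 : 12 ≤ Fintype.card V) (hx : Med x) :
    (Fintype.card C : ℝ) * nrm x y ≤ 33 * TH x y := by
  set N : ℝ := (Fintype.card C : ℝ) with hN
  have hNV : (Fintype.card V : ℝ) = N + 1 := by
    rw [hV, hN]
    push_cast
    ring
  have hN11 : (11 : ℝ) ≤ N := by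
    have : (12 : ℝ) ≤ (Fintype.card V : ℝ) := by exact_mod_cast h12
    linarith
  set X : ℝ := ∑ v, ∑ c, |x v c| with hX
  set T : ℝ := TH x y with hT
  have hX0 : 0 ≤ X := sum_nonneg fun _ _ => sum_nonneg fun _ _ => abs_nonneg _
  -- the part with differences
  have hA : ∑ u, ∑ v, (if u = v then 0 else
      ∑ c, ∑ c', |(x u c - x u c') + (x v c - x v c')|) ≤ 2 * N * T := by
    rw [hT]
    unfold TH
    rw [mul_sum]
    refine sum_le_sum fun u _ => ?_
    rw [mul_sum]
    refine sum_le_sum fun v _ => ?_
    split_ifs with h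
    · simp
    · have h1 := Host.offset (y u v) (fun c => x u c + x v c)
      refine le_trans (le_of_eq ?_) (h1.trans (le_of_eq ?_))
      · refine sum_congr rfl fun c _ => sum_congr rfl fun c' _ => ?_
        congr 1
        ring
      · congr 1
        refine sum_congr rfl fun c _ => ?_
        congr 1
        ring
  have hB : 5 * N * (N * X) ≤ 9 * (2 * N * T) := by
    have h1 : ∀ c c', 5 * N * ∑ u, |x u c - x u c'| ≤
        9 * ∑ u, ∑ v, if u = v then 0 else |(x u c - x u c') + (x v c - x v c')| := by
      intro c c'
      have := Host.triples h12 (fun u => x u c - x u c')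
      rw [hNV] at this
      have e : N + 1 - 1 = N := by ring
      rwa [e] at this
    have h2 : N * X ≤ ∑ c, ∑ c', ∑ u, |x u c - x u c'| := by
      have h3 : ∀ u, N * ∑ c, |x u c| ≤ ∑ c, ∑ c', |x u c - x u c'| := fun u =>
        Host.med_diff (x u) (hx u).1 (hx u).2
      calc N * X = ∑ u, N * ∑ c, |x u c| := by rw [hX, mul_sum]
        _ ≤ ∑ u, ∑ c, ∑ c', |x u c - x u c'| := sum_le_sum fun u _ => h3 u
        _ = ∑ c, ∑ c', ∑ u, |x u c - x u c'| := by
            rw [sum_comm]
            refine sum_congr rfl fun c _ => ?_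
            rw [sum_comm]
    have h4 : ∑ c, ∑ c', ∑ u, ∑ v, (if u = v then 0 else
        |(x u c - x u c') + (x v c - x v c')|) =
        ∑ u, ∑ v, (if u = v then 0 else
        ∑ c, ∑ c', |(x u c - x u c') + (x v c - x v c')|) := by
      have e1 : ∀ c, ∑ c', ∑ u, ∑ v, (if u = v then 0 else
          |(x u c - x u c') + (x v c - x v c')|) =
          ∑ u, ∑ v, ∑ c', (if u = v then 0 else |(x u c - x u c') + (x v c - x v c')|) := by
        intro c
        rw [sum_comm]
        refine sum_congr rfl fun u _ => ?_
        rw [sum_comm]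
      rw [sum_congr rfl fun c _ => e1 c, sum_comm]
      refine sum_congr rfl fun u _ => ?_
      rw [sum_comm]
      refine sum_congr rfl fun v _ => ?_
      split_ifs with h
      · simp
      · rfl
    calc 5 * N * (N * X) ≤ 5 * N * ∑ c, ∑ c', ∑ u, |x u c - x u c'| :=
          mul_le_mul_of_nonneg_left h2 (by positivity)
      _ = ∑ c, ∑ c', 5 * N * ∑ u, |x u c - x u c'| := by
          rw [mul_sum]
          refine sum_congr rfl fun c _ => ?_
          rw [mul_sum]
      _ ≤ ∑ c, ∑ c', 9 * ∑ u, ∑ v, (if u = v then 0 else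
            |(x u c - x u c') + (x v c - x v c')|) :=
          sum_le_sum fun c _ => sum_le_sum fun c' _ => h1 c c'
      _ = 9 * ∑ u, ∑ v, (if u = v then 0 else
            ∑ c, ∑ c', |(x u c - x u c') + (x v c - x v c')|) := by
          rw [← h4]
          simp only [← mul_sum]
      _ ≤ 9 * (2 * N * T) := mul_le_mul_of_nonneg_left hA (by norm_num)
  have hC : 5 * (N * X) ≤ 18 * T := by
    have h1 : N * (5 * (N * X)) ≤ N * (18 * T) := by linarith
    exact le_of_mul_le_mul_left h1 (by linarith)
  -- the part of `y`
  have hD : N * ∑ u, ∑ v, |y u v| ≤ T + 2 * N * X := by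
    have h1 : ∀ u v, N * |y u v| ≤ (if u = v then 0 else ∑ c, |y u v + x u c + x v c|) +
        ((∑ c, |x u c|) * (if u = v then 0 else 1) +
          (∑ c, |x v c|) * (if u = v then 0 else 1)) := by
      intro u v
      by_cases h : u = v
      · rw [h, hy.diag v]
        simp
      · rw [if_neg h, if_neg h, mul_one, mul_one]
        calc N * |y u v| = ∑ c : C, |y u v| := by
              rw [sum_const, card_univ, nsmul_eq_mul]
          _ ≤ ∑ c, (|y u v + x u c + x v c| + (|x u c| + |x v c|)) := by
              refine sum_le_sum fun c _ => ?_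
              have e : y u v = (y u v + x u c + x v c) - (x u c + x v c) := by ring
              calc |y u v| = |(y u v + x u c + x v c) - (x u c + x v c)| := by rw [← e]
                _ ≤ |y u v + x u c + x v c| + |x u c + x v c| := abs_sub _ _
                _ ≤ _ := add_le_add le_rfl (abs_add_le _ _)
          _ = _ := by rw [sum_add_distrib, sum_add_distrib]
    have hcnt : ∀ u : V, ∑ v, (if u = v then (0 : ℝ) else 1) = N := by
      intro u
      have h2 : ∑ v, (if u = v then (0 : ℝ) else 1) = ∑ v : V, ((1 : ℝ) - if u = v then 1 else 0) := by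
        refine sum_congr rfl fun v _ => ?_
        split_ifs <;> norm_num
      rw [h2, sum_sub_distrib, sum_const, card_univ, nsmul_eq_mul, sum_ite_eq, if_pos (mem_univ _),
        hNV]
      ring
    have hcnt' : ∀ v : V, ∑ u, (if u = v then (0 : ℝ) else 1) = N := by
      intro v
      rw [← hcnt v]
      refine sum_congr rfl fun u _ => ?_
      by_cases h : u = v
      · rw [if_pos h, if_pos h.symm]
      · rw [if_neg h, if_neg (Ne.symm h)]
    calc N * ∑ u, ∑ v, |y u v| = ∑ u, ∑ v, N * |y u v| := by
          simp only [mul_sum]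
      _ ≤ ∑ u, ∑ v, ((if u = v then 0 else ∑ c, |y u v + x u c + x v c|) +
        ((∑ c, |x u c|) * (if u = v then 0 else 1) +
          (∑ c, |x v c|) * (if u = v then 0 else 1))) :=
          sum_le_sum fun u _ => sum_le_sum fun v _ => h1 u v
      _ = T + (∑ u, ∑ v, (∑ c, |x u c|) * (if u = v then 0 else 1) +
          ∑ u, ∑ v, (∑ c, |x v c|) * (if u = v then 0 else 1)) := by
          simp only [sum_add_distrib]
          rfl
      _ = T + (N * X + N * X) := by
          congr 1
          congr 1
          · rw [hX, mul_sum]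
            refine sum_congr rfl fun u _ => ?_
            rw [← mul_sum, hcnt u, mul_comm]
          · rw [sum_comm, hX, mul_sum]
            refine sum_congr rfl fun v _ => ?_
            rw [← mul_sum, hcnt' v, mul_comm]
      _ = T + 2 * N * X := by ring
  have hT0 : 0 ≤ T := by
    rw [hT]
    unfold TH
    refine sum_nonneg fun u _ => sum_nonneg fun v _ => ?_
    split_ifs
    · exact le_rfl
    · exact sum_nonneg fun _ _ => abs_nonneg _
  unfold nrm
  rw [mul_add]
  have e1 : N * (2 * ∑ v, ∑ c, |x v c|) = 2 * (N * X) := by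
    rw [hX]
    ring
  rw [e1]
  nlinarith

end Det

end Pool.Agent.Lib.FR
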