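import Pool.Agent.Lib.MP_6d56f7_co_FR.Layer

set_option autoImplicit false
set_option linter.unusedSectionVars false

namespace Pool.Agent.Lib.FR

open Finset

private theorem pw (a b c p q r : ℝ) (hp : p = 0 ∨ p = 1) (hq : q = 0 ∨ q = 1)
    (hr : r = 0 ∨ r = 1) :
    p * |a| + q * |b| + r * |c| -
      2 * (p * min |a| |b| + q * min |a| |b| + p * min |a| |c| + r * min |a| |c| +
        q * min |b| |c| + r * min |b| |c|) ≤ |a + b + c| := by
  have h1 : |a| ≤ |a + b + c| + |b| + |c| := by
    calc |a| = |(a + b + c) + (-b) + (-c)| := by ring_nf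
      _ ≤ |a + b + c| + |-b| + |-c| := abs_add_three _ _ _
      _ = _ := by rw [abs_neg, abs_neg]
  have h2 : |b| ≤ |a + b + c| + |a| + |c| := by
    calc |b| = |(a + b + c) + (-a) + (-c)| := by ring_nf
      _ ≤ |a + b + c| + |-a| + |-c| := abs_add_three _ _ _
      _ = _ := by rw [abs_neg, abs_neg]
  have h3 : |c| ≤ |a + b + c| + |a| + |b| := by
    calc |c| = |(a + b + c) + (-a) + (-b)| := by ring_nf
      _ ≤ |a + b + c| + |-a| + |-b| := abs_add_three _ _ _
      _ = _ := by rw [abs_neg, abs_neg]
  have h0 := abs_nonneg (a + b + c)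
  have ha := abs_nonneg a
  have hb := abs_nonneg b
  have hc := abs_nonneg c
  rcases le_total |a| |b| with hab | hab <;> rcases le_total |a| |c| with hac | hac <;>
    rcases le_total |b| |c| with hbc | hbc <;>
    (first | have e1 : min |a| |b| = |a| := min_eq_left hab
           | have e1 : min |a| |b| = |b| := min_eq_right hab) <;>
    (first | have e2 : min |a| |c| = |a| := min_eq_left hac
           | have e2 : min |a| |c| = |c| := min_eq_right hac) <;>
    (first | have e3 : min |b| |c| = |b| := min_eq_left hbc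
           | have e3 : min |b| |c| = |c| := min_eq_right hbc) <;>
    rw [e1, e2, e3] <;>
    rcases hp with rfl | rfl <;> rcases hq with rfl | rfl <;> rcases hr with rfl | rfl <;>
    linarith

private theorem lc {U W : Type} [Fintype U] [DecidableEq U] [Fintype W] [DecidableEq W]
    (G : U → W → Prop) [∀ u w, Decidable (G u w)] (P : U → Prop) [DecidablePred P] (lam : ℝ)
    (hlam : 0 ≤ lam)
    (hG : ∀ A : Finset U, (∀ a ∈ A, P a) → ∀ Y : Finset W,
      (((A ×ˢ Y).filter (fun p => G p.1 p.2)).card : ℝ) ≤ lam * (A.card + Y.card))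
    (f : U → ℝ) (g : W → ℝ) (hf : ∀ u, 0 ≤ f u) (hg : ∀ w, 0 ≤ g w) :
    ∑ u, ∑ w, (if G u w then (if P u then 1 else 0) * min (f u) (g w) else 0) ≤
      lam * (∑ u, f u + ∑ w, g w) := by
  have h := layer_cake G (univ.filter P) lam hlam
    (fun A hA Y => hG A (fun a ha => (mem_filter.1 (hA ha)).2) Y) f g hf hg
  have e : ∑ u, ∑ w, (if G u w then (if P u then 1 else 0) * min (f u) (g w) else 0) =
      ∑ u ∈ univ.filter P, ∑ w, (if G u w then min (f u) (g w) else 0) := by
    rw [Finset.sum_filter]
    refine Finset.sum_congr rfl fun u _ => ?_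
    by_cases hu : P u
    · simp [hu]
    · simp [hu]
  rw [e]
  refine h.trans ?_
  refine mul_le_mul_of_nonneg_left ?_ hlam
  have h2 : ∑ u ∈ univ.filter P, f u ≤ ∑ u, f u :=
    Finset.sum_le_sum_of_subset_of_nonneg (Finset.subset_univ _) fun u _ _ => hf u
  linarith

section

variable {V C : Type} [Fintype V] [DecidableEq V] [Fintype C] [DecidableEq C]

private noncomputable def S3 (L : V → V → Finset C) (F : V → V → C → ℝ) : ℝ :=
  ∑ u, ∑ v, ∑ c, if c ∈ L u v then F u v c else 0

private theorem S3_add (L : V → V → Finset C) (F G : V → V → C → ℝ) :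
    S3 L (fun u v c => F u v c + G u v c) = S3 L F + S3 L G := by
  unfold S3
  rw [← Finset.sum_add_distrib]
  refine Finset.sum_congr rfl fun u _ => ?_
  rw [← Finset.sum_add_distrib]
  refine Finset.sum_congr rfl fun v _ => ?_
  rw [← Finset.sum_add_distrib]
  refine Finset.sum_congr rfl fun c _ => ?_
  split_ifs
  · rfl
  · rw [add_zero]

private theorem S3_mul (L : V → V → Finset C) (k : ℝ) (F : V → V → C → ℝ) :
    S3 L (fun u v c => k * F u v c) = k * S3 L F := by
  unfold S3
  rw [Finset.mul_sum]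
  refine Finset.sum_congr rfl fun u _ => ?_
  rw [Finset.mul_sum]
  refine Finset.sum_congr rfl fun v _ => ?_
  rw [Finset.mul_sum]
  refine Finset.sum_congr rfl fun c _ => ?_
  rw [mul_ite, mul_zero]

private theorem S3_mono (L : V → V → Finset C) {F G : V → V → C → ℝ}
    (h : ∀ u v c, F u v c ≤ G u v c) : S3 L F ≤ S3 L G := by
  unfold S3
  refine Finset.sum_le_sum fun u _ => Finset.sum_le_sum fun v _ => Finset.sum_le_sum fun c _ => ?_
  split_ifs
  · exact h u v c
  · exact le_refl _

private theorem S3_swap (L : V → V → Finset C) (hL : Ker L) (F : V → V → C → ℝ) :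
    S3 L F = S3 L (fun u v c => F v u c) := by
  unfold S3
  rw [Finset.sum_comm]
  refine Finset.sum_congr rfl fun u _ => Finset.sum_congr rfl fun v _ => ?_
  rw [hL.symm]

private theorem S3_congr (L : V → V → Finset C) {F G : V → V → C → ℝ}
    (h : ∀ u v c, F u v c = G u v c) : S3 L F = S3 L G := by
  have : F = G := by funext u v c; exact h u v c
  rw [this]

/- K4 PEAK -/
theorem peak (L : V → V → Finset C) (hL : Ker L) {ε θ d c₁ : ℝ} (hε : 0 ≤ ε) (hd : 0 ≤ d)
    (hS : Sparse ε θ d L) (x : V → C → ℝ) (y : V → V → ℝ) (hy : Sy y)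
    (SP : V → C → Prop) (SE : V → V → Prop) (hSE : ∀ u v, SE u v → SE v u)
    (hrow : ∀ v, (Nat.card {c : C // SP v c} : ℝ) ≤ θ * Fintype.card C)
    (hcol : ∀ c, (Nat.card {v : V // SP v c} : ℝ) ≤ θ * Fintype.card C)
    (hstar : ∀ v, (Nat.card {u : V // SE u v} : ℝ) ≤ θ * Fintype.card C)
    (hdE : ∀ u v, SE u v → y u v ≠ 0 → c₁ * d ≤ ((L u v).card : ℝ))
    (hdP : ∀ v c, SP v c → x v c ≠ 0 → c₁ * d ≤ (dP L v c : ℝ)) :
    c₁ * d * nrmS SP SE x y - 8 * ε * d * nrm x y ≤ SL L x y := by
  classical
  have hεd : 0 ≤ ε * d := mul_nonneg hε hd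
  set e : V → V → ℝ := fun u v => if SE u v then 1 else 0 with he
  set p : V → C → ℝ := fun v c => if SP v c then 1 else 0 with hp
  have esym : ∀ u v, e u v = e v u := by
    intro u v
    have : SE u v ↔ SE v u := ⟨hSE u v, hSE v u⟩
    simp only [he, this]
  have e01 : ∀ u v, e u v = 0 ∨ e u v = 1 := by
    intro u v; simp only [he]; split_ifs
    · exact Or.inr rfl
    · exact Or.inl rfl
  have p01 : ∀ u v, p u v = 0 ∨ p u v = 1 := by
    intro u v; simp only [hp]; split_ifs
    · exact Or.inr rfl
    · exact Or.inl rfl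
  set X : ℝ := ∑ v, ∑ c, |x v c| with hX
  set Y : ℝ := ∑ u, ∑ v, |y u v| with hY
  have cardle : ∀ {T : Type} [Fintype T] [DecidableEq T] (Q : T → Prop) (A : Finset T),
      (∀ a ∈ A, Q a) → (A.card : ℝ) ≤ (Nat.card {t : T // Q t} : ℝ) := by
    intro T _ _ Q A hA
    have h1 : A ⊆ univ.filter Q := fun a ha => mem_filter.2 ⟨mem_univ _, hA a ha⟩
    have h2 := Finset.card_le_card h1
    have h3 : (univ.filter Q).card = Nat.card {t : T // Q t} := by
      rw [Nat.card_eq_fintype_card, Fintype.card_subtype]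
    rw [← h3]
    exact_mod_cast h2
  -- the six sums of minima
  have M1 : S3 L (fun u v c => e u v * min |y u v| |x v c|) ≤ ε * d * (Y + X) := by
    unfold S3
    rw [Finset.sum_comm]
    have h : ∀ v, ∑ u, ∑ c, (if c ∈ L u v then e u v * min |y u v| |x v c| else 0) ≤
        ε * d * (∑ u, |y u v| + ∑ c, |x v c|) := by
      intro v
      refine lc (fun u c => c ∈ L u v) (fun u => SE u v) (ε * d) hεd ?_ (fun u => |y u v|)
        (fun c => |x v c|) (fun _ => abs_nonneg _) (fun _ => abs_nonneg _)
      intro A hA Z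
      exact hS.row v A Z (Or.inl ((cardle _ A hA).trans (hstar v)))
    refine (Finset.sum_le_sum fun v _ => h v).trans (le_of_eq ?_)
    rw [← Finset.mul_sum, Finset.sum_add_distrib, hY, hX, Finset.sum_comm]
  have M2 : S3 L (fun u v c => p v c * min |y u v| |x v c|) ≤ ε * d * (Y + X) := by
    unfold S3
    rw [Finset.sum_comm]
    have h : ∀ v, ∑ u, ∑ c, (if c ∈ L u v then p v c * min |y u v| |x v c| else 0) ≤
        ε * d * (∑ u, |y u v| + ∑ c, |x v c|) := by
      intro v
      have h1 := lc (fun (c : C) (u : V) => c ∈ L u v) (fun c => SP v c) (ε * d) hεd ?_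
        (fun c => |x v c|) (fun u => |y u v|) (fun _ => abs_nonneg _) (fun _ => abs_nonneg _)
      · rw [Finset.sum_comm]
        rw [add_comm (∑ u, |y u v|)]
        refine le_trans (le_of_eq ?_) h1
        refine Finset.sum_congr rfl fun c _ => Finset.sum_congr rfl fun u _ => ?_
        rw [min_comm]
      · intro A hA Z
        have h2 := hS.row v Z A (Or.inr ((cardle _ A hA).trans (hrow v)))
        rw [add_comm (A.card : ℝ)]
        refine le_trans (le_of_eq ?_) h2
        congr 1
        refine Finset.card_bij' (fun q _ => (q.2, q.1)) (fun q _ => (q.2, q.1)) ?_ ?_ ?_ ?_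
        · intro q hq
          simp only [mem_filter, mem_product] at hq ⊢
          exact ⟨⟨hq.1.2, hq.1.1⟩, hq.2⟩
        · intro q hq
          simp only [mem_filter, mem_product] at hq ⊢
          exact ⟨⟨hq.1.2, hq.1.1⟩, hq.2⟩
        · intro q _; rfl
        · intro q _; rfl
    refine (Finset.sum_le_sum fun v _ => h v).trans (le_of_eq ?_)
    rw [← Finset.mul_sum, Finset.sum_add_distrib, hY, hX, Finset.sum_comm]
  have M5 : S3 L (fun u v c => p u c * min |x u c| |x v c|) ≤ ε * d * (X + X) := by
    have h : ∀ c, ∑ u, ∑ v, (if c ∈ L u v then p u c * min |x u c| |x v c| else 0) ≤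
        ε * d * (∑ u, |x u c| + ∑ v, |x v c|) := by
      intro c
      refine lc (fun u v => c ∈ L u v) (fun u => SP u c) (ε * d) hεd ?_ (fun u => |x u c|)
        (fun v => |x v c|) (fun _ => abs_nonneg _) (fun _ => abs_nonneg _)
      intro A hA Z
      exact hS.col c A Z ((cardle _ A hA).trans (hcol c))
    have e1 : S3 L (fun u v c => p u c * min |x u c| |x v c|) =
        ∑ c, ∑ u, ∑ v, (if c ∈ L u v then p u c * min |x u c| |x v c| else 0) := by
      unfold S3
      rw [Finset.sum_comm' (s := univ) (t := fun _ => univ) (s' := fun _ => univ) (t' := univ)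
        (by simp)]
      symm
      rw [Finset.sum_comm]
      refine (Finset.sum_congr rfl fun u _ => ?_).trans (Finset.sum_comm)
      exact Finset.sum_comm
    rw [e1]
    refine (Finset.sum_le_sum fun c _ => h c).trans (le_of_eq ?_)
    rw [← Finset.mul_sum, Finset.sum_add_distrib]
    have e2 : ∑ c, ∑ v, |x v c| = X := Finset.sum_comm
    rw [e2]
  have M1' : S3 L (fun u v c => e u v * min |y u v| |x u c|) ≤ ε * d * (Y + X) := by
    rw [S3_swap L hL]
    refine le_trans (le_of_eq (S3_congr L fun u v c => ?_)) M1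
    rw [esym v u, hy.symm v u]
  have M2' : S3 L (fun u v c => p u c * min |y u v| |x u c|) ≤ ε * d * (Y + X) := by
    rw [S3_swap L hL]
    refine le_trans (le_of_eq (S3_congr L fun u v c => ?_)) M2
    rw [hy.symm v u]
  have M5' : S3 L (fun u v c => p v c * min |x u c| |x v c|) ≤ ε * d * (X + X) := by
    rw [S3_swap L hL]
    refine le_trans (le_of_eq (S3_congr L fun u v c => ?_)) M5
    rw [min_comm]
  -- the main terms
  have A1 : c₁ * d * ∑ u, ∑ v, e u v * |y u v| ≤ S3 L (fun u v _ => e u v * |y u v|) := by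
    unfold S3
    rw [Finset.mul_sum]
    refine Finset.sum_le_sum fun u _ => ?_
    rw [Finset.mul_sum]
    refine Finset.sum_le_sum fun v _ => ?_
    have e1 : (∑ c, if c ∈ L u v then e u v * |y u v| else 0) =
        ((L u v).card : ℝ) * (e u v * |y u v|) := by
      rw [← Finset.sum_filter, Finset.sum_const, nsmul_eq_mul]
      congr 3
      ext c; simp
    rw [e1]
    by_cases h1 : SE u v
    · by_cases h2 : y u v = 0
      · simp [h2]
      · refine mul_le_mul_of_nonneg_right (hdE u v h1 h2) ?_
        simp only [he, if_pos h1, one_mul]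
        exact abs_nonneg _
    · simp [he, h1]
  have A3 : c₁ * d * ∑ v, ∑ c, p v c * |x v c| ≤ S3 L (fun _ v c => p v c * |x v c|) := by
    have e0 : S3 L (fun _ v c => p v c * |x v c|) =
        ∑ v, ∑ c, ∑ u, (if c ∈ L u v then p v c * |x v c| else 0) := by
      unfold S3
      rw [Finset.sum_comm]
      exact Finset.sum_congr rfl fun v _ => Finset.sum_comm
    rw [e0, Finset.mul_sum]
    refine Finset.sum_le_sum fun v _ => ?_
    rw [Finset.mul_sum]
    refine Finset.sum_le_sum fun c _ => ?_
    have e1 : (∑ u, if c ∈ L u v then p v c * |x v c| else 0) =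
        (dP L v c : ℝ) * (p v c * |x v c|) := by
      rw [← Finset.sum_filter, Finset.sum_const, nsmul_eq_mul]
      rfl
    rw [e1]
    by_cases h1 : SP v c
    · by_cases h2 : x v c = 0
      · simp [h2]
      · refine mul_le_mul_of_nonneg_right (hdP v c h1 h2) ?_
        simp only [hp, if_pos h1, one_mul]
        exact abs_nonneg _
    · simp [hp, h1]
  have A2 : c₁ * d * ∑ v, ∑ c, p v c * |x v c| ≤ S3 L (fun u _ c => p u c * |x u c|) := by
    rw [S3_swap L hL]
    exact A3
  have hSL : SL L x y = S3 L (fun u v c => |y u v + x u c + x v c|) := by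
    unfold SL S3
    refine Finset.sum_congr rfl fun u _ => Finset.sum_congr rfl fun v _ => ?_
    rw [← Finset.sum_filter]
    congr 1
    ext c; simp
  have hN : nrmS SP SE x y = 2 * (∑ v, ∑ c, p v c * |x v c|) + ∑ u, ∑ v, e u v * |y u v| := by
    unfold nrmS
    congr 1
    · congr 1
      refine Finset.sum_congr rfl fun v _ => Finset.sum_congr rfl fun c _ => ?_
      by_cases h : SP v c <;> simp [hp, h]
    · refine Finset.sum_congr rfl fun u _ => Finset.sum_congr rfl fun v _ => ?_
      by_cases h : SE u v <;> simp [he, h]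
  have hnrm : nrm x y = 2 * X + Y := rfl
  have key : S3 L (fun u v c => (e u v * |y u v| + p u c * |x u c| + p v c * |x v c|) +
      (-2) * (e u v * min |y u v| |x u c| + p u c * min |y u v| |x u c| +
        e u v * min |y u v| |x v c| + p v c * min |y u v| |x v c| +
        p u c * min |x u c| |x v c| + p v c * min |x u c| |x v c|)) ≤ SL L x y := by
    rw [hSL]
    refine S3_mono L fun u v c => ?_
    have := pw (y u v) (x u c) (x v c) (e u v) (p u c) (p v c) (e01 u v) (p01 u c) (p01 v c)
    linarith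
  rw [S3_add, S3_add, S3_add, S3_mul, S3_add, S3_add, S3_add, S3_add, S3_add] at key
  rw [hN, hnrm]
  nlinarith [key, A1, A2, A3, M1, M2, M5, M1', M2', M5']

end

end Pool.Agent.Lib.FR
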