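import Pool.Agent.Lib.MP_6d56f7_co_FR.Defs

set_option autoImplicit false

/-!
Project FR, module K3 QUANT: a quantile of a nonnegative function and a median.
-/

namespace Pool.Agent.Lib.FR

open Finset

theorem quantile {ι : Type} [Fintype ι] (f : ι → ℝ) (hf : ∀ i, 0 ≤ f i) (K : ℝ) (hK : 0 ≤ K) :
    ∃ τ : ℝ, 0 ≤ τ ∧ (((univ.filter (fun i => τ < f i)).card : ℝ) ≤ K) ∧
      K * τ ≤ ∑ i, min (f i) τ := by
  classical
  set S : Finset ℝ := insert 0 (univ.image f) with hSdef
  have hSne : S.Nonempty := ⟨0, by simp [hSdef]⟩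
  have hS0 : ∀ t ∈ S, 0 ≤ t := by
    intro t ht
    rw [hSdef, Finset.mem_insert, Finset.mem_image] at ht
    rcases ht with h | ⟨i, -, h⟩
    · exact h.ge
    · rw [← h]; exact hf i
  have hfS : ∀ i, f i ∈ S := by
    intro i
    rw [hSdef, Finset.mem_insert, Finset.mem_image]
    exact Or.inr ⟨i, mem_univ i, rfl⟩
  set T : Finset ℝ := S.filter (fun t => (((univ.filter (fun i => t < f i)).card : ℝ) ≤ K))
    with hTdef
  have hTne : T.Nonempty := by
    refine ⟨S.max' hSne, ?_⟩
    rw [hTdef, Finset.mem_filter]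
    refine ⟨S.max'_mem hSne, ?_⟩
    have he : (univ.filter (fun i => S.max' hSne < f i)) = ∅ := by
      apply Finset.filter_eq_empty_iff.mpr
      intro i _
      exact not_lt.mpr (S.le_max' _ (hfS i))
    rw [he]
    simpa using hK
  have hτT := T.min'_mem hTne
  have hτmin : ∀ t ∈ T, T.min' hTne ≤ t := fun t ht => T.min'_le t ht
  generalize T.min' hTne = τ at hτT hτmin
  have hτ := hτT
  rw [hTdef, Finset.mem_filter] at hτ
  have hτ0 : 0 ≤ τ := hS0 τ hτ.1
  refine ⟨τ, hτ0, hτ.2, ?_⟩
  rcases hτ0.eq_or_lt with h0 | hpos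
  · rw [← h0, mul_zero]
    exact Finset.sum_nonneg fun i _ => le_min (hf i) le_rfl
  · have hBne : (S.filter (fun t => t < τ)).Nonempty :=
      ⟨0, Finset.mem_filter.mpr ⟨by simp [hSdef], hpos⟩⟩
    have hσB := (S.filter (fun t => t < τ)).max'_mem hBne
    have hσmax : ∀ t ∈ S.filter (fun t => t < τ), t ≤ (S.filter (fun t => t < τ)).max' hBne :=
      fun t ht => (S.filter (fun t => t < τ)).le_max' t ht
    generalize (S.filter (fun t => t < τ)).max' hBne = σ at hσB hσmax
    rw [Finset.mem_filter] at hσB
    have hσT : K < ((univ.filter (fun i => σ < f i)).card : ℝ) := by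
      by_contra hcon
      have : σ ∈ T := by
        rw [hTdef, Finset.mem_filter]
        exact ⟨hσB.1, not_lt.mp hcon⟩
      exact absurd (hτmin σ this) (not_le.mpr hσB.2)
    have hsub : (univ.filter (fun i => σ < f i)) ⊆ (univ.filter (fun i => τ ≤ f i)) := by
      intro i hi
      rw [Finset.mem_filter] at hi ⊢
      refine ⟨hi.1, ?_⟩
      by_contra hcon
      have h1 : f i ≤ σ := hσmax (f i) (Finset.mem_filter.mpr ⟨hfS i, not_le.mp hcon⟩)
      exact absurd hi.2 (not_lt.mpr h1)
    have hcard : K ≤ ((univ.filter (fun i => τ ≤ f i)).card : ℝ) :=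
      hσT.le.trans (by exact_mod_cast Finset.card_le_card hsub)
    calc K * τ ≤ ((univ.filter (fun i => τ ≤ f i)).card : ℝ) * τ :=
          mul_le_mul_of_nonneg_right hcard hτ0
      _ = ∑ _i ∈ univ.filter (fun i => τ ≤ f i), τ := by
          rw [Finset.sum_const, nsmul_eq_mul]
      _ ≤ ∑ i ∈ univ.filter (fun i => τ ≤ f i), min (f i) τ := by
          apply Finset.sum_le_sum
          intro i hi
          exact le_min (Finset.mem_filter.mp hi).2 le_rfl
      _ ≤ ∑ i, min (f i) τ := by
          apply Finset.sum_le_sum_of_subset_of_nonneg (Finset.filter_subset _ _)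
          intro i _ _
          exact le_min (hf i) hτ0

theorem median {ι : Type} (S : Finset ι) (f : ι → ℝ) :
    ∃ a : ℝ, 2 * (S.filter (fun i => a < f i)).card ≤ S.card ∧
      2 * (S.filter (fun i => f i < a)).card ≤ S.card := by
  classical
  rcases S.eq_empty_or_nonempty with hS | hS
  · subst hS
    exact ⟨0, by simp, by simp⟩
  have hIne : (S.image f).Nonempty := hS.image f
  set T : Finset ℝ := (S.image f).filter (fun a => 2 * (S.filter (fun i => a < f i)).card ≤ S.card)
    with hTdef
  have hTne : T.Nonempty := by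
    refine ⟨(S.image f).max' hIne, ?_⟩
    rw [hTdef, Finset.mem_filter]
    refine ⟨(S.image f).max'_mem hIne, ?_⟩
    have he : (S.filter (fun i => (S.image f).max' hIne < f i)) = ∅ := by
      apply Finset.filter_eq_empty_iff.mpr
      intro i hi
      exact not_lt.mpr ((S.image f).le_max' _ (Finset.mem_image_of_mem f hi))
    rw [he]
    simp
  have haT := T.min'_mem hTne
  have hamin : ∀ t ∈ T, T.min' hTne ≤ t := fun t ht => T.min'_le t ht
  generalize T.min' hTne = a at haT hamin
  have ha := haT
  rw [hTdef, Finset.mem_filter] at ha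
  refine ⟨a, ha.2, ?_⟩
  by_contra hcon
  rw [not_le] at hcon
  have hne : (S.filter (fun i => f i < a)).Nonempty := by
    rw [← Finset.card_pos]
    by_contra h0
    have : (S.filter (fun i => f i < a)).card = 0 := by omega
    rw [this] at hcon
    omega
  obtain ⟨i₀, hi₀⟩ := hne
  rw [Finset.mem_filter] at hi₀
  have hBne : ((S.image f).filter (fun t => t < a)).Nonempty :=
    ⟨f i₀, Finset.mem_filter.mpr ⟨Finset.mem_image_of_mem f hi₀.1, hi₀.2⟩⟩
  have hbB := ((S.image f).filter (fun t => t < a)).max'_mem hBne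
  have hbmax : ∀ t ∈ (S.image f).filter (fun t => t < a),
      t ≤ ((S.image f).filter (fun t => t < a)).max' hBne :=
    fun t ht => ((S.image f).filter (fun t => t < a)).le_max' t ht
  generalize ((S.image f).filter (fun t => t < a)).max' hBne = b at hbB hbmax
  rw [Finset.mem_filter] at hbB
  have hbT : S.card < 2 * (S.filter (fun i => b < f i)).card := by
    by_contra hc
    have : b ∈ T := by
      rw [hTdef, Finset.mem_filter]
      exact ⟨hbB.1, not_lt.mp hc⟩
    exact absurd (hamin b this) (not_le.mpr hbB.2)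
  have hdisj : Disjoint (S.filter (fun i => b < f i)) (S.filter (fun i => f i < a)) := by
    rw [Finset.disjoint_left]
    intro i hi1 hi2
    rw [Finset.mem_filter] at hi1 hi2
    have h1 : f i ≤ b :=
      hbmax (f i) (Finset.mem_filter.mpr ⟨Finset.mem_image_of_mem f hi1.1, hi2.2⟩)
    exact absurd hi1.2 (not_lt.mpr h1)
  have hle : (S.filter (fun i => b < f i)).card + (S.filter (fun i => f i < a)).card ≤ S.card := by
    rw [← Finset.card_union_of_disjoint hdisj]
    exact Finset.card_le_card
      (Finset.union_subset (Finset.filter_subset _ _) (Finset.filter_subset _ _))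
  omega

end Pool.Agent.Lib.FR
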