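import Pool.Agent.Lib.MP_6d56f7_co_FR.Defs
import Pool.Agent.Lib.MP_6d56f7_co_FR.Host
import Pool.Agent.Lib.MP_6d56f7_co_FR.Quant
import Pool.Agent.Lib.MP_6d56f7_co_FR.Peak

set_option autoImplicit false

/-!
Project FR, module K5 (helper87): the expansion inequality.
-/

namespace Pool.Agent.Lib.FR

open Finset

namespace Expan

/-- the clamp of `x` to `[-t, t]` -/
noncomputable def cl (t x : ℝ) : ℝ := max (-t) (min t x)

theorem cl_facts {t : ℝ} (ht : 0 ≤ t) (x : ℝ) :
    |cl t x| ≤ t ∧ |cl t x| = min |x| t ∧ |x| = |cl t x| + |x - cl t x| := by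
  unfold cl
  rcases le_total 0 x with hx | hx
  · rcases le_total x t with hxt | hxt
    · have h1 : max (-t) (min t x) = x := by
        rw [min_eq_right hxt, max_eq_right (by linarith)]
      rw [h1, abs_of_nonneg hx, min_eq_left hxt]
      simp [hxt]
    · have h1 : max (-t) (min t x) = t := by
        rw [min_eq_left hxt, max_eq_right (by linarith)]
      rw [h1, abs_of_nonneg hx, abs_of_nonneg ht, min_eq_right hxt,
        abs_of_nonneg (by linarith : (0 : ℝ) ≤ x - t)]
      refine ⟨le_rfl, rfl, by ring⟩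
  · rcases le_total (-t) x with hxt | hxt
    · have h1 : max (-t) (min t x) = x := by
        rw [min_eq_right (by linarith), max_eq_right hxt]
      rw [h1, abs_of_nonpos hx, min_eq_left (by linarith)]
      simp
      linarith
    · have h1 : max (-t) (min t x) = -t := by
        rw [min_eq_right (by linarith), max_eq_left hxt]
      rw [h1, abs_of_nonpos hx, abs_neg, abs_of_nonneg ht, min_eq_right (by linarith),
        abs_of_nonpos (by linarith : x - -t ≤ 0)]
      refine ⟨le_rfl, rfl, by ring⟩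

theorem cl_le {t : ℝ} (ht : 0 ≤ t) (x : ℝ) : |cl t x| ≤ t := (cl_facts ht x).1

theorem cl_abs {t : ℝ} (ht : 0 ≤ t) (x : ℝ) : |cl t x| = min |x| t := (cl_facts ht x).2.1

theorem cl_add {t : ℝ} (ht : 0 ≤ t) (x : ℝ) : |x| = |cl t x| + |x - cl t x| := (cl_facts ht x).2.2

theorem cl_eq {t : ℝ} (ht : 0 ≤ t) {x : ℝ} (hx : |x| ≤ t) : x - cl t x = 0 := by
  have h1 := cl_abs ht x
  have h2 := cl_add ht x
  rw [min_eq_left hx] at h1
  have : |x - cl t x| = 0 := by linarith
  exact abs_eq_zero.mp this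

theorem cl_pos {t x : ℝ} (h : 0 < cl t x) (ht : 0 ≤ t) : 0 < x := by
  unfold cl at h
  by_contra hx
  push Not at hx
  have : max (-t) (min t x) ≤ 0 := max_le (by linarith) ((min_le_right _ _).trans hx)
  linarith

theorem cl_neg {t x : ℝ} (h : cl t x < 0) (ht : 0 ≤ t) : x < 0 := by
  unfold cl at h
  by_contra hx
  push Not at hx
  have : 0 ≤ max (-t) (min t x) := le_max_of_le_right (le_min ht hx)
  linarith

theorem cl_zero {t : ℝ} (ht : 0 ≤ t) : cl t 0 = 0 := by
  have := cl_eq ht (x := 0) (by simpa using ht)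
  linarith

section

variable {V C : Type} [Fintype V] [DecidableEq V] [Fintype C] [DecidableEq C]

theorem SL_le (L : V → V → Finset C) (x x' x'' : V → C → ℝ) (y y' y'' : V → V → ℝ)
    (hx : ∀ v c, x v c = x' v c - x'' v c) (hy : ∀ u v, y u v = y' u v - y'' u v) :
    SL L x y ≤ SL L x' y' + SL L x'' y'' := by
  unfold SL
  simp only [← sum_add_distrib]
  refine sum_le_sum fun u _ => sum_le_sum fun v _ => sum_le_sum fun c _ => ?_
  rw [hx, hx, hy]
  have : y' u v - y'' u v + (x' u c - x'' u c) + (x' v c - x'' v c) =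
      (y' u v + x' u c + x' v c) - (y'' u v + x'' u c + x'' v c) := by ring
  rw [this]
  exact abs_sub _ _

theorem sum_dP (L : V → V → Finset C) (hL : Ker L) (x : V → C → ℝ) :
    ∑ u, ∑ v, ∑ c ∈ L u v, |x v c| = ∑ v, ∑ c, (dP L v c : ℝ) * |x v c| := by
  rw [sum_comm]
  refine sum_congr rfl fun v _ => ?_
  have h1 : ∀ u, ∑ c ∈ L u v, |x v c| = ∑ c, if c ∈ L u v then |x v c| else 0 := by
    intro u
    rw [← sum_filter]
    congr 1
    ext c
    simp
  simp only [h1]
  rw [sum_comm]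
  refine sum_congr rfl fun c _ => ?_
  unfold dP
  rw [← sum_filter, sum_const, nsmul_eq_mul]

theorem SL_max (L : V → V → Finset C) (hL : Ker L) {D : ℝ} (hM : MaxDeg D L)
    (x : V → C → ℝ) (y : V → V → ℝ) : SL L x y ≤ D * nrm x y := by
  have h1 : SL L x y ≤ ∑ u, ∑ v, ∑ c ∈ L u v, (|y u v| + |x u c| + |x v c|) := by
    unfold SL
    refine sum_le_sum fun u _ => sum_le_sum fun v _ => sum_le_sum fun c _ => ?_
    exact abs_add_three _ _ _
  have h2 : ∑ u, ∑ v, ∑ c ∈ L u v, (|y u v| + |x u c| + |x v c|) =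
      (∑ u, ∑ v, ((L u v).card : ℝ) * |y u v|) + (∑ u, ∑ v, ∑ c ∈ L u v, |x u c|) +
        ∑ u, ∑ v, ∑ c ∈ L u v, |x v c| := by
    simp only [sum_add_distrib, sum_const, nsmul_eq_mul]
  have h3 : ∑ u, ∑ v, ∑ c ∈ L u v, |x u c| = ∑ u, ∑ v, ∑ c ∈ L u v, |x v c| := by
    rw [sum_comm]
    refine sum_congr rfl fun u _ => sum_congr rfl fun v _ => ?_
    rw [hL.symm v u]
  have h4 := sum_dP L hL x
  have h5 : ∑ v, ∑ c, (dP L v c : ℝ) * |x v c| ≤ D * ∑ v, ∑ c, |x v c| := by
    rw [mul_sum]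
    refine sum_le_sum fun v _ => ?_
    rw [mul_sum]
    refine sum_le_sum fun c _ => ?_
    exact mul_le_mul_of_nonneg_right (hM.pair v c) (abs_nonneg _)
  have h6 : ∑ u, ∑ v, ((L u v).card : ℝ) * |y u v| ≤ D * ∑ u, ∑ v, |y u v| := by
    rw [mul_sum]
    refine sum_le_sum fun u _ => ?_
    rw [mul_sum]
    refine sum_le_sum fun v _ => ?_
    exact mul_le_mul_of_nonneg_right (hM.edge u v) (abs_nonneg _)
  unfold nrm
  rw [h2, h3, h4] at h1
  nlinarith [h1, h5, h6]

theorem nrm_nonneg (x : V → C → ℝ) (y : V → V → ℝ) : 0 ≤ nrm x y := by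
  unfold nrm
  have h1 : 0 ≤ ∑ v, ∑ c, |x v c| := sum_nonneg fun _ _ => sum_nonneg fun _ _ => abs_nonneg _
  have h2 : 0 ≤ ∑ u, ∑ v, |y u v| := sum_nonneg fun _ _ => sum_nonneg fun _ _ => abs_nonneg _
  linarith

theorem nrm_split (x b p : V → C → ℝ) (y b' p' : V → V → ℝ)
    (hx : ∀ v c, |x v c| = |b v c| + |p v c|) (hy : ∀ u v, |y u v| = |b' u v| + |p' u v|) :
    nrm x y = nrm b b' + nrm p p' := by
  unfold nrm
  simp only [hx, hy, sum_add_distrib]
  ring

end

end Expan

open Expan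

section Det

variable {V C : Type} [Fintype V] [DecidableEq V] [Fintype C] [DecidableEq C]

theorem expansion (hV : Fintype.card V = Fintype.card C + 1) (h12 : 12 ≤ Fintype.card V)
    (L : V → V → Finset C) (hL : Ker L) {c₁ C₁ θ η η' d : ℝ} (hc₁ : 0 < c₁) (hcC : c₁ ≤ C₁)
    (hC₁ : 1 ≤ C₁) (hθ : 0 < θ) (hη0 : 0 ≤ η) (hη'0 : 0 ≤ η') (hη : η / θ + η' ≤ 1 / 66)
    (hd : 0 < d) (RP : V → C → Prop) (RE : V → V → Prop)
    (hB : Bulk η η' d L (Zero RP RE)) (hS : Sparse (c₁ / (16 * (1 + 264 * C₁))) θ d L)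
    (hM : MaxDeg (C₁ * d) L) (hm : MinDeg (c₁ * d) L RP RE)
    (x : V → C → ℝ) (y : V → V → ℝ) (hy : Sy y) (h0 : Zero RP RE x y) (hx : Med x) :
    c₁ / (2 * (1 + 264 * C₁)) * d * nrm x y ≤ SL L x y := by
  classical
  set N : ℝ := (Fintype.card C : ℝ) with hN
  have hNpos : 0 < N := by
    have : 0 < Fintype.card C := by omega
    rw [hN]
    exact_mod_cast this
  have hK : 0 ≤ θ * N := by positivity
  -- the scales
  have hq1 : ∀ v, ∃ τ : ℝ, 0 ≤ τ ∧
      (((univ.filter (fun c => τ < |x v c|)).card : ℝ) ≤ θ * N) ∧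
      θ * N * τ ≤ ∑ c, min |x v c| τ := fun v =>
    quantile (fun c => |x v c|) (fun c => abs_nonneg _) (θ * N) hK
  have hq2 : ∀ c, ∃ κ : ℝ, 0 ≤ κ ∧
      (((univ.filter (fun v => κ < |x v c|)).card : ℝ) ≤ θ * N) ∧
      θ * N * κ ≤ ∑ v, min |x v c| κ := fun c =>
    quantile (fun v => |x v c|) (fun v => abs_nonneg _) (θ * N) hK
  have hq3 : ∀ v, ∃ ρ : ℝ, 0 ≤ ρ ∧
      (((univ.filter (fun u => ρ < |y u v|)).card : ℝ) ≤ θ * N) ∧
      θ * N * ρ ≤ ∑ u, min |y u v| ρ := fun v =>
    quantile (fun u => |y u v|) (fun u => abs_nonneg _) (θ * N) hK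
  choose τ hτ0 hτ1 hτ2 using hq1
  choose κ hκ0 hκ1 hκ2 using hq2
  choose ρ hρ0 hρ1 hρ2 using hq3
  have ht : ∀ v c, 0 ≤ τ v + κ c := fun v c => add_nonneg (hτ0 v) (hκ0 c)
  have hr : ∀ u v, 0 ≤ ρ u + ρ v := fun u v => add_nonneg (hρ0 u) (hρ0 v)
  set bx : V → C → ℝ := fun v c => cl (τ v + κ c) (x v c) with hbx
  set bY : V → V → ℝ := fun u v => cl (ρ u + ρ v) (y u v) with hbY
  set px : V → C → ℝ := fun v c => x v c - bx v c with hpx
  set py : V → V → ℝ := fun u v => y u v - bY u v with hpy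
  have hSyb : Sy bY := by
    refine ⟨fun u v => ?_, fun v => ?_⟩
    · simp only [hbY]
      rw [hy.symm u v, add_comm]
    · simp only [hbY]
      rw [hy.diag v, cl_zero (hr v v)]
  have hMedb : Med bx := by
    intro v
    refine ⟨?_, ?_⟩
    · refine le_trans (Nat.mul_le_mul_left 2 (card_le_card ?_)) (hx v).1
      intro c hc
      simp only [mem_filter, mem_univ, true_and] at hc ⊢
      exact cl_pos hc (ht v c)
    · refine le_trans (Nat.mul_le_mul_left 2 (card_le_card ?_)) (hx v).2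
      intro c hc
      simp only [mem_filter, mem_univ, true_and] at hc ⊢
      exact cl_neg hc (ht v c)
  have hZb : Zero RP RE bx bY := by
    refine ⟨fun v c h => ?_, fun u v h => ?_⟩
    · simp only [hbx]
      rw [h0.1 v c h, cl_zero (ht v c)]
    · simp only [hbY]
      rw [h0.2 u v h, cl_zero (hr u v)]
  -- step (1)
  have hτs : θ * N * ∑ v, τ v ≤ ∑ v, ∑ c, |bx v c| := by
    rw [mul_sum]
    refine sum_le_sum fun v _ => (hτ2 v).trans (sum_le_sum fun c _ => ?_)
    simp only [hbx]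
    rw [cl_abs (ht v c)]
    exact min_le_min le_rfl (by linarith [hκ0 c])
  have hκs : θ * N * ∑ c, κ c ≤ ∑ v, ∑ c, |bx v c| := by
    rw [mul_sum, sum_comm]
    refine sum_le_sum fun c _ => (hκ2 c).trans (sum_le_sum fun v _ => ?_)
    simp only [hbx]
    rw [cl_abs (ht v c)]
    exact min_le_min le_rfl (by linarith [hτ0 v])
  have hρs : θ * N * ∑ v, ρ v ≤ ∑ u, ∑ v, |bY u v| := by
    rw [mul_sum, sum_comm]
    refine sum_le_sum fun v _ => (hρ2 v).trans (sum_le_sum fun u _ => ?_)
    simp only [hbY]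
    rw [cl_abs (hr u v)]
    exact min_le_min le_rfl (by linarith [hρ0 u])
  have hnb : nrm bx bY = 2 * (∑ v, ∑ c, |bx v c|) + ∑ u, ∑ v, |bY u v| := rfl
  have hscale : N * (∑ v, τ v + ∑ c, κ c + ∑ v, ρ v) ≤ nrm bx bY / θ := by
    rw [le_div_iff₀ hθ, hnb]
    nlinarith [hτs, hκs, hρs]
  have hnb0 : 0 ≤ nrm bx bY := nrm_nonneg _ _
  have hnp0 : 0 ≤ nrm px py := nrm_nonneg _ _
  -- step (2)
  have hhost := host bx bY hSyb hV h12 hMedb
  have hbulk := hB bx bY hSyb hZb τ κ ρ hτ0 hκ0 hρ0
    (fun v c => cl_le (ht v c) _) (fun u v => cl_le (hr u v) _)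
  have hSLb : d * nrm bx bY / 132 ≤ SL L bx bY := by
    have h1 : η * (N * (∑ v, τ v + ∑ c, κ c + ∑ v, ρ v)) + η' * nrm bx bY ≤
        nrm bx bY / 66 := by
      have h2 : η * (N * (∑ v, τ v + ∑ c, κ c + ∑ v, ρ v)) ≤ η * (nrm bx bY / θ) :=
        mul_le_mul_of_nonneg_left hscale hη0
      have h3 : η * (nrm bx bY / θ) + η' * nrm bx bY = (η / θ + η') * nrm bx bY := by
        field_simp
      have h4 : (η / θ + η') * nrm bx bY ≤ 1 / 66 * nrm bx bY :=
        mul_le_mul_of_nonneg_right hη hnb0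
      linarith
    have h2 : N * d * (η * (N * (∑ v, τ v + ∑ c, κ c + ∑ v, ρ v)) + η' * nrm bx bY) ≤
        N * d * (nrm bx bY / 66) := mul_le_mul_of_nonneg_left h1 (by positivity)
    have h3 : d * (N * nrm bx bY) ≤ d * (33 * TH bx bY) :=
      mul_le_mul_of_nonneg_left hhost hd.le
    have h4 : N * (d * nrm bx bY / 132) ≤ N * SL L bx bY := by
      nlinarith [h2, h3, hbulk]
    exact le_of_mul_le_mul_left h4 hNpos
  -- step (3)
  have hsub : SL L bx bY ≤ SL L x y + SL L px py :=
    SL_le L bx x px bY y py (fun v c => by simp [hpx]) (fun u v => by simp [hpy])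
  have hSLp : SL L px py ≤ C₁ * d * nrm px py := SL_max L hL hM px py
  have hsplit : nrm x y = nrm bx bY + nrm px py :=
    nrm_split x bx px y bY py (fun v c => cl_add (ht v c) _) (fun u v => cl_add (hr u v) _)
  have hC₁0 : 0 < C₁ := by linarith
  have hden : 0 < 1 + 264 * C₁ := by linarith
  rcases le_or_gt (264 * C₁ * nrm px py) (nrm bx bY) with hA | hA
  · -- case A
    have h1 : d * nrm bx bY / 264 ≤ SL L x y := by
      have : C₁ * d * nrm px py ≤ d * nrm bx bY / 264 := by
        nlinarith [mul_le_mul_of_nonneg_left hA hd.le]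
      linarith
    have h2 : nrm x y ≤ 2 * nrm bx bY := by
      have : nrm px py ≤ nrm bx bY := by nlinarith
      linarith
    have h3 : c₁ / (2 * (1 + 264 * C₁)) ≤ 1 / 528 := by
      rw [div_le_div_iff₀ (by positivity) (by norm_num)]
      nlinarith
    have h4 : 0 ≤ nrm x y := nrm_nonneg _ _
    calc c₁ / (2 * (1 + 264 * C₁)) * d * nrm x y
        ≤ 1 / 528 * d * nrm x y := by
          refine mul_le_mul_of_nonneg_right (mul_le_mul_of_nonneg_right h3 hd.le) h4
      _ ≤ 1 / 528 * d * (2 * nrm bx bY) :=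
          mul_le_mul_of_nonneg_left h2 (by positivity)
      _ = d * nrm bx bY / 264 := by ring
      _ ≤ SL L x y := h1
  · -- case B
    have hSP : ∀ v c, (τ v + κ c < |x v c|) → τ v < |x v c| := fun v c h => by
      linarith [hκ0 c]
    have hpk := peak L hL (ε := c₁ / (16 * (1 + 264 * C₁))) (θ := θ) (d := d) (c₁ := c₁)
      (by positivity) hd.le hS x y hy (fun v c => τ v + κ c < |x v c|)
      (fun u v => ρ u + ρ v < |y u v|)
      (fun u v h => by
        rw [hy.symm v u, add_comm]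
        exact h)
      (fun v => by
        rw [Nat.card_eq_fintype_card, Fintype.card_subtype]
        refine le_trans ?_ (hτ1 v)
        exact_mod_cast card_le_card (fun c hc => by
          simp only [mem_filter, mem_univ, true_and] at hc ⊢
          linarith [hκ0 c]))
      (fun c => by
        rw [Nat.card_eq_fintype_card, Fintype.card_subtype]
        refine le_trans ?_ (hκ1 c)
        exact_mod_cast card_le_card (fun v hv => by
          simp only [mem_filter, mem_univ, true_and] at hv ⊢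
          linarith [hτ0 v]))
      (fun v => by
        rw [Nat.card_eq_fintype_card, Fintype.card_subtype]
        refine le_trans ?_ (hρ1 v)
        exact_mod_cast card_le_card (fun u hu => by
          simp only [mem_filter, mem_univ, true_and] at hu ⊢
          linarith [hρ0 u]))
      (fun u v _ h => hm.edge u v (fun huv => h (by rw [huv]; exact hy.diag v))
        (fun hre => h (h0.2 u v hre)))
      (fun v c _ h => hm.pair v c (fun hrp => h (h0.1 v c hrp)))
    have hnS : nrm px py ≤ nrmS (fun v c => τ v + κ c < |x v c|)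
        (fun u v => ρ u + ρ v < |y u v|) x y := by
      unfold nrm nrmS
      refine add_le_add (mul_le_mul_of_nonneg_left ?_ (by norm_num)) ?_
      · refine sum_le_sum fun v _ => sum_le_sum fun c _ => ?_
        split_ifs with h
        · have := cl_add (ht v c) (x v c)
          simp only [hpx, hbx]
          linarith [abs_nonneg (cl (τ v + κ c) (x v c))]
        · push Not at h
          simp only [hpx, hbx]
          rw [cl_eq (ht v c) h, abs_zero]
      · refine sum_le_sum fun u _ => sum_le_sum fun v _ => ?_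
        split_ifs with h
        · have := cl_add (hr u v) (y u v)
          simp only [hpy, hbY]
          linarith [abs_nonneg (cl (ρ u + ρ v) (y u v))]
        · push Not at h
          simp only [hpy, hbY]
          rw [cl_eq (hr u v) h, abs_zero]
    have h1 : nrm x y ≤ (1 + 264 * C₁) * nrm px py := by
      rw [hsplit]
      linarith
    have h2 : c₁ / (1 + 264 * C₁) * d * nrm x y ≤ c₁ * d * nrm px py := by
      have : c₁ / (1 + 264 * C₁) * d * nrm x y ≤
          c₁ / (1 + 264 * C₁) * d * ((1 + 264 * C₁) * nrm px py) :=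
        mul_le_mul_of_nonneg_left h1 (by positivity)
      refine this.trans (le_of_eq ?_)
      field_simp
    have h3 : c₁ * d * nrm px py ≤ c₁ * d * nrmS (fun v c => τ v + κ c < |x v c|)
        (fun u v => ρ u + ρ v < |y u v|) x y :=
      mul_le_mul_of_nonneg_left hnS (by positivity)
    have h4 : 8 * (c₁ / (16 * (1 + 264 * C₁))) * d * nrm x y =
        c₁ / (2 * (1 + 264 * C₁)) * d * nrm x y := by
      field_simp
      ring
    have h5 : c₁ / (1 + 264 * C₁) * d * nrm x y =
        2 * (c₁ / (2 * (1 + 264 * C₁)) * d * nrm x y) := by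
      field_simp
    linarith
end Det

end Pool.Agent.Lib.FR
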