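import Pool.Agent.Lib.MP_6d56f7_co_FR.Defs

set_option autoImplicit false

/-! Module K7 WEI of project FR: approximate fractional 1-factorization from the local degrees. -/

namespace Pool.Agent.Lib.FR

open Finset

/-- a sum of terms which are mostly equal to `r` -/
theorem sum_near_one {ι : Type} [Fintype ι] (S : Finset ι) (w : ι → ℝ) (bad : ι → Prop)
    {r B K δ : ℝ} (hB : 0 ≤ B) (h1 : ∀ i ∈ S, ¬ bad i → w i = r)
    (h2 : ∀ i ∈ S, |w i - r| ≤ B) (h3 : (Nat.card {i : ι // i ∈ S ∧ bad i} : ℝ) ≤ K)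
    (h4 : |(S.card : ℝ) * r - 1| ≤ δ) : |∑ i ∈ S, w i - 1| ≤ δ + K * B := by
  classical
  have e : ∑ i ∈ S, w i - 1 = ∑ i ∈ S, (w i - r) + ((S.card : ℝ) * r - 1) := by
    rw [sum_sub_distrib, sum_const, nsmul_eq_mul]; ring
  have hc : Nat.card {i : ι // i ∈ S ∧ bad i} = (S.filter bad).card := by
    rw [Nat.card_eq_fintype_card, Fintype.card_subtype]
    congr 1
    ext i
    simp
  have h5 : |∑ i ∈ S, (w i - r)| ≤ K * B := by
    calc |∑ i ∈ S, (w i - r)| ≤ ∑ i ∈ S, |w i - r| := abs_sum_le_sum_abs _ _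
      _ ≤ ∑ i ∈ S, (if bad i then B else 0) := by
          refine sum_le_sum fun i hi => ?_
          by_cases hb : bad i
          · rw [if_pos hb]; exact h2 i hi
          · rw [if_neg hb, h1 i hi hb]; simp
      _ = ((S.filter bad).card : ℝ) * B := by
          rw [← sum_filter, sum_const, nsmul_eq_mul]
      _ ≤ K * B := by
          rw [← hc]
          exact mul_le_mul_of_nonneg_right h3 hB
  rw [e]
  calc |∑ i ∈ S, (w i - r) + ((S.card : ℝ) * r - 1)|
      ≤ |∑ i ∈ S, (w i - r)| + |(S.card : ℝ) * r - 1| := abs_add_le _ _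
    _ ≤ δ + K * B := by linarith

section

variable {V C : Type} [Fintype V] [DecidableEq V] [Fintype C] [DecidableEq C]

open Classical in
/-- size of the list of a bad edge -/
noncomputable def wfE (L : V → V → Finset C) (BE : V → V → Prop) (u v : V) : ℝ :=
  if BE u v then ((L u v).card : ℝ) else 0

open Classical in
/-- degree of a bad pair -/
noncomputable def wfP (L : V → V → Finset C) (BP : V → C → Prop) (v : V) (c : C) : ℝ :=
  if BP v c then (dP L v c : ℝ) else 0

/-- maximal degree of a bad object in the hyperedge -/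
noncomputable def wm (L : V → V → Finset C) (BP : V → C → Prop) (BE : V → V → Prop)
    (u v : V) (c : C) : ℝ :=
  max (wfE L BE u v) (max (wfP L BP u c) (wfP L BP v c))

open Classical in
/-- the weight -/
noncomputable def ww (L : V → V → Finset C) (BP : V → C → Prop) (BE : V → V → Prop) (d : ℝ)
    (u v : V) (c : C) : ℝ :=
  if c ∈ L u v then (if wm L BP BE u v c = 0 then 1 / d else 1 / wm L BP BE u v c) else 0

theorem wm_symm (L : V → V → Finset C) (hL : Ker L) (BP : V → C → Prop) (BE : V → V → Prop)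
    (hBE : ∀ u v, BE u v → BE v u) (u v : V) (c : C) :
    wm L BP BE u v c = wm L BP BE v u c := by
  have h1 : wfE L BE u v = wfE L BE v u := by
    unfold wfE
    have : BE u v ↔ BE v u := ⟨hBE u v, hBE v u⟩
    rw [hL.symm u v]
    by_cases h : BE v u
    · rw [if_pos h, if_pos (this.2 h)]
    · rw [if_neg h, if_neg (fun h' => h (this.1 h'))]
  unfold wm
  rw [h1, max_comm (wfP L BP u c)]

theorem wm_cases (L : V → V → Finset C) {c₁ C₁ d : ℝ} (hc₁ : 0 < c₁) (hd : 0 < d)
    (BP : V → C → Prop) (BE : V → V → Prop) {u v : V} {c : C}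
    (h1 : c₁ * d ≤ ((L u v).card : ℝ)) (h1' : ((L u v).card : ℝ) ≤ C₁ * d)
    (h2 : c₁ * d ≤ (dP L u c : ℝ)) (h2' : (dP L u c : ℝ) ≤ C₁ * d)
    (h3 : c₁ * d ≤ (dP L v c : ℝ)) (h3' : (dP L v c : ℝ) ≤ C₁ * d) :
    wm L BP BE u v c = 0 ∨ (c₁ * d ≤ wm L BP BE u v c ∧ wm L BP BE u v c ≤ C₁ * d) := by
  have hp : 0 < c₁ * d := mul_pos hc₁ hd
  have a1 : wfE L BE u v = 0 ∨ (c₁ * d ≤ wfE L BE u v ∧ wfE L BE u v ≤ C₁ * d) := by
    unfold wfE
    by_cases h : BE u v
    · rw [if_pos h]; exact Or.inr ⟨h1, h1'⟩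
    · rw [if_neg h]; exact Or.inl rfl
  have a2 : wfP L BP u c = 0 ∨ (c₁ * d ≤ wfP L BP u c ∧ wfP L BP u c ≤ C₁ * d) := by
    unfold wfP
    by_cases h : BP u c
    · rw [if_pos h]; exact Or.inr ⟨h2, h2'⟩
    · rw [if_neg h]; exact Or.inl rfl
  have a3 : wfP L BP v c = 0 ∨ (c₁ * d ≤ wfP L BP v c ∧ wfP L BP v c ≤ C₁ * d) := by
    unfold wfP
    by_cases h : BP v c
    · rw [if_pos h]; exact Or.inr ⟨h3, h3'⟩
    · rw [if_neg h]; exact Or.inl rfl
  unfold wm
  have b : max (wfP L BP u c) (wfP L BP v c) = 0 ∨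
      (c₁ * d ≤ max (wfP L BP u c) (wfP L BP v c) ∧
        max (wfP L BP u c) (wfP L BP v c) ≤ C₁ * d) := by
    rcases max_cases (wfP L BP u c) (wfP L BP v c) with h | h
    · rw [h.1]; exact a2
    · rw [h.1]; exact a3
  rcases max_cases (wfE L BE u v) (max (wfP L BP u c) (wfP L BP v c)) with h | h
  · rw [h.1]; exact a1
  · rw [h.1]; exact b

end

section

variable {V C : Type} [Fintype V] [DecidableEq V] [Fintype C] [DecidableEq C]

theorem weights (L : V → V → Finset C) (hL : Ker L) {c₁ C₁ δ δ' d : ℝ} (hc₁ : 0 < c₁)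
    (hc₁' : c₁ ≤ 1) (hC₁ : 1 ≤ C₁) (hd : 0 < d) (hδ : 0 ≤ δ) (hδ' : 0 ≤ δ')
    (RP : V → C → Prop) (RE : V → V → Prop) (BP : V → C → Prop) (BE : V → V → Prop)
    (hR : Red L RP RE) (hM : MaxDeg (C₁ * d) L) (hm : MinDeg (c₁ * d) L RP RE)
    (hN : Near δ δ' d L RP RE BP BE) :
    ∃ w : V → V → C → ℝ, (∀ u v c, w u v c = w v u c) ∧ (∀ u v c, c ∉ L u v → w u v c = 0) ∧
      (∀ u v c, c ∈ L u v → 1 / (C₁ * d) ≤ w u v c ∧ w u v c ≤ 1 / (c₁ * d)) ∧
      (∀ u v, u ≠ v → ¬ RE u v → |∑ c, w u v c - 1| ≤ δ + δ' / c₁) ∧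
      (∀ v c, ¬ RP v c → |∑ u, w u v c - 1| ≤ δ + δ' / c₁) := by
  classical
  have hp : 0 < c₁ * d := mul_pos hc₁ hd
  have hC : 0 < C₁ := by linarith
  have hCd : 0 < C₁ * d := mul_pos hC hd
  have hcd : c₁ * d ≤ d := by nlinarith
  have hdC : d ≤ C₁ * d := by nlinarith
  -- objects of a hyperedge are not removed
  have hne : ∀ u v c, c ∈ L u v → u ≠ v := by
    intro u v c hc h
    rw [h, hL.diag v] at hc
    exact absurd hc (notMem_empty c)
  have hnRE : ∀ u v c, c ∈ L u v → ¬ RE u v := by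
    intro u v c hc h
    rw [hR.edge u v h] at hc
    exact absurd hc (notMem_empty c)
  have hnRP : ∀ u v c, c ∈ L u v → ¬ RP v c := fun u v c hc h => hR.pair v c h u hc
  have hnRP' : ∀ u v c, c ∈ L u v → ¬ RP u c := by
    intro u v c hc
    rw [hL.symm u v] at hc
    exact hnRP v u c hc
  have hcase : ∀ u v c, c ∈ L u v → (wm L BP BE u v c = 0 ∨
      (c₁ * d ≤ wm L BP BE u v c ∧ wm L BP BE u v c ≤ C₁ * d)) := by
    intro u v c hc
    exact wm_cases L hc₁ hd BP BE (hm.edge u v (hne u v c hc) (hnRE u v c hc)) (hM.edge u v)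
      (hm.pair u c (hnRP' u v c hc)) (hM.pair u c) (hm.pair v c (hnRP u v c hc)) (hM.pair v c)
  have hsym : ∀ u v c, ww L BP BE d u v c = ww L BP BE d v u c := by
    intro u v c
    unfold ww
    rw [wm_symm L hL BP BE hN.symm u v c, hL.symm u v]
  have hzero : ∀ u v c, c ∉ L u v → ww L BP BE d u v c = 0 := by
    intro u v c hc
    unfold ww
    rw [if_neg hc]
  have hbd : ∀ u v c, c ∈ L u v → 1 / (C₁ * d) ≤ ww L BP BE d u v c ∧
      ww L BP BE d u v c ≤ 1 / (c₁ * d) := by
    intro u v c hc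
    unfold ww
    rw [if_pos hc]
    by_cases h0 : wm L BP BE u v c = 0
    · rw [if_pos h0]
      exact ⟨one_div_le_one_div_of_le hd hdC, one_div_le_one_div_of_le hp hcd⟩
    · rw [if_neg h0]
      rcases hcase u v c hc with h | h
      · exact absurd h h0
      · exact ⟨one_div_le_one_div_of_le (lt_of_lt_of_le hp h.1) h.2,
          one_div_le_one_div_of_le hp h.1⟩
  have hK : δ' * d * (1 / (c₁ * d)) = δ' / c₁ := by
    field_simp
  have hB0 : (0 : ℝ) ≤ 1 / (c₁ * d) := le_of_lt (one_div_pos.2 hp)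
  have habs : ∀ a b : ℝ, 0 ≤ a → a ≤ 1 / (c₁ * d) → 0 ≤ b → b ≤ 1 / (c₁ * d) →
      |a - b| ≤ 1 / (c₁ * d) := by
    intro a b ha ha' hb hb'
    rw [abs_le]
    constructor <;> linarith
  have hd1 : 1 / d ≤ 1 / (c₁ * d) := one_div_le_one_div_of_le hp hcd
  have hd0 : 0 ≤ 1 / d := le_of_lt (one_div_pos.2 hd)
  refine ⟨ww L BP BE d, hsym, hzero, hbd, ?_, ?_⟩
  · intro u v huv hRE
    have hs : ∑ c, ww L BP BE d u v c = ∑ c ∈ L u v, ww L BP BE d u v c := by
      symm
      refine sum_subset (subset_univ _) ?_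
      intro c _ hc
      exact hzero u v c hc
    rw [hs, ← hK]
    have hlo : c₁ * d ≤ ((L u v).card : ℝ) := hm.edge u v huv hRE
    have hpos : (0 : ℝ) < ((L u v).card : ℝ) := lt_of_lt_of_le hp hlo
    by_cases hBE : BE u v
    · refine sum_near_one (L u v) _ (fun c => BP u c ∨ BP v c)
        (r := 1 / ((L u v).card : ℝ)) hB0 ?_ ?_ (hN.fewE u v) ?_
      · intro c hc hb
        have hb1 : ¬ BP u c := fun h => hb (Or.inl h)
        have hb2 : ¬ BP v c := fun h => hb (Or.inr h)
        have e : wm L BP BE u v c = ((L u v).card : ℝ) := by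
          unfold wm wfE wfP
          rw [if_pos hBE, if_neg hb1, if_neg hb2, max_self, max_eq_left (le_of_lt hpos)]
        unfold ww
        rw [if_pos hc, e, if_neg (ne_of_gt hpos)]
      · intro c hc
        have h := hbd u v c hc
        exact habs _ _ (le_trans (le_of_lt (one_div_pos.2 hCd)) h.1) h.2
          (le_of_lt (one_div_pos.2 hpos)) (one_div_le_one_div_of_le hp hlo)
      · rw [mul_one_div_cancel (ne_of_gt hpos), sub_self, abs_zero]
        exact hδ
    · refine sum_near_one (L u v) _ (fun c => BP u c ∨ BP v c) (r := 1 / d) hB0 ?_ ?_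
        (hN.fewE u v) ?_
      · intro c hc hb
        have hb1 : ¬ BP u c := fun h => hb (Or.inl h)
        have hb2 : ¬ BP v c := fun h => hb (Or.inr h)
        have e : wm L BP BE u v c = 0 := by
          unfold wm wfE wfP
          rw [if_neg hBE, if_neg hb1, if_neg hb2, max_self, max_self]
        unfold ww
        rw [if_pos hc, if_pos e]
      · intro c hc
        have h := hbd u v c hc
        exact habs _ _ (le_trans (le_of_lt (one_div_pos.2 hCd)) h.1) h.2 hd0 hd1
      · have h := hN.goodE u v huv hRE hBE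
        have e : ((L u v).card : ℝ) * (1 / d) - 1 = (((L u v).card : ℝ) - d) / d := by
          field_simp
        rw [e, abs_div, abs_of_pos hd, div_le_iff₀ hd]
        exact h
  · intro v c hRP
    have hs : ∑ u, ww L BP BE d u v c =
        ∑ u ∈ univ.filter (fun u => c ∈ L u v), ww L BP BE d u v c := by
      symm
      refine sum_subset (subset_univ _) ?_
      intro u _ hu
      refine hzero u v c (fun h => hu ?_)
      rw [mem_filter]
      exact ⟨mem_univ _, h⟩
    rw [hs, ← hK]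
    have hlo : c₁ * d ≤ (dP L v c : ℝ) := hm.pair v c hRP
    have hpos : (0 : ℝ) < (dP L v c : ℝ) := lt_of_lt_of_le hp hlo
    have hcard : (univ.filter (fun u => c ∈ L u v)).card = dP L v c := rfl
    have hfew : (Nat.card {u : V // u ∈ univ.filter (fun u => c ∈ L u v) ∧
        (BE u v ∨ BP u c)} : ℝ) ≤ δ' * d := by
      have h := hN.fewP v c
      have e : Nat.card {u : V // u ∈ univ.filter (fun u => c ∈ L u v) ∧
          (BE u v ∨ BP u c)} = Nat.card {u : V // c ∈ L u v ∧ (BE u v ∨ BP u c)} := by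
        refine Nat.card_congr (Equiv.subtypeEquivRight fun u => ?_)
        rw [mem_filter]
        simp
      rw [e]
      exact h
    by_cases hBP : BP v c
    · refine sum_near_one (univ.filter (fun u => c ∈ L u v)) _ (fun u => BE u v ∨ BP u c)
        (r := 1 / (dP L v c : ℝ)) hB0 ?_ ?_ hfew ?_
      · intro u hu hb
        have hc : c ∈ L u v := (mem_filter.1 hu).2
        have hb1 : ¬ BE u v := fun h => hb (Or.inl h)
        have hb2 : ¬ BP u c := fun h => hb (Or.inr h)
        have e : wm L BP BE u v c = (dP L v c : ℝ) := by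
          unfold wm wfE wfP
          rw [if_neg hb1, if_neg hb2, if_pos hBP, max_eq_right (le_of_lt hpos),
            max_eq_right (le_of_lt hpos)]
        unfold ww
        rw [if_pos hc, e, if_neg (ne_of_gt hpos)]
      · intro u hu
        have hc : c ∈ L u v := (mem_filter.1 hu).2
        have h := hbd u v c hc
        exact habs _ _ (le_trans (le_of_lt (one_div_pos.2 hCd)) h.1) h.2
          (le_of_lt (one_div_pos.2 hpos)) (one_div_le_one_div_of_le hp hlo)
      · rw [hcard, mul_one_div_cancel (ne_of_gt hpos), sub_self, abs_zero]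
        exact hδ
    · refine sum_near_one (univ.filter (fun u => c ∈ L u v)) _ (fun u => BE u v ∨ BP u c)
        (r := 1 / d) hB0 ?_ ?_ hfew ?_
      · intro u hu hb
        have hc : c ∈ L u v := (mem_filter.1 hu).2
        have hb1 : ¬ BE u v := fun h => hb (Or.inl h)
        have hb2 : ¬ BP u c := fun h => hb (Or.inr h)
        have e : wm L BP BE u v c = 0 := by
          unfold wm wfE wfP
          rw [if_neg hb1, if_neg hb2, if_neg hBP, max_self, max_self]
        unfold ww
        rw [if_pos hc, if_pos e]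
      · intro u hu
        have hc : c ∈ L u v := (mem_filter.1 hu).2
        have h := hbd u v c hc
        exact habs _ _ (le_trans (le_of_lt (one_div_pos.2 hCd)) h.1) h.2 hd0 hd1
      · have h := hN.goodP v c hRP hBP
        have e : (dP L v c : ℝ) * (1 / d) - 1 = ((dP L v c : ℝ) - d) / d := by
          field_simp
        rw [hcard, e, abs_div, abs_of_pos hd, div_le_iff₀ hd]
        exact h

end

end Pool.Agent.Lib.FR
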