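import Pool.Agent.Lib.MP_6d56f7_co_FR.Defs
import Pool.Agent.Lib.MP_6d56f7_co_FR.Quant
import Pool.Agent.Lib.MP_6d56f7_co_FR.Expan
import Pool.Agent.Lib.MP_6d56f7_co_FR.Box
import Pool.Agent.Lib.MP_6d56f7_co_FR.Weights

set_option autoImplicit false

/-!
Project FR, module K8: the deterministic part. Initial weights are corrected by box duality; the
dual inequality is the expansion property.
-/

namespace Pool.Agent.Lib.FR

open Finset

section Det

variable {V C : Type} [Fintype V] [DecidableEq V] [Fintype C] [DecidableEq C]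

/-- shifting rows does not change the pairing with the deviations -/
theorem det_shift (w : V → V → C → ℝ) (hw : ∀ u v c, w u v c = w v u c)
    (e : V → V → ℝ) (p : V → C → ℝ) (he : ∀ u v, e u v = e v u)
    (hbal : ∀ v, ∑ c, p v c = ∑ u, e u v) (a : V → ℝ) :
    ∑ u, ∑ v, (a u + a v) * (∑ c, w u v c - e u v) =
      2 * ∑ v, ∑ c, a v * (∑ u, w u v c - p v c) := by
  have h1 : ∑ u, ∑ v, a u * (∑ c, w u v c - e u v) =
      ∑ v, ∑ c, a v * (∑ u, w u v c - p v c) := by
    refine Finset.sum_congr rfl (fun u _ => ?_)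
    rw [← Finset.mul_sum, ← Finset.mul_sum, Finset.sum_sub_distrib, Finset.sum_sub_distrib,
      hbal u, Finset.sum_comm]
    congr 2
    · exact Finset.sum_congr rfl (fun c _ => Finset.sum_congr rfl (fun v _ => hw u v c))
    · exact Finset.sum_congr rfl (fun v _ => he u v)
  have h2 : ∑ u, ∑ v, a v * (∑ c, w u v c - e u v) =
      ∑ u, ∑ v, a u * (∑ c, w u v c - e u v) := by
    rw [Finset.sum_comm]
    refine Finset.sum_congr rfl (fun u _ => Finset.sum_congr rfl (fun v _ => ?_))
    rw [he v u, Finset.sum_congr rfl (fun c _ => hw v u c)]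
  have h3 : ∑ u, ∑ v, (a u + a v) * (∑ c, w u v c - e u v) =
      ∑ u, ∑ v, a u * (∑ c, w u v c - e u v) + ∑ u, ∑ v, a v * (∑ c, w u v c - e u v) := by
    rw [← Finset.sum_add_distrib]
    refine Finset.sum_congr rfl (fun u _ => ?_)
    rw [← Finset.sum_add_distrib]
    exact Finset.sum_congr rfl (fun v _ => by ring)
  rw [h3, h2, h1]; ring

/-- the balance of the removed objects -/
theorem det_bal (hV : Fintype.card V = Fintype.card C + 1) (L : V → V → Finset C)
    (RP : V → C → Prop) (RE : V → V → Prop) (hR : Red L RP RE)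
    (e : V → V → ℝ) (p : V → C → ℝ)
    (hE1 : ∀ u v, u ≠ v → ¬ RE u v → e u v = 1) (hE0 : ∀ u v, (u = v ∨ RE u v) → e u v = 0)
    (hP1 : ∀ v c, ¬ RP v c → p v c = 1) (hP0 : ∀ v c, RP v c → p v c = 0) (v : V) :
    ∑ c, p v c = ∑ u, e u v := by
  classical
  have h1 : ∀ c, p v c = 1 - (if RP v c then (1 : ℝ) else 0) := by
    intro c
    by_cases h : RP v c
    · rw [hP0 v c h, if_pos h]; ring
    · rw [hP1 v c h, if_neg h]; ring
  have h2 : ∀ u, e u v = 1 - (if u = v then (1 : ℝ) else 0) -
      (if (u ≠ v ∧ RE u v) then (1 : ℝ) else 0) := by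
    intro u
    by_cases h : u = v
    · rw [hE0 u v (Or.inl h), if_pos h, if_neg (fun h' => h'.1 h)]; ring
    · by_cases h' : RE u v
      · rw [hE0 u v (Or.inr h'), if_neg h, if_pos ⟨h, h'⟩]; ring
      · rw [hE1 u v h h', if_neg h, if_neg (fun h'' => h' h''.2)]; ring
  have h3 : (Nat.card {c : C // RP v c}) = (univ.filter (fun c => RP v c)).card := by
    rw [Nat.card_eq_fintype_card, Fintype.card_subtype]
  have h4 : (Nat.card {u : V // u ≠ v ∧ RE u v}) =
      (univ.filter (fun u => u ≠ v ∧ RE u v)).card := by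
    rw [Nat.card_eq_fintype_card, Fintype.card_subtype]
  have h5 := hR.bal v
  rw [h3, h4] at h5
  rw [Finset.sum_congr rfl (fun c _ => h1 c), Finset.sum_congr rfl (fun u _ => h2 u),
    Finset.sum_sub_distrib, Finset.sum_sub_distrib, Finset.sum_sub_distrib,
    Finset.sum_boole, Finset.sum_boole, Finset.sum_boole, h5, Finset.filter_eq']
  simp [hV]

theorem det_key (hV : Fintype.card V = Fintype.card C + 1) (h12 : 12 ≤ Fintype.card V)
    (L : V → V → Finset C) (hL : Ker L) {c₁ C₁ θ η η' δ₂ d : ℝ} (hc₁ : 0 < c₁)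
    (hc₁' : c₁ ≤ 1) (hC₁ : 1 ≤ C₁) (hθ : 0 < θ) (hη0 : 0 ≤ η) (hη'0 : 0 ≤ η')
    (hη : η / θ + η' ≤ 1 / 66) (hd : 0 < d) (hδ₂ : 0 ≤ δ₂)
    (hδδ' : δ₂ ≤ c₁ / (4 * C₁ * (1 + 264 * C₁)))
    (RP : V → C → Prop) (RE : V → V → Prop)
    (hR : Red L RP RE) (hB : Bulk η η' d L (Zero RP RE))
    (hS : Sparse (c₁ / (16 * (1 + 264 * C₁))) θ d L) (hM : MaxDeg (C₁ * d) L)
    (hm : MinDeg (c₁ * d) L RP RE)
    (w : V → V → C → ℝ) (hws : ∀ u v c, w u v c = w v u c)
    (hw0 : ∀ u v c, c ∉ L u v → w u v c = 0)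
    (hw1 : ∀ u v c, c ∈ L u v → 1 / (C₁ * d) ≤ w u v c)
    (e : V → V → ℝ) (p : V → C → ℝ)
    (hE1 : ∀ u v, u ≠ v → ¬ RE u v → e u v = 1) (hE0 : ∀ u v, (u = v ∨ RE u v) → e u v = 0)
    (hP1 : ∀ v c, ¬ RP v c → p v c = 1) (hP0 : ∀ v c, RP v c → p v c = 0)
    (hdE : ∀ u v, |∑ c, w u v c - e u v| ≤ δ₂) (hdP : ∀ v c, |∑ u, w u v c - p v c| ≤ δ₂)
    (x : V → C → ℝ) (y : V → V → ℝ) (hy : Sy y) (h0 : Zero RP RE x y) :
    -(∑ u, ∑ v, y u v * (∑ c, w u v c - e u v)) -
      2 * ∑ v, ∑ c, x v c * (∑ u, w u v c - p v c) ≤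
      (1 / 2) * ∑ u, ∑ v, ∑ c, w u v c * |y u v + x u c + x v c| := by
  classical
  have hbal := det_bal hV L RP RE hR e p hE1 hE0 hP1 hP0
  have hes : ∀ u v, e u v = e v u := by
    intro u v
    by_cases h : u = v
    · rw [h]
    · by_cases h' : RE u v
      · rw [hE0 u v (Or.inr h'), hE0 v u (Or.inr (hR.symm u v h'))]
      · rw [hE1 u v h h', hE1 v u (Ne.symm h) (fun h'' => h' (hR.symm v u h''))]
  -- the indicators and the deviations
  have heL : ∀ u v c, c ∈ L u v → e u v = 1 := by
    intro u v c hc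
    apply hE1
    · intro h; rw [h, hL.diag v] at hc; simp at hc
    · intro h; rw [hR.edge u v h] at hc; simp at hc
  have hpL : ∀ u v c, c ∈ L u v → p v c = 1 := by
    intro u v c hc
    apply hP1
    intro h
    exact hR.pair v c h u hc
  have hpL' : ∀ u v c, c ∈ L u v → p u c = 1 := by
    intro u v c hc
    exact hpL v u c (by rw [hL.symm v u]; exact hc)
  have hdevE : ∀ u v, e u v * (∑ c, w u v c - e u v) = ∑ c, w u v c - e u v := by
    intro u v
    by_cases h : u = v ∨ RE u v
    · have h1 : ∑ c, w u v c = 0 := by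
        refine Finset.sum_eq_zero (fun c _ => hw0 u v c ?_)
        intro hc
        have := heL u v c hc
        rw [hE0 u v h] at this
        exact zero_ne_one this
      rw [h1, hE0 u v h]; ring
    · push Not at h
      rw [hE1 u v h.1 h.2]; ring
  have hdevP : ∀ v c, p v c * (∑ u, w u v c - p v c) = ∑ u, w u v c - p v c := by
    intro v c
    by_cases h : RP v c
    · have h1 : ∑ u, w u v c = 0 := by
        refine Finset.sum_eq_zero (fun u _ => hw0 u v c ?_)
        intro hc
        have := hpL u v c hc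
        rw [hP0 v c h] at this
        exact zero_ne_one this
      rw [h1, hP0 v c h]; ring
    · rw [hP1 v c h]; ring
  choose a ha1 ha2 using fun v : V => median (univ.filter (fun c => ¬ RP v c)) (fun c => x v c)
  set x' : V → C → ℝ := fun v c => p v c * (x v c - a v) with hx'def
  set y' : V → V → ℝ := fun u v => e u v * (y u v + a u + a v) with hy'def
  have hy' : Sy y' := by
    constructor
    · intro u v
      simp only [hy'def]
      rw [hes u v, hy.symm u v]; ring
    · intro v
      simp only [hy'def]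
      rw [hE0 v v (Or.inl rfl)]; ring
  have h0' : Zero RP RE x' y' := by
    constructor
    · intro v c h
      simp only [hx'def]
      rw [hP0 v c h]; ring
    · intro u v h
      simp only [hy'def]
      rw [hE0 u v (Or.inr h)]; ring
  have hcardle : ∀ v, (univ.filter (fun c => ¬ RP v c)).card ≤ Fintype.card C := by
    intro v
    exact (Finset.card_filter_le _ _).trans (le_of_eq (Finset.card_univ))
  have hx' : Med x' := by
    intro v
    constructor
    · refine le_trans ?_ ((ha1 v).trans (hcardle v))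
      refine Nat.mul_le_mul_left 2 (Finset.card_le_card ?_)
      intro c hc
      rw [Finset.mem_filter] at hc
      have h1 := hc.2
      simp only [hx'def] at h1
      by_cases h : RP v c
      · rw [hP0 v c h] at h1; simp at h1
      · rw [hP1 v c h, one_mul] at h1
        rw [Finset.mem_filter, Finset.mem_filter]
        exact ⟨⟨Finset.mem_univ c, h⟩, by linarith⟩
    · refine le_trans ?_ ((ha2 v).trans (hcardle v))
      refine Nat.mul_le_mul_left 2 (Finset.card_le_card ?_)
      intro c hc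
      rw [Finset.mem_filter] at hc
      have h1 := hc.2
      simp only [hx'def] at h1
      by_cases h : RP v c
      · rw [hP0 v c h] at h1; simp at h1
      · rw [hP1 v c h, one_mul] at h1
        rw [Finset.mem_filter, Finset.mem_filter]
        exact ⟨⟨Finset.mem_univ c, h⟩, by linarith⟩
  have hexp := expansion hV h12 L hL hc₁ (hc₁'.trans hC₁) hC₁ hθ hη0 hη'0 hη hd RP RE hB hS hM hm
    x' y' hy' h0' hx'
  have hCd : 0 < C₁ * d := mul_pos (lt_of_lt_of_le one_pos hC₁) hd
  -- the sum over the hyperedges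
  have hSL : SL L x' y' ≤ C₁ * d * ∑ u, ∑ v, ∑ c, w u v c * |y u v + x u c + x v c| := by
    unfold SL
    rw [Finset.mul_sum]
    refine Finset.sum_le_sum (fun u _ => ?_)
    rw [Finset.mul_sum]
    refine Finset.sum_le_sum (fun v _ => ?_)
    have h1 : ∑ c, w u v c * |y u v + x u c + x v c| =
        ∑ c ∈ L u v, w u v c * |y u v + x u c + x v c| := by
      symm
      refine Finset.sum_subset (Finset.subset_univ _) (fun c _ hc => ?_)
      rw [hw0 u v c hc, zero_mul]
    rw [h1, Finset.mul_sum]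
    refine Finset.sum_le_sum (fun c hc => ?_)
    have h2 : y' u v + x' u c + x' v c = y u v + x u c + x v c := by
      simp only [hx'def, hy'def]
      rw [heL u v c hc, hpL u v c hc, hpL' u v c hc]; ring
    rw [h2, ← mul_assoc]
    have h3 := hw1 u v c hc
    rw [div_le_iff₀ hCd] at h3
    have h4 : 1 ≤ C₁ * d * w u v c := by linarith
    calc |y u v + x u c + x v c| = 1 * |y u v + x u c + x v c| := (one_mul _).symm
      _ ≤ C₁ * d * w u v c * |y u v + x u c + x v c| :=
        mul_le_mul_of_nonneg_right h4 (abs_nonneg _)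
  -- the left side
  have hshift := det_shift w hws e p hes hbal a
  have hleft : -(∑ u, ∑ v, y u v * (∑ c, w u v c - e u v)) -
      2 * ∑ v, ∑ c, x v c * (∑ u, w u v c - p v c) ≤ δ₂ * nrm x' y' := by
    have e1 : ∑ u, ∑ v, y' u v * (∑ c, w u v c - e u v) =
        ∑ u, ∑ v, y u v * (∑ c, w u v c - e u v) +
          ∑ u, ∑ v, (a u + a v) * (∑ c, w u v c - e u v) := by
      rw [← Finset.sum_add_distrib]
      refine Finset.sum_congr rfl (fun u _ => ?_)
      rw [← Finset.sum_add_distrib]
      refine Finset.sum_congr rfl (fun v _ => ?_)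
      simp only [hy'def]
      have := hdevE u v
      calc e u v * (y u v + a u + a v) * (∑ c, w u v c - e u v)
          = (y u v + a u + a v) * (e u v * (∑ c, w u v c - e u v)) := by ring
        _ = (y u v + a u + a v) * (∑ c, w u v c - e u v) := by rw [this]
        _ = _ := by ring
    have e2 : ∑ v, ∑ c, x' v c * (∑ u, w u v c - p v c) =
        ∑ v, ∑ c, x v c * (∑ u, w u v c - p v c) -
          ∑ v, ∑ c, a v * (∑ u, w u v c - p v c) := by
      rw [← Finset.sum_sub_distrib]
      refine Finset.sum_congr rfl (fun v _ => ?_)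
      rw [← Finset.sum_sub_distrib]
      refine Finset.sum_congr rfl (fun c _ => ?_)
      simp only [hx'def]
      have := hdevP v c
      calc p v c * (x v c - a v) * (∑ u, w u v c - p v c)
          = (x v c - a v) * (p v c * (∑ u, w u v c - p v c)) := by ring
        _ = (x v c - a v) * (∑ u, w u v c - p v c) := by rw [this]
        _ = _ := by ring
    have e3 : -(∑ u, ∑ v, y' u v * (∑ c, w u v c - e u v)) ≤ δ₂ * ∑ u, ∑ v, |y' u v| := by
      rw [← Finset.sum_neg_distrib, Finset.mul_sum]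
      refine Finset.sum_le_sum (fun u _ => ?_)
      rw [← Finset.sum_neg_distrib, Finset.mul_sum]
      refine Finset.sum_le_sum (fun v _ => ?_)
      calc -(y' u v * (∑ c, w u v c - e u v)) ≤ |y' u v * (∑ c, w u v c - e u v)| :=
            neg_le_abs _
        _ = |y' u v| * |∑ c, w u v c - e u v| := abs_mul _ _
        _ ≤ |y' u v| * δ₂ := mul_le_mul_of_nonneg_left (hdE u v) (abs_nonneg _)
        _ = δ₂ * |y' u v| := mul_comm _ _
    have e4 : -(∑ v, ∑ c, x' v c * (∑ u, w u v c - p v c)) ≤ δ₂ * ∑ v, ∑ c, |x' v c| := by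
      rw [← Finset.sum_neg_distrib, Finset.mul_sum]
      refine Finset.sum_le_sum (fun v _ => ?_)
      rw [← Finset.sum_neg_distrib, Finset.mul_sum]
      refine Finset.sum_le_sum (fun c _ => ?_)
      calc -(x' v c * (∑ u, w u v c - p v c)) ≤ |x' v c * (∑ u, w u v c - p v c)| :=
            neg_le_abs _
        _ = |x' v c| * |∑ u, w u v c - p v c| := abs_mul _ _
        _ ≤ |x' v c| * δ₂ := mul_le_mul_of_nonneg_left (hdP v c) (abs_nonneg _)
        _ = δ₂ * |x' v c| := mul_comm _ _
    unfold nrm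
    rw [e1] at e3
    rw [e2] at e4
    nlinarith [e3, e4, hshift]
  -- conclusion
  set SW := ∑ u, ∑ v, ∑ c, w u v c * |y u v + x u c + x v c| with hSW
  have hK : 0 < 1 + 264 * C₁ := by linarith
  have hc2 : 0 < c₁ / (2 * (1 + 264 * C₁)) := by positivity
  have hnrm : c₁ / (2 * (1 + 264 * C₁)) * nrm x' y' ≤ C₁ * SW := by
    have h1 : d * (c₁ / (2 * (1 + 264 * C₁)) * nrm x' y') ≤ d * (C₁ * SW) := by
      calc d * (c₁ / (2 * (1 + 264 * C₁)) * nrm x' y')
          = c₁ / (2 * (1 + 264 * C₁)) * d * nrm x' y' := by ring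
        _ ≤ SL L x' y' := hexp
        _ ≤ C₁ * d * SW := hSL
        _ = d * (C₁ * SW) := by ring
    exact le_of_mul_le_mul_left h1 hd
  have hnn : 0 ≤ nrm x' y' := by
    unfold nrm
    have h1 : 0 ≤ ∑ v, ∑ c, |x' v c| :=
      Finset.sum_nonneg (fun v _ => Finset.sum_nonneg (fun c _ => abs_nonneg _))
    have h2 : 0 ≤ ∑ u, ∑ v, |y' u v| :=
      Finset.sum_nonneg (fun v _ => Finset.sum_nonneg (fun c _ => abs_nonneg _))
    linarith
  have hC0 : 0 < C₁ := lt_of_lt_of_le one_pos hC₁
  calc -(∑ u, ∑ v, y u v * (∑ c, w u v c - e u v)) -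
      2 * ∑ v, ∑ c, x v c * (∑ u, w u v c - p v c) ≤ δ₂ * nrm x' y' := hleft
    _ ≤ c₁ / (4 * C₁ * (1 + 264 * C₁)) * nrm x' y' := mul_le_mul_of_nonneg_right hδδ' hnn
    _ = 1 / (2 * C₁) * (c₁ / (2 * (1 + 264 * C₁)) * nrm x' y') := by
        field_simp
        ring
    _ ≤ 1 / (2 * C₁) * (C₁ * SW) := mul_le_mul_of_nonneg_left hnrm (by positivity)
    _ = 1 / 2 * SW := by field_simp

/-- K8: exact two-sided fractional weights -/
theorem det (hV : Fintype.card V = Fintype.card C + 1) (h12 : 12 ≤ Fintype.card V)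
    (L : V → V → Finset C) (hL : Ker L) {c₁ C₁ θ η η' δ δ' d : ℝ} (hc₁ : 0 < c₁)
    (hc₁' : c₁ ≤ 1) (hC₁ : 1 ≤ C₁) (hθ : 0 < θ) (hη0 : 0 ≤ η) (hη'0 : 0 ≤ η')
    (hη : η / θ + η' ≤ 1 / 66) (hd : 0 < d) (hδ : 0 ≤ δ) (hδ' : 0 ≤ δ')
    (hδδ' : δ + δ' / c₁ ≤ c₁ / (4 * C₁ * (1 + 264 * C₁)))
    (RP : V → C → Prop) (RE : V → V → Prop) (BP : V → C → Prop) (BE : V → V → Prop)
    (hR : Red L RP RE) (hB : Bulk η η' d L (Zero RP RE))
    (hS : Sparse (c₁ / (16 * (1 + 264 * C₁))) θ d L) (hM : MaxDeg (C₁ * d) L)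
    (hm : MinDeg (c₁ * d) L RP RE) (hN : Near δ δ' d L RP RE BP BE) :
    ∃ w : V → V → C → ℝ, (∀ u v c, w u v c = w v u c) ∧ (∀ u v c, c ∉ L u v → w u v c = 0) ∧
      (∀ u v c, c ∈ L u v → 1 / (2 * C₁ * d) ≤ w u v c ∧ w u v c ≤ 3 / (2 * c₁ * d)) ∧
      (∀ u v, u ≠ v → ¬ RE u v → ∑ c, w u v c = 1) ∧
      (∀ v c, ¬ RP v c → ∑ u, w u v c = 1) := by
  classical
  obtain ⟨w, hws, hw0, hw1, hwE, hwP⟩ :=
    weights L hL hc₁ hc₁' hC₁ hd hδ hδ' RP RE BP BE hR hM hm hN
  have hC0 : 0 < C₁ := lt_of_lt_of_le one_pos hC₁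
  have hδ₂ : 0 ≤ δ + δ' / c₁ := by positivity
  set e : V → V → ℝ := fun u v => if u = v ∨ RE u v then 0 else 1 with hedef
  set p : V → C → ℝ := fun v c => if RP v c then 0 else 1 with hpdef
  have hE1 : ∀ u v, u ≠ v → ¬ RE u v → e u v = 1 := by
    intro u v h h'
    simp only [hedef]
    rw [if_neg (by tauto)]
  have hE0 : ∀ u v, (u = v ∨ RE u v) → e u v = 0 := by
    intro u v h
    simp only [hedef]
    rw [if_pos h]
  have hP1 : ∀ v c, ¬ RP v c → p v c = 1 := by
    intro v c h
    simp only [hpdef]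
    rw [if_neg h]
  have hP0 : ∀ v c, RP v c → p v c = 0 := by
    intro v c h
    simp only [hpdef]
    rw [if_pos h]
  have hnoE : ∀ u v c, (u = v ∨ RE u v) → w u v c = 0 := by
    intro u v c h
    apply hw0
    rcases h with h | h
    · rw [h, hL.diag v]; simp
    · rw [hR.edge u v h]; simp
  have hnoP : ∀ u v c, RP v c → w u v c = 0 := by
    intro u v c h
    exact hw0 u v c (hR.pair v c h u)
  have hdE : ∀ u v, |∑ c, w u v c - e u v| ≤ δ + δ' / c₁ := by
    intro u v
    by_cases h : u = v ∨ RE u v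
    · rw [hE0 u v h, Finset.sum_eq_zero (fun c _ => hnoE u v c h)]
      simpa using hδ₂
    · have h1 : u ≠ v := fun h' => h (Or.inl h')
      have h2 : ¬ RE u v := fun h' => h (Or.inr h')
      rw [hE1 u v h1 h2]
      exact hwE u v h1 h2
  have hdP : ∀ v c, |∑ u, w u v c - p v c| ≤ δ + δ' / c₁ := by
    intro v c
    by_cases h : RP v c
    · rw [hP0 v c h, Finset.sum_eq_zero (fun u _ => hnoP u v c h)]
      simpa using hδ₂
    · rw [hP1 v c h]
      exact hwP v c h
  have hwn : ∀ u v c, 0 ≤ w u v c := by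
    intro u v c
    by_cases hc : c ∈ L u v
    · refine le_trans ?_ (hw1 u v c hc).1
      positivity
    · rw [hw0 u v c hc]
  have hes : ∀ u v, e u v = e v u := by
    intro u v
    by_cases h : u = v ∨ RE u v
    · rw [hE0 u v h, hE0 v u ?_]
      rcases h with h | h
      · exact Or.inl h.symm
      · exact Or.inr (hR.symm u v h)
    · have h1 : u ≠ v := fun h' => h (Or.inl h')
      have h2 : ¬ RE u v := fun h' => h (Or.inr h')
      rw [hE1 u v h1 h2, hE1 v u h1.symm (fun h' => h2 (hR.symm v u h'))]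
  -- the box duality
  let A : (V × V) ⊕ (V × C) → V × V × C → ℝ := fun q i =>
    match q with
    | Sum.inl ab => e ab.1 ab.2 *
        (((if i.1 = ab.1 ∧ i.2.1 = ab.2 then (1 : ℝ) else 0) +
          (if i.2.1 = ab.1 ∧ i.1 = ab.2 then (1 : ℝ) else 0)) / 2)
    | Sum.inr ac => p ac.1 ac.2 * (if i.2.2 = ac.2 then
        (((if i.2.1 = ac.1 then (1 : ℝ) else 0) + (if i.1 = ac.1 then (1 : ℝ) else 0)) / 2) else 0)
  let b : V × V × C → ℝ := fun i => w i.1 i.2.1 i.2.2 / 2
  let g : (V × V) ⊕ (V × C) → ℝ := fun q =>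
    match q with
    | Sum.inl ab => -(∑ c, w ab.1 ab.2 c - e ab.1 ab.2)
    | Sum.inr ac => -(∑ u, w u ac.1 ac.2 - p ac.1 ac.2)
  have hb : ∀ i, 0 ≤ b i := fun i => div_nonneg (hwn _ _ _) (by norm_num)
  have hdual : ∀ z : (V × V) ⊕ (V × C) → ℝ,
      ∑ q, z q * g q ≤ ∑ i, b i * |∑ q, z q * A q i| := by
    intro z
    set y₀ : V → V → ℝ := fun u v => e u v * z (Sum.inl (u, v)) with hy₀
    set x : V → C → ℝ := fun v c => p v c * z (Sum.inr (v, c)) with hx
    set y : V → V → ℝ := fun u v => y₀ u v + y₀ v u with hydef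
    have hy : Sy y := by
      constructor
      · intro u v; simp only [hydef]; ring
      · intro v; simp only [hydef, hy₀]; rw [hE0 v v (Or.inl rfl)]; ring
    have h0 : Zero RP RE x y := by
      constructor
      · intro v c h; simp only [hx]; rw [hP0 v c h]; ring
      · intro u v h; simp only [hydef, hy₀]
        rw [hE0 u v (Or.inr h), hE0 v u (Or.inr (hR.symm u v h))]; ring
    have key := det_key hV h12 L hL hc₁ hc₁' hC₁ hθ hη0 hη'0 hη hd hδ₂ hδδ' RP RE hR hB hS hM hm
      w hws hw0 (fun u v c hc => (hw1 u v c hc).1) e p hE1 hE0 hP1 hP0 hdE hdP x y hy h0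
    -- left side
    have hl1 : ∑ q, z q * g q = -(∑ u, ∑ v, y₀ u v * (∑ c, w u v c - e u v)) -
        ∑ v, ∑ c, x v c * (∑ u, w u v c - p v c) := by
      rw [Fintype.sum_sum_type, Fintype.sum_prod_type, Fintype.sum_prod_type,
        ← Finset.sum_neg_distrib, sub_eq_add_neg, ← Finset.sum_neg_distrib]
      congr 1
      · refine Finset.sum_congr rfl (fun u _ => ?_)
        rw [← Finset.sum_neg_distrib]
        refine Finset.sum_congr rfl (fun v _ => ?_)
        simp only [g, hy₀]
        by_cases h : u = v ∨ RE u v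
        · rw [hE0 u v h, Finset.sum_eq_zero (fun c _ => hnoE u v c h)]; ring
        · have h1 : u ≠ v := fun h' => h (Or.inl h')
          have h2 : ¬ RE u v := fun h' => h (Or.inr h')
          rw [hE1 u v h1 h2]; ring
      · refine Finset.sum_congr rfl (fun v _ => ?_)
        rw [← Finset.sum_neg_distrib]
        refine Finset.sum_congr rfl (fun c _ => ?_)
        simp only [g, hx]
        by_cases h : RP v c
        · rw [hP0 v c h, Finset.sum_eq_zero (fun u _ => hnoP u v c h)]; ring
        · rw [hP1 v c h]; ring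
    have hl2 : ∑ u, ∑ v, y u v * (∑ c, w u v c - e u v) =
        2 * ∑ u, ∑ v, y₀ u v * (∑ c, w u v c - e u v) := by
      have h1 : ∑ u, ∑ v, y₀ v u * (∑ c, w u v c - e u v) =
          ∑ u, ∑ v, y₀ u v * (∑ c, w u v c - e u v) := by
        rw [Finset.sum_comm]
        refine Finset.sum_congr rfl (fun u _ => Finset.sum_congr rfl (fun v _ => ?_))
        rw [hes v u, Finset.sum_congr rfl (fun c _ => hws v u c)]
      have h2 : ∑ u, ∑ v, y u v * (∑ c, w u v c - e u v) =
          ∑ u, ∑ v, y₀ u v * (∑ c, w u v c - e u v) +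
            ∑ u, ∑ v, y₀ v u * (∑ c, w u v c - e u v) := by
        rw [← Finset.sum_add_distrib]
        refine Finset.sum_congr rfl (fun u _ => ?_)
        rw [← Finset.sum_add_distrib]
        exact Finset.sum_congr rfl (fun v _ => by simp only [hydef]; ring)
      rw [h2, h1]; ring
    -- right side
    have hr1 : ∀ u v c, ∑ q, z q * A q (u, v, c) = (y u v + x u c + x v c) / 2 := by
      intro u v c
      rw [Fintype.sum_sum_type, Fintype.sum_prod_type, Fintype.sum_prod_type]
      have h1 : ∑ a, ∑ b', z (Sum.inl (a, b')) * A (Sum.inl (a, b')) (u, v, c) =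
          (y₀ u v + y₀ v u) / 2 := by
        have h11 : ∀ a b', z (Sum.inl (a, b')) * A (Sum.inl (a, b')) (u, v, c) =
            (if u = a then (if v = b' then y₀ a b' / 2 else 0) else 0) +
            (if v = a then (if u = b' then y₀ a b' / 2 else 0) else 0) := by
          intro a b'
          simp only [A, hy₀]
          rw [ite_and, ite_and]
          split_ifs <;> ring
        simp only [h11, Finset.sum_add_distrib, Finset.sum_ite_irrel, Finset.sum_const_zero,
          Finset.sum_ite_eq, Finset.mem_univ, if_true]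
        ring
      have h2 : ∑ a, ∑ c', z (Sum.inr (a, c')) * A (Sum.inr (a, c')) (u, v, c) =
          (x v c + x u c) / 2 := by
        have h21 : ∀ a c', z (Sum.inr (a, c')) * A (Sum.inr (a, c')) (u, v, c) =
            (if v = a then (if c = c' then x a c' / 2 else 0) else 0) +
            (if u = a then (if c = c' then x a c' / 2 else 0) else 0) := by
          intro a c'
          simp only [A, hx]
          split_ifs <;> ring
        simp only [h21, Finset.sum_add_distrib, Finset.sum_ite_irrel, Finset.sum_const_zero,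
          Finset.sum_ite_eq, Finset.mem_univ, if_true]
        ring
      rw [h1, h2]
      simp only [hydef]
      ring
    have hr2 : ∑ i, b i * |∑ q, z q * A q i| =
        (1 / 4) * ∑ u, ∑ v, ∑ c, w u v c * |y u v + x u c + x v c| := by
      rw [Fintype.sum_prod_type, Finset.mul_sum]
      refine Finset.sum_congr rfl (fun u _ => ?_)
      rw [Fintype.sum_prod_type, Finset.mul_sum]
      refine Finset.sum_congr rfl (fun v _ => ?_)
      rw [Finset.mul_sum]
      refine Finset.sum_congr rfl (fun c _ => ?_)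
      rw [hr1 u v c, abs_div, abs_of_pos (by norm_num : (0 : ℝ) < 2)]
      simp only [b]
      ring
    rw [hl1, hr2]
    rw [hl2] at key
    linarith
  obtain ⟨ω, hω1, hω2⟩ := box_duality A b hb g hdual
  set w1 : V → V → C → ℝ := fun u v c => (ω (u, v, c) + ω (v, u, c)) / 2 with hw1def
  have hw1s : ∀ u v c, w1 u v c = w1 v u c := by
    intro u v c; simp only [hw1def]; ring
  have hw1b : ∀ u v c, |w1 u v c| ≤ w u v c / 2 := by
    intro u v c
    have h1 := hω1 (u, v, c)
    have h2 := hω1 (v, u, c)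
    simp only [b] at h1 h2
    rw [hws v u c] at h2
    simp only [hw1def]
    rw [abs_div, abs_of_pos (by norm_num : (0 : ℝ) < 2)]
    have h3 := abs_add_le (ω (u, v, c)) (ω (v, u, c))
    linarith
  have hw1E : ∀ u v, u ≠ v → ¬ RE u v → ∑ c, w1 u v c = -(∑ c, w u v c - e u v) := by
    intro a b' hab hRE
    have h := hω2 (Sum.inl (a, b'))
    have h1 : ∑ i, A (Sum.inl (a, b')) i * ω i = ∑ c, w1 a b' c := by
      rw [Fintype.sum_prod_type]
      have h2 : ∀ u, ∑ j : V × C, A (Sum.inl (a, b')) (u, j) * ω (u, j) =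
          ∑ v, ∑ c, ((if u = a then (if v = b' then ω (u, v, c) / 2 else 0) else 0) +
            (if u = b' then (if v = a then ω (u, v, c) / 2 else 0) else 0)) := by
        intro u
        rw [Fintype.sum_prod_type]
        refine Finset.sum_congr rfl (fun v _ => Finset.sum_congr rfl (fun c _ => ?_))
        simp only [A]
        rw [hE1 a b' hab hRE, ite_and, ite_and]
        split_ifs <;> ring
      rw [Finset.sum_congr rfl (fun u _ => h2 u)]
      simp only [Finset.sum_add_distrib, Finset.sum_ite_irrel, Finset.sum_const_zero,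
          Finset.sum_ite_eq', Finset.mem_univ, if_true]
      rw [← Finset.sum_add_distrib]
      refine Finset.sum_congr rfl (fun c _ => ?_)
      simp only [hw1def]
      ring
    rw [← h1, h]
  have hw1P : ∀ v c, ¬ RP v c → ∑ u, w1 u v c = -(∑ u, w u v c - p v c) := by
    intro a c' hRP
    have h := hω2 (Sum.inr (a, c'))
    have h1 : ∑ i, A (Sum.inr (a, c')) i * ω i = ∑ u, w1 u a c' := by
      rw [Fintype.sum_prod_type]
      have h2 : ∀ u, ∑ j : V × C, A (Sum.inr (a, c')) (u, j) * ω (u, j) =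
          ∑ v, ∑ c, ((if v = a then (if c = c' then ω (u, v, c) / 2 else 0) else 0) +
            (if u = a then (if c = c' then ω (u, v, c) / 2 else 0) else 0)) := by
        intro u
        rw [Fintype.sum_prod_type]
        refine Finset.sum_congr rfl (fun v _ => Finset.sum_congr rfl (fun c _ => ?_))
        simp only [A]
        rw [hP1 a c' hRP]
        split_ifs <;> ring
      rw [Finset.sum_congr rfl (fun u _ => h2 u)]
      simp only [Finset.sum_add_distrib, Finset.sum_ite_irrel, Finset.sum_const_zero,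
          Finset.sum_ite_eq', Finset.mem_univ, if_true]
      rw [← Finset.sum_add_distrib]
      refine Finset.sum_congr rfl (fun u _ => ?_)
      simp only [hw1def]
      ring
    rw [← h1, h]
  refine ⟨fun u v c => w u v c + w1 u v c, ?_, ?_, ?_, ?_, ?_⟩
  · intro u v c
    simp only
    rw [hws u v c, hw1s u v c]
  · intro u v c hc
    simp only
    have h1 := hw1b u v c
    rw [hw0 u v c hc] at h1 ⊢
    have h2 : |w1 u v c| ≤ 0 := by linarith
    rw [abs_nonpos_iff.mp h2]; ring
  · intro u v c hc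
    simp only
    have h1 := abs_le.mp (hw1b u v c)
    obtain ⟨h2, h3⟩ := hw1 u v c hc
    constructor
    · have h4 : 1 / (2 * C₁ * d) = (1 / (C₁ * d)) / 2 := by
        field_simp
      rw [h4]
      linarith
    · have h4 : 3 / (2 * c₁ * d) = 3 / 2 * (1 / (c₁ * d)) := by
        field_simp
      rw [h4]
      linarith
  · intro u v huv hRE
    simp only
    rw [Finset.sum_add_distrib, hw1E u v huv hRE, hE1 u v huv hRE]; ring
  · intro v c hRP
    simp only
    rw [Finset.sum_add_distrib, hw1P v c hRP, hP1 v c hRP]; ring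

end Det

end Pool.Agent.Lib.FR
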