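import Pool.Agent.Lib.MP_6d56f7_co_FR.DefsT

/-! # From weights to fractional colourings -/

set_option autoImplicit false

namespace Pool.Agent.Lib.FR

open Finset

theorem fracCol_of {n : ℕ} (L : Edge (Fin (2 * n)) → Finset (Fin (2 * n - 1)))
    (f : Fin (2 * n) → Fin (2 * n) → Fin (2 * n - 1) → ℝ) (hf : ∀ c, Edm (fun u v => f u v c))
    (h1 : ∀ u v, u ≠ v → ∑ c, f u v c = 1)
    (h0 : ∀ u v c (h : ¬ (s(u, v) : Sym2 (Fin (2 * n))).IsDiag), f u v c ≠ 0 →
      c ∈ L ⟨s(u, v), h⟩) :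
    ∃ P, FracCol L P ∧
      ∀ u v c (h : ¬ (s(u, v) : Sym2 (Fin (2 * n))).IsDiag), marg P c ⟨s(u, v), h⟩ = f u v c := by
  classical
  choose P hP using fun c => edmonds_sets (hf c)
  have hm : ∀ u v c (h : ¬ (s(u, v) : Sym2 (Fin (2 * n))).IsDiag),
      marg P c ⟨s(u, v), h⟩ = f u v c := by
    intro u v c h
    rw [← (hP c).2.2.2.2 u v h]
    unfold marg
    refine Finset.sum_congr rfl fun M _ => ?_
    congr
  refine ⟨P, ⟨fun c M => (hP c).1 M, fun c M h => (hP c).2.1 M h, ?_, fun c => (hP c).2.2.1, ?_⟩,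
    hm⟩
  · rintro c M h ⟨e, he⟩ heM
    induction e using Sym2.ind with
    | _ u v => exact h0 u v c he ((hP c).2.2.2.1 M h u v he heM)
  · rintro ⟨e, he⟩
    induction e using Sym2.ind with
    | _ u v =>
      simp only [hm]
      apply h1
      intro h
      apply he
      rw [h]
      exact Sym2.mk_isDiag_iff.2 rfl

end Pool.Agent.Lib.FR
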