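import Pool.Agent.Lib.MP_6d56f7_co_FR.DefsT

/-! # The odd cut inequalities -/

set_option autoImplicit false

namespace Pool.Agent.Lib.FR

open Finset

namespace Odd

variable {V : Type} [Fintype V] [DecidableEq V]

omit [Fintype V] [DecidableEq V] in
/-- an involution without fixed points on a finite set -/
theorem even_of_inv (S : Finset V) (m : V → V)
    (hm : ∀ v ∈ S, m v ∈ S ∧ m (m v) = v ∧ m v ≠ v) : Even S.card := by
  have h : ∑ v ∈ S, (1 : ZMod 2) = 0 := by
    refine Finset.sum_involution (fun v _ => m v) ?_ ?_ ?_ ?_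
    · intro v _
      decide
    · intro v hv _
      exact (hm v hv).2.2
    · intro v hv
      exact (hm v hv).1
    · intro v hv
      exact (hm v hv).2.1
  rw [Finset.sum_const, nsmul_eq_mul, mul_one] at h
  exact (ZMod.natCast_eq_zero_iff_even).1 h

/-- the weight of a set whose cut is considered -/
theorem cut_eq (w : V → V → ℝ) (W : Finset V) (h1 : ∀ u ∈ W, ∑ v, w u v = 1) :
    ∑ u ∈ W, ∑ v ∈ Wᶜ, w u v = W.card - ∑ u ∈ W, ∑ v ∈ W, w u v := by
  have e1 : ∀ u ∈ W, ∑ v ∈ Wᶜ, w u v = 1 - ∑ v ∈ W, w u v := by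
    intro u hu
    rw [← h1 u hu, ← Finset.sum_add_sum_compl W]
    ring
  rw [Finset.sum_congr rfl e1, Finset.sum_sub_distrib]
  simp

end Odd

theorem edm_glue {V : Type} [Fintype V] [DecidableEq V] (hV : Even (Fintype.card V))
    (w : V → V → ℝ) (R : Finset V) (m : V → V) (hm : ∀ v ∈ R, m v ∈ R ∧ m (m v) = v ∧ m v ≠ v)
    (h0 : ∀ u v, 0 ≤ w u v) (hs : ∀ u v, w u v = w v u) (hd : ∀ v, w v v = 0)
    (hR : ∀ u ∈ R, ∀ v, w u v = 0) (h1 : ∀ u, u ∉ R → ∑ v, w u v = 1) (T : ℝ)
    (small : ∀ W : Finset V, (W.card : ℝ) ≤ T → ∑ u ∈ W, ∑ v ∈ W, w u v ≤ W.card / 2)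
    (large : ∀ W : Finset V, T < W.card → 2 * W.card ≤ Fintype.card V → Disjoint W R →
      1 ≤ ∑ u ∈ W, ∑ v ∈ Wᶜ, w u v) :
    Edm (fun u v => w u v + if u ∈ R ∧ m u = v then 1 else 0) := by
  classical
  have hnn : ∀ u v, (0 : ℝ) ≤ if u ∈ R ∧ m u = v then 1 else 0 := by
    intro u v
    split_ifs <;> norm_num
  -- small and large odd sets outside `R`
  have key : ∀ W : Finset V, Odd W.card → Disjoint W R → 2 * W.card ≤ Fintype.card V →
      1 ≤ ∑ u ∈ W, ∑ v ∈ Wᶜ, w u v := by
    intro W hW hWR hW2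
    by_cases hT : (W.card : ℝ) ≤ T
    · have hu : ∀ u ∈ W, ∑ v, w u v = 1 := fun u hu => h1 u (Finset.disjoint_left.1 hWR hu)
      rw [Odd.cut_eq w W hu]
      by_cases hone : W.card = 1
      · obtain ⟨a, ha⟩ := Finset.card_eq_one.1 hone
        rw [ha]
        simp [hd]
      · have h3 : 3 ≤ W.card := by
          obtain ⟨k, hk⟩ := hW
          omega
        have h4 : (3 : ℝ) ≤ W.card := by exact_mod_cast h3
        have h5 := small W hT
        linarith
    · exact large W (not_le.1 hT) hW2 hWR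
  -- odd sets outside `R`
  have key2 : ∀ W : Finset V, Odd W.card → Disjoint W R → 1 ≤ ∑ u ∈ W, ∑ v ∈ Wᶜ, w u v := by
    intro W hW hWR
    by_cases hW2 : 2 * W.card ≤ Fintype.card V
    · exact key W hW hWR hW2
    · have hER : Even R.card := Odd.even_of_inv R m hm
      have hc : (W ∪ R).card = W.card + R.card := Finset.card_union_of_disjoint hWR
      have hc2 : (W ∪ R)ᶜ.card + (W.card + R.card) = Fintype.card V := by
        rw [← hc, add_comm, Finset.card_add_card_compl]
      have hodd : Odd ((W ∪ R)ᶜ.card) := by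
        obtain ⟨a, ha⟩ := hV
        obtain ⟨b, hb⟩ := hER
        obtain ⟨c, hc'⟩ := hW
        refine ⟨a - b - c - 1, ?_⟩
        omega
      have hdis : Disjoint (W ∪ R)ᶜ R := by
        rw [Finset.disjoint_left]
        intro a ha hb
        exact (mem_compl.1 ha) (mem_union_right _ hb)
      have h2 := key _ hodd hdis (by omega)
      refine h2.trans (le_of_eq ?_)
      rw [compl_compl]
      have e1 : ∀ u ∈ (W ∪ R)ᶜ, ∑ v ∈ W ∪ R, w u v = ∑ v ∈ W, w u v := by
        intro u _
        rw [Finset.sum_union hWR]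
        rw [Finset.sum_eq_zero (s := R) (fun v hv => by rw [hs]; exact hR v hv u), add_zero]
      rw [Finset.sum_congr rfl e1, Finset.sum_comm]
      refine Finset.sum_congr rfl fun u _ => ?_
      have e2 : Wᶜ = (W ∪ R)ᶜ ∪ R := by
        ext a
        simp only [mem_compl, mem_union]
        constructor
        · intro h
          by_cases haR : a ∈ R
          · exact Or.inr haR
          · exact Or.inl (fun h2 => h2.elim h haR)
        · intro h h3
          rcases h with h | h
          · exact h (Or.inl h3)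
          · exact Finset.disjoint_left.1 hWR h3 h
      rw [e2, Finset.sum_union hdis]
      rw [Finset.sum_eq_zero (s := R) (fun v hv => by rw [hs]; exact hR v hv u), add_zero]
      exact Finset.sum_congr rfl fun v _ => hs _ _
  refine ⟨fun u v => add_nonneg (h0 u v) (hnn u v), ?_, ?_, ?_, ?_⟩
  · intro u v
    show _ + _ = _ + _
    rw [hs u v]
    congr 1
    have : (u ∈ R ∧ m u = v) ↔ (v ∈ R ∧ m v = u) := by
      constructor
      · rintro ⟨h2, h3⟩
        rw [← h3]
        exact ⟨(hm u h2).1, (hm u h2).2.1⟩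
      · rintro ⟨h2, h3⟩
        rw [← h3]
        exact ⟨(hm v h2).1, (hm v h2).2.1⟩
    simp only [this]
  · intro v
    show _ + _ = (0 : ℝ)
    rw [hd, if_neg (fun h2 => (hm v h2.1).2.2 h2.2), add_zero]
  · intro v
    show ∑ u, (_ + _) = (1 : ℝ)
    rw [Finset.sum_add_distrib]
    by_cases hv : v ∈ R
    · have e1 : ∑ u, w v u = 0 := Finset.sum_eq_zero fun u _ => hR v hv u
      rw [e1]
      simp [hv]
    · rw [h1 v hv]
      simp [hv]
  · intro W hW
    show 1 ≤ ∑ u ∈ W, ∑ v ∈ Wᶜ, (_ + _)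
    simp only [Finset.sum_add_distrib]
    by_cases hsplit : ∃ u ∈ W, u ∈ R ∧ m u ∉ W
    · obtain ⟨u, hu, huR, hmu⟩ := hsplit
      have e1 : (1 : ℝ) ≤ ∑ u ∈ W, ∑ v ∈ Wᶜ, (if u ∈ R ∧ m u = v then (1 : ℝ) else 0) := by
        have e2 : (1 : ℝ) = if u ∈ R ∧ m u = m u then (1 : ℝ) else 0 := by
          rw [if_pos ⟨huR, rfl⟩]
        refine e2.le.trans ?_
        exact (Finset.single_le_sum (f := fun v => if u ∈ R ∧ m u = v then (1 : ℝ) else 0)
          (fun v _ => hnn u v) (mem_compl.2 hmu)).trans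
          (Finset.single_le_sum (f := fun u => ∑ v ∈ Wᶜ, if u ∈ R ∧ m u = v then (1 : ℝ) else 0)
            (fun u _ => Finset.sum_nonneg fun v _ => hnn u v) hu)
      have e3 : 0 ≤ ∑ u ∈ W, ∑ v ∈ Wᶜ, w u v :=
        Finset.sum_nonneg fun u _ => Finset.sum_nonneg fun v _ => h0 u v
      linarith
    · push Not at hsplit
      have hER : Even (W ∩ R).card := by
        apply Odd.even_of_inv _ m
        intro v hv
        obtain ⟨h2, h3⟩ := mem_inter.1 hv
        exact ⟨mem_inter.2 ⟨hsplit v h2 h3, (hm v h3).1⟩, (hm v h3).2⟩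
      have hodd : Odd (W \ R).card := by
        have := Finset.card_sdiff_add_card_inter W R
        obtain ⟨b, hb⟩ := hER
        obtain ⟨c, hc'⟩ := hW
        refine ⟨c - b, ?_⟩
        omega
      have h2 := key2 (W \ R) hodd Finset.sdiff_disjoint
      have e4 : ∑ u ∈ W \ R, ∑ v ∈ (W \ R)ᶜ, w u v ≤ ∑ u ∈ W, ∑ v ∈ Wᶜ, w u v := by
        have e5 : ∀ u ∈ W \ R, ∑ v ∈ (W \ R)ᶜ, w u v = ∑ v ∈ Wᶜ, w u v := by
          intro u _
          symm
          apply Finset.sum_subset
          · intro v hv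
            rw [mem_compl] at hv ⊢
            exact fun h3 => hv (mem_sdiff.1 h3).1
          · intro v hv hv'
            have hvW : v ∈ W := by
              by_contra h3
              exact hv' (mem_compl.2 h3)
            have hvR : v ∈ R := by
              by_contra h3
              exact (mem_compl.1 hv) (mem_sdiff.2 ⟨hvW, h3⟩)
            rw [hs]
            exact hR v hvR u
        rw [Finset.sum_congr rfl e5]
        exact Finset.sum_le_sum_of_subset_of_nonneg Finset.sdiff_subset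
          fun u _ _ => Finset.sum_nonneg fun v _ => h0 u v
      have e6 : 0 ≤ ∑ u ∈ W, ∑ v ∈ Wᶜ, (if u ∈ R ∧ m u = v then (1 : ℝ) else 0) :=
        Finset.sum_nonneg fun u _ => Finset.sum_nonneg fun v _ => hnn u v
      linarith

end Pool.Agent.Lib.FR
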