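import Pool.Agent.Lib.MP_6d56f7_co_FR.Match
import Pool.Agent.Lib.MP_6d56f7_co_FR.BulkRed
import Pool.Agent.Lib.MP_6d56f7_co_FR.Odd
import Pool.Agent.Lib.MP_6d56f7_co_FR.FracOf
import Pool.Agent.Lib.MP_6d56f7_co_FR.Det

/-!
# The deterministic part of the hitting time theorem
-/

set_option autoImplicit false

namespace Pool.Agent.Lib.FR

open Finset

section partner

variable {n : ℕ}

open Classical in
/-- the partner of `v` in the hyperedges of colour `c` of `M` -/
noncomputable def prt (M : Finset (J n)) (c : Fin (2 * n - 1)) (v : Fin (2 * n)) : Fin (2 * n) :=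
  if h : ∃ w, ∃ g ∈ M, g.1 = c ∧ g.2.1 = s(v, w) then h.choose else v

theorem prt_eq {M : Finset (J n)} (hM : CFree M) {c : Fin (2 * n - 1)} {v w : Fin (2 * n)}
    (h : ∃ g ∈ M, g.1 = c ∧ g.2.1 = s(v, w)) : prt M c v = w := by
  have h1 : ∃ w, ∃ g ∈ M, g.1 = c ∧ g.2.1 = s(v, w) := ⟨w, h⟩
  unfold prt
  rw [dif_pos h1]
  obtain ⟨g', hg', hc', he'⟩ := h1.choose_spec
  obtain ⟨g, hg, hc, he⟩ := h
  have h2 : g = g' := hM g hg g' hg' (Or.inl (hc.trans hc'.symm))
  rw [← h2, he] at he'
  exact (Sym2.congr_right.mp he').symm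

theorem exists_partner {M : Finset (J n)} {c : Fin (2 * n - 1)} {v : Fin (2 * n)}
    (h : RPm M v c) : ∃ w, w ≠ v ∧ ∃ g ∈ M, g.1 = c ∧ g.2.1 = s(v, w) := by
  obtain ⟨⟨c', ⟨e, he⟩⟩, hg, hc, hv⟩ := h
  simp only at hc hv
  obtain ⟨w, rfl⟩ := hv
  refine ⟨w, ?_, _, hg, hc, rfl⟩
  rintro rfl
  exact he (Sym2.mk_isDiag_iff.mpr rfl)

theorem prt_iff {M : Finset (J n)} (hM : CFree M) {c : Fin (2 * n - 1)} {u v : Fin (2 * n)} :
    (RPm M u c ∧ prt M c u = v) ↔ ∃ g ∈ M, g.1 = c ∧ g.2.1 = s(u, v) := by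
  constructor
  · rintro ⟨h1, h2⟩
    obtain ⟨w, -, hw⟩ := exists_partner h1
    rw [prt_eq hM hw] at h2
    rw [← h2]
    exact hw
  · intro h
    refine ⟨?_, prt_eq hM h⟩
    obtain ⟨g, hg, hc, he⟩ := h
    refine ⟨g, hg, hc, ?_⟩
    rw [he]
    exact Sym2.mem_mk_left _ _

theorem prt_prop {M : Finset (J n)} (hM : CFree M) {c : Fin (2 * n - 1)} {v : Fin (2 * n)}
    (h : RPm M v c) : RPm M (prt M c v) c ∧ prt M c (prt M c v) = v ∧ prt M c v ≠ v := by
  obtain ⟨w, hwv, hw⟩ := exists_partner h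
  have h1 := prt_eq hM hw
  have hw' : ∃ g ∈ M, g.1 = c ∧ g.2.1 = s(w, v) := by
    obtain ⟨g, hg, hc, he⟩ := hw
    exact ⟨g, hg, hc, he.trans Sym2.eq_swap⟩
  have h2 := (prt_iff hM).mpr hw'
  rw [h1]
  exact ⟨h2.1, h2.2, hwv⟩

end partner

section

variable {n : ℕ}

open Classical in
/-- the main deterministic step -/
theorem glue (hn : 6 ≤ n) {c₁ θ η δ δ' d D : ℝ} (hc₁ : 0 < c₁) (hc₁' : c₁ ≤ 1) (hθ : 0 < θ)
    (hη0 : 0 ≤ η) (hη : η / θ + 6 / d ≤ 1 / 66) (hd : 0 < d) (hδ : 0 ≤ δ) (hδ' : 0 ≤ δ')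
    (hδδ' : δ + 3 / d + δ' / c₁ ≤ c₁ / (4 * 4 * (1 + 264 * 4))) (hD : c₁ * d + 3 ≤ D)
    (hcut : 8 * d + 3 * n ≤ θ * d * n / 8)
    (s : J n → Fin 3) (hB : Bulk η 0 d (Lm n s) (fun _ _ => True))
    (hS : Sparse (c₁ / (16 * (1 + 264 * 4))) θ d (Lp n s)) (hM : MaxDeg (4 * d) (Lp n s))
    (hF : FewBad δ δ' d n s) (hlow : LowOK D n s) (hC : CutB (θ * d * n / 8) θ (Lm n s))
    (H : Finset (J n)) (h2 : ∀ j, s j = 2 → j ∈ H) (h0 : ∀ j ∈ H, s j ≠ 0)
    (hcov : ∀ a : El n, ∃ j ∈ st n a, j ∈ H) :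
    ∃ P, FracCol (fun e => univ.filter (fun c => ((c, e) : J n) ∈ H)) P := by
  have hVC : Fintype.card (Fin (2 * n)) = Fintype.card (Fin (2 * n - 1)) + 1 := by
    rw [Fintype.card_fin, Fintype.card_fin]
    omega
  have hV12 : 12 ≤ Fintype.card (Fin (2 * n)) := by
    rw [Fintype.card_fin]
    omega
  -- the matching
  choose g hgst hgH using hcov
  let M : Finset (J n) := (univ.filter (fun a : El n => (dg n s a : ℝ) < D)).image g
  have hMH : ∀ j ∈ M, j ∈ H := by
    intro j hj
    obtain ⟨a, -, rfl⟩ := mem_image.mp hj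
    exact hgH a
  have hMc : CFree M := by
    intro j hj j' hj' hcf
    obtain ⟨a, ha, rfl⟩ := mem_image.mp hj
    obtain ⟨a', ha', rfl⟩ := mem_image.mp hj'
    rw [mem_filter] at ha ha'
    by_cases haa : a = a'
    · rw [haa]
    · exact absurd hcf (hlow a a' haa ha.2 ha'.2 _ (hgst a) _ (hgst a') (h0 _ (hgH a))
        (h0 _ (hgH a')))
  have hMlow : ∀ a : El n, ¬ Hit M a → D ≤ dg n s a := by
    intro a ha
    by_contra hlt
    push Not at hlt
    exact ha ⟨g a, mem_image_of_mem _ (mem_filter.mpr ⟨mem_univ _, hlt⟩), hgst a⟩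
  set H' := HR H M with hH'
  have hsubH : H' ⊆ H := fun j hj => (mem_HR.mp hj).1
  have hLm : ∀ u v, Lm n s u v ⊆ LK n H u v := by
    intro u v
    have : Lm n s = LK n (univ.filter fun j => s j = 2) := by
      rw [LK_eq_LL n (fun a => a = 2) s]
    rw [this]
    exact LK_mono (fun j hj => h2 j (mem_filter.mp hj).2) u v
  have hLp : ∀ u v, LK n H u v ⊆ Lp n s u v := by
    intro u v
    have : Lp n s = LK n (univ.filter fun j => s j ≠ 0) := by
      rw [LK_eq_LL n (fun a => a ≠ 0) s]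
    rw [this]
    exact LK_mono (fun j hj => mem_filter.mpr ⟨mem_univ _, h0 j hj⟩) u v
  have hsub : ∀ u v, LK n H' u v ⊆ LK n H u v := LK_mono hsubH
  have hsub' : ∀ u v, LK n H' u v ⊆ Lp n s u v := fun u v => (hsub u v).trans (hLp u v)
  -- losses
  have hE : ∀ u v, ¬ REm M u v → ((LK n H u v \ LK n H' u v).card : ℝ) ≤ 3 := by
    intro u v hR
    rw [LK_sdiff]
    by_cases hd : (s(u, v) : Sym2 (Fin (2 * n))).IsDiag
    · have h3 : LK n (H \ H') u v = ∅ := by
        rw [eq_empty_iff_forall_notMem]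
        intro c hc
        obtain ⟨h4, -⟩ := mem_LK.mp hc
        exact h4 hd
      rw [h3]
      simp
    · rw [LK_card _ hd]
      have h3 := loss hMc H (.inl ⟨s(u, v), hd⟩) (fun h4 => hR ((hit_inl hd).mp h4))
      exact_mod_cast h3
  have hP : ∀ v c, ¬ RPm M v c →
      ((univ.filter (fun u => c ∈ LK n H u v ∧ c ∉ LK n H' u v)).card : ℝ) ≤ 3 := by
    intro v c hR
    have h3 : univ.filter (fun u => c ∈ LK n H u v ∧ c ∉ LK n H' u v) =
        univ.filter (fun u => c ∈ LK n (H \ H') u v) := by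
      ext u
      rw [mem_filter, mem_filter, ← LK_sdiff, mem_sdiff]
    rw [h3]
    have h4 : (univ.filter (fun u => c ∈ LK n (H \ H') u v)).card = dP (LK n (H \ H')) v c := rfl
    rw [h4, dP_LK]
    have h5 := loss hMc H (.inr (v, c)) (fun h6 => hR (hit_inr.mp h6))
    exact_mod_cast h5
  have hdegE : ∀ u v, ¬ REm M u v →
      ((Lm n s u v).card : ℝ) ≤ ((LK n H' u v).card : ℝ) + 3 := by
    intro u v hR
    have h3 := hE u v hR
    have h4 : (Lm n s u v).card ≤ (LK n H' u v).card + (LK n H u v \ LK n H' u v).card := by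
      refine (card_le_card (hLm u v)).trans ?_
      have := card_le_card_sdiff_add_card (s := LK n H u v) (t := LK n H' u v)
      omega
    have h5 : ((Lm n s u v).card : ℝ) ≤
      (LK n H' u v).card + (LK n H u v \ LK n H' u v).card := by exact_mod_cast h4
    linarith
  have hdegP : ∀ v c, ¬ RPm M v c →
      (dP (Lm n s) v c : ℝ) ≤ (dP (LK n H') v c : ℝ) + 3 := by
    intro v c hR
    have h3 := hP v c hR
    have h4 : dP (Lm n s) v c ≤ dP (LK n H') v c +
        (univ.filter (fun u => c ∈ LK n H u v ∧ c ∉ LK n H' u v)).card := by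
      unfold dP
      refine le_trans (card_le_card ?_) (card_union_le _ _)
      intro u hu
      rw [mem_filter] at hu
      rw [mem_union, mem_filter, mem_filter]
      by_cases h5 : c ∈ LK n H' u v
      · exact Or.inl ⟨mem_univ _, h5⟩
      · exact Or.inr ⟨mem_univ _, hLm u v hu.2, h5⟩
    have h5 : (dP (Lm n s) v c : ℝ) ≤ dP (LK n H') v c +
        (univ.filter (fun u => c ∈ LK n H u v ∧ c ∉ LK n H' u v)).card := by exact_mod_cast h4
    linarith
  have hminE : ∀ u v, u ≠ v → ¬ REm M u v → D ≤ ((Lm n s u v).card : ℝ) := by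
    intro u v huv hR
    have hdg : ¬ (s(u, v) : Sym2 (Fin (2 * n))).IsDiag := by
      rw [Sym2.mk_isDiag_iff]
      exact huv
    have h3 := hMlow (.inl ⟨s(u, v), hdg⟩) (fun h4 => hR ((hit_inl hdg).mp h4))
    rwa [dg_inl] at h3
  have hminP : ∀ v c, ¬ RPm M v c → D ≤ (dP (Lm n s) v c : ℝ) := by
    intro v c hR
    have h3 := hMlow (.inr (v, c)) (fun h4 => hR (hit_inr.mp h4))
    rwa [dg_inr] at h3
  have hcardE : ∀ u v, ((LK n H' u v).card : ℝ) ≤ ((Lp n s u v).card : ℝ) := by
    intro u v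
    exact_mod_cast card_le_card (hsub' u v)
  have hcardP : ∀ v c, (dP (LK n H') v c : ℝ) ≤ (dP (Lp n s) v c : ℝ) := by
    intro v c
    exact_mod_cast dP_mono hsub' v c
  have hred := red_HR hMc H
  have hmin : MinDeg (c₁ * d) (LK n H') (RPm M) (REm M) := by
    constructor
    · intro u v huv hR
      have h3 := hdegE u v hR
      have h4 := hminE u v huv hR
      linarith
    · intro v c hR
      have h3 := hdegP v c hR
      have h4 := hminP v c hR
      linarith
  have hd3 : (δ + 3 / d) * d = δ * d + 3 := by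
    field_simp
  have hnear : Near (δ + 3 / d) δ' d (LK n H') (RPm M) (REm M) (BadP δ d n s)
      (BadE δ d n s) := by
    constructor
    · rintro u v ⟨h3, h4⟩
      refine ⟨h3.symm, ?_⟩
      have e1 : Lm n s v u = Lm n s u v := (ker_LL n (fun a => a = 2) s).symm v u
      have e2 : Lp n s v u = Lp n s u v := (ker_LL n (fun a => a ≠ 0) s).symm v u
      rw [e1, e2]
      exact h4
    · intro u v huv hR hb
      have h3 : ¬ (((Lm n s u v).card : ℝ) < (1 - δ) * d ∨
          (1 + δ) * d < ((Lp n s u v).card : ℝ)) := fun h4 => hb ⟨huv, h4⟩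
      push Not at h3
      have h4 := hdegE u v hR
      have h5 := hcardE u v
      rw [hd3, abs_le]
      constructor <;> nlinarith [h3.1, h3.2]
    · intro v c hR hb
      have h3 : ¬ ((dP (Lm n s) v c : ℝ) < (1 - δ) * d ∨
          (1 + δ) * d < (dP (Lp n s) v c : ℝ)) := fun h4 => hb h4
      push Not at h3
      have h4 := hdegP v c hR
      have h5 := hcardP v c
      rw [hd3, abs_le]
      constructor <;> nlinarith [h3.1, h3.2]
    · intro u v
      refine le_trans ?_ (hF.fewE u v)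
      have h3 : Nat.card {c : Fin (2 * n - 1) //
          c ∈ LK n H' u v ∧ (BadP δ d n s u c ∨ BadP δ d n s v c)} ≤
          Nat.card {c : Fin (2 * n - 1) //
          c ∈ Lp n s u v ∧ (BadP δ d n s u c ∨ BadP δ d n s v c)} :=
        Nat.card_mono (Set.toFinite _) (fun c hc => ⟨hsub' u v hc.1, hc.2⟩)
      exact_mod_cast h3
    · intro v c
      refine le_trans ?_ (hF.fewP v c)
      have h3 : Nat.card {u : Fin (2 * n) //
          c ∈ LK n H' u v ∧ (BadE δ d n s u v ∨ BadP δ d n s u c)} ≤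
          Nat.card {u : Fin (2 * n) //
          c ∈ Lp n s u v ∧ (BadE δ d n s u v ∨ BadP δ d n s u c)} :=
        Nat.card_mono (Set.toFinite _) (fun u hu => ⟨hsub' u v hu.1, hu.2⟩)
      exact_mod_cast h3
  have hbulk : Bulk η (2 * 3 / d) d (LK n H') (Zero (RPm M) (REm M)) :=
    bulk_red (Lm n s) (LK n H) (LK n H') (ker_LK n H) (ker_LK n H') hd (by norm_num) hLm hsub
      (RPm M) (REm M) hE hP hB
  obtain ⟨w, hws, hw0, hwb, hwE, hwP⟩ := det hVC hV12 (LK n H') (ker_LK n H') hc₁ hc₁'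
    (by norm_num : (1 : ℝ) ≤ 4) hθ hη0 (by positivity : (0 : ℝ) ≤ 2 * 3 / d)
    (by
      have h3 : (2 * 3 / d : ℝ) = 6 / d := by norm_num
      rw [h3]
      exact hη) hd (by positivity : (0 : ℝ) ≤ δ + 3 / d) hδ' hδδ' (RPm M) (REm M)
    (BadP δ d n s) (BadE δ d n s) hred hbulk (hS.mono hsub') (hM.mono hsub') hmin hnear
  have hwnn : ∀ u v c, 0 ≤ w u v c := by
    intro u v c
    by_cases hc : c ∈ LK n H' u v
    · exact le_trans (by positivity) (hwb u v c hc).1
    · rw [hw0 u v c hc]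
  have hwub : ∀ u v c, w u v c ≤ if c ∈ LK n H' u v then 3 / (2 * c₁ * d) else 0 := by
    intro u v c
    split_ifs with hc
    · exact (hwb u v c hc).2
    · rw [hw0 u v c hc]
  have hwlb : ∀ u v c, (if c ∈ LK n H' u v then 1 / (2 * 4 * d) else 0) ≤ w u v c := by
    intro u v c
    split_ifs with hc
    · exact (hwb u v c hc).1
    · rw [hw0 u v c hc]
  have hcV : (Fintype.card (Fin (2 * n - 1)) : ℝ) = 2 * n - 1 := by
    rw [Fintype.card_fin, Nat.cast_sub (by omega)]
    push_cast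
    ring
  -- the weights of one colour
  let R : Fin (2 * n - 1) → Finset (Fin (2 * n)) := fun c => univ.filter (fun v => RPm M v c)
  have hR : ∀ c v, v ∈ R c ↔ RPm M v c := fun c v => by simp [R]
  have hEdm : ∀ c, Edm (fun u v => w u v c + if u ∈ R c ∧ prt M c u = v then 1 else 0) := by
    intro c
    refine edm_glue ?_ (fun u v => w u v c) (R c) (prt M c) ?_ (fun u v => hwnn u v c)
      (fun u v => hws u v c) ?_ ?_ ?_ (θ * Fintype.card (Fin (2 * n - 1))) ?_ ?_
    · rw [Fintype.card_fin]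
      exact even_two_mul n
    · intro v hv
      rw [hR] at hv ⊢
      exact prt_prop hMc hv
    · intro v
      refine hw0 v v c ?_
      rw [(ker_LK n H').diag v]
      exact notMem_empty _
    · intro u hu v
      rw [hR] at hu
      refine hw0 u v c ?_
      rw [(ker_LK n H').symm u v]
      exact hred.pair u c hu v
    · intro u hu
      rw [hR] at hu
      rw [← hwP u c hu]
      exact sum_congr rfl fun v _ => hws u v c
    · intro W hW
      have h3 : ∑ u ∈ W, ∑ v ∈ W, w u v c ≤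
          (((W ×ˢ W).filter (fun p => c ∈ LK n H' p.1 p.2)).card : ℝ) * (3 / (2 * c₁ * d)) := by
        rw [← sum_product']
        calc ∑ p ∈ W ×ˢ W, w p.1 p.2 c
            ≤ ∑ p ∈ W ×ˢ W, if c ∈ LK n H' p.1 p.2 then 3 / (2 * c₁ * d) else 0 :=
              sum_le_sum fun p _ => hwub p.1 p.2 c
          _ = _ := by rw [← sum_filter, sum_const, nsmul_eq_mul]
      have h4 := (hS.mono hsub').col c W W hW
      have h5 : (((W ×ˢ W).filter (fun p => c ∈ LK n H' p.1 p.2)).card : ℝ) *
          (3 / (2 * c₁ * d)) ≤ (c₁ / (16 * (1 + 264 * 4)) * d * (W.card + W.card)) *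
          (3 / (2 * c₁ * d)) := mul_le_mul_of_nonneg_right h4 (by positivity)
      have h6 : (c₁ / (16 * (1 + 264 * 4)) * d * (W.card + W.card)) *
          (3 / (2 * c₁ * d)) = W.card * (3 / (16 * 1057)) := by
        field_simp
        ring
      rw [h6] at h5
      have h7 : (0 : ℝ) ≤ W.card := Nat.cast_nonneg _
      refine (h3.trans h5).trans ?_
      linarith
    · intro W hW1 hW2 hdis
      have h3 := hC c W hW1 hW2
      have h4 : (((W ×ˢ Wᶜ).filter (fun p => c ∈ LK n H' p.1 p.2)).card : ℝ) *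
          (1 / (2 * 4 * d)) ≤ ∑ u ∈ W, ∑ v ∈ Wᶜ, w u v c := by
        rw [← sum_product']
        calc (((W ×ˢ Wᶜ).filter (fun p => c ∈ LK n H' p.1 p.2)).card : ℝ) *
              (1 / (2 * 4 * d))
            = ∑ p ∈ W ×ˢ Wᶜ, if c ∈ LK n H' p.1 p.2 then 1 / (2 * 4 * d) else 0 := by
              rw [← sum_filter, sum_const, nsmul_eq_mul]
          _ ≤ ∑ p ∈ W ×ˢ Wᶜ, w p.1 p.2 c := sum_le_sum fun p _ => hwlb p.1 p.2 c
      have h5 : ((W ×ˢ Wᶜ).filter (fun p => c ∈ Lm n s p.1 p.2)).card ≤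
          ((W ×ˢ Wᶜ).filter (fun p => c ∈ LK n H' p.1 p.2)).card + W.card * 3 := by
        have h6 : ((W ×ˢ Wᶜ).filter (fun p => c ∈ Lm n s p.1 p.2)) ⊆
            ((W ×ˢ Wᶜ).filter (fun p => c ∈ LK n H' p.1 p.2)) ∪
            W.biUnion (fun u => (univ.filter
              (fun v => c ∈ LK n H v u ∧ c ∉ LK n H' v u)).image (fun v => (u, v))) := by
          rintro ⟨u, v⟩ hp
          rw [mem_filter, mem_product] at hp
          rw [mem_union, mem_filter, mem_product]
          by_cases h7 : c ∈ LK n H' u v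
          · exact Or.inl ⟨hp.1, h7⟩
          · right
            rw [mem_biUnion]
            refine ⟨u, hp.1.1, mem_image.mpr ⟨v, ?_, rfl⟩⟩
            rw [mem_filter]
            refine ⟨mem_univ _, ?_, ?_⟩
            · rw [(ker_LK n H).symm v u]
              exact hLm u v hp.2
            · rw [(ker_LK n H').symm v u]
              exact h7
        refine (card_le_card h6).trans ((card_union_le _ _).trans ?_)
        refine Nat.add_le_add_left (card_biUnion_le_card_mul _ _ 3 fun u hu => ?_) _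
        refine card_image_le.trans ?_
        have h8 : ¬ RPm M u c := by
          rw [← hR]
          exact fun h9 => (disjoint_left.mp hdis) hu h9
        exact_mod_cast hP u c h8
      have h6 : (((W ×ˢ Wᶜ).filter (fun p => c ∈ Lm n s p.1 p.2)).card : ℝ) ≤
          ((W ×ˢ Wᶜ).filter (fun p => c ∈ LK n H' p.1 p.2)).card + W.card * 3 := by
        exact_mod_cast h5
      have h7 : (W.card : ℝ) ≤ n := by
        rw [Fintype.card_fin] at hW2
        have : W.card ≤ n := by omega
        exact_mod_cast this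
      have h8 : 8 * d ≤ (((W ×ˢ Wᶜ).filter (fun p => c ∈ LK n H' p.1 p.2)).card : ℝ) := by
        linarith
      refine le_trans ?_ h4
      have h9 : 8 * d * (1 / (2 * 4 * d)) = 1 := by
        field_simp
        norm_num
      exact h9.symm.le.trans (mul_le_mul_of_nonneg_right h8 (by positivity))
  have hsum : ∀ u v, u ≠ v →
      ∑ c, (w u v c + if u ∈ R c ∧ prt M c u = v then 1 else 0) = 1 := by
    intro u v huv
    rw [sum_add_distrib]
    by_cases hRE : REm M u v
    · have h3 : ∑ c, w u v c = 0 := by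
        refine sum_eq_zero fun c _ => hw0 u v c ?_
        rw [hred.edge u v hRE]
        exact notMem_empty _
      obtain ⟨j, hj, hje⟩ := hRE
      have h4 : ∀ c, (if u ∈ R c ∧ prt M c u = v then (1 : ℝ) else 0) =
          if c = j.1 then 1 else 0 := by
        intro c
        have h5 : (u ∈ R c ∧ prt M c u = v) ↔ c = j.1 := by
          rw [hR, prt_iff hMc]
          constructor
          · rintro ⟨j', hj', hc', he'⟩
            have h6 : j' = j := hMc j' hj' j hj (Or.inr ⟨u, by
              rw [he']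
              exact Sym2.mem_mk_left _ _, by
              rw [hje]
              exact Sym2.mem_mk_left _ _⟩)
            rw [← hc', h6]
          · intro h6
            exact ⟨j, hj, h6.symm, hje⟩
        by_cases h6 : c = j.1
        · rw [if_pos h6, if_pos (h5.mpr h6)]
        · rw [if_neg h6, if_neg (fun h7 => h6 (h5.mp h7))]
      rw [h3, sum_congr rfl fun c _ => h4 c, sum_ite_eq', if_pos (mem_univ _)]
      norm_num
    · rw [hwE u v huv hRE, sum_eq_zero, add_zero]
      intro c _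
      rw [if_neg]
      intro h3
      rw [hR, prt_iff hMc] at h3
      obtain ⟨j, hj, -, hje⟩ := h3
      exact hRE ⟨j, hj, hje⟩
  obtain ⟨P, hP1, -⟩ := fracCol_of (fun e => univ.filter (fun c => ((c, e) : J n) ∈ H))
    (fun u v c => w u v c + if u ∈ R c ∧ prt M c u = v then 1 else 0) hEdm hsum (by
      intro u v c h hf
      rw [mem_filter]
      refine ⟨mem_univ _, ?_⟩
      by_cases h3 : u ∈ R c ∧ prt M c u = v
      · rw [hR, prt_iff hMc] at h3
        obtain ⟨j, hj, hc, he⟩ := h3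
        have h4 : j = ((c, ⟨s(u, v), h⟩) : J n) := Prod.ext hc (Subtype.ext he)
        rw [← h4]
        exact hMH j hj
      · simp only [if_neg h3, add_zero] at hf
        by_cases h4 : c ∈ LK n H' u v
        · obtain ⟨_, h5⟩ := mem_LK.mp (hsub u v h4)
          exact h5
        · exact absurd (hw0 u v c h4) hf)
  exact ⟨P, hP1⟩

end

end Pool.Agent.Lib.FR
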