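import Pool.Agent.Lib.MP_6d56f7_co_FR.Defs

set_option autoImplicit false

/-! The layer cake lemma for sums of minima over a locally sparse relation. -/

namespace Pool.Agent.Lib.FR

open Finset MeasureTheory

/-- `min a b` as the measure of a set of levels -/
private theorem min_eq_real {a b : ℝ} (ha : 0 ≤ a) (hb : 0 ≤ b) :
    min a b = ∫ t in Set.Ioi (0 : ℝ), (if t < a ∧ t < b then (1 : ℝ) else 0) := by
  have h1 : (fun t : ℝ => if t < a ∧ t < b then (1 : ℝ) else 0) =
      (Set.Iio (min a b)).indicator (fun _ => (1 : ℝ)) := by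
    funext t
    by_cases h : t < a ∧ t < b
    · rw [if_pos h, Set.indicator_of_mem (by simpa using h)]
    · rw [if_neg h, Set.indicator_of_notMem (by simpa using h)]
  rw [h1, setIntegral_indicator measurableSet_Iio, Set.Ioi_inter_Iio]
  simp [ha, hb]

private theorem eq_real {a : ℝ} (ha : 0 ≤ a) :
    a = ∫ t in Set.Ioi (0 : ℝ), (if t < a then (1 : ℝ) else 0) := by
  have h := min_eq_real ha ha
  simpa using h

private theorem integrable_lvl (a b : ℝ) :
    Integrable (fun t : ℝ => if t < a ∧ t < b then (1 : ℝ) else 0)
      (volume.restrict (Set.Ioi (0 : ℝ))) := by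
  have h1 : (fun t : ℝ => if t < a ∧ t < b then (1 : ℝ) else 0) =
      (Set.Iio (min a b)).indicator (fun _ => (1 : ℝ)) := by
    funext t
    by_cases h : t < a ∧ t < b
    · rw [if_pos h, Set.indicator_of_mem (by simpa using h)]
    · rw [if_neg h, Set.indicator_of_notMem (by simpa using h)]
  rw [h1, integrable_indicator_iff measurableSet_Iio]
  refine integrableOn_const ?_ (by simp)
  rw [Measure.restrict_apply measurableSet_Iio, Set.inter_comm, Set.Ioi_inter_Iio]
  simp

private theorem integrable_lvl' (a : ℝ) :
    Integrable (fun t : ℝ => if t < a then (1 : ℝ) else 0)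
      (volume.restrict (Set.Ioi (0 : ℝ))) := by
  have h := integrable_lvl a a
  simpa using h

theorem layer_cake {U W : Type} [Fintype U] [DecidableEq U] [Fintype W] [DecidableEq W]
    (G : U → W → Prop) [∀ u w, Decidable (G u w)] (A₀ : Finset U) (lam : ℝ) (hlam : 0 ≤ lam)
    (hG : ∀ A : Finset U, A ⊆ A₀ → ∀ Y : Finset W,
      (((A ×ˢ Y).filter (fun p => G p.1 p.2)).card : ℝ) ≤ lam * (A.card + Y.card))
    (f : U → ℝ) (g : W → ℝ) (hf : ∀ u, 0 ≤ f u) (hg : ∀ w, 0 ≤ g w) :
    ∑ u ∈ A₀, ∑ w, (if G u w then min (f u) (g w) else 0) ≤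
      lam * (∑ u ∈ A₀, f u + ∑ w, g w) := by
  have hL : ∑ u ∈ A₀, ∑ w, (if G u w then min (f u) (g w) else 0) =
      ∫ t in Set.Ioi (0 : ℝ), ∑ u ∈ A₀, ∑ w,
        (if G u w then (if t < f u ∧ t < g w then (1 : ℝ) else 0) else 0) := by
    rw [integral_finset_sum]
    · refine Finset.sum_congr rfl fun u _ => ?_
      rw [integral_finset_sum]
      · refine Finset.sum_congr rfl fun w _ => ?_
        split_ifs
        · exact min_eq_real (hf u) (hg w)
        · simp
      · intro w _
        split_ifs
        · exact integrable_lvl _ _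
        · exact integrable_zero _ _ _
    · intro u _
      refine integrable_finset_sum _ fun w _ => ?_
      split_ifs
      · exact integrable_lvl _ _
      · exact integrable_zero _ _ _
  have hR : lam * (∑ u ∈ A₀, f u + ∑ w, g w) =
      ∫ t in Set.Ioi (0 : ℝ), lam * (∑ u ∈ A₀, (if t < f u then (1 : ℝ) else 0) +
        ∑ w, (if t < g w then (1 : ℝ) else 0)) := by
    rw [integral_const_mul, integral_add, integral_finset_sum, integral_finset_sum]
    · congr 2
      · exact Finset.sum_congr rfl fun u _ => eq_real (hf u)
      · exact Finset.sum_congr rfl fun w _ => eq_real (hg w)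
    · exact fun w _ => integrable_lvl' _
    · exact fun u _ => integrable_lvl' _
    · exact integrable_finset_sum _ fun u _ => integrable_lvl' _
    · exact integrable_finset_sum _ fun w _ => integrable_lvl' _
  rw [hL, hR]
  refine integral_mono ?_ ?_ ?_
  · refine integrable_finset_sum _ fun u _ => integrable_finset_sum _ fun w _ => ?_
    split_ifs
    · exact integrable_lvl _ _
    · exact integrable_zero _ _ _
  · exact ((integrable_finset_sum _ fun u _ => integrable_lvl' _).add
      (integrable_finset_sum _ fun w _ => integrable_lvl' _)).const_mul lam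
  · intro t
    have h := hG (A₀.filter (fun u => t < f u)) (Finset.filter_subset _ _)
      (univ.filter (fun w => t < g w))
    have h1 : ((((A₀.filter (fun u => t < f u)) ×ˢ (univ.filter (fun w => t < g w))).filter
        (fun p => G p.1 p.2)).card : ℝ) = ∑ u ∈ A₀, ∑ w,
        (if G u w then (if t < f u ∧ t < g w then (1 : ℝ) else 0) else 0) := by
      rw [Finset.card_filter, Nat.cast_sum, Finset.sum_product, Finset.sum_filter]
      refine Finset.sum_congr rfl fun u _ => ?_
      by_cases hu : t < f u
      · rw [if_pos hu, Finset.sum_filter]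
        refine Finset.sum_congr rfl fun w _ => ?_
        by_cases hw : t < g w <;> by_cases hG' : G u w <;> simp [hu, hw, hG']
      · rw [if_neg hu]
        symm
        refine Finset.sum_eq_zero fun w _ => ?_
        simp [hu]
    have h2 : ((A₀.filter (fun u => t < f u)).card : ℝ) =
        ∑ u ∈ A₀, (if t < f u then (1 : ℝ) else 0) := by
      rw [Finset.card_filter]; push_cast; rfl
    have h3 : ((univ.filter (fun w => t < g w)).card : ℝ) =
        ∑ w, (if t < g w then (1 : ℝ) else 0) := by
      rw [Finset.card_filter]; push_cast; rfl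
    rw [h1, h2, h3] at h
    exact h

end Pool.Agent.Lib.FR
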