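import Pool.Agent.Lib.MP_6d56f7_co_FR.Tails

/-!
# Elements, stars and conflicts
-/

set_option autoImplicit false

namespace Pool.Agent.Lib.FR

open Finset

/-- the elements: edges and (vertex, colour) pairs -/
abbrev El (n : ℕ) : Type := Edge (Fin (2 * n)) ⊕ (Fin (2 * n) × Fin (2 * n - 1))

/-- the star of an element -/
def st (n : ℕ) : El n → Finset (J n)
  | .inl e => univ.filter (fun j => j.2 = e)
  | .inr p => univ.filter (fun j => j.1 = p.2 ∧ p.1 ∈ j.2.1)

/-- two (colour, edge) pairs are in conflict if they have the same colour or share a vertex -/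
def Cf (n : ℕ) (g g' : J n) : Prop := g.1 = g'.1 ∨ ∃ v, v ∈ g.2.1 ∧ v ∈ g'.2.1

theorem mem_st_inl {n : ℕ} {e : Edge (Fin (2 * n))} {j : J n} :
    j ∈ st n (.inl e) ↔ j.2 = e := by
  simp [st]

theorem mem_st_inr {n : ℕ} {v : Fin (2 * n)} {c : Fin (2 * n - 1)} {j : J n} :
    j ∈ st n (.inr (v, c)) ↔ j.1 = c ∧ v ∈ j.2.1 := by
  simp [st]

theorem st_card (n : ℕ) (a : El n) : (st n a).card = 2 * n - 1 := by
  rcases a with e | ⟨v, c⟩
  · have h : st n (.inl e) = univ.image (fun c : Fin (2 * n - 1) => ((c, e) : J n)) := by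
      ext ⟨c, e'⟩
      rw [mem_st_inl, mem_image]
      constructor
      · intro h
        exact ⟨c, mem_univ _, by rw [← h]⟩
      · rintro ⟨c', -, h⟩
        exact (congrArg Prod.snd h).symm
    rw [h, card_image_of_injective, card_univ, Fintype.card_fin]
    intro c c' h
    exact congrArg Prod.fst h
  · have h : st n (.inr (v, c)) = (univ.erase v).attach.image
        (fun w => ((c, ⟨s(v, w.1), by
          rw [Sym2.mk_isDiag_iff]
          exact fun h => (mem_erase.mp w.2).1 h.symm⟩) : J n)) := by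
      ext ⟨c', e'⟩
      rw [mem_st_inr, mem_image]
      constructor
      · rintro ⟨h1, h2⟩
        simp only at h1 h2
        obtain ⟨w, hw⟩ := h2
        have hne : w ≠ v := by
          intro hwv
          apply e'.2
          rw [hw, hwv]
          exact Sym2.mk_isDiag_iff.mpr rfl
        refine ⟨⟨w, mem_erase.mpr ⟨hne, mem_univ _⟩⟩, mem_attach _ _, ?_⟩
        refine Prod.ext h1.symm (Subtype.ext hw.symm)
      · rintro ⟨w, -, h⟩
        have h1 := congrArg Prod.fst h
        have h2 := congrArg (fun j : J n => j.2.1) h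
        simp only at h1 h2
        refine ⟨h1.symm, ?_⟩
        simp only
        rw [← h2]
        exact Sym2.mem_mk_left _ _
    rw [h, card_image_of_injective, card_attach, card_erase_of_mem (mem_univ _), card_univ,
      Fintype.card_fin]
    intro w w' h
    have h2 := congrArg (fun j : J n => j.2.1) h
    simp only at h2
    exact Subtype.ext (Sym2.congr_right.mp h2)

theorem st_inter {n : ℕ} {a b : El n} (hab : a ≠ b) {g g' : J n} (h1 : g ∈ st n a)
    (h2 : g ∈ st n b) (h3 : g' ∈ st n a) (h4 : g' ∈ st n b) : g = g' := by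
  rcases a with e | ⟨v, c⟩ <;> rcases b with e' | ⟨v', c'⟩
  · rw [mem_st_inl] at h1 h2
    exact absurd (by rw [← h1, ← h2]) hab
  · rw [mem_st_inl] at h1 h3
    rw [mem_st_inr] at h2 h4
    exact Prod.ext (h2.1.trans h4.1.symm) (h1.trans h3.symm)
  · rw [mem_st_inl] at h2 h4
    rw [mem_st_inr] at h1 h3
    exact Prod.ext (h1.1.trans h3.1.symm) (h2.trans h4.symm)
  · rw [mem_st_inr] at h1 h2 h3 h4
    have hc : c = c' := h1.1.symm.trans h2.1
    have hv : v ≠ v' := by
      rintro rfl
      exact hab (by rw [hc])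
    have e1 := (Sym2.mem_and_mem_iff hv).mp ⟨h1.2, h2.2⟩
    have e2 := (Sym2.mem_and_mem_iff hv).mp ⟨h3.2, h4.2⟩
    exact Prod.ext (h1.1.trans h3.1.symm) (Subtype.ext (e1.trans e2.symm))

theorem st_union_card {n : ℕ} {a b : El n} (hab : a ≠ b) :
    4 * n ≤ (st n a ∪ st n b).card + 3 := by
  have h1 := card_union_add_card_inter (st n a) (st n b)
  have h2 : (st n a ∩ st n b).card ≤ 1 := by
    rw [card_le_one]
    intro g hg g' hg'
    rw [mem_inter] at hg hg'
    exact st_inter hab hg.1 hg.2 hg'.1 hg'.2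
  rw [st_card, st_card] at h1
  omega

theorem els_card (n : ℕ) (g : J n) : (univ.filter (fun a => g ∈ st n a)).card ≤ 3 := by
  obtain ⟨c, ⟨e, he⟩⟩ := g
  induction e using Sym2.ind with
  | _ u w =>
    have hsub : (univ.filter (fun a => ((c, ⟨s(u, w), he⟩) : J n) ∈ st n a)) ⊆
        {Sum.inl ⟨s(u, w), he⟩, Sum.inr (u, c), Sum.inr (w, c)} := by
      intro a ha
      rw [mem_filter] at ha
      rcases a with e' | ⟨v, c'⟩
      · have := mem_st_inl.mp ha.2
        simp only at this
        rw [mem_insert]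
        exact Or.inl (by rw [this])
      · have h := mem_st_inr.mp ha.2
        simp only at h
        rw [mem_insert, mem_insert, mem_singleton]
        rcases Sym2.mem_iff.mp h.2 with h' | h'
        · exact Or.inr (Or.inl (by rw [h', h.1]))
        · exact Or.inr (Or.inr (by rw [h', h.1]))
    exact (card_le_card hsub).trans (card_le_three)

theorem cf_card (n : ℕ) (g : J n) [DecidablePred (Cf n g)] :
    (univ.filter (fun g' => Cf n g g')).card ≤ 12 * n ^ 2 := by
  obtain ⟨c, ⟨e, he⟩⟩ := g
  induction e using Sym2.ind with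
  | _ u w =>
    have hsub : (univ.filter (fun g' => Cf n ((c, ⟨s(u, w), he⟩) : J n) g')) ⊆
        (univ.biUnion (fun v : Fin (2 * n) => st n (.inr (v, c)))) ∪
        ((univ.biUnion (fun c' : Fin (2 * n - 1) => st n (.inr (u, c')))) ∪
          (univ.biUnion (fun c' : Fin (2 * n - 1) => st n (.inr (w, c'))))) := by
      intro g' hg
      rw [mem_filter] at hg
      rw [mem_union, mem_union, mem_biUnion, mem_biUnion, mem_biUnion]
      rcases hg.2 with h | ⟨v, h1, h2⟩
      · left
        obtain ⟨c', ⟨e', he'⟩⟩ := g'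
        induction e' using Sym2.ind with
        | _ x y =>
          exact ⟨x, mem_univ _, mem_st_inr.mpr ⟨h.symm, Sym2.mem_mk_left _ _⟩⟩
      · right
        rcases Sym2.mem_iff.mp h1 with h' | h'
        · left
          exact ⟨g'.1, mem_univ _, mem_st_inr.mpr ⟨rfl, h' ▸ h2⟩⟩
        · right
          exact ⟨g'.1, mem_univ _, mem_st_inr.mpr ⟨rfl, h' ▸ h2⟩⟩
    have h1 : (univ.biUnion (fun v : Fin (2 * n) => st n (.inr (v, c)))).card ≤
        (2 * n) * (2 * n - 1) := by
      refine (card_biUnion_le_card_mul _ _ (2 * n - 1) fun v _ => (st_card n _).le).trans ?_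
      rw [card_univ, Fintype.card_fin]
    have h2 : ∀ x : Fin (2 * n), (univ.biUnion (fun c' : Fin (2 * n - 1) =>
        st n (.inr (x, c')))).card ≤ (2 * n - 1) * (2 * n - 1) := by
      intro x
      refine (card_biUnion_le_card_mul _ _ (2 * n - 1) fun v _ => (st_card n _).le).trans ?_
      rw [card_univ, Fintype.card_fin]
    refine (card_le_card hsub).trans ((card_union_le _ _).trans ?_)
    have h3 := (card_union_le (univ.biUnion (fun c' : Fin (2 * n - 1) => st n (.inr (u, c'))))
      (univ.biUnion (fun c' : Fin (2 * n - 1) => st n (.inr (w, c'))))).trans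
        (Nat.add_le_add (h2 u) (h2 w))
    refine (Nat.add_le_add h1 h3).trans ?_
    have h4 : 2 * n - 1 ≤ 2 * n := Nat.sub_le _ _
    have h5 : (2 * n) * (2 * n - 1) ≤ (2 * n) * (2 * n) := Nat.mul_le_mul_left _ h4
    have h6 : (2 * n - 1) * (2 * n - 1) ≤ (2 * n) * (2 * n) := Nat.mul_le_mul h4 h4
    nlinarith

theorem edge_card (n : ℕ) : Fintype.card (Edge (Fin (2 * n))) = n * (2 * n - 1) := by
  have h := Sym2.card_subtype_not_diag (α := Fin (2 * n))
  rw [Fintype.card_fin, Nat.choose_two_right] at h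
  have h2 : 2 * n * (2 * n - 1) / 2 = n * (2 * n - 1) := by
    rw [mul_assoc, Nat.mul_div_cancel_left _ (by norm_num)]
  rw [h2] at h
  rw [← h]

theorem J_card (n : ℕ) : Fintype.card (J n) = (2 * n - 1) * (n * (2 * n - 1)) := by
  rw [Fintype.card_prod, Fintype.card_fin, edge_card]

theorem El_card (n : ℕ) : Fintype.card (El n) = 3 * (n * (2 * n - 1)) := by
  rw [Fintype.card_sum, Fintype.card_prod, Fintype.card_fin, Fintype.card_fin, edge_card]
  have h : 2 * n * (2 * n - 1) = 2 * (n * (2 * n - 1)) := mul_assoc _ _ _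
  rw [h]
  omega

end Pool.Agent.Lib.FR
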