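import Pool.Agent.Lib.MP_6d56f7_co_FR.Api
import Pool.Agent.Lib.MP_6d56f7_co_FR.DefsT
import Pool.Agent.Lib.MP_6d56f7_co_FR.Stars

/-! # Random list assignments as product spaces -/

set_option autoImplicit false

namespace Pool.Agent.Lib.FR

open Finset

theorem listProb_eq (n : ℕ) (p : ℝ)
    (Q : (Edge (Fin (2 * n)) → Finset (Fin (2 * n - 1))) → Prop) :
    listProb n p Q = Pr (qq p p) (fun s : J n → Fin 3 =>
      Q (fun e => univ.filter (fun c => s (c, e) ≠ 0))) := by
  classical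
  rw [Pr_eq]
  have h1 := Ex_map (I := J n) (qq p p) (fun a : Fin 3 => decide (a ≠ 0))
    (fun t : J n → Bool => if Q (fun e => univ.filter (fun c => t (c, e) = true)) then (1 : ℝ)
      else 0)
  simp only [decide_eq_true_eq] at h1
  rw [h1]
  unfold Ex listProb
  have hw : ∀ b : Bool, (∑ a : Fin 3, if decide (a ≠ 0) = b then qq p p a else 0) =
      if b = true then p else 1 - p := by
    intro b
    cases b <;> simp [Fin.sum_univ_three, qq]
  simp only [hw]
  symm
  refine Fintype.sum_equiv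
    { toFun := fun t e => univ.filter (fun c => t (c, e) = true)
      invFun := fun L i => decide (i.1 ∈ L i.2)
      left_inv := ?_
      right_inv := ?_ } _ _ ?_
  · intro t
    funext i
    simp
  · intro L
    funext e
    ext c
    simp
  · intro t
    simp only [Equiv.coe_fn_mk]
    split_ifs with h
    · rw [mul_one, Fintype.prod_prod_type_right]
      simp
    · simp

theorem no_one (n : ℕ) (p : ℝ) (h0 : 0 ≤ p) (h1 : p ≤ 1) :
    Pr (qq p p) (fun s : J n → Fin 3 => ∃ i, s i = 1) = 0 := by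
  classical
  have hq := fun a => qq_nonneg h0 (le_refl p) h1 a
  refine le_antisymm ?_ (Pr_nonneg hq _)
  have h2 := Pr_exists hq (univ : Finset (J n)) (fun i s => s i = 1)
  simp only [mem_univ, true_and] at h2
  refine h2.trans (le_of_eq (sum_eq_zero fun i _ => ?_))
  rw [Pr_eq, Ex_coord (qq_sum p p) i (fun a => if a = 1 then (1 : ℝ) else 0)]
  simp [qq]

namespace ListP

theorem one_sub_pow_le {e : ℝ} (he : 0 < e) (he1 : e ≤ 1) {n : ℕ} (hn : 2 ≤ n) {p : ℝ}
    (hp0 : 0 ≤ p) (hp : p ≤ (1 - e) * Real.log n / n) (hl : Real.log n / n ≤ e / 3) :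
    (n : ℝ) ^ (-(2 - e)) ≤ (1 - p) ^ (2 * n - 1) := by
  have hn0 : (0 : ℝ) < n := by positivity
  have hlog : 0 ≤ Real.log n := Real.log_nonneg (by exact_mod_cast (by omega : 1 ≤ n))
  have hp1 : p ≤ e / 3 := by
    refine hp.trans (le_trans ?_ hl)
    rw [mul_div_assoc]
    exact mul_le_of_le_one_left (by positivity) (by linarith)
  have hp2 : p ≤ 1 / 3 := by linarith
  have h1p : 0 < 1 - p := by linarith
  have hexp : Real.exp (-(p / (1 - p))) ≤ 1 - p := by
    have h := Real.add_one_le_exp (p / (1 - p))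
    have h2 : p / (1 - p) + 1 = (1 - p)⁻¹ := by field_simp; ring
    rw [h2] at h
    rw [Real.exp_neg]
    exact inv_le_of_inv_le₀ h1p h
  have h3 : (1 - p) ^ (2 * n) ≤ (1 - p) ^ (2 * n - 1) :=
    pow_le_pow_of_le_one h1p.le (by linarith) (by omega)
  refine le_trans ?_ h3
  have h4 : Real.exp (-(p / (1 - p))) ^ (2 * n) ≤ (1 - p) ^ (2 * n) :=
    pow_le_pow_left₀ (Real.exp_pos _).le hexp _
  refine le_trans ?_ h4
  rw [← Real.exp_nat_mul, Real.rpow_def_of_pos hn0]
  apply Real.exp_le_exp.mpr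
  push_cast
  have h5 : p / (1 - p) ≤ p * (1 + e / 2) := by
    rw [div_le_iff₀ h1p]
    have : 0 ≤ p * (e / 2 - p * (1 + e / 2)) := by
      apply mul_nonneg hp0
      nlinarith
    nlinarith
  have h6 : p * n ≤ (1 - e) * Real.log n := by
    rwa [le_div_iff₀ hn0] at hp
  have h7 : 2 * (n : ℝ) * (p / (1 - p)) ≤ (2 - e) * Real.log n := by
    calc 2 * (n : ℝ) * (p / (1 - p)) ≤ 2 * n * (p * (1 + e / 2)) :=
          mul_le_mul_of_nonneg_left h5 (by positivity)
      _ = (p * n) * (2 + e) := by ring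
      _ ≤ ((1 - e) * Real.log n) * (2 + e) := mul_le_mul_of_nonneg_right h6 (by linarith)
      _ = (2 - e - e ^ 2) * Real.log n := by ring
      _ ≤ (2 - e) * Real.log n := mul_le_mul_of_nonneg_right (by nlinarith) hlog
  linarith

theorem prob_nonempty (n : ℕ) (p : ℝ) :
    listProb n p (fun L => ∀ e, (L e).Nonempty) =
      (1 - (1 - p) ^ (2 * n - 1)) ^ (n * (2 * n - 1)) := by
  classical
  unfold listProb
  have h1 : ∀ L : Edge (Fin (2 * n)) → Finset (Fin (2 * n - 1)),
      (if ∀ e, (L e).Nonempty then ∏ e, ∏ c, (if c ∈ L e then p else 1 - p) else 0) =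
      ∏ e, (if (L e).Nonempty then ∏ c, (if c ∈ L e then p else 1 - p) else 0) := by
    intro L
    split_ifs with h
    · exact prod_congr rfl fun e _ => (if_pos (h e)).symm
    · push Not at h
      obtain ⟨e, he⟩ := h
      symm
      apply prod_eq_zero (mem_univ e)
      rw [if_neg]
      rw [he]
      exact not_nonempty_empty
  have h2 : ∑ A : Finset (Fin (2 * n - 1)),
      (if A.Nonempty then ∏ c, (if c ∈ A then p else 1 - p) else 0) =
      1 - (1 - p) ^ (2 * n - 1) := by
    have h3 : ∑ A : Finset (Fin (2 * n - 1)), ∏ c, (if c ∈ A then p else 1 - p) = 1 := by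
      have h := prod_add (fun _ : Fin (2 * n - 1) => p) (fun _ => 1 - p) univ
      rw [powerset_univ] at h
      simp only [add_sub_cancel, prod_const_one] at h
      refine Eq.trans ?_ h.symm
      refine sum_congr rfl fun A _ => ?_
      rw [prod_ite]
      congr 1
      · congr 1
        ext; simp
      · congr 1
        ext; simp
    have h4 : ∑ A : Finset (Fin (2 * n - 1)), ∏ c, (if c ∈ A then p else 1 - p) =
        ∑ A : Finset (Fin (2 * n - 1)),
          (if A.Nonempty then ∏ c, (if c ∈ A then p else 1 - p) else 0) +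
        ∑ A : Finset (Fin (2 * n - 1)), (if A = ∅ then (1 - p) ^ (2 * n - 1) else 0) := by
      rw [← sum_add_distrib]
      refine sum_congr rfl fun A _ => ?_
      rcases A.eq_empty_or_nonempty with rfl | hA
      · simp
      · rw [if_pos hA, if_neg hA.ne_empty, add_zero]
    rw [h3, sum_ite_eq' univ ∅ (fun _ => (1 - p) ^ (2 * n - 1)), if_pos (mem_univ _)] at h4
    linarith
  have h5 := prod_univ_sum (fun _ : Edge (Fin (2 * n)) => (univ : Finset (Finset (Fin (2 * n - 1)))))
    (fun _ A => if A.Nonempty then ∏ c, (if c ∈ A then p else 1 - p) else 0)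
  rw [Fintype.piFinset_univ] at h5
  refine (sum_congr rfl fun L _ => ?_).trans
    (h5.symm.trans (by rw [h2, prod_const, card_univ, edge_card]))
  refine Eq.trans ?_ (h1 L)
  congr 1

end ListP

theorem some_empty {ε : ℝ} (hε : 0 < ε) {δ : ℝ} (hδ : 0 < δ) : ∃ n₀ : ℕ, ∀ n ≥ n₀, ∀ p : ℝ,
    0 ≤ p → p ≤ (1 - ε) * Real.log n / n → listProb n p (fun L => ∀ e, (L e).Nonempty) < δ := by
  set e : ℝ := min ε 1 with he
  have he0 : 0 < e := lt_min hε one_pos
  have he1 : e ≤ 1 := min_le_right _ _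
  have hee : e ≤ ε := min_le_left _ _
  have t1 : Filter.Tendsto (fun n : ℕ => Real.log (n : ℝ) / n) Filter.atTop (nhds 0) := by
    have h := (Real.isLittleO_log_id_atTop).tendsto_div_nhds_zero
    exact h.comp tendsto_natCast_atTop_atTop
  have t2 : Filter.Tendsto (fun n : ℕ => (n : ℝ) ^ e) Filter.atTop Filter.atTop :=
    (tendsto_rpow_atTop he0).comp tendsto_natCast_atTop_atTop
  have ev1 : ∀ᶠ n : ℕ in Filter.atTop, Real.log (n : ℝ) / n ≤ e / 3 := by
    have := t1.eventually (gt_mem_nhds (show (0 : ℝ) < e / 3 by positivity))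
    exact this.mono fun n hn => hn.le
  have ev2 : ∀ᶠ n : ℕ in Filter.atTop, -Real.log δ < (n : ℝ) ^ e :=
    t2.eventually (Filter.eventually_gt_atTop _)
  obtain ⟨n₀, hn₀⟩ := Filter.eventually_atTop.1 ((ev1.and ev2).and (Filter.eventually_ge_atTop 2))
  refine ⟨n₀, fun n hn p hp0 hp => ?_⟩
  obtain ⟨⟨h1, h2⟩, h3⟩ := hn₀ n hn
  have hn0 : (0 : ℝ) < n := by positivity
  have hn1 : (1 : ℝ) ≤ n := by exact_mod_cast (by omega : 1 ≤ n)
  have hlog : 0 ≤ Real.log n := Real.log_nonneg hn1
  have hp' : p ≤ (1 - e) * Real.log n / n := by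
    refine hp.trans ?_
    apply div_le_div_of_nonneg_right _ hn0.le
    exact mul_le_mul_of_nonneg_right (by linarith) hlog
  have h4 := ListP.one_sub_pow_le he0 he1 h3 hp0 hp' h1
  rw [ListP.prob_nonempty]
  have hp1 : p ≤ 1 / 3 := by
    refine hp'.trans ?_
    rw [mul_div_assoc]
    have : (1 - e) * (Real.log n / n) ≤ 1 * (e / 3) :=
      mul_le_mul (by linarith) h1 (by positivity) (by norm_num)
    linarith
  set a : ℝ := (1 - p) ^ (2 * n - 1) with ha
  have ha1 : a ≤ 1 := pow_le_one₀ (by linarith) (by linarith)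
  have h5 : (1 - a) ^ (n * (2 * n - 1)) ≤ Real.exp (-a) ^ (n * (2 * n - 1)) := by
    apply pow_le_pow_left₀ (by linarith)
    have := Real.add_one_le_exp (-a)
    linarith
  refine lt_of_le_of_lt h5 ?_
  rw [← Real.exp_nat_mul]
  rw [← Real.lt_log_iff_exp_lt hδ]
  have h6 : (n : ℝ) ^ (2 : ℝ) ≤ ((n * (2 * n - 1) : ℕ) : ℝ) := by
    rw [Real.rpow_two]
    have : n ^ 2 ≤ n * (2 * n - 1) := by
      rw [pow_two]
      exact Nat.mul_le_mul_left _ (by omega)
    exact_mod_cast this
  have h7 : (n : ℝ) ^ e ≤ ((n * (2 * n - 1) : ℕ) : ℝ) * a := by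
    calc (n : ℝ) ^ e = (n : ℝ) ^ (2 : ℝ) * (n : ℝ) ^ (-(2 - e)) := by
          rw [← Real.rpow_add hn0]; congr 1; ring
      _ ≤ ((n * (2 * n - 1) : ℕ) : ℝ) * a :=
          mul_le_mul h6 h4 (by positivity) (by positivity)
  linarith

end Pool.Agent.Lib.FR
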