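import Pool.Agent.Lib.MP_6d56f7_co_FR.Stars

/-!
# Elements of small degree are far apart
-/

set_option autoImplicit false

namespace Pool.Agent.Lib.FR

open Finset

/-- the degree of an element in the small system -/
def dg (n : ℕ) (s : J n → Fin 3) (a : El n) : ℕ := ((st n a).filter (fun j => s j = 2)).card

/-- two different elements of degree less than `D` in the small system do not have conflicting
hyperedges in the large system -/
def LowOK (D : ℝ) (n : ℕ) (s : J n → Fin 3) : Prop :=
  ∀ a a', a ≠ a' → (dg n s a : ℝ) < D → (dg n s a' : ℝ) < D →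
    ∀ g ∈ st n a, ∀ g' ∈ st n a', s g ≠ 0 → s g' ≠ 0 → ¬ Cf n g g'

namespace LowAux

/-- the elementary bad event -/
def Ev (D : ℝ) (n : ℕ) (g g' : J n) (a a' : El n) (s : J n → Fin 3) : Prop :=
  a ≠ a' ∧ (∀ i ∈ ({g, g'} : Finset (J n)), s i ≠ 0) ∧
    ((((st n a ∪ st n a') \ {g, g'}).filter fun i => s i = 2).card : ℝ) ≤ 2 * D

theorem ev_prob {n : ℕ} {pm pp : ℝ} (h0 : 0 ≤ pm) (h1 : pm ≤ pp)
    (h2 : pp ≤ 1) {lam : ℝ} (hl : 0 ≤ lam) (D : ℝ) (g g' : J n) (a a' : El n) :
    Pr (qq pm pp) (Ev D n g g' a a') ≤ (if g = g' then pp else pp ^ 2) *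
      Real.exp (2 * lam * D - (1 - Real.exp (-lam)) * (pm * (4 * n - 5))) := by
  classical
  have hq := qq_nonneg h0 h1 h2
  have hpp : 0 ≤ pp := h0.trans h1
  by_cases haa : a = a'
  · have h3 : Pr (qq pm pp) (Ev D n g g' a a') ≤ 0 := by
      rw [Pr_eq]
      refine le_of_eq ?_
      unfold Ex
      refine sum_eq_zero fun s _ => ?_
      have h4 : ¬ Ev D n g g' a a' s := fun h => h.1 haa
      simp only [if_neg h4, mul_zero]
    refine h3.trans (mul_nonneg ?_ (Real.exp_pos _).le)
    split_ifs
    · exact hpp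
    · positivity
  · have hd : Disjoint ({g, g'} : Finset (J n)) ((st n a ∪ st n a') \ {g, g'}) :=
      disjoint_sdiff
    have h3 := low_tail h0 h1 h2 ({g, g'} : Finset (J n)) ((st n a ∪ st n a') \ {g, g'}) hd hl
      (2 * D)
    have h4 : Pr (qq pm pp) (Ev D n g g' a a') ≤ _ := (Pr_mono hq (fun s hs => hs.2)).trans h3
    refine h4.trans ?_
    have h5 : (4 * n - 5 : ℝ) ≤ (((st n a ∪ st n a') \ {g, g'}).card : ℝ) := by
      have h6 := st_union_card haa
      have h7 : (st n a ∪ st n a').card ≤ ((st n a ∪ st n a') \ {g, g'}).card + 2 := by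
        have h8 := card_le_card_sdiff_add_card (s := st n a ∪ st n a') (t := {g, g'})
        have h9 : ({g, g'} : Finset (J n)).card ≤ 2 := card_le_two
        omega
      have h10 : (4 * n : ℕ) ≤ ((st n a ∪ st n a') \ {g, g'}).card + 5 := by omega
      have h11 : ((4 * n : ℕ) : ℝ) ≤ ((((st n a ∪ st n a') \ {g, g'}).card + 5 : ℕ) : ℝ) := by
        exact_mod_cast h10
      push_cast at h11
      linarith
    have hc : pp ^ ({g, g'} : Finset (J n)).card = if g = g' then pp else pp ^ 2 := by
      by_cases hg : g = g'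
      · rw [if_pos hg, hg, pair_eq_singleton, card_singleton, pow_one]
      · rw [if_neg hg, card_pair hg]
    rw [hc]
    refine mul_le_mul_of_nonneg_left ?_ ?_
    · rw [Real.exp_le_exp]
      have hz : 0 ≤ 1 - Real.exp (-lam) := by
        have : Real.exp (-lam) ≤ 1 := Real.exp_le_one_iff.mpr (by linarith)
        linarith
      have h12 : (1 - Real.exp (-lam)) * (pm * (4 * n - 5)) ≤
          (1 - Real.exp (-lam)) * (pm * (((st n a ∪ st n a') \ {g, g'}).card : ℝ)) :=
        mul_le_mul_of_nonneg_left (mul_le_mul_of_nonneg_left h5 h0) hz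
      nlinarith
    · split_ifs
      · exact hpp
      · positivity

end LowAux

open LowAux in
theorem low_prob {n : ℕ} (hn : 1 ≤ n) {pm pp : ℝ} (h0 : 0 ≤ pm) (h1 : pm ≤ pp)
    (h2 : pp ≤ 1) {lam : ℝ} (hl : 0 ≤ lam) (D : ℝ) :
    Pr (qq pm pp) (fun s : J n → Fin 3 => ¬ LowOK D n s) ≤
      36 * n ^ 3 * (12 * n ^ 2 * pp ^ 2 + pp) *
      Real.exp (2 * lam * D - (1 - Real.exp (-lam)) * (pm * (4 * n - 5))) := by
  classical
  have hq := qq_nonneg h0 h1 h2
  have hpp : 0 ≤ pp := h0.trans h1
  set E := Real.exp (2 * lam * D - (1 - Real.exp (-lam)) * (pm * (4 * n - 5))) with hE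
  have hEp : 0 < E := Real.exp_pos _
  have h3 : ∀ s : J n → Fin 3, ¬ LowOK D n s → ∃ g ∈ (univ : Finset (J n)),
      ∃ g' ∈ univ.filter (fun g' => Cf n g g'), ∃ a ∈ univ.filter (fun a => g ∈ st n a),
      ∃ a' ∈ univ.filter (fun a' => g' ∈ st n a'), Ev D n g g' a a' s := by
    intro s hs
    unfold LowOK at hs
    push Not at hs
    obtain ⟨a, a', haa, hda, hda', g, hg, g', hg', hsg, hsg', hcf⟩ := hs
    refine ⟨g, mem_univ _, g', by simpa using hcf, a, by simpa using hg, a', by simpa using hg',
      haa, ?_, ?_⟩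
    · intro i hi
      rcases mem_insert.mp hi with h | h
      · rw [h]
        exact hsg
      · rw [mem_singleton.mp h]
        exact hsg'
    · have h4 : (((st n a ∪ st n a') \ {g, g'}).filter fun i => s i = 2).card ≤
          dg n s a + dg n s a' := by
        unfold dg
        refine le_trans (card_le_card ?_) (card_union_le _ _)
        rw [← filter_union]
        exact filter_subset_filter _ sdiff_subset
      have h5 : ((((st n a ∪ st n a') \ {g, g'}).filter fun i => s i = 2).card : ℝ) ≤
          dg n s a + dg n s a' := by exact_mod_cast h4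
      linarith
  have hB : ∀ g g' : J n, 0 ≤ (if g = g' then pp else pp ^ 2) * E := by
    intro g g'
    refine mul_nonneg ?_ hEp.le
    split_ifs
    · exact hpp
    · positivity
  calc Pr (qq pm pp) (fun s : J n → Fin 3 => ¬ LowOK D n s)
      ≤ Pr (qq pm pp) (fun s : J n → Fin 3 => ∃ g ∈ (univ : Finset (J n)),
          ∃ g' ∈ univ.filter (fun g' => Cf n g g'), ∃ a ∈ univ.filter (fun a => g ∈ st n a),
          ∃ a' ∈ univ.filter (fun a' => g' ∈ st n a'), Ev D n g g' a a' s) := Pr_mono hq h3
    _ ≤ ∑ g : J n, ∑ g' ∈ univ.filter (fun g' => Cf n g g'),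
          ∑ a ∈ univ.filter (fun a => g ∈ st n a), ∑ a' ∈ univ.filter (fun a' => g' ∈ st n a'),
          Pr (qq pm pp) (Ev D n g g' a a') := by
        refine (Pr_exists hq _ _).trans (sum_le_sum fun g _ => ?_)
        refine (Pr_exists hq _ _).trans (sum_le_sum fun g' _ => ?_)
        refine (Pr_exists hq _ _).trans (sum_le_sum fun a _ => ?_)
        exact Pr_exists hq _ _
    _ ≤ ∑ g : J n, ∑ g' ∈ univ.filter (fun g' => Cf n g g'),
          9 * ((if g = g' then pp else pp ^ 2) * E) := by
        refine sum_le_sum fun g _ => sum_le_sum fun g' _ => ?_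
        calc _ ≤ ∑ a ∈ univ.filter (fun a => g ∈ st n a),
              ∑ a' ∈ univ.filter (fun a' => g' ∈ st n a'),
              (if g = g' then pp else pp ^ 2) * E :=
              sum_le_sum fun a _ => sum_le_sum fun a' _ => ev_prob h0 h1 h2 hl D g g' a a'
          _ = ((univ.filter (fun a => g ∈ st n a)).card : ℝ) *
              (((univ.filter (fun a' => g' ∈ st n a')).card : ℝ) *
                ((if g = g' then pp else pp ^ 2) * E)) := by
              rw [sum_const, sum_const, nsmul_eq_mul, nsmul_eq_mul]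
          _ ≤ 3 * (3 * ((if g = g' then pp else pp ^ 2) * E)) := by
              have e1 : ((univ.filter (fun a => g ∈ st n a)).card : ℝ) ≤ 3 := by
                exact_mod_cast els_card n g
              have e2 : ((univ.filter (fun a' => g' ∈ st n a')).card : ℝ) ≤ 3 := by
                exact_mod_cast els_card n g'
              have hb := hB g g'
              gcongr
          _ = _ := by ring
    _ ≤ ∑ g : J n, 9 * ((12 * n ^ 2 * pp ^ 2 + pp) * E) := by
        refine sum_le_sum fun g _ => ?_
        rw [← mul_sum]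
        refine mul_le_mul_of_nonneg_left ?_ (by norm_num)
        rw [← sum_mul]
        refine mul_le_mul_of_nonneg_right ?_ hEp.le
        calc ∑ g' ∈ univ.filter (fun g' => Cf n g g'), (if g = g' then pp else pp ^ 2)
            ≤ ∑ g' ∈ univ.filter (fun g' => Cf n g g'),
                (pp ^ 2 + if g = g' then pp else 0) := by
              refine sum_le_sum fun g' _ => ?_
              split_ifs
              · nlinarith [sq_nonneg pp]
              · linarith
          _ ≤ 12 * n ^ 2 * pp ^ 2 + pp := by
              rw [sum_add_distrib, sum_const, nsmul_eq_mul]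
              have e1 : ((univ.filter (fun g' => Cf n g g')).card : ℝ) ≤ 12 * n ^ 2 := by
                exact_mod_cast cf_card n g
              have e2 : (∑ g' ∈ univ.filter (fun g' => Cf n g g'), if g = g' then pp else 0) ≤
                  pp := by
                rw [sum_ite_eq]
                split_ifs
                · exact le_rfl
                · exact hpp
              have e3 : 0 ≤ pp ^ 2 := sq_nonneg _
              nlinarith
    _ = (Fintype.card (J n) : ℝ) * (9 * ((12 * n ^ 2 * pp ^ 2 + pp) * E)) := by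
        rw [sum_const, card_univ, nsmul_eq_mul]
    _ ≤ (4 * n ^ 3) * (9 * ((12 * n ^ 2 * pp ^ 2 + pp) * E)) := by
        refine mul_le_mul_of_nonneg_right ?_ (by positivity)
        have h6 : Fintype.card (J n) ≤ 4 * n ^ 3 := by
          rw [J_card]
          have h4 : 2 * n - 1 ≤ 2 * n := Nat.sub_le _ _
          calc (2 * n - 1) * (n * (2 * n - 1)) ≤ (2 * n) * (n * (2 * n)) :=
                Nat.mul_le_mul h4 (Nat.mul_le_mul_left _ h4)
            _ = 4 * n ^ 3 := by ring
        exact_mod_cast h6
    _ = _ := by ring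

end Pool.Agent.Lib.FR
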