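import Pool.Agent.Lib.MP_6d56f7_co_FR.Low

/-!
# Conflict-free sets of hyperedges and the reduced system
-/

set_option autoImplicit false

namespace Pool.Agent.Lib.FR

open Finset

/-- the kernel of a set of (colour, edge) pairs -/
def LK (n : ℕ) (H : Finset (J n)) : Fin (2 * n) → Fin (2 * n) → Finset (Fin (2 * n - 1)) :=
  fun u v => univ.filter (fun c =>
    ∃ h : ¬ (s(u, v) : Sym2 (Fin (2 * n))).IsDiag, ((c, ⟨s(u, v), h⟩) : J n) ∈ H)

theorem mem_LK {n : ℕ} {H : Finset (J n)} {u v : Fin (2 * n)} {c : Fin (2 * n - 1)} :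
    c ∈ LK n H u v ↔
      ∃ h : ¬ (s(u, v) : Sym2 (Fin (2 * n))).IsDiag, ((c, ⟨s(u, v), h⟩) : J n) ∈ H := by
  simp [LK]

theorem LK_eq_LL (n : ℕ) (P : Fin 3 → Prop) [DecidablePred P] (s : J n → Fin 3) :
    LK n (univ.filter fun j => P (s j)) = LL n P s := by
  funext u v
  ext c
  rw [mem_LK, mem_LL]
  simp

theorem ker_LK (n : ℕ) (H : Finset (J n)) : Ker (LK n H) := by
  classical
  have h : LK n H = LL n (fun a => a = 2) (fun j => if j ∈ H then 2 else 0) := by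
    rw [← LK_eq_LL]
    congr 1
    ext j
    simp only [mem_filter, mem_univ, true_and]
    by_cases hj : j ∈ H <;> simp [hj]
  rw [h]
  exact ker_LL n _ _

theorem LK_mono {n : ℕ} {H H' : Finset (J n)} (h : H ⊆ H') (u v : Fin (2 * n)) :
    LK n H u v ⊆ LK n H' u v := by
  intro c hc
  rw [mem_LK] at hc ⊢
  obtain ⟨h1, h2⟩ := hc
  exact ⟨h1, h h2⟩

theorem LK_sdiff {n : ℕ} (H H' : Finset (J n)) (u v : Fin (2 * n)) :
    LK n H u v \ LK n H' u v = LK n (H \ H') u v := by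
  ext c
  rw [mem_sdiff, mem_LK, mem_LK, mem_LK]
  constructor
  · rintro ⟨⟨h1, h2⟩, h3⟩
    exact ⟨h1, mem_sdiff.mpr ⟨h2, fun h4 => h3 ⟨h1, h4⟩⟩⟩
  · rintro ⟨h1, h2⟩
    rw [mem_sdiff] at h2
    exact ⟨⟨h1, h2.1⟩, fun ⟨_, h4⟩ => h2.2 h4⟩

theorem LK_card {n : ℕ} (H : Finset (J n)) {u v : Fin (2 * n)}
    (h : ¬ (s(u, v) : Sym2 (Fin (2 * n))).IsDiag) :
    (LK n H u v).card = ((st n (.inl ⟨s(u, v), h⟩)).filter (fun j => j ∈ H)).card := by
  refine card_bij (fun c _ => ((c, ⟨s(u, v), h⟩) : J n)) ?_ ?_ ?_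
  · intro c hc
    obtain ⟨_, h2⟩ := mem_LK.mp hc
    exact mem_filter.mpr ⟨mem_st_inl.mpr rfl, h2⟩
  · intro c _ c' _ hcc
    exact congrArg Prod.fst hcc
  · rintro ⟨c, e⟩ hj
    rw [mem_filter, mem_st_inl] at hj
    obtain ⟨h1, h2⟩ := hj
    simp only at h1
    subst h1
    exact ⟨c, mem_LK.mpr ⟨h, h2⟩, rfl⟩

theorem dP_LK {n : ℕ} (H : Finset (J n)) (v : Fin (2 * n)) (c : Fin (2 * n - 1)) :
    dP (LK n H) v c = ((st n (.inr (v, c))).filter (fun j => j ∈ H)).card := by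
  unfold dP
  have hd : ∀ u ∈ univ.filter (fun u => c ∈ LK n H u v),
      ¬ (s(u, v) : Sym2 (Fin (2 * n))).IsDiag := by
    intro u hu
    rw [mem_filter] at hu
    exact (mem_LK.mp hu.2).1
  refine card_bij (fun u hu => ((c, ⟨s(u, v), hd u hu⟩) : J n)) ?_ ?_ ?_
  · intro u hu
    have h2 := hu
    rw [mem_filter] at h2
    obtain ⟨_, h3⟩ := mem_LK.mp h2.2
    exact mem_filter.mpr ⟨mem_st_inr.mpr ⟨rfl, Sym2.mem_mk_right _ _⟩, h3⟩
  · intro u _ u' _ huu
    have h2 := congrArg (fun j : J n => j.2.1) huu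
    simp only at h2
    exact Sym2.congr_left.mp h2
  · rintro ⟨c', ⟨e, he⟩⟩ hj
    rw [mem_filter, mem_st_inr] at hj
    obtain ⟨⟨h1, h2⟩, h3⟩ := hj
    simp only at h1 h2
    subst h1
    obtain ⟨w, rfl⟩ := h2
    have hs : (s(v, w) : Sym2 (Fin (2 * n))) = s(w, v) := Sym2.eq_swap
    have he' : ¬ (s(w, v) : Sym2 (Fin (2 * n))).IsDiag := hs ▸ he
    have hee : (⟨s(v, w), he⟩ : Edge (Fin (2 * n))) = ⟨s(w, v), he'⟩ := Subtype.ext hs
    refine ⟨w, mem_filter.mpr ⟨mem_univ _, mem_LK.mpr ⟨he', ?_⟩⟩, ?_⟩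
    · rw [← hee]
      exact h3
    · rw [← hee]

theorem dg_inl {n : ℕ} (s : J n → Fin 3) {u v : Fin (2 * n)}
    (h : ¬ (s(u, v) : Sym2 (Fin (2 * n))).IsDiag) :
    dg n s (.inl ⟨s(u, v), h⟩) = (Lm n s u v).card := by
  unfold Lm
  rw [← LK_eq_LL, LK_card _ h]
  unfold dg
  congr 1
  ext j
  simp

theorem dg_inr {n : ℕ} (s : J n → Fin 3) (v : Fin (2 * n)) (c : Fin (2 * n - 1)) :
    dg n s (.inr (v, c)) = dP (Lm n s) v c := by
  unfold Lm
  rw [← LK_eq_LL, dP_LK]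
  unfold dg
  congr 1
  ext j
  simp

/-- a set of hyperedges without conflicts: a rainbow matching -/
def CFree {n : ℕ} (M : Finset (J n)) : Prop := ∀ g ∈ M, ∀ g' ∈ M, Cf n g g' → g = g'

/-- the element `a` belongs to a hyperedge of `M` -/
def Hit {n : ℕ} (M : Finset (J n)) (a : El n) : Prop := ∃ g ∈ M, g ∈ st n a

/-- removed pairs -/
def RPm {n : ℕ} (M : Finset (J n)) (v : Fin (2 * n)) (c : Fin (2 * n - 1)) : Prop :=
  ∃ g ∈ M, g.1 = c ∧ v ∈ g.2.1

/-- removed edges -/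
def REm {n : ℕ} (M : Finset (J n)) (u v : Fin (2 * n)) : Prop := ∃ g ∈ M, g.2.1 = s(u, v)

theorem hit_inr {n : ℕ} {M : Finset (J n)} {v : Fin (2 * n)} {c : Fin (2 * n - 1)} :
    Hit M (.inr (v, c)) ↔ RPm M v c := by
  unfold Hit RPm
  simp only [mem_st_inr]

theorem hit_inl {n : ℕ} {M : Finset (J n)} {u v : Fin (2 * n)}
    (h : ¬ (s(u, v) : Sym2 (Fin (2 * n))).IsDiag) :
    Hit M (.inl ⟨s(u, v), h⟩) ↔ REm M u v := by
  unfold Hit REm
  simp only [mem_st_inl]
  constructor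
  · rintro ⟨g, hg, h2⟩
    exact ⟨g, hg, by rw [h2]⟩
  · rintro ⟨g, hg, h2⟩
    exact ⟨g, hg, Subtype.ext h2⟩

open Classical in
/-- the hyperedges of `H` which do not meet a hyperedge of `M` -/
noncomputable def HR {n : ℕ} (H M : Finset (J n)) : Finset (J n) :=
  H.filter (fun j => ∀ a, j ∈ st n a → ¬ Hit M a)

theorem mem_HR {n : ℕ} {H M : Finset (J n)} {j : J n} :
    j ∈ HR H M ↔ j ∈ H ∧ ∀ a, j ∈ st n a → ¬ Hit M a := by
  simp [HR]

theorem card_vtx {n : ℕ} {M : Finset (J n)} (hM : CFree M) (v : Fin (2 * n)) :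
    (M.filter (fun g => v ∈ g.2.1)).card ≤ 1 := by
  rw [card_le_one]
  intro g hg g' hg'
  rw [mem_filter] at hg hg'
  exact hM g hg.1 g' hg'.1 (Or.inr ⟨v, hg.2, hg'.2⟩)

theorem card_col {n : ℕ} {M : Finset (J n)} (hM : CFree M) (c : Fin (2 * n - 1)) :
    (M.filter (fun g => g.1 = c)).card ≤ 1 := by
  rw [card_le_one]
  intro g hg g' hg'
  rw [mem_filter] at hg hg'
  exact hM g hg.1 g' hg'.1 (Or.inl (hg.2.trans hg'.2.symm))

open Classical in
theorem adj_card {n : ℕ} {M : Finset (J n)} (hM : CFree M) (a : El n) :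
    (univ.filter (fun b => b ≠ a ∧ Hit M b ∧ ∃ j, j ∈ st n a ∧ j ∈ st n b)).card ≤ 3 := by
  rcases a with ⟨e, he⟩ | ⟨v, c⟩
  · induction e using Sym2.ind with
    | _ u w =>
      have hsub : (univ.filter (fun b => b ≠ Sum.inl ⟨s(u, w), he⟩ ∧ Hit M b ∧
          ∃ j, j ∈ st n (Sum.inl ⟨s(u, w), he⟩) ∧ j ∈ st n b)) ⊆
          ((M.filter (fun g => u ∈ g.2.1)).image (fun g => (Sum.inr (u, g.1) : El n))) ∪
          ((M.filter (fun g => w ∈ g.2.1)).image (fun g => (Sum.inr (w, g.1) : El n))) := by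
        intro b hb
        rw [mem_filter] at hb
        obtain ⟨-, hne, ⟨g, hgM, hgb⟩, j, hja, hjb⟩ := hb
        rw [mem_st_inl] at hja
        rcases b with e' | ⟨x, c⟩
        · rw [mem_st_inl] at hjb
          exact absurd (by rw [← hja, ← hjb]) hne
        · rw [mem_st_inr] at hjb hgb
          rw [mem_union, mem_image, mem_image]
          have hx : x ∈ (s(u, w) : Sym2 (Fin (2 * n))) := by
            have h1 := hjb.2
            rw [hja] at h1
            exact h1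
          rcases Sym2.mem_iff.mp hx with h | h
          · left
            exact ⟨g, mem_filter.mpr ⟨hgM, h ▸ hgb.2⟩, by rw [hgb.1, h]⟩
          · right
            exact ⟨g, mem_filter.mpr ⟨hgM, h ▸ hgb.2⟩, by rw [hgb.1, h]⟩
      refine (card_le_card hsub).trans ((card_union_le _ _).trans ?_)
      have h1 := (card_image_le (s := M.filter (fun g => u ∈ g.2.1))
        (f := fun g => (Sum.inr (u, g.1) : El n))).trans (card_vtx hM u)
      have h2 := (card_image_le (s := M.filter (fun g => w ∈ g.2.1))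
        (f := fun g => (Sum.inr (w, g.1) : El n))).trans (card_vtx hM w)
      omega
  · have hsub : (univ.filter (fun b => b ≠ Sum.inr (v, c) ∧ Hit M b ∧
        ∃ j, j ∈ st n (Sum.inr (v, c)) ∧ j ∈ st n b)) ⊆
        ((M.filter (fun g => v ∈ g.2.1)).image (fun g => (Sum.inl g.2 : El n))) ∪
        ((M.filter (fun g => g.1 = c)).biUnion
          (fun g => (univ.filter (fun x => x ∈ g.2.1)).image
            (fun x => (Sum.inr (x, c) : El n)))) := by
      intro b hb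
      rw [mem_filter] at hb
      obtain ⟨-, hne, ⟨g, hgM, hgb⟩, j, hja, hjb⟩ := hb
      rw [mem_st_inr] at hja
      rw [mem_union, mem_image, mem_biUnion]
      rcases b with e' | ⟨x, c'⟩
      · left
        rw [mem_st_inl] at hjb hgb
        refine ⟨g, mem_filter.mpr ⟨hgM, ?_⟩, by rw [hgb]⟩
        rw [hgb, ← hjb]
        exact hja.2
      · right
        rw [mem_st_inr] at hjb hgb
        have hc : c' = c := hjb.1.symm.trans hja.1
        refine ⟨g, mem_filter.mpr ⟨hgM, hgb.1.trans hc⟩, mem_image.mpr ⟨x, ?_, by rw [hc]⟩⟩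
        exact mem_filter.mpr ⟨mem_univ _, hgb.2⟩
    refine (card_le_card hsub).trans ((card_union_le _ _).trans ?_)
    have h1 := (card_image_le (s := M.filter (fun g => v ∈ g.2.1))
        (f := fun g => (Sum.inl g.2 : El n))).trans (card_vtx hM v)
    have h2 : ((M.filter (fun g => g.1 = c)).biUnion
          (fun g => (univ.filter (fun x => x ∈ g.2.1)).image
            (fun x => (Sum.inr (x, c) : El n)))).card ≤ 1 * 2 := by
      refine (card_biUnion_le_card_mul _ _ 2 fun g _ => ?_).trans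
        (Nat.mul_le_mul_right 2 (card_col hM c))
      refine card_image_le.trans ?_
      obtain ⟨c1, ⟨e, he⟩⟩ := g
      induction e using Sym2.ind with
      | _ x y =>
        have h3 : (univ.filter (fun z => z ∈ (s(x, y) : Sym2 (Fin (2 * n))))) ⊆ {x, y} := by
          intro z hz
          rw [mem_filter] at hz
          rw [mem_insert, mem_singleton]
          exact Sym2.mem_iff.mp hz.2
        exact (card_le_card h3).trans card_le_two
    omega

open Classical in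
/-- an element which is not removed loses at most three hyperedges -/
theorem loss {n : ℕ} {M : Finset (J n)} (hM : CFree M) (H : Finset (J n)) (a : El n)
    (ha : ¬ Hit M a) : ((st n a).filter (fun j => j ∈ H \ HR H M)).card ≤ 3 := by
  have hsub : (st n a).filter (fun j => j ∈ H \ HR H M) ⊆
      (univ.filter (fun b => b ≠ a ∧ Hit M b ∧ ∃ j, j ∈ st n a ∧ j ∈ st n b)).biUnion
        (fun b => st n a ∩ st n b) := by
    intro j hj
    rw [mem_filter, mem_sdiff, mem_HR] at hj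
    obtain ⟨hja, hjH, hn⟩ := hj
    have h1 : ∃ b, j ∈ st n b ∧ Hit M b := by
      by_contra hc
      push Not at hc
      exact hn ⟨hjH, hc⟩
    obtain ⟨b, hjb, hb⟩ := h1
    rw [mem_biUnion]
    refine ⟨b, mem_filter.mpr ⟨mem_univ _, ?_, hb, j, hja, hjb⟩, mem_inter.mpr ⟨hja, hjb⟩⟩
    rintro rfl
    exact ha hb
  refine (card_le_card hsub).trans ?_
  refine (card_biUnion_le_card_mul _ _ 1 fun b hb => ?_).trans ?_
  · rw [mem_filter] at hb
    rw [card_le_one]
    intro g hg g' hg'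
    rw [mem_inter] at hg hg'
    exact st_inter (Ne.symm hb.2.1) hg.1 hg.2 hg'.1 hg'.2
  · rw [mul_one]
    exact adj_card hM a

theorem red_HR {n : ℕ} {M : Finset (J n)} (hM : CFree M) (H : Finset (J n)) :
    Red (LK n (HR H M)) (RPm M) (REm M) := by
  constructor
  · rintro u v ⟨g, hg, h⟩
    exact ⟨g, hg, h.trans Sym2.eq_swap⟩
  · intro u v hE
    rw [eq_empty_iff_forall_notMem]
    intro c hc
    obtain ⟨h, hj⟩ := mem_LK.mp hc
    exact (mem_HR.mp hj).2 (.inl ⟨s(u, v), h⟩) (mem_st_inl.mpr rfl) ((hit_inl h).mpr hE)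
  · intro v c hP u hc
    obtain ⟨h, hj⟩ := mem_LK.mp hc
    exact (mem_HR.mp hj).2 (.inr (v, c)) (mem_st_inr.mpr ⟨rfl, Sym2.mem_mk_right _ _⟩)
      (hit_inr.mpr hP)
  · intro v
    by_cases hv : ∃ g ∈ M, v ∈ g.2.1
    · obtain ⟨⟨c, ⟨e, he⟩⟩, hg, hve⟩ := hv
      simp only at hve
      obtain ⟨w, rfl⟩ := hve
      have h1 : Nat.card {c' : Fin (2 * n - 1) // RPm M v c'} = 1 := by
        rw [Nat.card_eq_one_iff_unique]
        refine ⟨⟨?_⟩, ⟨⟨c, ⟨_, hg, rfl, Sym2.mem_mk_left _ _⟩⟩⟩⟩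
        rintro ⟨c1, g1, hg1, hc1, hv1⟩ ⟨c2, g2, hg2, hc2, hv2⟩
        apply Subtype.ext
        have := hM g1 hg1 g2 hg2 (Or.inr ⟨v, hv1, hv2⟩)
        simp only
        rw [← hc1, ← hc2, this]
      have h2 : Nat.card {u : Fin (2 * n) // u ≠ v ∧ REm M u v} = 1 := by
        have hwv : w ≠ v := by
          rintro rfl
          exact he (Sym2.mk_isDiag_iff.mpr rfl)
        rw [Nat.card_eq_one_iff_unique]
        refine ⟨⟨?_⟩, ⟨⟨w, hwv, ⟨_, hg, Sym2.eq_swap⟩⟩⟩⟩
        rintro ⟨u1, _, g1, hg1, h1⟩ ⟨u2, _, g2, hg2, h2⟩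
        apply Subtype.ext
        have hv1 : v ∈ g1.2.1 := by
          rw [h1]
          exact Sym2.mem_mk_right _ _
        have hv2 : v ∈ g2.2.1 := by
          rw [h2]
          exact Sym2.mem_mk_right _ _
        have := hM g1 hg1 g2 hg2 (Or.inr ⟨v, hv1, hv2⟩)
        rw [this, h2] at h1
        exact (Sym2.congr_left.mp h1).symm
      rw [h1, h2]
    · have h1 : IsEmpty {c' : Fin (2 * n - 1) // RPm M v c'} :=
        ⟨fun ⟨_, g, hg, _, h⟩ => hv ⟨g, hg, h⟩⟩
      have h2 : IsEmpty {u : Fin (2 * n) // u ≠ v ∧ REm M u v} :=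
        ⟨fun ⟨_, _, g, hg, h⟩ => hv ⟨g, hg, by rw [h]; exact Sym2.mem_mk_right _ _⟩⟩
      rw [Nat.card_of_isEmpty, Nat.card_of_isEmpty]

end Pool.Agent.Lib.FR
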