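import Pool.Agent.Lib.MP_6d56f7_co_FR.ThrDet
import Pool.Agent.Lib.MP_6d56f7_co_FR.BulkP
import Pool.Agent.Lib.MP_6d56f7_co_FR.SparseP
import Pool.Agent.Lib.MP_6d56f7_co_FR.CutP
import Pool.Agent.Lib.MP_6d56f7_co_FR.MaxMin
import Pool.Agent.Lib.MP_6d56f7_co_FR.ListP
import Pool.Agent.Lib.MP_6d56f7_co_FR.FewB

/-! # The sharp threshold for fractional list edge-colourings -/

set_option autoImplicit false

namespace Pool.Agent.Lib.FR

open Finset Filter Topology

namespace Thr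

theorem log_tendsto : Tendsto (fun n : ℕ => Real.log n) atTop atTop :=
  Real.tendsto_log_atTop.comp tendsto_natCast_atTop_atTop

theorem num_gen (C : ℝ) (hC : 0 ≤ C) (k : ℕ) (b : ℝ) (hb : (k : ℝ) < b) {κ : ℝ} (hκ : 0 < κ) :
    ∀ᶠ n : ℕ in atTop, ∀ d : ℝ, b * Real.log n ≤ d → C * n ^ k * Real.exp (-d) ≤ κ := by
  have h1 : Tendsto (fun n : ℕ => C * Real.exp (-((b - k) * Real.log n))) atTop (𝓝 0) := by
    have h2 : Tendsto (fun n : ℕ => (b - k) * Real.log n) atTop atTop :=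
      log_tendsto.const_mul_atTop (by linarith)
    have h3 := (Real.tendsto_exp_neg_atTop_nhds_zero.comp h2).const_mul C
    simpa using h3
  filter_upwards [h1.eventually (ge_mem_nhds hκ), eventually_ge_atTop 1] with n hn hn1 d hd
  refine le_trans ?_ hn
  have hn0 : (0 : ℝ) < n := by exact_mod_cast hn1
  have h4 : (n : ℝ) ^ k = Real.exp (k * Real.log n) := by
    rw [Real.exp_nat_mul, Real.exp_log hn0]
  rw [h4, mul_assoc, ← Real.exp_add]
  refine mul_le_mul_of_nonneg_left (Real.exp_le_exp.2 ?_) hC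
  linarith

theorem num_d {A : ℝ} : ∀ᶠ n : ℕ in atTop, ∀ d : ℝ, 2 * Real.log n ≤ d → A ≤ d := by
  have h1 : Tendsto (fun n : ℕ => 2 * Real.log n) atTop atTop :=
    log_tendsto.const_mul_atTop two_pos
  filter_upwards [h1.eventually (eventually_ge_atTop A)] with n hn d hd
  exact hn.trans hd

theorem num_few {δ : ℝ} (hδ : 0 < δ) (k : ℕ) (hk : 24 ≤ k * δ ^ 2) {κ : ℝ} (hκ : 0 < κ) :
    ∀ᶠ n : ℕ in atTop, ∀ d : ℝ, 2 * Real.log n ≤ d →
      20 * n ^ 2 * (20 * d * Real.exp (-(δ ^ 2 * d / 8))) ^ k ≤ κ := by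
  have h1 := num_gen (20 * (320 / δ ^ 2) ^ k) (by positivity) 2 3 (by norm_num) hκ
  filter_upwards [h1, num_d (A := 0)] with n hn hd0 d hd
  have hdn := hd0 d hd
  have h2 : d * Real.exp (-(δ ^ 2 * d / 8)) ≤ 16 / δ ^ 2 * Real.exp (-(δ ^ 2 * d / 16)) := by
    have h3 : δ ^ 2 * d / 16 ≤ Real.exp (δ ^ 2 * d / 16) := by
      have := Real.add_one_le_exp (δ ^ 2 * d / 16)
      linarith
    have h4 : d ≤ 16 / δ ^ 2 * Real.exp (δ ^ 2 * d / 16) := by
      rw [div_mul_eq_mul_div, le_div_iff₀ (by positivity)]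
      linarith
    calc d * Real.exp (-(δ ^ 2 * d / 8))
        ≤ 16 / δ ^ 2 * Real.exp (δ ^ 2 * d / 16) * Real.exp (-(δ ^ 2 * d / 8)) :=
          mul_le_mul_of_nonneg_right h4 (Real.exp_pos _).le
      _ = 16 / δ ^ 2 * Real.exp (-(δ ^ 2 * d / 16)) := by
          rw [mul_assoc, ← Real.exp_add]
          ring_nf
  have h5 : 20 * d * Real.exp (-(δ ^ 2 * d / 8)) ≤
      320 / δ ^ 2 * Real.exp (-(δ ^ 2 * d / 16)) := by
    have h6 : 320 / δ ^ 2 * Real.exp (-(δ ^ 2 * d / 16)) =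
        20 * (16 / δ ^ 2 * Real.exp (-(δ ^ 2 * d / 16))) := by ring
    rw [h6]
    nlinarith
  have h7 := pow_le_pow_left₀ (by positivity) h5 k
  have h8 := hn (k * (δ ^ 2 * d / 16)) (by
    have h9 : 24 * d ≤ k * δ ^ 2 * d := mul_le_mul_of_nonneg_right hk hdn
    have h10 : k * (δ ^ 2 * d / 16) = k * δ ^ 2 * d / 16 := by ring
    rw [h10]
    linarith)
  refine le_trans ?_ h8
  calc 20 * (n : ℝ) ^ 2 * (20 * d * Real.exp (-(δ ^ 2 * d / 8))) ^ k
      ≤ 20 * (n : ℝ) ^ 2 * (320 / δ ^ 2 * Real.exp (-(δ ^ 2 * d / 16))) ^ k :=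
        mul_le_mul_of_nonneg_left h7 (by positivity)
    _ = 20 * (320 / δ ^ 2) ^ k * (n : ℝ) ^ 2 * Real.exp (-(k * (δ ^ 2 * d / 16))) := by
        rw [mul_pow, ← Real.exp_nat_mul]
        ring_nf

theorem num_cut {θ : ℝ} (hθ : 0 < θ) {κ : ℝ} (hκ : 0 < κ) :
    ∀ᶠ n : ℕ in atTop, ∀ d : ℝ, 2 * Real.log n ≤ d →
      2 * n * 4 ^ n * Real.exp (-(2 / 5 * θ * d * n)) ≤ κ := by
  have h1 : Tendsto (fun n : ℕ => 2 * ((n : ℝ) ^ 1 * Real.exp (-(n : ℝ)))) atTop (𝓝 0) := by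
    have := ((Real.tendsto_pow_mul_exp_neg_atTop_nhds_zero 1).comp
      (tendsto_natCast_atTop_atTop (R := ℝ))).const_mul 2
    simpa using this
  filter_upwards [h1.eventually (ge_mem_nhds hκ), num_d (A := 15 / (2 * θ))] with n hn hA d hd
  refine le_trans ?_ hn
  have h2 := hA d hd
  have h3 : 3 ≤ 2 / 5 * θ * d := by
    rw [div_le_iff₀ (by positivity)] at h2
    linarith
  have h4 : (4 : ℝ) ^ n ≤ Real.exp (2 * n) := by
    rw [mul_comm, Real.exp_nat_mul]
    refine pow_le_pow_left₀ (by norm_num) ?_ n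
    have h5 := Real.quadratic_le_exp_of_nonneg (x := 2) (by norm_num)
    linarith
  have h5 : Real.exp (-(2 / 5 * θ * d * n)) ≤ Real.exp (-(3 * n)) := by
    rw [Real.exp_le_exp]
    have : (0 : ℝ) ≤ n := n.cast_nonneg
    nlinarith
  calc 2 * (n : ℝ) * 4 ^ n * Real.exp (-(2 / 5 * θ * d * n))
      ≤ 2 * (n : ℝ) * Real.exp (2 * n) * Real.exp (-(3 * n)) := by gcongr
    _ = 2 * ((n : ℝ) ^ 1 * Real.exp (-(n : ℝ))) := by
        rw [mul_assoc (2 * (n : ℝ)), ← Real.exp_add]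
        ring_nf

theorem num_bulk {η : ℝ} (hη : 0 < η) {κ : ℝ} (hκ : 0 < κ) :
    ∀ᶠ n : ℕ in atTop, ∀ d : ℝ, 2 * Real.log n ≤ d → 100 / (η * √d) ≤ κ := by
  filter_upwards [num_d (A := (100 / (η * κ)) ^ 2 + 1)] with n hA d hd
  have h1 := hA d hd
  have h2 : 100 / (η * κ) ≤ √d := by
    apply Real.le_sqrt_of_sq_le
    linarith
  have h3 : 0 < √d := lt_of_lt_of_le (by positivity) h2
  rw [div_le_iff₀ (by positivity)]
  rw [div_le_iff₀ (by positivity)] at h2
  linarith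

end Thr

/-- `L` has a fractional colouring with weights between `a / (n p)` and `b / (n p)` -/
def GoodCol (n : ℕ) (p a b : ℝ) (L : Edge (Fin (2 * n)) → Finset (Fin (2 * n - 1))) : Prop :=
  ∃ P, FracCol L P ∧ ∀ e, ∀ c ∈ L e, a / (n * p) ≤ marg P c e ∧ marg P c e ≤ b / (n * p)

open Thr in
/-- above the threshold, uniformly in `p` -/
theorem above {ε : ℝ} (hε : 0 < ε) : ∃ a b : ℝ, 0 < a ∧ 0 < b ∧ ∀ κ : ℝ, 0 < κ →
    ∀ᶠ n : ℕ in atTop, ∀ p : ℝ, (1 + ε) * Real.log n / n ≤ p → p ≤ 1 →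
      1 - κ ≤ listProb n p (GoodCol n p a b) := by
  -- constants
  set ρ : ℝ := ε / (4 * (2 + ε)) with hρ
  have hρ0 : 0 < ρ := by positivity
  obtain ⟨lam, hlam1, hlam0⟩ : ∃ lam : ℝ, Real.exp (-lam) ≤ ρ ∧ 1 ≤ lam := by
    have h1 : ∀ᶠ x : ℝ in atTop, Real.exp (-x) ≤ ρ :=
      Real.tendsto_exp_neg_atTop_nhds_zero.eventually (ge_mem_nhds hρ0)
    obtain ⟨x, hx1, hx2⟩ := (h1.and (eventually_ge_atTop 1)).exists
    exact ⟨x, hx1, hx2⟩
  set c₁ : ℝ := ρ / lam with hc₁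
  have hlampos : 0 < lam := by linarith
  have hc₁0 : 0 < c₁ := by positivity
  have hρ1 : ρ ≤ 1 / 4 := by
    rw [hρ, div_le_div_iff₀ (by positivity) (by norm_num)]
    linarith
  have hc₁1 : c₁ ≤ 1 := by
    rw [hc₁, div_le_one hlampos]
    linarith
  set ε₁ : ℝ := c₁ / (16 * (1 + 264 * 4)) with hε₁
  have hε₁0 : 0 < ε₁ := by positivity
  have hε₁1 : ε₁ ≤ 1 := by
    rw [hε₁, div_le_one (by norm_num)]
    linarith
  set θ : ℝ := Real.exp (-8 / ε₁) with hθ
  have hθ0 : 0 < θ := Real.exp_pos _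
  set δ : ℝ := c₁ / (8 * 4 * (1 + 264 * 4)) with hδ
  have hδ0 : 0 < δ := by positivity
  have hδ1 : δ ≤ 1 / 2 := by
    rw [hδ, div_le_div_iff₀ (by norm_num) (by norm_num)]
    linarith
  set δ' : ℝ := c₁ * δ with hδ'
  have hδ'0 : 0 < δ' := by positivity
  have hδδ' : δ + δ' / c₁ ≤ c₁ / (4 * 4 * (1 + 264 * 4)) := by
    rw [hδ', mul_div_cancel_left₀ _ hc₁0.ne', hδ]
    apply le_of_eq
    ring
  obtain ⟨k, hk⟩ : ∃ k : ℕ, 24 / δ ^ 2 ≤ k := exists_nat_ge _
  have hk24 : 24 ≤ k * δ ^ 2 := by rwa [div_le_iff₀ (by positivity)] at hk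
  refine ⟨1 / 16, 3 / (2 * c₁), by norm_num, by positivity, fun κ hκ => ?_⟩
  have hκ8 : 0 < κ / 8 := by positivity
  have E1 := num_gen 8 (by norm_num) 2 4 (by norm_num) hκ8
  have E2 := num_gen 8 (by norm_num) 2 (2 + ε / 2) (by push_cast; linarith) hκ8
  have E3 := num_gen 200 (by norm_num) 3 10 (by norm_num) hκ8
  have E3' := num_gen 4 (by norm_num) 1 5 (by norm_num) one_pos
  have E4 := num_bulk (η := θ / 66) (by positivity) hκ8
  have E5 := num_few hδ0 k hk24 hκ8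
  have E6 := num_cut hθ0 hκ8
  have E7 := num_d (A := max (max 1 (8 * k / δ)) (4 * k / δ'))
  have E8 : ∀ᶠ n : ℕ in atTop, max ((1 + ε) / ε) (64 / θ) ≤ (n : ℝ) :=
    tendsto_natCast_atTop_atTop.eventually (eventually_ge_atTop _)
  filter_upwards [E1, E2, E3, E3', E4, E5, E6, E7, E8, eventually_ge_atTop 6] with n e1 e2 e3 e3'
    e4 e5 e6 e7 e8 hn6 p hp hp1
  classical
  have hn : (6 : ℝ) ≤ n := by exact_mod_cast hn6
  have hn0 : (0 : ℝ) < n := by linarith
  have hlog : 0 < Real.log n := Real.log_pos (by linarith)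
  have hp0 : 0 < p := lt_of_lt_of_le (by positivity) hp
  set d : ℝ := (2 * n - 1 : ℝ) * p with hd
  have hd0 : 0 < d := mul_pos (by linarith) hp0
  have hdl : (2 + ε) * Real.log n ≤ d := by
    have h1 : (2 * n - 1 : ℝ) * ((1 + ε) * Real.log n / n) ≤ d :=
      mul_le_mul_of_nonneg_left hp (by linarith)
    refine le_trans ?_ h1
    have h2 : (1 + ε) / ε ≤ n := (le_max_left _ _).trans e8
    rw [div_le_iff₀ hε] at h2
    rw [mul_div_assoc', le_div_iff₀ hn0]
    have h3 : 0 ≤ Real.log n * (n * ε - (1 + ε)) := mul_nonneg hlog.le (by linarith)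
    nlinarith
  have hd2 : 2 * Real.log n ≤ d := by nlinarith
  have hd1 : 1 ≤ d := ((le_max_left _ _).trans (le_max_left _ _)).trans (e7 d hd2)
  have hkd : 8 * (k : ℝ) ≤ δ * d := by
    have := ((le_max_right _ _).trans (le_max_left _ _)).trans (e7 d hd2)
    rw [div_le_iff₀ hδ0] at this
    linarith
  have hkd' : 4 * (k : ℝ) ≤ δ' * d := by
    have := (le_max_right _ _).trans (e7 d hd2)
    rw [div_le_iff₀ hδ'0] at this
    linarith
  have hθn : 64 ≤ θ * n := by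
    have := (le_max_right _ _).trans e8
    rw [div_le_iff₀ hθ0] at this
    linarith
  have par : ∀ γ : ℝ, 0 ≤ γ → Par γ n p p d := fun γ hγ =>
    ⟨hn6, hp0.le, le_rfl, hp1, hd1, by nlinarith, by nlinarith⟩
  have hq := qq_nonneg hp0.le le_rfl hp1
  -- the bad event
  have hbad : ∀ s : J n → Fin 3,
      ¬ GoodCol n p (1 / 16) (3 / (2 * c₁)) (fun e => univ.filter (fun c => s (c, e) ≠ 0)) →
      (∃ i, s i = 1) ∨ (¬ MaxDeg (4 * d) (Lp n s) ∨
      (¬ MinDeg (c₁ * d) (Lm n s) (fun _ _ => False) (fun _ _ => False) ∨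
      (¬ Sparse ε₁ θ d (Lp n s) ∨ (¬ Bulk (θ / 66) 0 d (Lm n s) (fun _ _ => True) ∨
      (¬ FewBad δ δ' d n s ∨ ¬ CutB (θ * d * n / 8) θ (Lm n s)))))) := by
    intro s hs
    by_contra hcon
    push Not at hcon
    obtain ⟨h1, h2, h3, h4, h5, h6, h7⟩ := hcon
    apply hs
    obtain ⟨P, hP1, hP2⟩ := thr_det hn6 s h1 hc₁0 hc₁1 hd0 hθ0 hδ0.le hδ'0.le hδδ' h2 h3 h4 h5 h6
      h7 hθn
    refine ⟨P, hP1, fun e c hc => ?_⟩
    have hc' := (mem_filter.1 hc).2
    obtain ⟨b1, b2⟩ := hP2 e c hc'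
    constructor
    · refine le_trans ?_ b1
      rw [div_le_div_iff₀ (by positivity) (by positivity)]
      nlinarith
    · refine b2.trans ?_
      rw [div_div, div_le_div_iff₀ (by positivity) (by positivity)]
      have h8 : (n : ℝ) * p ≤ d := by nlinarith
      nlinarith
  have hsum : Pr (qq p p) (fun s : J n → Fin 3 =>
      ¬ GoodCol n p (1 / 16) (3 / (2 * c₁)) (fun e => univ.filter (fun c => s (c, e) ≠ 0))) ≤
      κ := by
    refine (Pr_mono hq hbad).trans ?_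
    have t0 := no_one n p hp0.le hp1
    have t1 := (maxdeg_prob (par (1 / 8) (by norm_num))).trans (e1 (2 * d) (by linarith))
    have t2 := (mindeg_prob (n := n) (p := p) (lam := lam) (c₁ := c₁) (by omega) hp0.le hp1
      hlampos.le).trans (e2 ((1 - Real.exp (-lam) - lam * c₁) * ((2 * n - 1 : ℝ) * p)) (by
        have h1 : lam * c₁ = ρ := by rw [hc₁]; field_simp
        rw [h1, ← hd]
        have h2 : (1 - 2 * ρ) * ((2 + ε) * Real.log n) ≤ (1 - Real.exp (-lam) - ρ) * d :=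
          mul_le_mul (by linarith) hdl (by positivity) (by linarith)
        refine le_trans (le_of_eq ?_) h2
        have h3 : 2 * ρ * (2 + ε) = ε / 2 := by rw [hρ]; field_simp; norm_num
        linear_combination Real.log n * h3))
    have t3 : Pr (qq p p) (fun s : J n → Fin 3 => ¬ Sparse ε₁ θ d (Lp n s)) ≤ κ / 8 := by
      refine (sparse_prob (par (1 / 8) (by norm_num)) hε₁0 hε₁1 (by
        have := e3' (5 / 2 * d) (by linarith)
        simpa using this)).trans ?_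
      have := e3 (5 * d) (by linarith)
      rw [← neg_mul] at this
      exact this
    have t4 := (bulk_prob (η := θ / 66) (par (1 / 8) (by norm_num)) (by positivity)).trans
      (e4 d hd2)
    have t5 := (fewbad_prob (δ' := δ') hδ0 hδ1 (par (δ / 8) (by positivity)) hkd hkd').trans
      (e5 d hd2)
    have t6 := (cut_prob (par (1 / 8) (by norm_num)) hθ0.le).trans (e6 d hd2)
    rw [← hd] at t2
    refine (Pr_or hq _ _).trans ?_
    refine (add_le_add le_rfl ((Pr_or hq _ _).trans (add_le_add le_rfl ((Pr_or hq _ _).trans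
      (add_le_add le_rfl ((Pr_or hq _ _).trans (add_le_add le_rfl ((Pr_or hq _ _).trans
      (add_le_add le_rfl (Pr_or hq _ _)))))))))).trans ?_
    linarith
  rw [listProb_eq]
  rw [Pr_not (qq_sum p p)] at hsum
  linarith

theorem Thr.list_nonempty {n : ℕ} {L : Edge (Fin (2 * n)) → Finset (Fin (2 * n - 1))}
    (h : ∃ P, FracCol L P) (e : Edge (Fin (2 * n))) : (L e).Nonempty := by
  classical
  obtain ⟨P, hP⟩ := h
  have h1 : ∑ c, marg P c e ≠ 0 := by
    rw [hP.cover e]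
    exact one_ne_zero
  obtain ⟨c, _, hc⟩ := Finset.exists_ne_zero_of_sum_ne_zero h1
  unfold marg at hc
  obtain ⟨M, _, hM⟩ := Finset.exists_ne_zero_of_sum_ne_zero hc
  by_cases he : e ∈ M
  · rw [if_pos he] at hM
    exact ⟨c, hP.list c M hM e he⟩
  · rw [if_neg he] at hM
    exact absurd rfl hM

/-- **Sharp threshold** for fractional list edge-colourings of complete graphs -/
theorem threshold :
    (∀ ε : ℝ, 0 < ε → ∃ a b : ℝ, 0 < a ∧ 0 < b ∧ ∀ p : ℕ → ℝ,
      (∀ᶠ n : ℕ in atTop, (1 + ε) * Real.log n / n ≤ p n ∧ p n ≤ 1) →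
      Tendsto (fun n => listProb n (p n) (GoodCol n (p n) a b)) atTop (𝓝 1)) ∧
    (∀ ε : ℝ, 0 < ε → ∀ p : ℕ → ℝ,
      (∀ᶠ n : ℕ in atTop, 0 ≤ p n ∧ p n ≤ (1 - ε) * Real.log n / n) →
      Tendsto (fun n => listProb n (p n) (fun L => ∃ P, FracCol L P)) atTop (𝓝 0)) := by
  constructor
  · intro ε hε
    obtain ⟨a, b, ha, hb, h⟩ := above hε
    refine ⟨a, b, ha, hb, fun p hp => ?_⟩
    rw [Metric.tendsto_nhds]
    intro κ hκ
    filter_upwards [h (κ / 2) (by positivity), hp, eventually_ge_atTop 1] with n h1 h2 hn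
    have h3 := h1 (p n) h2.1 h2.2
    have hn0 : (1 : ℝ) ≤ n := by exact_mod_cast hn
    have hp0 : 0 ≤ p n := by
      refine le_trans ?_ h2.1
      have := Real.log_nonneg hn0
      positivity
    have h4 : listProb n (p n) (GoodCol n (p n) a b) ≤ 1 := by
      rw [listProb_eq]
      exact Pr_le_one (qq_nonneg hp0 le_rfl h2.2) (qq_sum _ _) _
    rw [Real.dist_eq, abs_lt]
    constructor <;> linarith
  · intro ε hε p hp
    rw [Metric.tendsto_nhds]
    intro κ hκ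
    obtain ⟨n₀, hn₀⟩ := some_empty hε hκ
    filter_upwards [hp, eventually_ge_atTop n₀, eventually_ge_atTop 1] with n h2 hn hn1
    have h3 := hn₀ n hn (p n) h2.1 h2.2
    have hn0 : (1 : ℝ) ≤ n := by exact_mod_cast hn1
    have hp1 : p n ≤ 1 := by
      refine h2.2.trans ?_
      rw [div_le_one (by linarith)]
      have h5 := Real.log_nonneg hn0
      have h6 := Real.log_le_sub_one_of_pos (x := n) (by linarith)
      nlinarith
    have hq := qq_nonneg h2.1 le_rfl hp1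
    have h4 : listProb n (p n) (fun L => ∃ P, FracCol L P) ≤
        listProb n (p n) (fun L => ∀ e, (L e).Nonempty) := by
      rw [listProb_eq, listProb_eq]
      exact Pr_mono hq fun s hs e => Thr.list_nonempty hs e
    have h5 : 0 ≤ listProb n (p n) (fun L => ∃ P, FracCol L P) := by
      rw [listProb_eq]
      exact Pr_nonneg hq _
    rw [Real.dist_eq, sub_zero, abs_of_nonneg h5]
    linarith

end Pool.Agent.Lib.FR
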