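import Pool.Agent.Lib.MP_6d56f7_co_FR.Det
import Pool.Agent.Lib.MP_6d56f7_co_FR.Odd
import Pool.Agent.Lib.MP_6d56f7_co_FR.FracOf
import Pool.Agent.Lib.MP_6d56f7_co_FR.Api

/-! # The fractional colouring above the threshold: deterministic part -/

set_option autoImplicit false

namespace Pool.Agent.Lib.FR

open Finset

namespace ThrDet

/-- sum over a product of sets, bounded above -/
theorem sum_le_of {V : Type} [DecidableEq V] (W W' : Finset V) (G : V → V → Prop)
    [∀ u v, Decidable (G u v)] (w : V → V → ℝ) (B : ℝ) (h0 : ∀ u v, ¬ G u v → w u v = 0)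
    (hB : ∀ u v, G u v → w u v ≤ B) :
    ∑ u ∈ W, ∑ v ∈ W', w u v ≤ B * (((W ×ˢ W').filter fun p => G p.1 p.2).card : ℝ) := by
  rw [← Finset.sum_product' W W' w, Finset.card_filter, Nat.cast_sum, Finset.mul_sum]
  refine Finset.sum_le_sum fun p _ => ?_
  by_cases hp : G p.1 p.2
  · rw [if_pos hp, Nat.cast_one, mul_one]
    exact hB _ _ hp
  · rw [if_neg hp, Nat.cast_zero, mul_zero, h0 _ _ hp]

/-- sum over a product of sets, bounded below -/
theorem le_sum_of {V : Type} [DecidableEq V] (W W' : Finset V) (G : V → V → Prop)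
    [∀ u v, Decidable (G u v)] (w : V → V → ℝ) (B : ℝ) (h0 : ∀ u v, ¬ G u v → w u v = 0)
    (hB : ∀ u v, G u v → B ≤ w u v) :
    B * (((W ×ˢ W').filter fun p => G p.1 p.2).card : ℝ) ≤ ∑ u ∈ W, ∑ v ∈ W', w u v := by
  rw [← Finset.sum_product' W W' w, Finset.card_filter, Nat.cast_sum, Finset.mul_sum]
  refine Finset.sum_le_sum fun p _ => ?_
  by_cases hp : G p.1 p.2
  · rw [if_pos hp, Nat.cast_one, mul_one]
    exact hB _ _ hp
  · rw [if_neg hp, Nat.cast_zero, mul_zero, h0 _ _ hp]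

end ThrDet

open ThrDet in
theorem thr_det {n : ℕ} (hn : 6 ≤ n) {c₁ d θ δ δ' : ℝ} (s : J n → Fin 3) (hs : ∀ i, s i ≠ 1)
    (hc₁ : 0 < c₁) (hc₁' : c₁ ≤ 1) (hd : 0 < d) (hθ : 0 < θ) (hδ : 0 ≤ δ) (hδ' : 0 ≤ δ')
    (hδδ' : δ + δ' / c₁ ≤ c₁ / (4 * 4 * (1 + 264 * 4)))
    (hmax : MaxDeg (4 * d) (Lp n s))
    (hmin : MinDeg (c₁ * d) (Lm n s) (fun _ _ => False) (fun _ _ => False))
    (hsp : Sparse (c₁ / (16 * (1 + 264 * 4))) θ d (Lp n s))
    (hbulk : Bulk (θ / 66) 0 d (Lm n s) (fun _ _ => True)) (hfb : FewBad δ δ' d n s)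
    (hcut : CutB (θ * d * n / 8) θ (Lm n s)) (hnθ : 64 ≤ θ * n) :
    ∃ P, FracCol (fun e => univ.filter (fun c => s (c, e) ≠ 0)) P ∧
      ∀ e, ∀ c, s (c, e) ≠ 0 → 1 / (2 * 4 * d) ≤ marg P c e ∧ marg P c e ≤ 3 / (2 * c₁ * d) := by
  have hs2 : ∀ i, s i ≠ 0 → s i = 2 := by
    intro i hi
    have := hs i
    generalize s i = a at *
    fin_cases a <;> simp_all
  have hLL : ∀ u v, Lp n s u v = Lm n s u v := by
    intro u v
    ext c
    rw [mem_LL, mem_LL]
    constructor
    · rintro ⟨h, h1⟩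
      exact ⟨h, hs2 _ h1⟩
    · rintro ⟨h, h1⟩
      exact ⟨h, by rw [h1]; decide⟩
  have hLL' : Lp n s = Lm n s := funext fun u => funext fun v => hLL u v
  rw [hLL'] at hmax hsp
  have hL : Ker (Lm n s) := ker_LL n (fun a => a = 2) s
  have hV : Fintype.card (Fin (2 * n)) = Fintype.card (Fin (2 * n - 1)) + 1 := by
    rw [Fintype.card_fin, Fintype.card_fin]
    omega
  have hdP : ∀ v c, dP (Lp n s) v c = dP (Lm n s) v c := by
    intro v c
    rw [hLL']
  have hnear : Near δ δ' d (Lm n s) (fun _ _ => False) (fun _ _ => False)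
      (BadP δ d n s) (BadE δ d n s) := by
    refine ⟨?_, ?_, ?_, ?_, ?_⟩
    · rintro u v ⟨h1, h2⟩
      refine ⟨h1.symm, ?_⟩
      rw [hLL, ← hL.symm u v]
      rw [hLL] at h2
      exact h2
    · intro u v huv _ hb
      have h3 : ¬ (((Lm n s u v).card : ℝ) < (1 - δ) * d ∨
          (1 + δ) * d < ((Lp n s u v).card : ℝ)) := fun h => hb ⟨huv, h⟩
      rw [hLL] at h3
      push Not at h3
      rw [abs_le]
      constructor <;> linarith [h3.1, h3.2]
    · intro v c _ hb
      have h3 : ¬ ((dP (Lm n s) v c : ℝ) < (1 - δ) * d ∨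
          (1 + δ) * d < (dP (Lp n s) v c : ℝ)) := fun h => hb h
      rw [hdP] at h3
      push Not at h3
      rw [abs_le]
      constructor <;> linarith [h3.1, h3.2]
    · intro u v
      have := hfb.fewE u v
      rwa [hLL] at this
    · intro v c
      have := hfb.fewP v c
      simp only [hLL] at this
      exact this
  have hred : Red (Lm n s) (fun _ _ => False) (fun _ _ => False) := by
    refine ⟨fun _ _ h => h, fun _ _ h => h.elim, fun _ _ h => h.elim, fun v => ?_⟩
    simp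
  obtain ⟨w, w1, w2, w3, w4, w5⟩ := det hV (by rw [Fintype.card_fin]; omega) (Lm n s) hL hc₁
    hc₁' (by norm_num : (1 : ℝ) ≤ 4) hθ (by positivity : (0 : ℝ) ≤ θ / 66) le_rfl
    (by rw [add_zero, div_div, mul_comm, ← div_div, div_self hθ.ne']) hd hδ hδ' hδδ'
    (fun _ _ => False) (fun _ _ => False) (BadP δ d n s) (BadE δ d n s) hred
    (fun x y hy _ => hbulk x y hy trivial) hsp hmax hmin hnear
  have hw0 : ∀ u v c, 0 ≤ w u v c := by
    intro u v c
    by_cases h : c ∈ Lm n s u v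
    · exact le_trans (by positivity) (w3 u v c h).1
    · rw [w2 u v c h]
  have hedm : ∀ c, Edm (fun u v => w u v c) := by
    intro c
    have h1 := edm_glue (V := Fin (2 * n)) (by rw [Fintype.card_fin]; exact even_two_mul n)
      (fun u v => w u v c) ∅ id (fun v hv => absurd hv (notMem_empty v)) (fun u v => hw0 u v c)
      (fun u v => w1 u v c) (fun v => w2 v v c (by rw [hL.diag]; exact notMem_empty c))
      (fun u hu => absurd hu (notMem_empty u))
      (fun u _ => by
        rw [← w5 u c (fun h => h)]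
        exact Finset.sum_congr rfl fun v _ => w1 _ _ _)
      (θ * Fintype.card (Fin (2 * n - 1))) ?_ ?_
    · simpa using h1
    · intro W hW
      have h2 := sum_le_of W W (fun u v => c ∈ Lm n s u v) (fun u v => w u v c)
        (3 / (2 * c₁ * d)) (fun u v h => w2 u v c h) (fun u v h => (w3 u v c h).2)
      have h3 := hsp.col c W W hW
      refine h2.trans ((mul_le_mul_of_nonneg_left h3 (by positivity)).trans ?_)
      have h4 : (0 : ℝ) ≤ W.card := Nat.cast_nonneg _
      have h5 : 3 / (2 * c₁ * d) * (c₁ / (16 * (1 + 264 * 4)) * d * ((W.card : ℝ) + W.card)) =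
          3 / 16912 * W.card := by
        field_simp
        ring
      rw [h5]
      linarith
    · intro W hW hW2 _
      have h2 := le_sum_of W Wᶜ (fun u v => c ∈ Lm n s u v) (fun u v => w u v c)
        (1 / (2 * 4 * d)) (fun u v h => w2 u v c h) (fun u v h => (w3 u v c h).1)
      refine le_trans ?_ h2
      have h3 := hcut c W hW hW2
      refine le_trans ?_ (mul_le_mul_of_nonneg_left h3 (by positivity))
      have h4 : 1 / (2 * 4 * d) * (θ * d * n / 8) = θ * n / 64 := by
        field_simp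
        ring
      rw [h4, le_div_iff₀ (by norm_num)]
      linarith
  obtain ⟨P, hP1, hP2⟩ := fracCol_of (fun e => univ.filter (fun c => s (c, e) ≠ 0)) w hedm
    (fun u v h => w4 u v h (fun h => h)) (fun u v c h hne => by
      have h1 : c ∈ Lm n s u v := by
        by_contra h2
        exact hne (w2 u v c h2)
      obtain ⟨_, h3⟩ := mem_LL.1 h1
      exact mem_filter.2 ⟨mem_univ _, by rw [h3]; decide⟩)
  refine ⟨P, hP1, ?_⟩
  rintro ⟨e, he⟩ c hc
  induction e using Sym2.ind with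
  | _ u v =>
    rw [hP2 u v c he]
    exact w3 u v c (mem_LL.2 ⟨he, hs2 _ hc⟩)

end Pool.Agent.Lib.FR
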